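import Pool.Agent.Lib.H80D.TA
import Pool.Agent.Lib.H56.Gen.LevelGroup

/-!
# TG: the arithmetic group with denominators `p`
-/

namespace Pool.Agent.Lib.H80D

open Matrix hiding J
open Pool.Agent.Lib.H80C
open Pool.Agent.Lib.H56.Picard hiding O Gam mem_Gam star_mem_O T_mem sg_mem
open Pool.Agent.Lib.H56.Gen hiding dd dd_pos

/-- The parameters of the order in the notation of `H80C`. -/
def qd (q : QD) : QF := ⟨q.t, q.n, q.pos⟩

/-- Elements of `SU(2,1; OO q [1/p])` congruent to one modulo `n` (`p` prime to `n`). -/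
def HG (q : QD) (p n : ℕ) : Subgroup SU21 where
  carrier := {g | ∃ j : ℕ, ∀ i k, ∃ x ∈ OO q,
    (p : ℂ) ^ j * (mat g i k - (1 : Matrix (Fin 3) (Fin 3) ℂ) i k) = n * x}
  mul_mem' := by
    rintro a b ⟨j, ha⟩ ⟨l, hb⟩
    refine ⟨j + l, fun i k => ?_⟩
    choose x hx hxa using ha
    choose y hy hyb using hb
    refine ⟨(∑ m, x i m * (n * y m k)) + (p : ℂ) ^ l * x i k + (p : ℂ) ^ j * y i k, ?_, ?_⟩
    · apply (OO q).add_mem
      · apply (OO q).add_mem
        · exact (OO q).sum_mem fun m _ =>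
            (OO q).mul_mem (hx i m) ((OO q).mul_mem (natCast_mem _ n) (hy m k))
        · exact (OO q).mul_mem (pow_mem (natCast_mem _ p) _) (hx i k)
      · exact (OO q).mul_mem (pow_mem (natCast_mem _ p) _) (hy i k)
    · have e1 : mat (a * b) i k - (1 : Matrix (Fin 3) (Fin 3) ℂ) i k =
          (∑ m, (mat a i m - (1 : Matrix (Fin 3) (Fin 3) ℂ) i m) *
            (mat b m k - (1 : Matrix (Fin 3) (Fin 3) ℂ) m k)) +
          (mat a i k - (1 : Matrix (Fin 3) (Fin 3) ℂ) i k) +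
          (mat b i k - (1 : Matrix (Fin 3) (Fin 3) ℂ) i k) := by
        have e2 : (mat (a * b) : Matrix (Fin 3) (Fin 3) ℂ) - 1 =
            (mat a - 1) * (mat b - 1) + (mat a - 1) + (mat b - 1) := by
          rw [mat_mul]
          noncomm_ring
        have e3 := congrFun (congrFun e2 i) k
        simpa [Matrix.mul_apply, Matrix.add_apply, Matrix.sub_apply] using e3
      rw [e1, mul_add, mul_add, pow_add, Finset.mul_sum]
      have e4 : ∀ m, (p : ℂ) ^ j * (p : ℂ) ^ l * ((mat a i m - (1 : Matrix (Fin 3) (Fin 3) ℂ) i m) *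
            (mat b m k - (1 : Matrix (Fin 3) (Fin 3) ℂ) m k)) = n * (x i m * (n * y m k)) := by
        intro m
        calc _ = ((p : ℂ) ^ j * (mat a i m - (1 : Matrix (Fin 3) (Fin 3) ℂ) i m)) *
              ((p : ℂ) ^ l * (mat b m k - (1 : Matrix (Fin 3) (Fin 3) ℂ) m k)) := by ring
          _ = _ := by rw [hxa, hyb]; ring
      simp only [e4]
      rw [← Finset.mul_sum]
      calc _ = n * (∑ m, x i m * (n * y m k)) +
            (p : ℂ) ^ l * ((p : ℂ) ^ j * (mat a i k - (1 : Matrix (Fin 3) (Fin 3) ℂ) i k)) +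
            (p : ℂ) ^ j * ((p : ℂ) ^ l * (mat b i k - (1 : Matrix (Fin 3) (Fin 3) ℂ) i k)) := by
            ring
        _ = _ := by rw [hxa, hyb]; ring
  one_mem' := ⟨0, fun i k => ⟨0, (OO q).zero_mem, by rw [mat_one]; simp⟩⟩
  inv_mem' := by
    rintro a ⟨j, ha⟩
    refine ⟨j, fun i k => ?_⟩
    obtain ⟨x, hx, hxa⟩ := ha (Fin.rev k) (Fin.rev i)
    refine ⟨star x, star_mem x hx, ?_⟩
    have e1 : mat a⁻¹ i k = star (mat a (Fin.rev k) (Fin.rev i)) := by
      rw [mat_inv]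
      fin_cases i <;> fin_cases k <;>
        simp [Matrix.mul_apply, Fin.sum_univ_three, J, Matrix.vecMul, dotProduct,
          Matrix.conjTranspose_apply, Fin.rev]
    have e2 : (1 : Matrix (Fin 3) (Fin 3) ℂ) i k =
        star ((1 : Matrix (Fin 3) (Fin 3) ℂ) (Fin.rev k) (Fin.rev i)) := by
      fin_cases i <;> fin_cases k <;> simp [Fin.rev]
    rw [e1, e2, ← star_sub]
    have e3 := congrArg star hxa
    rw [star_mul', star_mul', star_pow, star_natCast, star_natCast] at e3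
    exact e3

/-- `g` has height `j` at `p` and is congruent to one modulo `n`: `p ^ j (g - 1)` is integral and divisible
by `n`, and `p ^ j g` is not divisible by `p`. -/
def Hgt (q : QD) (p n j : ℕ) (g : SU21) : Prop :=
  (∀ i k, ∃ x ∈ OO q, (p : ℂ) ^ j * (mat g i k - (1 : Matrix (Fin 3) (Fin 3) ℂ) i k) = n * x) ∧
    ∃ i k, ∀ x ∈ OO q, (p : ℂ) ^ j * mat g i k ≠ p * x

/-- The integral matrix of an element. -/
def MatOf (q : QD) (p n j : ℕ) (g : SU21) (A : M3 (qd q)) : Prop :=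
  GE p j A ∧ ¬DvM p A ∧ (∃ M, A = gm n (p ^ j) M) ∧
    ∀ i k, (p : ℂ) ^ j * mat g i k = toC (qd q) (A i k)

end Pool.Agent.Lib.H80D
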