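import Mathlib

/-!
# A1: the differential equation near the initial point (pure calculus)
-/

namespace Pool.Agent.Lib.H80D

open Topology Filter

/-- The hypotheses on `J` and its derivatives `J1`, `J2`. -/
structure OdeL (lam : ℝ) (J J1 J2 : ℝ → ℝ) : Prop where
  d0 : ∀ L : ℝ, 1 < L → HasDerivAt J (J1 L) L
  d1 : ∀ L : ℝ, 1 < L → HasDerivAt J1 (J2 L) L
  ode : ∀ L : ℝ, 1 < L → L * (L - 1) * J2 L - (7 * L - 3) * J1 L + (15 + lam) * J L = 0
  l0 : Tendsto J (𝓝[>] 1) (𝓝 0)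
  l1 : Tendsto J1 (𝓝[>] 1) (𝓝 0)

/-- PROOF. The derivative is `L⁻⁴ (-3 t J' + 15 J + L t J'' - 4 L J')`, `t = L - 1`, and
`L t J'' = (7 L - 3) J' - (15 + lam) J` by the equation. -/
theorem yy_deriv {lam : ℝ} {J J1 J2 : ℝ → ℝ} (h : OdeL lam J J1 J2) {L : ℝ} (hL : 1 < L) :
    HasDerivAt (fun L => ((L - 1) * J1 L - 5 * J L) / L ^ 3) (-(lam * J L / L ^ 4)) L := by
  have hL0 : L ≠ 0 := by linarith
  have h0 := h.d0 L hL
  have h1 := h.d1 L hL
  have hode := h.ode L hL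
  have e1 : HasDerivAt (fun L : ℝ => L - 1) 1 L := (hasDerivAt_id L).sub_const 1
  have e2 : HasDerivAt (fun L : ℝ => (L - 1) * J1 L) (1 * J1 L + (L - 1) * J2 L) L := e1.mul h1
  have e3 : HasDerivAt (fun L : ℝ => 5 * J L) (5 * J1 L) L := h0.const_mul 5
  have e4 : HasDerivAt (fun L : ℝ => L ^ 3) (((3 : ℕ) : ℝ) * L ^ 2 * 1) L := (hasDerivAt_id L).pow 3
  have e5 := (e2.sub e3).div e4 (pow_ne_zero 3 hL0)
  have e6 : HasDerivAt (fun L => ((L - 1) * J1 L - 5 * J L) / L ^ 3) _ L := e5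
  convert e6 using 1
  simp only [Pi.sub_apply]
  field_simp
  push_cast
  linear_combination (-1 : ℝ) * hode

/-- PROOF. `(J t⁻⁵)' = (t J' - 5 J) t⁻⁶`. -/
theorem zz_deriv' {lam : ℝ} {J J1 J2 : ℝ → ℝ} (h : OdeL lam J J1 J2) {L : ℝ} (hL : 1 < L) :
    HasDerivAt (fun L => J L / (L - 1) ^ 5)
      (L ^ 3 / (L - 1) ^ 6 * (((L - 1) * J1 L - 5 * J L) / L ^ 3)) L := by
  have hL0 : L ≠ 0 := by linarith
  have hL1 : L - 1 ≠ 0 := by
    have : 0 < L - 1 := by linarith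
    exact this.ne'
  have h0 := h.d0 L hL
  have e1 : HasDerivAt (fun L : ℝ => L - 1) 1 L := (hasDerivAt_id L).sub_const 1
  have e2 : HasDerivAt (fun L : ℝ => (L - 1) ^ 5) (((5 : ℕ) : ℝ) * (L - 1) ^ 4 * 1) L := e1.pow 5
  have e3 := h0.div e2 (pow_ne_zero 5 hL1)
  have e4 : HasDerivAt (fun L => J L / (L - 1) ^ 5) _ L := e3
  convert e4 using 1
  field_simp
  push_cast
  ring

/-- The estimate at `R` when `J` is nonnegative on `(1, R)`. -/
theorem A1_z {lam Lam : ℝ} (h0 : 0 ≤ lam) (h1 : lam ≤ Lam) {J J1 J2 : ℝ → ℝ}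
    (h : OdeL lam J J1 J2) {c : ℝ} (hc0 : 0 < c)
    (hc : Tendsto (fun L => J L / (L - 1) ^ 5) (𝓝[>] 1) (𝓝 c)) {R : ℝ} (hR : 1 < R)
    (hL3 : Lam * R ^ 3 * (R - 1) ≤ 3) (hJ : ∀ L, 1 < L → L < R → 0 ≤ J L) :
    c / 2 ≤ J R / (R - 1) ^ 5 := by
  have hid : Tendsto (fun L : ℝ => L) (𝓝[>] (1 : ℝ)) (𝓝 1) :=
    tendsto_nhdsWithin_of_tendsto_nhds tendsto_id
  have ht : Tendsto (fun L : ℝ => L - 1) (𝓝[>] (1 : ℝ)) (𝓝 (1 - 1)) := hid.sub_const 1
  have hylim : Tendsto (fun L => ((L - 1) * J1 L - 5 * J L) / L ^ 3) (𝓝[>] (1 : ℝ)) (𝓝 0) := by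
    have h3 := ((ht.mul h.l1).sub (h.l0.const_mul 5)).div (hid.pow 3) (by norm_num)
    have e : ((1 - 1) * 0 - 5 * 0) / (1 : ℝ) ^ 3 = 0 := by norm_num
    rw [e] at h3
    exact h3
  -- y is antitone, so nonpositive
  have hy : ∀ x, 1 < x → x < R → ((x - 1) * J1 x - 5 * J x) / x ^ 3 ≤ 0 := by
    have hanti : AntitoneOn (fun L => ((L - 1) * J1 L - 5 * J L) / L ^ 3) (Set.Ioo 1 R) := by
      apply antitoneOn_of_deriv_nonpos (convex_Ioo 1 R)
      · intro x hx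
        exact (yy_deriv h hx.1).continuousAt.continuousWithinAt
      · intro x hx
        rw [interior_Ioo] at hx
        exact (yy_deriv h hx.1).differentiableAt.differentiableWithinAt
      · intro x hx
        rw [interior_Ioo] at hx
        rw [(yy_deriv h hx.1).deriv]
        have h2 := hJ x hx.1 hx.2
        have h3 : 0 < x ^ 4 := pow_pos (by linarith [hx.1]) _
        have : 0 ≤ lam * J x / x ^ 4 := by positivity
        linarith
    intro x hx1 hxR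
    refine ge_of_tendsto hylim ?_
    filter_upwards [Ioo_mem_nhdsGT hx1] with s hs
    exact hanti ⟨hs.1, hs.2.trans hxR⟩ ⟨hx1, hxR⟩ hs.2.le
  -- z is antitone, so at most c
  have hz : ∀ x, 1 < x → x < R → J x / (x - 1) ^ 5 ≤ c := by
    have hanti : AntitoneOn (fun L => J L / (L - 1) ^ 5) (Set.Ioo 1 R) := by
      apply antitoneOn_of_deriv_nonpos (convex_Ioo 1 R)
      · intro x hx
        exact (zz_deriv' h hx.1).continuousAt.continuousWithinAt
      · intro x hx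
        rw [interior_Ioo] at hx
        exact (zz_deriv' h hx.1).differentiableAt.differentiableWithinAt
      · intro x hx
        rw [interior_Ioo] at hx
        rw [(zz_deriv' h hx.1).deriv]
        have h2 := hy x hx.1 hx.2
        have h3 : 0 < x ^ 3 := pow_pos (by linarith [hx.1]) _
        have h4 : 0 < (x - 1) ^ 6 := pow_pos (by linarith [hx.1]) _
        exact mul_nonpos_of_nonneg_of_nonpos (by positivity) h2
    intro x hx1 hxR
    refine ge_of_tendsto hc ?_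
    filter_upwards [Ioo_mem_nhdsGT hx1] with s hs
    exact hanti ⟨hs.1, hs.2.trans hxR⟩ ⟨hx1, hxR⟩ hs.2.le
  -- lower bound for y
  have hpow : ∀ x : ℝ, HasDerivAt (fun L : ℝ => lam * c / 6 * (L - 1) ^ 6)
      (lam * c * (x - 1) ^ 5) x := by
    intro x
    have e1 : HasDerivAt (fun L : ℝ => L - 1) 1 x := (hasDerivAt_id x).sub_const 1
    have e2 : HasDerivAt (fun L : ℝ => (L - 1) ^ 6) (((6 : ℕ) : ℝ) * (x - 1) ^ 5 * 1) x := e1.pow 6
    have e3 : HasDerivAt (fun L : ℝ => lam * c / 6 * (L - 1) ^ 6)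
        (lam * c / 6 * (((6 : ℕ) : ℝ) * (x - 1) ^ 5 * 1)) x := e2.const_mul (lam * c / 6)
    exact e3.congr_deriv (by push_cast; ring)
  have hy2 : ∀ x, 1 < x → x < R →
      -(lam * c / 6 * (x - 1) ^ 6) ≤ ((x - 1) * J1 x - 5 * J x) / x ^ 3 := by
    have hd : ∀ x, 1 < x → HasDerivAt
        (fun L => ((L - 1) * J1 L - 5 * J L) / L ^ 3 + lam * c / 6 * (L - 1) ^ 6)
        (-(lam * J x / x ^ 4) + lam * c * (x - 1) ^ 5) x := fun x hx =>
      (yy_deriv h hx).add (hpow x)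
    have hmono : MonotoneOn
        (fun L => ((L - 1) * J1 L - 5 * J L) / L ^ 3 + lam * c / 6 * (L - 1) ^ 6)
        (Set.Ioo 1 R) := by
      apply monotoneOn_of_deriv_nonneg (convex_Ioo 1 R)
      · intro x hx
        exact (hd x hx.1).continuousAt.continuousWithinAt
      · intro x hx
        rw [interior_Ioo] at hx
        exact (hd x hx.1).differentiableAt.differentiableWithinAt
      · intro x hx
        rw [interior_Ioo] at hx
        rw [(hd x hx.1).deriv]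
        have h2 := hz x hx.1 hx.2
        have h5 : 0 < (x - 1) ^ 5 := pow_pos (by linarith [hx.1]) _
        rw [div_le_iff₀ h5] at h2
        have h4 : 1 ≤ x ^ 4 := one_le_pow₀ hx.1.le
        have h6 : lam * J x / x ^ 4 ≤ lam * J x :=
          div_le_self (mul_nonneg h0 (hJ x hx.1 hx.2)) h4
        have h7 : lam * J x ≤ lam * (c * (x - 1) ^ 5) := mul_le_mul_of_nonneg_left h2 h0
        linarith
    intro x hx1 hxR
    have hlim : Tendsto (fun L => ((L - 1) * J1 L - 5 * J L) / L ^ 3 + lam * c / 6 * (L - 1) ^ 6)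
        (𝓝[>] (1 : ℝ)) (𝓝 0) := by
      have h3 := hylim.add ((ht.pow 6).const_mul (lam * c / 6))
      have e : 0 + lam * c / 6 * (1 - 1 : ℝ) ^ 6 = 0 := by ring
      rw [e] at h3
      exact h3
    have h3 := le_of_tendsto hlim (b := ((x - 1) * J1 x - 5 * J x) / x ^ 3 +
      lam * c / 6 * (x - 1) ^ 6) (by
        filter_upwards [Ioo_mem_nhdsGT hx1] with s hs
        exact hmono ⟨hs.1, hs.2.trans hxR⟩ ⟨hx1, hxR⟩ hs.2.le)
    linarith
  -- lower bound for z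
  have hd : ∀ x, 1 < x → HasDerivAt
      (fun L => J L / (L - 1) ^ 5 + lam * c * R ^ 3 / 6 * (L - 1))
      (x ^ 3 / (x - 1) ^ 6 * (((x - 1) * J1 x - 5 * J x) / x ^ 3) + lam * c * R ^ 3 / 6) x := by
    intro x hx
    have e1 : HasDerivAt (fun L : ℝ => L - 1) 1 x := (hasDerivAt_id x).sub_const 1
    have e2 := e1.const_mul (lam * c * R ^ 3 / 6)
    rw [mul_one] at e2
    exact (zz_deriv' h hx).add e2
  have hmono : MonotoneOn (fun L => J L / (L - 1) ^ 5 + lam * c * R ^ 3 / 6 * (L - 1))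
      (Set.Ioc 1 R) := by
    apply monotoneOn_of_deriv_nonneg (convex_Ioc 1 R)
    · intro x hx
      exact (hd x hx.1).continuousAt.continuousWithinAt
    · intro x hx
      rw [interior_Ioc] at hx
      exact (hd x hx.1).differentiableAt.differentiableWithinAt
    · intro x hx
      rw [interior_Ioc] at hx
      rw [(hd x hx.1).deriv]
      have h2 := hy2 x hx.1 hx.2
      have hx0 : 0 < x := by linarith [hx.1]
      have hxm : 0 < x - 1 := by linarith [hx.1]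
      have h3 : 0 < x ^ 3 / (x - 1) ^ 6 := by positivity
      have h4 := mul_le_mul_of_nonneg_left h2 h3.le
      have h5 : x ^ 3 / (x - 1) ^ 6 * -(lam * c / 6 * (x - 1) ^ 6) = -(lam * c / 6 * x ^ 3) := by
        field_simp
      rw [h5] at h4
      have h6 : x ^ 3 ≤ R ^ 3 := pow_le_pow_left₀ hx0.le hx.2.le 3
      have h7 : lam * c / 6 * x ^ 3 ≤ lam * c / 6 * R ^ 3 :=
        mul_le_mul_of_nonneg_left h6 (by positivity)
      have h8 : lam * c * R ^ 3 / 6 = lam * c / 6 * R ^ 3 := by ring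
      rw [h8]
      linarith
  have hlim : Tendsto (fun L => J L / (L - 1) ^ 5 + lam * c * R ^ 3 / 6 * (L - 1))
      (𝓝[>] (1 : ℝ)) (𝓝 c) := by
    have h3 := hc.add (ht.const_mul (lam * c * R ^ 3 / 6))
    have e : c + lam * c * R ^ 3 / 6 * (1 - 1 : ℝ) = c := by ring
    rw [e] at h3
    exact h3
  have h3 := le_of_tendsto hlim (b := J R / (R - 1) ^ 5 + lam * c * R ^ 3 / 6 * (R - 1)) (by
      filter_upwards [Ioo_mem_nhdsGT hR] with s hs
      exact hmono ⟨hs.1, hs.2.le⟩ ⟨hR, le_refl R⟩ hs.2.le)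
  have h4 : lam * R ^ 3 * (R - 1) ≤ 3 := by
    refine le_trans ?_ hL3
    have h5 : 0 ≤ R ^ 3 * (R - 1) := mul_nonneg (pow_nonneg (by linarith) 3) (by linarith)
    have h6 := mul_le_mul_of_nonneg_right h1 h5
    linarith
  have h5 : lam * c * R ^ 3 / 6 * (R - 1) ≤ c / 2 := by
    have h6 := mul_le_mul_of_nonneg_right h4 (by positivity : 0 ≤ c / 6)
    have h7 : lam * c * R ^ 3 / 6 * (R - 1) = lam * R ^ 3 * (R - 1) * (c / 6) := by ring
    rw [h7]
    linarith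
  linarith

/-- PROOF. Let `z = J/(L-1)⁵`, `y = ((L-1) J' - 5 J)/L³ → 0` at `1+`, `y' = -lam J/L⁴ = -lam t⁵ L⁻⁴ z`,
`z' = L³ t⁻⁶ y` (`yy_deriv`, `zz_deriv'`). Let `z > 0` on `(1, R)`, `R ≤ L`. Then `y' ≤ 0`, so `y ≤ 0`, so `z` is
decreasing and `z ≤ c` on `(1, R)` (limit `c` at `1+`), so `y' ≥ -lam c t⁵`, `y ≥ -lam c t⁶/6`,
`z' ≥ -lam c L³/6 ≥ -Lam c R³/6` on `(1, R)`, and `z ≥ c - Lam c R³ (R - 1)/6 ≥ c/2`. If `z` had a value `≤ 0`
on `(1, L]`, let `R` be the infimum of such points (`z > 0` near `1+` since the limit is `c > 0`):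
`z ≥ c/2` on `(1, R)` but `z R ≤ 0` by continuity: contradiction. So `z > 0` on `(1, L]`, and the estimate
holds at `L`. (`R³ (R-1) ≤ L³ (L-1)`.) Compare `ode_lower` in `H56D/C1.lean`. -/
theorem small_lower {lam Lam : ℝ} (h0 : 0 ≤ lam) (h1 : lam ≤ Lam) {J J1 J2 : ℝ → ℝ}
    (h : OdeL lam J J1 J2) {c : ℝ} (hc0 : 0 < c)
    (hc : Tendsto (fun L => J L / (L - 1) ^ 5) (𝓝[>] 1) (𝓝 c)) {L : ℝ} (hL : 1 < L)
    (hL3 : Lam * L ^ 3 * (L - 1) ≤ 3) : c / 2 * (L - 1) ^ 5 ≤ J L := by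
  have hLam : 0 ≤ Lam := h0.trans h1
  have hL3' : ∀ m : ℝ, 1 < m → m ≤ L → Lam * m ^ 3 * (m - 1) ≤ 3 := by
    intro m hm1 hmL
    refine le_trans ?_ hL3
    have h2 : m ^ 3 ≤ L ^ 3 := pow_le_pow_left₀ (by linarith) hmL 3
    have h3 : m ^ 3 * (m - 1) ≤ L ^ 3 * (L - 1) :=
      mul_le_mul h2 (by linarith) (by linarith) (pow_nonneg (by linarith) 3)
    have h4 := mul_le_mul_of_nonneg_left h3 hLam
    linarith
  have hpos : ∀ x : ℝ, 1 < x → x ≤ L → 0 < J x := by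
    intro x₀ hx₀ hxL
    by_contra hcon
    push Not at hcon
    -- positive near one
    have h1' : ∀ᶠ s in 𝓝[>] (1 : ℝ), 0 < J s := by
      have h2 : ∀ᶠ s in 𝓝[>] (1 : ℝ), 0 < J s / (s - 1) ^ 5 := hc.eventually (lt_mem_nhds hc0)
      filter_upwards [h2, self_mem_nhdsWithin] with s hs hs1
      have h3 : 0 < (s - 1) ^ 5 := pow_pos (by linarith [Set.mem_Ioi.1 hs1]) _
      have h4 := mul_pos hs h3
      rwa [div_mul_cancel₀ _ h3.ne'] at h4
    obtain ⟨b, hb1, hb⟩ := mem_nhdsGT_iff_exists_Ioo_subset.1 h1'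
    have hb1' : 1 < b := hb1
    set b' := min ((1 + b) / 2) x₀ with hb'
    have hb'1 : 1 < b' := lt_min (by linarith) hx₀
    have hb'b : b' < b := lt_of_le_of_lt (min_le_left _ _) (by linarith)
    have hb'x : b' ≤ x₀ := min_le_right _ _
    have hcont : ContinuousOn J (Set.Icc b' x₀) := fun x hx =>
      (h.d0 x (lt_of_lt_of_le hb'1 hx.1)).continuousAt.continuousWithinAt
    have hcomp : IsCompact (Set.Icc b' x₀ ∩ J ⁻¹' Set.Iic 0) :=
      isCompact_Icc.of_isClosed_subset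
        (hcont.preimage_isClosed_of_isClosed isClosed_Icc isClosed_Iic) Set.inter_subset_left
    obtain ⟨m, hm, hmin⟩ := hcomp.exists_isLeast ⟨x₀, ⟨hb'x, le_refl _⟩, hcon⟩
    have hm1 : 1 < m := lt_of_lt_of_le hb'1 hm.1.1
    have hJpos : ∀ y, 1 < y → y < m → 0 < J y := by
      intro y hy1 hym
      by_cases hyb : y < b
      · exact hb ⟨hy1, hyb⟩
      · by_contra hcon2
        push Not at hcon2 hyb
        have h3 := hmin ⟨⟨hb'b.le.trans hyb, (hym.trans_le hm.1.2).le⟩, hcon2⟩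
        exact absurd hym (not_lt.2 h3)
    have h4 := A1_z h0 h1 h hc0 hc hm1 (hL3' m hm1 (hm.1.2.trans hxL))
      fun y hy1 hym => (hJpos y hy1 hym).le
    have h5 : J m ≤ 0 := hm.2
    have h7 : 0 < (m - 1) ^ 5 := pow_pos (by linarith) _
    have h8 : J m / (m - 1) ^ 5 ≤ 0 := div_nonpos_of_nonpos_of_nonneg h5 h7.le
    linarith
  have h2 := A1_z h0 h1 h hc0 hc hL hL3 fun y hy hyL => (hpos y hy hyL.le).le
  have h7 : 0 < (L - 1) ^ 5 := pow_pos (by linarith) _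
  rwa [le_div_iff₀ h7] at h2

end Pool.Agent.Lib.H80D
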