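import Pool.Agent.Lib.H56D.D3
import Pool.Agent.Lib.H80D.A1

/-!
# A2: lower bound for the averages of an eigenfunction over small balls
-/

namespace Pool.Agent.Lib.H80D

open Matrix hiding J
open MeasureTheory Topology Filter
open Pool.Agent.Lib.H56.Picard hiding O Gam mem_Gam star_mem_O T_mem sg_mem
open Pool.Agent.Lib.H56.Gen hiding dd dd_pos
open Pool.Agent.Lib.H56D hiding om wG rho Eig Good K0
open scoped ENNReal

noncomputable section

/-- PROOF. As `JJ_lower` in `H56D/D1.lean`: `JJ 3 g x` with `J1 = 3 JJ 2`, `J2 = 6 JJ 1` satisfies `OdeL lam`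
(`hasDerivAt_JJ`, `ode_rel`, `JJ_tendsto`), and `JJ 3 g x L/(L-1)⁵ → c3 g(x)` (`JJ_asym`, `JJ_one`). -/
theorem JJ_small {g : ℂ × ℂ → ℝ} {lam Lam : ℝ} (h0 : 0 ≤ lam) (h1 : lam ≤ Lam)
    (hg : ContDiffOn ℝ 2 g U) (hlap : ∀ z ∈ U, lapR g z = -(lam * g z)) {x : ℂ × ℂ} (hx : x ∈ U)
    (hgx : 0 < g x) {L : ℝ} (hL : 1 < L) (hL3 : Lam * L ^ 3 * (L - 1) ≤ 3) :
    c3 * g x / 2 * (L - 1) ^ 5 ≤ JJ 3 g x L := by
  have hode : OdeL lam (JJ 3 g x) (fun L => 3 * JJ 2 g x L) (fun L => 6 * JJ 1 g x L) :=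
    { d0 := by
        intro L _
        have h := hasDerivAt_JJ hg.continuousOn hx (p := 2) (by norm_num) L
        refine h.congr_deriv ?_
        norm_num
      d1 := by
        intro L _
        have h := (hasDerivAt_JJ hg.continuousOn hx (p := 1) le_rfl L).const_mul 3
        refine h.congr_deriv ?_
        norm_num
        ring
      ode := by
        intro L _
        exact ode_rel hg hlap hx L
      l0 := JJ_tendsto hg.continuousOn hx (by norm_num)
      l1 := by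
        have h := (JJ_tendsto hg.continuousOn hx (p := 2) (by norm_num)).const_mul 3
        rwa [mul_zero] at h }
  refine small_lower h0 h1 hode (mul_pos c3_pos hgx) ?_ hL hL3
  rw [Metric.tendsto_nhds]
  intro ε hε
  have h1 := JJ_asym hg.continuousOn hx (ε := ε / (2 * c3)) (by have := c3_pos; positivity)
  have h2 : ∀ᶠ L in 𝓝[>] (1 : ℝ), 1 < L := eventually_mem_nhdsWithin
  filter_upwards [h1, h2] with L h1 h2
  rw [JJ_one hx h2] at h1
  have hc := c3_pos
  have hp : 0 < (L - 1) ^ 5 := pow_pos (by linarith) 5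
  rw [Real.dist_eq]
  have e1 : JJ 3 g x L / (L - 1) ^ 5 - c3 * g x =
      (JJ 3 g x L - g x * (c3 * (L - 1) ^ 5)) / (L - 1) ^ 5 := by
    rw [sub_div, ← mul_assoc, mul_div_assoc (g x * c3), div_self hp.ne', mul_one, mul_comm c3]
  rw [e1, abs_div, abs_of_pos hp, div_lt_iff₀ hp]
  refine lt_of_le_of_lt h1 ?_
  have e2 : ε / (2 * c3) * (c3 * (L - 1) ^ 5) = ε / 2 * (L - 1) ^ 5 := by
    field_simp
  rw [e2]
  exact mul_lt_mul_of_pos_right (by linarith) hp

/-- PROOF. As `lower_complex` in `H56D/D3.lean`, for the real function `Re (conj (f x) · f)`. -/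
theorem lower_small {f : ℂ × ℂ → ℂ} {lam Lam : ℝ} (hf : ContDiffOn ℝ 2 f U)
    (heig : ∀ z ∈ U, laplacian f z = -((lam : ℂ) * f z)) (h0 : 0 ≤ lam) (h1 : lam ≤ Lam)
    {x : ℂ × ℂ} (hx : x ∈ U) {L : ℝ} (hL : 1 < L) (hL3 : Lam * L ^ 3 * (L - 1) ≤ 3) :
    c3 / 2 * (L - 1) ^ 5 * ‖f x‖ ≤ ‖∫ w : X, (ker 3 L x w.1 : ℂ) * f w.1 ∂mu‖ := by
  by_cases hfx : f x = 0
  · rw [hfx, norm_zero, mul_zero]
    exact norm_nonneg _
  have hn : 0 < ‖f x‖ := norm_pos_iff.2 hfx
  have hg : ContDiffOn ℝ 2 (fun z => d3_l (f x) (f z)) U :=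
    (d3_l (f x)).contDiff.comp_contDiffOn hf
  have hlap : ∀ z ∈ U, lapR (fun z => d3_l (f x) (f z)) z =
      -(lam * d3_l (f x) (f z)) := by
    intro z hz
    have e1 := lapR_comp (d3_l (f x)) hf hz
    rw [heig z hz] at e1
    rw [e1, map_neg, d3_l_smul]
  have h6 := JJ_small h0 h1 hg hlap hx
    (by simp only [d3_l_self]; positivity) hL hL3
  have h7 : JJ 3 (fun z => d3_l (f x) (f z)) x L =
      d3_l (f x) (∫ w : X, (ker 3 L x w.1 : ℂ) * f w.1 ∂mu) := by
    rw [← ContinuousLinearMap.integral_comp_comm _ (d3_integrable hf.continuousOn hx L), JJ]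
    apply integral_congr_ae
    filter_upwards with w
    rw [d3_l_smul]
  rw [h7] at h6
  simp only [d3_l_self] at h6
  have h8 := h6.trans (d3_l_le _ _)
  refine le_of_mul_le_mul_left ?_ hn
  refine le_trans (le_of_eq ?_) h8
  ring

end

end Pool.Agent.Lib.H80D
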