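import Pool.Agent.Lib.H56D.S3
import Pool.Agent.Lib.H56D.S6
import Pool.Agent.Lib.H56.Gen.LevelCoord

/-!
# A3: entries and trace of elements moving a point of the cusp a bounded distance
-/

namespace Pool.Agent.Lib.H80D

open Matrix hiding J
open MeasureTheory Topology Filter
open Pool.Agent.Lib.H56.Picard hiding O Gam mem_Gam star_mem_O T_mem sg_mem
open Pool.Agent.Lib.H56.Gen hiding dd dd_pos
open Pool.Agent.Lib.H56D hiding om wG rho Eig Good K0
open scoped ENNReal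

noncomputable section

/-- The trace does not change under conjugation. -/
theorem trace_conj (g β : SU21) : (mat (g * β * g⁻¹)).trace = (mat β).trace := by
  rw [mat_mul, Matrix.trace_mul_comm, mat_mul, ← Matrix.mul_assoc, ← mat_mul, inv_mul_cancel,
    mat_one, Matrix.one_mul]

lemma A3_inv (g : SU21) (i j : Fin 3) :
    ‖mat g⁻¹ i j‖ = ‖mat g (Fin.rev j) (Fin.rev i)‖ := by
  have e1 : mat g⁻¹ i j = star (mat g (Fin.rev j) (Fin.rev i)) := by
    rw [mat_inv]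
    fin_cases i <;> fin_cases j <;>
      simp [Matrix.mul_apply, Fin.sum_univ_three, J, Matrix.vecMul, dotProduct,
        Matrix.conjTranspose_apply, Fin.rev]
  rw [e1, norm_star]

lemma A3_conj {g β : SU21} {M B : ℝ} (hM : ∀ i j, ‖mat g i j‖ ≤ M) (hB : ∀ i j, ‖mat β i j‖ ≤ B) :
    ∀ i j, ‖mat (g * β * g⁻¹) i j‖ ≤ 9 * M ^ 2 * B := by
  intro i j
  have hM0 : 0 ≤ M := (norm_nonneg _).trans (hM i j)
  have hB0 : 0 ≤ B := (norm_nonneg _).trans (hB i j)
  have e : mat (g * β * g⁻¹) i j = ∑ l, (∑ k, mat g i k * mat β k l) * mat g⁻¹ l j := by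
    rw [mat_mul, mat_mul, Matrix.mul_apply]
    simp only [Matrix.mul_apply]
  rw [e]
  refine (norm_sum_le _ _).trans ?_
  have h1 : ∀ l ∈ Finset.univ, ‖(∑ k, mat g i k * mat β k l) * mat g⁻¹ l j‖ ≤
      (3 * (M * B)) * M := by
    intro l _
    rw [norm_mul]
    refine mul_le_mul ?_ ?_ (norm_nonneg _) (by positivity)
    · refine (norm_sum_le _ _).trans ?_
      refine (Finset.sum_le_card_nsmul _ _ (M * B) fun k _ => ?_).trans ?_
      · rw [norm_mul]
        exact mul_le_mul (hM i k) (hB k l) (norm_nonneg _) hM0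
      · simp
    · rw [A3_inv]
      exact hM _ _
  refine (Finset.sum_le_card_nsmul _ _ _ h1).trans ?_
  simp
  nlinarith [h1]

/-- PROOF. `fro (g β g⁻¹) ≤ fro g ^ 2 fro β` up to constants: each entry of the product is a sum of nine
products; `mat g⁻¹ = J (mat g)ᴴ J` has the same absolute values of entries as `mat g` (`mat_inv`). -/
theorem ent_conj (g : SU21) : ∃ C : ℝ, 1 ≤ C ∧ ∀ (β : SU21) (B : ℝ),
    (∀ i j, ‖mat β i j‖ ≤ B) → ∀ i j, ‖mat (g * β * g⁻¹) i j‖ ≤ C * B := by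
  have hM : ∀ i j, ‖mat g i j‖ ≤ ∑ i, ∑ j, ‖mat g i j‖ := by
    intro i j
    have h1 : ‖mat g i j‖ ≤ ∑ j, ‖mat g i j‖ :=
      Finset.single_le_sum (f := fun j => ‖mat g i j‖) (fun _ _ => norm_nonneg _)
        (Finset.mem_univ j)
    exact h1.trans (Finset.single_le_sum (f := fun i => ∑ j, ‖mat g i j‖)
      (fun _ _ => Finset.sum_nonneg fun _ _ => norm_nonneg _) (Finset.mem_univ i))
  refine ⟨1 + 9 * (∑ i, ∑ j, ‖mat g i j‖) ^ 2, by
    have := sq_nonneg (∑ i, ∑ j, ‖mat g i j‖)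
    linarith, fun β B hB i j => ?_⟩
  have hB0 : 0 ≤ B := (norm_nonneg _).trans (hB i j)
  have h2 := A3_conj hM hB i j
  linarith

/-- The representation of a point. -/
lemma A3_rep {b : ℂ × ℂ} (hb : 0 < height b) :
    ∃ hw : 2 * (b.1 + ((√(height b) : ℝ) : ℂ) ^ 2 / 2).re = -Complex.normSq b.2,
      act (mat (T b.2 (b.1 + ((√(height b) : ℝ) : ℂ) ^ 2 / 2) hw *
        mkSU (s3D (√(height b))) (s3D_unitary (Real.sqrt_pos.2 hb))
          (s3D_det (Real.sqrt_pos.2 hb)))) o = b := by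
  have hr2 : (√(height b)) ^ 2 = height b := Real.sq_sqrt hb.le
  have hw : 2 * (b.1 + ((√(height b) : ℝ) : ℂ) ^ 2 / 2).re = -Complex.normSq b.2 := by
    have h1 : (b.1 + ((√(height b) : ℝ) : ℂ) ^ 2 / 2).re = b.1.re + (√(height b)) ^ 2 / 2 := by
      have : ((√(height b) : ℝ) : ℂ) ^ 2 / 2 = (((√(height b)) ^ 2 / 2 : ℝ) : ℂ) := by
        push_cast
        ring
      rw [this, Complex.add_re, Complex.ofReal_re]
    rw [h1, hr2]
    unfold height
    ring
  refine ⟨hw, ?_⟩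
  rw [← act_act _ _ o_mem, mat_mkSU, s3_act_D (Real.sqrt_pos.2 hb), mat_T, act_TM]
  apply Prod.ext
  · simp
  · simp

/-- Conjugation by the diagonal element. -/
lemma A3_diag {r : ℝ} (hr : 0 < r) {β : SU21} {B : ℝ} (hB : ∀ i j, ‖mat β i j‖ ≤ B) (i j : Fin 3) :
    ‖mat (mkSU (s3D r) (s3D_unitary hr) (s3D_det hr) * β *
      (mkSU (s3D r) (s3D_unitary hr) (s3D_det hr))⁻¹) i j‖ ≤ (r ^ 2 + 1 + (r ^ 2)⁻¹) * B := by
  have hrc : (r : ℂ) ≠ 0 := by exact_mod_cast hr.ne'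
  have hB0 : 0 ≤ B := (norm_nonneg _).trans (hB i j)
  have hr2 : 0 < r ^ 2 := by positivity
  have hri : 0 < (r ^ 2)⁻¹ := by positivity
  have e : mat (mkSU (s3D r) (s3D_unitary hr) (s3D_det hr) * β *
      (mkSU (s3D r) (s3D_unitary hr) (s3D_det hr))⁻¹) i j =
      (![(r : ℂ), 1, (r : ℂ)⁻¹] i * (![(r : ℂ), 1, (r : ℂ)⁻¹] j)⁻¹) * mat β i j := by
    have d1 : s3D r = Matrix.diagonal ![(r : ℂ), 1, (r : ℂ)⁻¹] := by
      ext a b
      fin_cases a <;> fin_cases b <;> simp [s3D]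
    have d2 : J * (s3D r)ᴴ * J = Matrix.diagonal ![(r : ℂ)⁻¹, 1, (r : ℂ)] := by
      rw [d1, Matrix.diagonal_conjTranspose]
      ext a b
      fin_cases a <;> fin_cases b <;>
        simp [J, Matrix.mul_apply, Fin.sum_univ_three, Matrix.vecMul, dotProduct,
          Matrix.diagonal_apply]
    rw [mat_mul, mat_mul, mat_inv, mat_mkSU, d2, d1, Matrix.mul_diagonal, Matrix.diagonal_mul]
    fin_cases j <;> simp <;> ring
  rw [e, norm_mul]
  refine mul_le_mul ?_ (hB i j) (norm_nonneg _) (by positivity)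
  have h1 : r ≤ r ^ 2 + 1 := by nlinarith [sq_nonneg (r - 1)]
  have h2 : r⁻¹ ≤ 1 + (r ^ 2)⁻¹ := by
    have h3 : (r ^ 2)⁻¹ = r⁻¹ ^ 2 := by rw [inv_pow]
    rw [h3]
    nlinarith [sq_nonneg (r⁻¹ - 1)]
  have h4 : ‖(r : ℂ)‖ = r := by rw [Complex.norm_real, Real.norm_of_nonneg hr.le]
  have h5 : r * r = r ^ 2 := by ring
  have h6 : r⁻¹ * r⁻¹ = (r ^ 2)⁻¹ := by rw [← mul_inv, h5]
  fin_cases i <;> fin_cases j <;>
    simp only [Fin.zero_eta, Fin.mk_one, Fin.reduceFinMk, Matrix.cons_val_zero,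
      Matrix.cons_val_one, Matrix.cons_val, norm_mul, norm_inv, h4, norm_one, inv_inv, inv_one,
      mul_one, one_mul, mul_inv_cancel₀ hr.ne', inv_mul_cancel₀ hr.ne', h5, h6] <;> linarith

/-- PROOF. Let `u = height b`, `r = √u`. As in `exists_act_o` (`H56D/S3.lean`): `b = act (mat t) o` with
`t = T l w * d`, `l = b.2`, `w = b.1 + u/2`, `mat d = diag (r, 1, 1/r)`. For `b` in the box `l` and `w` are
bounded (`l = s e1 + t e2` with `s, t ∈ [0,1)`, `w = -|l|²/2 + i v/2` with `v ∈ [0, P)`: `PsiE_coords`).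
`β' = t⁻¹ β t` satisfies `σ(o, β' o) = σ(b, β b) ≤ S` (`sgm_act`, `act_act`), so `fro β' ≤ C S` (`fro_le` with
`K = {o}`): all entries of `β'` are bounded, and `|tr β| = |tr β'|` is bounded (`trace_conj`). The entries of
`d β' d⁻¹` are `d_i β'_ij / d_j`, and `|d_i/d_j| ≤ max (u, 1/u) ≤ C u` as `u > h`; conjugation by `T l w` multiplies
by at most a constant. -/
theorem ent_box {q : QD} (K : Cusp q) {h : ℝ} (hh : 0 < h) (S : ℝ) : ∃ C : ℝ, 1 ≤ C ∧
    ∀ b : ℂ × ℂ, b ∈ K.Box → h < height b → ∀ β : SU21, sgm b (act (mat β) b) ≤ S →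
      (∀ i j, ‖mat β i j‖ ≤ C * height b) ∧ ‖(mat β).trace‖ ≤ C := by
  obtain ⟨C0, hC0, hfro⟩ := fro_le (K := {o}) isCompact_singleton
    (Set.singleton_subset_iff.2 o_mem)
  set B0 : ℝ := 1 + C0 * |S| with hB0
  have hB0p : 1 ≤ B0 := by
    have : 0 ≤ C0 * |S| := by positivity
    linarith
  set Lm : ℝ := ‖K.e1‖ + ‖K.e2‖ with hLm
  have hLm0 : 0 ≤ Lm := by positivity
  set Wm : ℝ := Lm ^ 2 / 2 + K.P / 2 with hWm
  have hP := K.hP
  have hWm0 : 0 ≤ Wm := by positivity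
  set M : ℝ := 1 + Lm + Wm with hM
  have hM0 : 0 ≤ M := by positivity
  set C1 : ℝ := 1 + h⁻¹ + h⁻¹ ^ 2 with hC1
  have hC1p : 0 < C1 := by positivity
  refine ⟨1 + 9 * M ^ 2 * (C1 * B0) + 3 * B0, by
    have : 0 ≤ 9 * M ^ 2 * (C1 * B0) := by positivity
    linarith, fun b hb hbh β hβ => ?_⟩
  have hb0 : 0 < height b := hh.trans hbh
  obtain ⟨hw, hact⟩ := A3_rep hb0
  set u := height b with hu
  have hu2 : (√u) ^ 2 = u := Real.sq_sqrt hb0.le
  set w := b.1 + ((√u : ℝ) : ℂ) ^ 2 / 2 with hwdef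
  set d := mkSU (s3D (√u)) (s3D_unitary (Real.sqrt_pos.2 hb0)) (s3D_det (Real.sqrt_pos.2 hb0))
    with hd
  set tt := T b.2 w hw with htt
  -- the conjugated element
  set β' := (tt * d)⁻¹ * β * (tt * d) with hβ'
  have hβeq : β = (tt * d) * β' * (tt * d)⁻¹ := by
    rw [hβ']
    group
  have hbU : b ∈ U := hb0
  have hsg : sgm o (act (mat β') o) ≤ S := by
    have e1 : act (mat (tt * d)) (act (mat β') o) = act (mat β) b := by
      have e0 : (tt * d) * β' = β * (tt * d) := by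
        rw [hβ']
        group
      rw [act_act _ _ o_mem, e0, ← act_act _ _ o_mem, hact]
    rw [← sgm_act (tt * d) o_mem (act_mem_U β' o_mem), e1, hact]
    exact hβ
  have hent : ∀ i j, ‖mat β' i j‖ ≤ B0 := by
    intro i j
    have h1 : Complex.normSq (mat β' i j) ≤ fro β' := by
      unfold fro
      have h2 : Complex.normSq (mat β' i j) ≤ ∑ j, Complex.normSq (mat β' i j) :=
        Finset.single_le_sum (f := fun j => Complex.normSq (mat β' i j))
          (fun _ _ => Complex.normSq_nonneg _) (Finset.mem_univ j)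
      exact h2.trans (Finset.single_le_sum (f := fun i => ∑ j, Complex.normSq (mat β' i j))
        (fun _ _ => Finset.sum_nonneg fun _ _ => Complex.normSq_nonneg _) (Finset.mem_univ i))
    have h2 := hfro o rfl β'
    have h3 : C0 * sgm o (act (mat β') o) ≤ C0 * |S| :=
      mul_le_mul_of_nonneg_left (hsg.trans (le_abs_self S)) hC0.le
    rw [Complex.normSq_eq_norm_sq] at h1
    have h4 : ‖mat β' i j‖ ^ 2 ≤ C0 * |S| := by linarith
    nlinarith [norm_nonneg (mat β' i j), sq_nonneg (‖mat β' i j‖ - 1)]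
  -- diagonal conjugation
  have hdiag : ∀ i j, ‖mat (d * β' * d⁻¹) i j‖ ≤ C1 * u * B0 := by
    intro i j
    refine (A3_diag (Real.sqrt_pos.2 hb0) hent i j).trans ?_
    refine mul_le_mul_of_nonneg_right ?_ (by linarith)
    rw [hu2]
    have hhi : 0 < h⁻¹ := by positivity
    have h5 : 1 ≤ h⁻¹ * u := by
      rw [inv_mul_eq_div, le_div_iff₀ hh]
      linarith
    have h6 : u⁻¹ ≤ h⁻¹ ^ 2 * u := by
      have h7 : u⁻¹ ≤ h⁻¹ := inv_anti₀ hh hbh.le
      calc u⁻¹ ≤ h⁻¹ := h7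
        _ = h⁻¹ * 1 := (mul_one _).symm
        _ ≤ h⁻¹ * (h⁻¹ * u) := mul_le_mul_of_nonneg_left h5 hhi.le
        _ = _ := by ring
    rw [hC1]
    linarith
  -- bounds for the translation
  have hl : ‖b.2‖ ≤ Lm := by
    rw [← coords_snd K b]
    refine (norm_add_le _ _).trans ?_
    rw [norm_mul, norm_mul, Complex.norm_real, Complex.norm_real,
      Real.norm_of_nonneg hb.2.1.1, Real.norm_of_nonneg hb.2.2.1.1]
    have h8 := mul_le_mul_of_nonneg_right hb.2.1.2.le (norm_nonneg K.e1)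
    have h9 := mul_le_mul_of_nonneg_right hb.2.2.1.2.le (norm_nonneg K.e2)
    linarith
  have hwn : ‖w‖ ≤ Wm := by
    have h8 := Complex.norm_le_abs_re_add_abs_im w
    have h9 : |w.re| ≤ Lm ^ 2 / 2 := by
      have h10 : w.re = -(Complex.normSq b.2 / 2) := by linarith
      rw [h10, abs_neg, abs_of_nonneg (by have := Complex.normSq_nonneg b.2; positivity),
        Complex.normSq_eq_norm_sq]
      have := pow_le_pow_left₀ (norm_nonneg b.2) hl 2
      linarith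
    have h11 : |w.im| ≤ K.P / 2 := by
      have h12 : w.im = b.1.im := by
        rw [hwdef]
        have : ((√u : ℝ) : ℂ) ^ 2 / 2 = (((√u) ^ 2 / 2 : ℝ) : ℂ) := by push_cast; ring
        rw [this, Complex.add_im, Complex.ofReal_im, add_zero]
      have h13 := hb.2.2.2.1
      have h14 := hb.2.2.2.2
      simp only [Cusp.vc] at h13 h14
      rw [h12, abs_of_nonneg (by linarith)]
      linarith
    linarith
  have hT : ∀ i j, ‖mat tt i j‖ ≤ M := by
    intro i j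
    rw [htt, mat_T]
    fin_cases i <;> fin_cases j <;> simp [TM] <;> linarith
  have hβeq2 : β = tt * (d * β' * d⁻¹) * tt⁻¹ := by
    rw [hβeq]
    group
  refine ⟨fun i j => ?_, ?_⟩
  · rw [hβeq2]
    refine (A3_conj hT hdiag i j).trans ?_
    have h15 : 9 * M ^ 2 * (C1 * u * B0) = 9 * M ^ 2 * (C1 * B0) * u := by ring
    rw [h15]
    refine mul_le_mul_of_nonneg_right ?_ hb0.le
    linarith
  · rw [hβeq, trace_conj, Matrix.trace_fin_three]
    have h16 := norm_add₃_le (a := mat β' 0 0) (b := mat β' 1 1) (c := mat β' 2 2)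
    have h17 := hent 0 0
    have h18 := hent 1 1
    have h19 := hent 2 2
    have : 0 ≤ 9 * M ^ 2 * (C1 * B0) := by positivity
    linarith

/-- PROOF. `ent_box` for `g⁻¹ β g` (`sgm_act`, `act_act`, `act_inv_act`), then `ent_conj`, `trace_conj`. -/
theorem ent_le {q : QD} (K : Cusp q) {h : ℝ} (hh : 0 < h) (S : ℝ) (g : SU21) : ∃ C : ℝ, 1 ≤ C ∧
    ∀ b : ℂ × ℂ, b ∈ K.Box → h < height b → ∀ β : SU21,
      sgm (act (mat g) b) (act (mat β) (act (mat g) b)) ≤ S →
      (∀ i j, ‖mat β i j‖ ≤ C * height b) ∧ ‖(mat β).trace‖ ≤ C := by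
  obtain ⟨C1, hC1, h1⟩ := ent_box K hh S
  obtain ⟨C2, hC2, h2⟩ := ent_conj g
  refine ⟨C2 * C1, by nlinarith, fun b hb hbh β hβ => ?_⟩
  have hb0 : 0 < height b := hh.trans hbh
  have hbU : b ∈ U := hb0
  have hβeq : β = g * (g⁻¹ * β * g) * g⁻¹ := by group
  have hsg : sgm b (act (mat (g⁻¹ * β * g)) b) ≤ S := by
    rw [← sgm_act g hbU (act_mem_U (g⁻¹ * β * g) hbU), act_act _ _ hbU, ← mul_assoc, ← mul_assoc,
      mul_inv_cancel, one_mul, ← act_act _ _ hbU]
    exact hβ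
  obtain ⟨h3, h4⟩ := h1 b hb hbh (g⁻¹ * β * g) hsg
  refine ⟨fun i j => ?_, ?_⟩
  · rw [hβeq, mul_assoc C2]
    exact h2 _ _ h3 i j
  · rw [hβeq, trace_conj]
    nlinarith

end

end Pool.Agent.Lib.H80D
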