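import Pool.Agent.Lib.H56D.F4
import Pool.Agent.Lib.H80D.TG

/-!
# AD: definitions of the analytic part
-/

namespace Pool.Agent.Lib.H80D

open Matrix hiding J
open MeasureTheory Topology Filter
open Pool.Agent.Lib.H56.Picard hiding O Gam mem_Gam star_mem_O T_mem sg_mem
open Pool.Agent.Lib.H56.Gen hiding dd dd_pos
open Pool.Agent.Lib.H56D hiding om wG rho Eig Good K0
open scoped ENNReal

noncomputable section

/-- A weight for `Gam q`: a function on the space whose translates sum to one. -/
structure WD (q : QD) where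
  /-- the weight -/
  w : X → ℝ≥0∞
  meas : Measurable w
  sum : ∀ z : X, ∑' γ : Gam q, w (γ • z) = 1

variable {q : QD}

/-- The weight of a subgroup of `Gam q`. -/
def wt (W : WD q) (G : Subgroup (Gam q)) (z : X) : ℝ≥0∞ :=
  ∑' c : Gam q ⧸ G, W.w ((c.out : Gam q) • z)

/-- The measure defining `L²(G\X)` as functions on `X`. -/
def rh (W : WD q) (G : Subgroup (Gam q)) : Measure X := mu.withDensity (wt W G)

/-- Square integrable `G`-invariant eigenfunctions of the Laplacian. -/
structure Gd (W : WD q) (G : Subgroup (Gam q)) (f : ℂ × ℂ → ℂ) (lam : ℝ) : Prop where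
  smooth : ContDiffOn ℝ 2 f U
  inv : ∀ γ : Gam q, γ ∈ G → ∀ z ∈ U, f (act (mat γ.1) z) = f z
  eig : ∀ z ∈ U, laplacian f z = -((lam : ℂ) * f z)
  L2 : ∫⁻ z : X, wt W G z * ENNReal.ofReal (Complex.normSq (f z.1)) ∂mu ≠ ⊤

/-- `S` is a set of representatives of the left cosets of `Γ(n)` in the set of elements of height `k` at `p`
(of the group `SU(2,1; OO q [1/p])`, congruent to one modulo `n`). -/
def Rp (q : QD) (p n k : ℕ) (S : Finset SU21) : Prop :=
  (∀ s ∈ S, Hgt q p n k s) ∧ ∀ g, Hgt q p n k g → ∃! s, s ∈ S ∧ Hgt q p n 0 (g * s⁻¹)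

/-- `f` is an eigenfunction of the Hecke operator at `p` with eigenvalue `θ`. -/
def IsHecke (q : QD) (p n : ℕ) (f : ℂ × ℂ → ℂ) (θ : ℂ) : Prop :=
  ∃ S : Finset SU21, Rp q p n 1 S ∧ ∀ z ∈ U, ∑ s ∈ S, f (act (mat s) z) = θ * f z

/-- The periodised kernel for a finite set of elements. -/
def PR (G : Subgroup (Gam q)) (R : Finset SU21) (L : ℝ) (x : ℂ × ℂ) (z : X) : ℝ :=
  ∑ r ∈ R, PK G L (act (mat r) x) z

/-- Bound for the number of elements of height `k` of the product of two elements of height `k`. -/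
def nb (p k j : ℕ) : ℝ :=
  if j ≤ 2 * k then 2 * (1 + 2 * j) * (p : ℝ) ^ (4 * k) / (p : ℝ) ^ (2 * j) else 0

/-- A weight, elements moving `∞` to the cusps, a lattice of translations and a covering height. -/
structure RD (q : QD) extends WD q where
  /-- number of cusps -/
  r : ℕ
  /-- elements moving `∞` to the cusps -/
  g : Fin r → SU21
  /-- lattice of translations -/
  K : Cusp q
  /-- covering height -/
  h : ℝ
  hh : 0 < h

/-- The part of the box between the heights `h` and `Y`. -/
def BxY (R : RD q) (Y : ℝ) : Set X := {b | b.1 ∈ R.K.Box ∧ R.h < height b.1 ∧ height b.1 ≤ Y}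

end

end Pool.Agent.Lib.H80D
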