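import Pool.Agent.Lib.H80D.AD
import Pool.Agent.Lib.H56D.O5

/-!
# B1: weights of subgroups
-/

namespace Pool.Agent.Lib.H80D

open Matrix hiding J
open MeasureTheory Topology Filter
open Pool.Agent.Lib.H56.Picard hiding O Gam mem_Gam star_mem_O T_mem sg_mem
open Pool.Agent.Lib.H56.Gen hiding dd dd_pos
open Pool.Agent.Lib.H56D hiding om wG rho Eig Good K0
open scoped ENNReal

noncomputable section

variable {q : QD} (W : WD q) (G : Subgroup (Gam q))

theorem w_le_one (z : X) : W.w z ≤ 1 := by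
  have h1 : W.w ((1 : Gam q) • z) ≤ 1 := by
    rw [← W.sum z]
    exact ENNReal.le_tsum _
  rwa [one_smul] at h1

theorem measurable_wt : Measurable (wt W G) := by
  have hcountA : Countable (Gam q) := countable_arith finite_ball
  have hcountQ : Countable (Gam q ⧸ G) := Quotient.countable
  exact Measurable.ennreal_tsum fun c =>
    W.meas.comp (measurable_const_smul (c.out : Gam q))

/-- PROOF. `bijective_out`; copy `sum_wG` of `H56D/O5.lean` with `W.w` for `om D`, `W.sum` for `sum_om D`. -/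
theorem sum_wt (z : X) : ∑' γ : G, wt W G (γ • z) = 1 := by
  rw [← W.sum z, ← (Equiv.ofBijective _ (bijective_out G)).tsum_eq, ENNReal.tsum_prod',
    ENNReal.tsum_comm]
  refine tsum_congr fun c => tsum_congr fun γ => ?_
  have h1 : ((Equiv.ofBijective _ (bijective_out G)) (γ, c)) • z =
      (γ.out : Gam q) • (c • z) := mul_smul (γ.out : Gam q) (c : Gam q) z
  rw [h1]

theorem wt_ne_top [G.FiniteIndex] (z : X) : wt W G z ≠ ⊤ := by
  have h1 : wt W G ((1 : G) • z) ≤ 1 := by
    rw [← sum_wt W G z]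
    exact ENNReal.le_tsum _
  rw [one_smul] at h1
  exact ne_top_of_le_ne_top ENNReal.one_ne_top h1

/-- PROOF. `lintegral_cosets`; copy `lintegral_wG`. -/
theorem lintegral_wt [G.FiniteIndex] {φ : X → ℝ≥0∞} (hφ : Measurable φ) :
    ∫⁻ z, wt W G z * φ z ∂mu =
      ∫⁻ z, W.w z * ∑' c : Gam q ⧸ G, φ ((c.out : Gam q)⁻¹ • z) ∂mu := by
  have hfinq : Finite (Gam q ⧸ G) := Subgroup.finite_quotient_of_finiteIndex
  exact lintegral_cosets W.meas hφ

theorem lintegral_wt_PhiS [G.FiniteIndex] {f : ℂ × ℂ → ℂ} (hf : ContDiffOn ℝ 2 f U) :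
    ∫⁻ z, wt W G z * ENNReal.ofReal (Complex.normSq (f z.1)) ∂mu =
      ∫⁻ z, W.w z * PhiS G f z ∂mu := by
  have hm : Measurable fun z : X => ENNReal.ofReal (Complex.normSq (f z.1)) :=
    (ENNReal.continuous_ofReal.comp (Complex.continuous_normSq.comp
      (continuousOn_iff_continuous_domRestrict.mp hf.continuousOn))).measurable
  exact lintegral_wt W G hm

end

end Pool.Agent.Lib.H80D
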