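import Pool.Agent.Lib.H80D.B1
import Pool.Agent.Lib.H56D.L2
import Pool.Agent.Lib.H56D.G4

/-!
# B2: linear combinations
-/

namespace Pool.Agent.Lib.H80D

open Matrix hiding J
open MeasureTheory Topology Filter
open Pool.Agent.Lib.H56.Picard hiding O Gam mem_Gam star_mem_O T_mem sg_mem
open Pool.Agent.Lib.H56.Gen hiding dd dd_pos
open Pool.Agent.Lib.H56D hiding om wG rho Eig Good K0
open scoped ENNReal

noncomputable section

variable {q : QD}

lemma B2_zero {q : QD} {W : WD q} {G : Subgroup (Gam q)} {lam : ℝ} :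
    Gd W G (fun _ => 0) lam := by
  refine ⟨contDiffOn_const, fun _ _ _ _ => rfl, ?_, ?_⟩
  · intro z hz
    have h := L2_lap_const_mul (f := fun _ => (0 : ℂ)) contDiffOn_const 0 hz
    simp only [mul_zero, zero_mul] at h
    rw [h]
    simp
  · simp

lemma B2_const_mul {q : QD} {W : WD q} {G : Subgroup (Gam q)} {lam : ℝ} {f : ℂ × ℂ → ℂ}
    (h : Gd W G f lam) (a : ℂ) : Gd W G (fun z => a * f z) lam := by
  refine ⟨contDiffOn_const.mul h.smooth, ?_, ?_, ?_⟩
  · intro γ hγ z hz
    simp only [h.inv γ hγ z hz]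
  · intro z hz
    rw [L2_lap_const_mul h.smooth a hz, h.eig z hz]
    ring
  · have e : ∀ z : X, wt W G z * ENNReal.ofReal (Complex.normSq (a * f z.1)) =
        ENNReal.ofReal (Complex.normSq a) *
          (wt W G z * ENNReal.ofReal (Complex.normSq (f z.1))) := by
      intro z
      rw [Complex.normSq_mul, ENNReal.ofReal_mul (Complex.normSq_nonneg _)]
      ring
    simp only [e]
    rw [lintegral_const_mul' _ _ ENNReal.ofReal_ne_top]
    exact ENNReal.mul_ne_top ENNReal.ofReal_ne_top h.L2

lemma B2_add {q : QD} {W : WD q} {G : Subgroup (Gam q)} [G.FiniteIndex] {lam : ℝ}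
    {f g : ℂ × ℂ → ℂ} (hf : Gd W G f lam) (hg : Gd W G g lam) :
    Gd W G (fun z => f z + g z) lam := by
  refine ⟨hf.smooth.add hg.smooth, ?_, ?_, ?_⟩
  · intro γ hγ z hz
    simp only [hf.inv γ hγ z hz, hg.inv γ hγ z hz]
  · intro z hz
    rw [L2_lap_add hf.smooth hg.smooth hz, hf.eig z hz, hg.eig z hz]
    ring
  · have hm1 : Measurable fun z : X =>
        2 * (wt W G z * ENNReal.ofReal (Complex.normSq (f z.1))) :=
      ((measurable_wt W G).mul (ENNReal.measurable_ofReal.comp
        (Complex.continuous_normSq.measurable.comp (L2_meas hf.smooth).measurable))).const_mul _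
    have e : ∀ z : X, wt W G z * ENNReal.ofReal (Complex.normSq (f z.1 + g z.1)) ≤
        2 * (wt W G z * ENNReal.ofReal (Complex.normSq (f z.1))) +
        2 * (wt W G z * ENNReal.ofReal (Complex.normSq (g z.1))) := by
      intro z
      have h1 : Complex.normSq (f z.1 + g z.1) ≤
          2 * Complex.normSq (f z.1) + 2 * Complex.normSq (g z.1) := by
        simp only [Complex.normSq_apply, Complex.add_re, Complex.add_im]
        nlinarith [sq_nonneg ((f z.1).re - (g z.1).re), sq_nonneg ((f z.1).im - (g z.1).im)]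
      have h2 : ENNReal.ofReal (Complex.normSq (f z.1 + g z.1)) ≤
          2 * ENNReal.ofReal (Complex.normSq (f z.1)) +
          2 * ENNReal.ofReal (Complex.normSq (g z.1)) := by
        refine (ENNReal.ofReal_le_ofReal h1).trans (le_of_eq ?_)
        rw [ENNReal.ofReal_add (by have := Complex.normSq_nonneg (f z.1); positivity)
          (by have := Complex.normSq_nonneg (g z.1); positivity),
          ENNReal.ofReal_mul (by norm_num), ENNReal.ofReal_mul (by norm_num)]
        norm_num
      calc wt W G z * ENNReal.ofReal (Complex.normSq (f z.1 + g z.1))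
          ≤ wt W G z * (2 * ENNReal.ofReal (Complex.normSq (f z.1)) +
          2 * ENNReal.ofReal (Complex.normSq (g z.1))) := mul_le_mul_right h2 _
        _ = _ := by ring
    refine ne_top_of_le_ne_top ?_ (lintegral_mono e)
    rw [lintegral_add_left hm1, lintegral_const_mul' _ _ (by norm_num),
      lintegral_const_mul' _ _ (by norm_num)]
    exact ENNReal.add_ne_top.mpr ⟨ENNReal.mul_ne_top (by norm_num) hf.L2,
      ENNReal.mul_ne_top (by norm_num) hg.L2⟩

/-- PROOF. Copy `Good_sum` of `H56D/L2.lean`. -/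
theorem Gd_sum {W : WD q} {G : Subgroup (Gam q)} [G.FiniteIndex] {m : ℕ}
    {f : Fin m → ℂ × ℂ → ℂ} {c : Fin m → ℂ} {lam : ℝ}
    (h : ∀ i, c i ≠ 0 → Gd W G (f i) lam) :
    Gd W G (fun z => ∑ i, c i * f i z) lam := by
  have key : ∀ S : Finset (Fin m), Gd W G (fun z => ∑ i ∈ S, c i * f i z) lam := by
    intro S
    induction S using Finset.induction_on with
    | empty => simpa using B2_zero
    | insert a S ha ih =>
      simp only [Finset.sum_insert ha]
      by_cases hc : c a = 0
      · simp only [hc, zero_mul, zero_add]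
        exact ih
      · exact B2_add (B2_const_mul (h a hc) (c a)) ih
  exact key Finset.univ

/-- PROOF. Copy `Good_memLp`. -/
theorem Gd_memLp {W : WD q} {G : Subgroup (Gam q)} [G.FiniteIndex] {f : ℂ × ℂ → ℂ}
    {lam : ℝ} (h : Gd W G f lam) : MemLp (fun z : X => f z.1) 2 (rh W G) := by
  have hc := L2_meas h.smooth
  refine ⟨hc.aestronglyMeasurable, ?_⟩
  rw [eLpNorm_lt_top_iff_lintegral_rpow_enorm_lt_top (by norm_num) (by norm_num)]
  have hm : Measurable fun z : X => ENNReal.ofReal (Complex.normSq (f z.1)) :=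
    ENNReal.measurable_ofReal.comp (Complex.continuous_normSq.measurable.comp hc.measurable)
  have e : ∀ z : X, ‖f z.1‖ₑ ^ (2 : ℝ≥0∞).toReal = ENNReal.ofReal (Complex.normSq (f z.1)) := by
    intro z
    rw [ENNReal.toReal_ofNat, Complex.normSq_eq_norm_sq, ENNReal.ofReal_pow (norm_nonneg _),
      ofReal_norm, ENNReal.rpow_ofNat]
  simp only [e]
  unfold rh
  rw [lintegral_withDensity_eq_lintegral_mul _ (measurable_wt W G) hm]
  exact lt_top_iff_ne_top.mpr h.L2

/-- PROOF. Copy `ae_zero` of `H56D/G4.lean`. -/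
theorem ae_zero_w {W : WD q} {G : Subgroup (Gam q)} [G.FiniteIndex] {F : ℂ × ℂ → ℂ}
    (hF : ContinuousOn F U)
    (hinv : ∀ γ : Gam q, γ ∈ G → ∀ z ∈ U, F (act (mat γ.1) z) = F z)
    (h : (fun z : X => F z.1) =ᵐ[rh W G] 0) : ∀ z ∈ U, F z = 0 := by
  have hc : Continuous fun z : X => Complex.normSq (F z.1) :=
    Complex.continuous_normSq.comp (continuousOn_iff_continuous_domRestrict.mp hF)
  have hm : Measurable fun z : X => ENNReal.ofReal (Complex.normSq (F z.1)) :=
    (ENNReal.continuous_ofReal.comp hc).measurable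
  have hcountA : Countable (Gam q) := countable_arith finite_ball
  have hcountG : Countable G := inferInstance
  have h0 : ∀ᵐ z : X ∂mu, wt W G z ≠ 0 → F z.1 = 0 :=
    (ae_withDensity_iff (measurable_wt W G)).1 h
  have h1 := unfold_lintegral (G := G) (measurable_wt W G) (c := 1)
    (Filter.Eventually.of_forall (sum_wt W G)) hm
  rw [one_mul] at h1
  have h2 : ∫⁻ z, wt W G z * ∑' γ : G,
      ENNReal.ofReal (Complex.normSq (F (γ • z : X).1)) ∂mu = 0 := by
    have h3 : ∀ z : X, ∀ γ : G, ENNReal.ofReal (Complex.normSq (F (γ • z : X).1)) =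
        ENNReal.ofReal (Complex.normSq (F z.1)) := by
      intro z γ
      have h4 : (γ • z : X).1 = act (mat γ.1.1) z.1 := rfl
      rw [h4, hinv γ.1 γ.2 z.1 z.2]
    simp only [h3]
    refine (lintegral_congr_ae ?_).trans lintegral_zero
    filter_upwards [h0] with z hz
    by_cases hw : wt W G z = 0
    · rw [hw, zero_mul]
    · rw [hz hw]
      simp
  rw [h2] at h1
  have h5 : (fun z : X => Complex.normSq (F z.1)) =ᵐ[mu] fun _ => 0 := by
    rw [lintegral_eq_zero_iff hm] at h1
    filter_upwards [h1] with z hz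
    have h8 : Complex.normSq (F z.1) ≤ 0 := ENNReal.ofReal_eq_zero.mp hz
    exact le_antisymm h8 (Complex.normSq_nonneg _)
  have h6 := (Continuous.ae_eq_iff_eq mu hc continuous_const).mp h5
  intro z hz
  have h7 := congrFun h6 (⟨z, hz⟩ : X)
  exact Complex.normSq_eq_zero.1 h7

end

end Pool.Agent.Lib.H80D
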