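import Pool.Agent.Lib.H80D.B2
import Pool.Agent.Lib.H56D.E1

/-!
# B3: the periodised kernel
-/

namespace Pool.Agent.Lib.H80D

open Matrix hiding J
open MeasureTheory Topology Filter
open Pool.Agent.Lib.H56.Picard hiding O Gam mem_Gam star_mem_O T_mem sg_mem
open Pool.Agent.Lib.H56.Gen hiding dd dd_pos
open Pool.Agent.Lib.H56D hiding om wG rho Eig Good K0
open scoped ENNReal

noncomputable section

variable {q : QD}

lemma B3_unfold {W : WD q} {G : Subgroup (Gam q)} [G.FiniteIndex] {e : ℂ × ℂ → ℝ}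
    (he : ContinuousOn e U) (hinv : ∀ γ : Gam q, γ ∈ G → ∀ z ∈ U, e (act (mat γ.1) z) = e z)
    {L : ℝ} {x : ℂ × ℂ} (hx : x ∈ U) :
    Integrable (fun z : X => (wt W G z).toReal * (PK G L x z * e z.1)) mu ∧
    ∫ z : X, (wt W G z).toReal * (PK G L x z * e z.1) ∂mu = ∫ w : X, ker 3 L x w.1 * e w.1 ∂mu := by
  have := f4_countable G
  have hec : Measurable (fun z : X => e z.1) :=
    (continuousOn_iff_continuous_domRestrict.1 he).measurable
  have hΦ : Integrable (fun w : X => ker 3 L x w.1 * e w.1) mu :=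
    ker_integrable (by norm_num) L hx he
  have hΦm : Measurable (fun w : X => ker 3 L x w.1 * e w.1) := (f4_measurable_ker L hx).mul hec
  have hb := PK_basic G (L := L) hx
  have hinv' : ∀ (γ : G) (z : X), e (γ • z : X).1 = e z.1 := fun γ z => hinv γ.1 γ.2 z.1 z.2
  have h1 : ∀ z : X, ∑' γ : G, ker 3 L x (γ • z : X).1 * e (γ • z : X).1 = PK G L x z * e z.1 := by
    intro z
    simp only [hinv']
    rw [tsum_mul_right]
    rfl
  refine ⟨?_, ?_⟩
  · refine ⟨((measurable_wt W G).ennreal_toReal.mul (hb.2.1.mul hec)).aestronglyMeasurable, ?_⟩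
    rw [HasFiniteIntegral]
    have h2 := unfold_lintegral (G := G) (measurable_wt W G) (c := 1)
      (Filter.Eventually.of_forall (sum_wt W G)) hΦm.enorm
    rw [one_mul] at h2
    have h3 : ∫⁻ z, ‖(wt W G z).toReal * (PK G L x z * e z.1)‖ₑ ∂mu ≤
        ∫⁻ z, wt W G z * ∑' γ : G, ‖ker 3 L x (γ • z : X).1 * e (γ • z : X).1‖ₑ ∂mu := by
      refine lintegral_mono fun z => ?_
      rw [enorm_mul, Real.enorm_of_nonneg ENNReal.toReal_nonneg]
      refine mul_le_mul' ENNReal.ofReal_toReal_le ?_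
      rw [enorm_mul, Real.enorm_of_nonneg (hb.1 z), hb.2.2.2.1 z, ← ENNReal.tsum_mul_right]
      refine ENNReal.tsum_le_tsum fun γ => ?_
      rw [enorm_mul, hinv', Real.enorm_of_nonneg (ker_nonneg _ _ _ _)]
      exact le_rfl
    refine lt_of_le_of_lt h3 ?_
    rw [← h2]
    exact hΦ.2
  · have h2 := unfold_integral (G := G) (measurable_wt W G) ENNReal.one_ne_top
      (Filter.Eventually.of_forall (sum_wt W G)) hΦ hΦm
    rw [ENNReal.toReal_one, one_mul] at h2
    rw [h2]
    refine integral_congr_ae (Filter.Eventually.of_forall fun z => ?_)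
    simp only
    rw [h1 z]

/-- PROOF. Copy `PK_integral` of `H56D/F4.lean` (with `f4_unfold`). -/
theorem PKw_int {W : WD q} {G : Subgroup (Gam q)} [G.FiniteIndex] {e : ℂ × ℂ → ℂ} {l : ℝ}
    (he : Gd W G e l) {L : ℝ} {x : ℂ × ℂ} (hx : x ∈ U) :
    Integrable (fun z : X => (PK G L x z : ℂ) * e z.1) (rh W G) ∧
      ∫ z : X, (PK G L x z : ℂ) * e z.1 ∂(rh W G) = ∫ w : X, (ker 3 L x w.1 : ℂ) * e w.1 ∂mu := by
  have hce : ContinuousOn e U := he.smooth.continuousOn
  have hre : ContinuousOn (fun w => (e w).re) U := Complex.continuous_re.comp_continuousOn hce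
  have him : ContinuousOn (fun w => (e w).im) U := Complex.continuous_im.comp_continuousOn hce
  obtain ⟨i1, e1⟩ := B3_unfold (W := W) (G := G) hre
    (fun γ hγ z hz => by rw [he.inv γ hγ z hz]) (L := L) hx
  obtain ⟨i2, e2⟩ := B3_unfold (W := W) (G := G) him
    (fun γ hγ z hz => by rw [he.inv γ hγ z hz]) (L := L) hx
  have j1 := ker_integrable (p := 3) (by norm_num) L hx hre
  have j2 := ker_integrable (p := 3) (by norm_num) L hx him
  have hlt : ∀ᵐ z : X ∂mu, wt W G z < ⊤ :=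
    Filter.Eventually.of_forall fun z => lt_top_iff_ne_top.2 (wt_ne_top W G z)
  rw [rh, integrable_withDensity_iff_integrable_smul' (measurable_wt W G) hlt,
    integral_withDensity_eq_integral_toReal_smul (measurable_wt W G)
    (Filter.Eventually.of_forall fun z => lt_top_iff_ne_top.2 (wt_ne_top W G z))]
  have h1 : (fun z : X => (wt W G z).toReal • ((PK G L x z : ℂ) * e z.1)) = fun z : X =>
      (((wt W G z).toReal * (PK G L x z * (e z.1).re) : ℝ) : ℂ) +
        (((wt W G z).toReal * (PK G L x z * (e z.1).im) : ℝ) : ℂ) * Complex.I := by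
    funext z
    conv_lhs => rw [← Complex.re_add_im (e z.1)]
    rw [Complex.real_smul]
    push_cast
    ring
  have h2 : (fun w : X => (ker 3 L x w.1 : ℂ) * e w.1) = fun w : X =>
      ((ker 3 L x w.1 * (e w.1).re : ℝ) : ℂ) +
        ((ker 3 L x w.1 * (e w.1).im : ℝ) : ℂ) * Complex.I := by
    funext z
    conv_lhs => rw [← Complex.re_add_im (e z.1)]
    push_cast
    ring
  refine ⟨?_, ?_⟩
  · rw [h1]
    exact i1.ofReal.add (i2.ofReal.mul_const _)
  rw [h1, h2, integral_add i1.ofReal (i2.ofReal.mul_const _), integral_add j1.ofReal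
    (j2.ofReal.mul_const _), integral_mul_const, integral_mul_const,
    integral_complex_ofReal, integral_complex_ofReal, integral_complex_ofReal,
    integral_complex_ofReal, e1, e2]

/-- PROOF. As `PK_square` of `H56D/F4.lean`: `unfold_lintegral` with `Φ(z) = ker(x,z) PK(y,z)` and the
invariance of `PK(y,·)`, then `lintegral_tsum`. -/
theorem PKw_mul (W : WD q) {G : Subgroup (Gam q)} [G.FiniteIndex] {L : ℝ} {x y : ℂ × ℂ}
    (hx : x ∈ U) (hy : y ∈ U) :
    ∫⁻ z, ENNReal.ofReal (PK G L x z) * ENNReal.ofReal (PK G L y z) ∂(rh W G) =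
      ∑' γ : G, ∫⁻ w : X, ENNReal.ofReal (ker 3 L x w.1) *
        ENNReal.ofReal (ker 3 L y (act (mat γ.1.1) w.1)) ∂mu := by
  have := f4_countable G
  have hb := PK_basic G (L := L) hx
  have hb' := PK_basic G (L := L) hy
  have hk := (f4_measurable_ker L hx).ennreal_ofReal
  have hP := hb.2.1.ennreal_ofReal
  have hP' := hb'.2.1.ennreal_ofReal
  have hPP : Measurable fun a : X => ENNReal.ofReal (PK G L x a) * ENNReal.ofReal (PK G L y a) :=
    hP.mul hP'
  rw [rh, lintegral_withDensity_eq_lintegral_mul _ (measurable_wt W G) hPP]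
  have h2 := unfold_lintegral (G := G) (measurable_wt W G) (c := 1)
    (Filter.Eventually.of_forall (sum_wt W G)) (hk.mul hP')
  rw [one_mul] at h2
  have h3 : ∀ z : X, (wt W G * fun a => ENNReal.ofReal (PK G L x a) *
      ENNReal.ofReal (PK G L y a)) z = wt W G z *
      ∑' γ : G, ((fun z : X => ENNReal.ofReal (ker 3 L x z.1)) *
        fun z => ENNReal.ofReal (PK G L y z)) (γ • z) := by
    intro z
    simp only [Pi.mul_apply, hb'.2.2.2.2]
    rw [ENNReal.tsum_mul_right]
    have h4 : ∑' γ : G, ENNReal.ofReal (ker 3 L x (γ • z : X).1) = ENNReal.ofReal (PK G L x z) :=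
      (hb.2.2.2.1 z).symm
    rw [h4]
  have h5 : (fun z : X => (wt W G * fun a => ENNReal.ofReal (PK G L x a) *
      ENNReal.ofReal (PK G L y a)) z) = fun z => wt W G z *
      ∑' γ : G, ((fun z : X => ENNReal.ofReal (ker 3 L x z.1)) *
        fun z => ENNReal.ofReal (PK G L y z)) (γ • z) := funext h3
  calc ∫⁻ z, (wt W G * fun a => ENNReal.ofReal (PK G L x a) *
      ENNReal.ofReal (PK G L y a)) z ∂mu = ∫⁻ z, wt W G z *
      ∑' γ : G, ((fun z : X => ENNReal.ofReal (ker 3 L x z.1)) *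
        fun z => ENNReal.ofReal (PK G L y z)) (γ • z) ∂mu := by rw [h5]
    _ = ∫⁻ z, ((fun z : X => ENNReal.ofReal (ker 3 L x z.1)) *
        fun z => ENNReal.ofReal (PK G L y z)) z ∂mu := h2.symm
    _ = _ := by
      simp only [Pi.mul_apply, hb'.2.2.2.1, ← ENNReal.tsum_mul_left]
      rw [lintegral_tsum]
      intro γ
      exact (hk.mul ((f4_measurable_ker L hy).comp
        (f4_measurable_smul G γ)).ennreal_ofReal).aemeasurable

/-- PROOF. `ker 3 L y (γ w) = ker 3 L (γ⁻¹ y) w` (`ker_act`, `act_act`), `conv_le`, and `γ ↦ γ⁻¹`. -/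
theorem PKw_mul_le (W : WD q) {G : Subgroup (Gam q)} [G.FiniteIndex] {L : ℝ} (hL : 1 ≤ L)
    {x y : ℂ × ℂ} (hx : x ∈ U) (hy : y ∈ U) :
    ∫⁻ z, ENNReal.ofReal (PK G L x z) * ENNReal.ofReal (PK G L y z) ∂(rh W G) ≤
      ∑' γ : G, FL L (sgm x (act (mat γ.1.1) y)) := by
  rw [PKw_mul W hx hy]
  have h1 : ∀ γ : G, ∫⁻ w : X, ENNReal.ofReal (ker 3 L x w.1) *
      ENNReal.ofReal (ker 3 L y (act (mat γ.1.1) w.1)) ∂mu ≤
      FL L (sgm x (act (mat (γ⁻¹ : G).1.1) y)) := by
    intro γ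
    have h2 : ∀ w : X, ker 3 L y (act (mat γ.1.1) w.1) =
        ker 3 L (act (mat (γ⁻¹ : G).1.1) y) w.1 := by
      intro w
      have h3 : act (mat γ.1.1) w.1 ∈ U := act_mem_U γ.1.1 w.2
      rw [← ker_act 3 L (γ⁻¹ : G).1.1 hy h3, act_act _ _ w.2]
      have h4 : (γ⁻¹ : G).1.1 * γ.1.1 = 1 := by
        have h5 : (γ⁻¹ : G).1.1 = (γ.1.1)⁻¹ := rfl
        rw [h5, inv_mul_cancel]
      rw [h4]
      congr 1
      exact congrArg Subtype.val (one_smul SU21 w)
    simp only [h2]
    exact conv_le hx (act_mem_U _ hy) hL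
  refine (ENNReal.tsum_le_tsum h1).trans ?_
  exact le_of_eq ((Equiv.inv G).tsum_eq fun γ : G => FL L (sgm x (act (mat γ.1.1) y)))

end

end Pool.Agent.Lib.H80D
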