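import Pool.Agent.Lib.H80D.B3
import Pool.Agent.Lib.H56D.G1
import Pool.Agent.Lib.H56D.D3

/-!
# B4: the pre-trace inequality for a finite set of elements
-/

namespace Pool.Agent.Lib.H80D

open Matrix hiding J
open MeasureTheory Topology Filter
open Pool.Agent.Lib.H56.Picard hiding O Gam mem_Gam star_mem_O T_mem sg_mem
open Pool.Agent.Lib.H56.Gen hiding dd dd_pos
open Pool.Agent.Lib.H56D hiding om wG rho Eig Good K0
open scoped ENNReal

noncomputable section

variable {q : QD}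

/-- PROOF. Sum over `r ∈ R` of `PKw_int` at the points `r x`:
`∫ ker(r x, w) e(w) dμ = ∫ ker(x, w) e(r w) dμ` (`measurePreserving_smul`, `ker_act`), then `hR`. -/
theorem PR_int {W : WD q} {G : Subgroup (Gam q)} [G.FiniteIndex] {e : ℂ × ℂ → ℂ} {l : ℝ}
    (he : Gd W G e l) {R : Finset SU21} {a : ℂ}
    (hR : ∀ z ∈ U, ∑ r ∈ R, e (act (mat r) z) = a * e z) {L : ℝ} {x : ℂ × ℂ} (hx : x ∈ U) :
    ∫ z : X, (PR G R L x z : ℂ) * e z.1 ∂(rh W G) =
      a * ∫ w : X, (ker 3 L x w.1 : ℂ) * e w.1 ∂mu := by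
  have hce : ContinuousOn e U := he.smooth.continuousOn
  have h1 : (fun z : X => (PR G R L x z : ℂ) * e z.1) =
      fun z : X => ∑ r ∈ R, (PK G L (act (mat r) x) z : ℂ) * e z.1 := by
    funext z
    rw [PR]
    push_cast
    rw [Finset.sum_mul]
  have hsm : ∀ (r : SU21) (w : X), (r • w : X).1 = act (mat r) w.1 := fun r w => rfl
  have h2 : ∀ r : SU21, Integrable (fun w : X => (ker 3 L x w.1 : ℂ) * e (act (mat r) w.1)) mu ∧
      ∫ w : X, (ker 3 L (act (mat r) x) w.1 : ℂ) * e w.1 ∂mu =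
        ∫ w : X, (ker 3 L x w.1 : ℂ) * e (act (mat r) w.1) ∂mu := by
    intro r
    have hfun : (fun w : X => (ker 3 L x w.1 : ℂ) * e (act (mat r) w.1)) =
        fun w : X => (fun w : X => (ker 3 L (act (mat r) x) w.1 : ℂ) * e w.1) (r • w) := by
      funext w
      simp only [hsm]
      rw [ker_act 3 L r hx w.2]
    constructor
    · rw [hfun]
      exact (measurePreserving_smul r mu).integrable_comp_of_integrable
        (d3_integrable hce (act_mem_U r hx) L)
    · rw [hfun]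
      exact (integral_smul_eq_self (μ := mu)
        (fun w : X => (ker 3 L (act (mat r) x) w.1 : ℂ) * e w.1) (g := r)).symm
  rw [h1, integral_finset_sum _ fun r _ => (PKw_int he (act_mem_U r hx)).1]
  have h3 : ∀ r ∈ R, ∫ z : X, (PK G L (act (mat r) x) z : ℂ) * e z.1 ∂(rh W G) =
      ∫ w : X, (ker 3 L x w.1 : ℂ) * e (act (mat r) w.1) ∂mu := by
    intro r _
    rw [(PKw_int he (act_mem_U r hx)).2, (h2 r).2]
  rw [Finset.sum_congr rfl h3, ← integral_finset_sum _ fun r _ => (h2 r).1, ← integral_const_mul]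
  refine integral_congr_ae (Filter.Eventually.of_forall fun w => ?_)
  simp only
  rw [← Finset.mul_sum, hR w.1 w.2]
  ring

/-- PROOF. Expand the square and use `PKw_mul_le` for `r x` and `s x`:
`σ(r x, γ s x) = σ(x, r⁻¹ γ s x)` (`sgm_act`, `act_act`). -/
theorem PR_sq (W : WD q) {G : Subgroup (Gam q)} [G.FiniteIndex] {R : Finset SU21} {L : ℝ}
    (hL : 1 ≤ L) {x : ℂ × ℂ} (hx : x ∈ U) :
    ∫⁻ z, ENNReal.ofReal (PR G R L x z) ^ 2 ∂(rh W G) ≤
      ∑ r ∈ R, ∑ s ∈ R, ∑' γ : G, FL L (sgm x (act (mat (r⁻¹ * γ.1.1 * s)) x)) := by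
  have hm : ∀ r : SU21, Measurable fun z : X => ENNReal.ofReal (PK G L (act (mat r) x) z) :=
    fun r => (PK_basic G (L := L) (act_mem_U r hx)).2.1.ennreal_ofReal
  have h1 : ∀ z : X, ENNReal.ofReal (PR G R L x z) ^ 2 =
      ∑ r ∈ R, ∑ s ∈ R, ENNReal.ofReal (PK G L (act (mat r) x) z) *
        ENNReal.ofReal (PK G L (act (mat s) x) z) := by
    intro z
    rw [PR, ENNReal.ofReal_sum_of_nonneg
      fun r _ => (PK_basic G (L := L) (act_mem_U r hx)).1 z, sq, Finset.sum_mul_sum]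
  simp only [h1]
  have hmm : ∀ r s : SU21, Measurable fun z : X => ENNReal.ofReal (PK G L (act (mat r) x) z) *
      ENNReal.ofReal (PK G L (act (mat s) x) z) := fun r s => (hm r).mul (hm s)
  have hms : ∀ r : SU21, Measurable fun z : X => ∑ s ∈ R,
      ENNReal.ofReal (PK G L (act (mat r) x) z) * ENNReal.ofReal (PK G L (act (mat s) x) z) :=
    fun r => Finset.measurable_fun_sum _ fun s _ => hmm r s
  rw [lintegral_finset_sum _ fun r _ => hms r]
  refine Finset.sum_le_sum fun r _ => ?_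
  rw [lintegral_finset_sum _ fun s _ => hmm r s]
  refine Finset.sum_le_sum fun s _ => ?_
  refine (PKw_mul_le W hL (act_mem_U r hx) (act_mem_U s hx)).trans (le_of_eq ?_)
  refine tsum_congr fun γ => ?_
  congr 1
  have hs := act_mem_U s hx
  have hγ := act_mem_U γ.1.1 hs
  have h2 := sgm_act r⁻¹ (act_mem_U r hx) hγ
  rw [act_act r⁻¹ r hx, act_act γ.1.1 s hx, act_act r⁻¹ (γ.1.1 * s) hx, inv_mul_cancel] at h2
  have h3 : act (mat (1 : SU21)) x = x := by
    have h := one_smul SU21 (⟨x, hx⟩ : X)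
    exact congrArg Subtype.val h
  rw [h3] at h2
  rw [act_act γ.1.1 s hx, ← h2, mul_assoc]

/-- PROOF. `bessel (rh W G)` for `Φ = PR G R L x` (measurable and nonnegative by `PK_basic`), `PR_int`,
`PR_sq`. -/
theorem hecke_pretrace {W : WD q} {G : Subgroup (Gam q)} [G.FiniteIndex] {m : ℕ}
    {e : Fin m → ℂ × ℂ → ℂ} {l : Fin m → ℝ} (he : ∀ i, Gd W G (e i) (l i))
    (hon : ∀ i j, ∫ z : X, star (e i z.1) * e j z.1 ∂(rh W G) = if i = j then 1 else 0)
    {R : Finset SU21} {a : Fin m → ℂ}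
    (hR : ∀ i, ∀ z ∈ U, ∑ r ∈ R, e i (act (mat r) z) = a i * e i z) {L : ℝ} (hL : 1 ≤ L)
    {x : ℂ × ℂ} (hx : x ∈ U) :
    ∑ i, ENNReal.ofReal ((‖a i‖ * ‖∫ w : X, (ker 3 L x w.1 : ℂ) * e i w.1 ∂mu‖) ^ 2) ≤
      ∑ r ∈ R, ∑ s ∈ R, ∑' γ : G, FL L (sgm x (act (mat (r⁻¹ * γ.1.1 * s)) x)) := by
  have hm : Measurable (PR G R L x) := by
    unfold PR
    exact Finset.measurable_fun_sum _ fun r _ => (PK_basic G (L := L) (act_mem_U r hx)).2.1
  have h0 : ∀ z, 0 ≤ PR G R L x z := fun z =>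
    Finset.sum_nonneg fun r _ => (PK_basic G (L := L) (act_mem_U r hx)).1 z
  have h1 := bessel (rh W G) (fun i (z : X) => e i z.1) (fun i => Gd_memLp (he i)) hon hm h0
  simp only [PR_int (he _) (hR _) hx, norm_mul] at h1
  exact h1.trans (PR_sq W hL hx)

end

end Pool.Agent.Lib.H80D
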