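import Pool.Agent.Lib.H80D.TA2

/-!
# TA4: upper bound for the number of common neighbours
-/

namespace Pool.Agent.Lib.H80D

open Pool.Agent.Lib.H80C

variable {G : Type} [Group G] {p : ℕ}

/-- The spherical function at the bottom of the tempered spectrum, times `p ^ (4 j)`:
`p ^ (2 j) (1 + β' j)`, `β' = β/(1 + p⁻³)`, `β = 1 + (p - 1)/p² - p⁻³`. -/
noncomputable def sph (p : ℕ) (j : ℕ) : ℝ :=
  (1 + (1 + ((p : ℝ) - 1) / p ^ 2 - 1 / p ^ 3) / (1 + 1 / p ^ 3) * j) / (p : ℝ) ^ (2 * j)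

/-- Splitting a sum over the neighbours. -/
lemma ta4_sum (T : HT G p) (F : ℕ → ℝ) {g : G} (hg : 1 ≤ T.ht g) :
    ∑ i, F (T.ht (T.s i * g)) = F (T.ht g - 1) + ((p - 1 : ℕ) : ℝ) * F (T.ht g) +
      (p : ℝ) ^ 4 * F (T.ht g + 1) := by
  classical
  have h1 : ∀ i, F (T.ht (T.s i * g)) =
      (if T.ht (T.s i * g) + 1 = T.ht g then F (T.ht g - 1) else 0) +
      (if T.ht (T.s i * g) = T.ht g then F (T.ht g) else 0) +
      (if T.ht (T.s i * g) = T.ht g + 1 then F (T.ht g + 1) else 0) := by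
    intro i
    have h2 := T.le i g
    have h3 := T.ge i g
    have h4 : T.ht (T.s i * g) + 1 = T.ht g ∨ T.ht (T.s i * g) = T.ht g ∨
      T.ht (T.s i * g) = T.ht g + 1 := by omega
    rcases h4 with h4 | h4 | h4
    · rw [if_pos h4, if_neg (by omega), if_neg (by omega), add_zero, add_zero]
      congr 1
      omega
    · rw [if_neg (by omega), if_pos h4, if_neg (by omega), add_zero, zero_add, h4]
    · rw [if_neg (by omega), if_neg (by omega), if_pos h4, zero_add, zero_add, h4]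
  have h5 : ∀ (P : Ix p → Prop) [DecidablePred P], (Finset.univ.filter P).card = Nat.card {i // P i} := by
    intro P _
    rw [Nat.card_eq_fintype_card, Fintype.card_subtype]
  rw [Finset.sum_congr rfl fun i _ => h1 i, Finset.sum_add_distrib, Finset.sum_add_distrib,
    ← Finset.sum_filter, ← Finset.sum_filter, ← Finset.sum_filter, Finset.sum_const,
    Finset.sum_const, Finset.sum_const, h5, h5, h5, T.down g hg, T.mid g hg, T.up g hg]
  simp only [nsmul_eq_mul]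
  push_cast
  ring

/-- PROOF. With `θ₀ = 2 p² + p - 1`: `φ = sph p` satisfies `φ 0 = 1`, `(p⁴ + p) φ 1 = θ₀` and
`p⁴ φ (j + 1) + (p - 1) φ j + φ (j - 1) = θ₀ φ j` for `j ≥ 1` (field_simp, ring). Count with `zero`, `down`,
`mid`, `up` (`card_Ix`; the three sets are disjoint and their sizes add up to `p ^ 4 + p`, so there are no
other `i`). -/
theorem sph_eigen (T : HT G p) (hp : 2 ≤ p) (g : G) :
    ∑ i, sph p (T.ht (T.s i * g)) = (2 * (p : ℝ) ^ 2 + p - 1) * sph p (T.ht g) := by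
  have hx : (2 : ℝ) ≤ p := by exact_mod_cast hp
  have hx0 : (p : ℝ) ≠ 0 := by positivity
  have hx3 : (1 : ℝ) + 1 / (p : ℝ) ^ 3 ≠ 0 := by positivity
  have hx4 : (p : ℝ) ^ 3 + 1 ≠ 0 := by positivity
  rcases Nat.eq_zero_or_pos (T.ht g) with h0 | h0
  · have h1 : ∀ i, T.ht (T.s i * g) = 1 := fun i => T.zero i g h0
    simp only [h1, h0, Finset.sum_const, Finset.card_univ, card_Ix, nsmul_eq_mul, sph]
    push_cast
    field_simp
    ring
  · obtain ⟨j, hj⟩ : ∃ j, T.ht g = j + 1 := ⟨T.ht g - 1, by omega⟩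
    rw [ta4_sum T (sph p) h0, hj, Nat.add_sub_cancel, Nat.cast_sub (by omega : 1 ≤ p)]
    simp only [sph]
    set β := (1 + ((p : ℝ) - 1) / p ^ 2 - 1 / p ^ 3) / (1 + 1 / (p : ℝ) ^ 3) with hβ
    have e1 : (p : ℝ) ^ (2 * (j + 1)) = p ^ (2 * j) * p ^ 2 := by ring
    have e2 : (p : ℝ) ^ (2 * (j + 1 + 1)) = p ^ (2 * j) * p ^ 4 := by ring
    have hpj : (p : ℝ) ^ (2 * j) ≠ 0 := by positivity
    rw [e1, e2]
    push_cast
    field_simp
    ring

lemma ta4_ev (p m : ℕ) : ev p ((p : ℂ) ^ 4 + p) (m + 1) = (p : ℂ) ^ (4 * m) * (p ^ 4 + p) := by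
  induction m using Nat.strong_induction_on with
  | _ m ih =>
    match m with
    | 0 => simp [ev]
    | 1 =>
      simp only [ev]
      ring
    | (k + 2) =>
      have h1 := ih (k + 1) (by omega)
      have h2 := ih k (by omega)
      have h3 : ev p ((p : ℂ) ^ 4 + p) (k + 3) = ((p : ℂ) ^ 4 + p - (p - 1)) *
        ev p ((p : ℂ) ^ 4 + p) (k + 2) - p ^ 4 * ev p ((p : ℂ) ^ 4 + p) (k + 1) := rfl
      show ev p ((p : ℂ) ^ 4 + p) (k + 3) = _
      rw [h3, h2]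
      have h4 : ev p ((p : ℂ) ^ 4 + p) (k + 2) = (p : ℂ) ^ (4 * (k + 1)) * (p ^ 4 + p) := h1
      rw [h4]
      ring

lemma ta4_card (T : HT G p) (hp : 2 ≤ p) {m : ℕ} {R : Finset G} (hR : Reps T m R) :
    (R.card : ℝ) ≤ 2 * (p : ℝ) ^ (4 * m) := by
  have h1 := hecke_pow T (by omega : 1 ≤ p) (f := fun _ => (1 : ℂ)) (fun _ _ _ => rfl)
    (θ := (p : ℂ) ^ 4 + p) (fun g => by
      rw [Finset.sum_const, Finset.card_univ, card_Ix]
      simp) hR 1
  rw [mul_one, Finset.sum_const, nsmul_eq_mul, mul_one] at h1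
  have hx : (2 : ℝ) ≤ p := by exact_mod_cast hp
  rcases m with _ | m
  · have h2 : (R.card : ℂ) = 1 := h1
    have h3 : (R.card : ℝ) = 1 := by exact_mod_cast h2
    rw [h3]
    norm_num
  · rw [ta4_ev] at h1
    have h3 : (R.card : ℝ) = (p : ℝ) ^ (4 * m) * (p ^ 4 + p) := by exact_mod_cast h1
    rw [h3]
    have h4 : (p : ℝ) ≤ p ^ 4 := by
      have : (1 : ℝ) ≤ p ^ 3 := one_le_pow₀ (by linarith)
      calc (p : ℝ) = p * 1 := by ring
        _ ≤ p * p ^ 3 := mul_le_mul_of_nonneg_left this (by linarith)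
        _ = p ^ 4 := by ring
    calc (p : ℝ) ^ (4 * m) * (p ^ 4 + p) ≤ (p : ℝ) ^ (4 * m) * (2 * p ^ 4) :=
          mul_le_mul_of_nonneg_left (by linarith) (by positivity)
      _ = 2 * (p : ℝ) ^ (4 * (m + 1)) := by ring

lemma ta4_beta {x : ℝ} (hx : 2 ≤ x) : 0 ≤ (1 + (x - 1) / x ^ 2 - 1 / x ^ 3) / (1 + 1 / x ^ 3) ∧
    (1 + (x - 1) / x ^ 2 - 1 / x ^ 3) / (1 + 1 / x ^ 3) ≤ 2 := by
  have hx0 : 0 < x := by linarith
  have h1 : 0 ≤ 1 / x ^ 3 := by positivity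
  have h2 : 1 / x ^ 3 ≤ 1 := by
    rw [div_le_one (by positivity)]
    exact one_le_pow₀ (by linarith)
  have h3 : 0 ≤ (x - 1) / x ^ 2 := div_nonneg (by linarith) (by positivity)
  have h4 : (x - 1) / x ^ 2 ≤ 1 := by
    rw [div_le_one (by positivity)]
    nlinarith
  have h5 : 0 < 1 + 1 / x ^ 3 := by linarith
  refine ⟨div_nonneg (by linarith) h5.le, ?_⟩
  rw [div_le_iff₀ h5]
  linarith

lemma ta4_sph_pos (hp : 2 ≤ p) (j : ℕ) : 0 < sph p j := by
  have hx : (2 : ℝ) ≤ p := by exact_mod_cast hp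
  obtain ⟨h1, -⟩ := ta4_beta hx
  unfold sph
  have : (0 : ℝ) ≤ j := Nat.cast_nonneg j
  positivity

lemma ta4_sph_le (hp : 2 ≤ p) (j : ℕ) : sph p j ≤ (1 + 2 * j) / (p : ℝ) ^ (2 * j) := by
  have hx : (2 : ℝ) ≤ p := by exact_mod_cast hp
  obtain ⟨-, h1⟩ := ta4_beta hx
  unfold sph
  have : (0 : ℝ) ≤ j := Nat.cast_nonneg j
  gcongr

/-- PROOF. `hecke_pow` for `f g = sph p (ht g)`, `θ₀ = 2 p² + p - 1`:
`∑_{r ∈ R} sph (ht (r g)) = ev p θ₀ m sph (ht g)`, and for `g = 1`: `|R| sph m = ev p θ₀ m`. All terms are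
positive, so `#{r : ht (r g) = m} sph m ≤ |R| sph m sph (ht g)`. `|R| ≤ 2 p ^ (4 m)`: `hecke_pow` for the constant
function `1` and `θ = p⁴ + p` gives `|R| = ev p (p⁴ + p) m`, which is `p ^ (4 m) + p ^ (4 m - 3)` for `m ≥ 1`
(induction). And `sph j ≤ (1 + 2 j) p ^ (-2 j)`. -/
theorem card_le (T : HT G p) (hp : 2 ≤ p) {m : ℕ} {R : Finset G} (hR : Reps T m R) (g : G) :
    ((R.filter (fun r => T.ht (r * g) = m)).card : ℝ) ≤
      2 * (1 + 2 * T.ht g) * (p : ℝ) ^ (4 * m) / (p : ℝ) ^ (2 * T.ht g) := by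
  classical
  have h1 := hecke_pow T (by omega : 1 ≤ p) (f := fun g => ((sph p (T.ht g) : ℝ) : ℂ))
    (fun γ h hγ => by simp only [T.left γ h hγ]) (θ := ((2 * (p : ℝ) ^ 2 + p - 1 : ℝ) : ℂ))
    (fun g => by
      rw [← Complex.ofReal_sum, sph_eigen T hp g, Complex.ofReal_mul]) hR
  have h2 := h1 1
  have h3 := h1 g
  have h4 : ∑ r ∈ R, ((sph p (T.ht (r * 1)) : ℝ) : ℂ) = ((R.card * sph p m : ℝ) : ℂ) := by
    rw [← Complex.ofReal_sum]
    congr 1
    rw [Finset.sum_congr rfl (g := fun _ => sph p m) fun r hr => by rw [mul_one, hR.1 r hr],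
      Finset.sum_const, nsmul_eq_mul]
  have h5 : sph p (T.ht (1 : G)) = 1 := by
    rw [T.one]
    simp [sph]
  rw [h4, h5, Complex.ofReal_one, mul_one] at h2
  rw [← h2, ← Complex.ofReal_sum, ← Complex.ofReal_mul] at h3
  have h6 : ∑ r ∈ R, sph p (T.ht (r * g)) = R.card * sph p m * sph p (T.ht g) :=
    Complex.ofReal_injective h3
  have h7 : ((R.filter (fun r => T.ht (r * g) = m)).card : ℝ) * sph p m ≤
      ∑ r ∈ R, sph p (T.ht (r * g)) := by
    rw [← nsmul_eq_mul, ← Finset.sum_const]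
    calc ∑ r ∈ R.filter (fun r => T.ht (r * g) = m), sph p m =
        ∑ r ∈ R.filter (fun r => T.ht (r * g) = m), sph p (T.ht (r * g)) :=
          Finset.sum_congr rfl fun r hr => by rw [(Finset.mem_filter.1 hr).2]
      _ ≤ _ := Finset.sum_le_sum_of_subset_of_nonneg (Finset.filter_subset _ _)
          fun r _ _ => (ta4_sph_pos hp _).le
  have h8 : ((R.filter (fun r => T.ht (r * g) = m)).card : ℝ) ≤ R.card * sph p (T.ht g) := by
    have h9 := ta4_sph_pos hp m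
    have h10 : ((R.filter (fun r => T.ht (r * g) = m)).card : ℝ) * sph p m ≤
        (R.card * sph p (T.ht g)) * sph p m := by
      rw [h6] at h7
      linarith
    exact le_of_mul_le_mul_right h10 h9
  have h11 := ta4_card T hp hR
  have h12 := ta4_sph_le hp (T.ht g)
  calc ((R.filter (fun r => T.ht (r * g) = m)).card : ℝ) ≤ R.card * sph p (T.ht g) := h8
    _ ≤ (2 * (p : ℝ) ^ (4 * m)) * ((1 + 2 * T.ht g) / (p : ℝ) ^ (2 * T.ht g)) :=
        mul_le_mul h11 h12 (ta4_sph_pos hp _).le (by positivity)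
    _ = _ := by ring

/-- PROOF. If `ht (r g) = m` with `r ∈ R` then `ht g ≤ ht r⁻¹ + ht (r g) = 2 m` (`ht_mul_le`). -/
theorem card_zero (T : HT G p) {m : ℕ} {R : Finset G} (hR : Reps T m R) {g : G}
    (hg : 2 * m < T.ht g) : R.filter (fun r => T.ht (r * g) = m) = ∅ := by
  rw [Finset.filter_eq_empty_iff]
  intro r hr h
  have h1 := ht_mul_le T r⁻¹ (r * g)
  have h2 : r⁻¹ * (r * g) = g := by group
  rw [h2, T.inv, hR.1 r hr, h] at h1
  omega

end Pool.Agent.Lib.H80D
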