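import Pool.Agent.Lib.H80D.T3

/-!
# T6B: the twist
-/

namespace Pool.Agent.Lib.H80D

open Matrix
open Pool.Agent.Lib.H80C

variable {q : QF}

lemma T6B_coprime {p n : ℕ} (hp : Inert q p) (hnp : Nat.Coprime n p) :
    IsCoprime (p : ℤ) ((n : ℤ) ^ 2 * dd q) := by
  have h1 : Prime (p : ℤ) := Nat.prime_iff_prime_int.1 hp.prime
  rw [Prime.coprime_iff_not_dvd h1]
  intro h
  rcases h1.dvd_or_dvd h with h2 | h2
  · have h3 := h1.dvd_of_dvd_pow h2
    have h4 : p ∣ n := by exact_mod_cast h3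
    have h5 := Nat.Coprime.eq_one_of_dvd (Nat.coprime_comm.1 hnp) h4
    exact hp.prime.one_lt.ne' h5
  · exact not_dvd_dd hp h2

lemma T6B_dl_sq : dl q * dl q = -((dd q : ℤ) : OK q) := by
  have h1 := dl_mul q
  rw [star_dl] at h1
  linear_combination -h1

/-- PROOF. `gcd (p, n² dd) = 1` (`not_dvd_dd`): integers `d`, `c` with `p d + n² c dd = 1`. Put
`G = !![p, 0, n dl; 0, 1, 0; n c dl, 0, d]`, `G' = !![d, 0, -n dl; 0, 1, 0; -n c dl, 0, p]`
(`dl² = -dd`, `star dl = -dl`). `G' diag (p², p, 1) = !![d p², 0, -n dl; 0, p, 0; -n c p² dl, 0, p]` and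
`d p² = p - n² c dd p`. -/
theorem exists_G {p n : ℕ} (hp : Inert q p) (hn : 1 ≤ n) (hnp : Nat.Coprime n p) :
    ∃ G G' M : M3 q, G * G' = 1 ∧ G'ᴴ * JZ q * G' = JZ q ∧ G'.det = 1 ∧
      G' * diagonal ![(p : OK q) ^ 2, (p : OK q), 1] = gm n p M := by
  obtain ⟨d, c, hdc⟩ := T6B_coprime hp hnp
  have hdc' : (d : OK q) * p + c * ((n : OK q) ^ 2 * ((dd q : ℤ) : OK q)) = 1 := by
    exact_mod_cast congrArg (Int.cast : ℤ → OK q) hdc
  have hdl := T6B_dl_sq (q := q)
  have hst := star_dl q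
  refine ⟨!![(p : OK q), 0, n * dl q; 0, 1, 0; n * c * dl q, 0, d],
    !![(d : OK q), 0, -(n * dl q); 0, 1, 0; -(n * c * dl q), 0, p],
    !![-(n * c * ((dd q : ℤ) : OK q) * p), 0, -dl q; 0, 0, 0; -(c * p ^ 2 * dl q), 0, 0],
    ?_, ?_, ?_, ?_⟩
  · ext1 i j
    fin_cases i <;> fin_cases j <;>
      simp [Matrix.mul_apply, Fin.sum_univ_three] <;>
      first | linear_combination hdc' - n ^ 2 * c * hdl | ring
  · ext1 i j
    fin_cases i <;> fin_cases j <;>
      simp [Matrix.mul_apply, Fin.sum_univ_three, JZ, Matrix.conjTranspose_apply, hst, star_mul'] <;>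
      first | linear_combination hdc' - n ^ 2 * c * hdl | ring
  · rw [Matrix.det_fin_three]
    simp
    linear_combination hdc' - n ^ 2 * c * hdl
  · ext1 i j
    fin_cases i <;> fin_cases j <;>
      simp [gm, Matrix.mul_apply, Matrix.diagonal] <;>
      first | linear_combination (p : OK q) * hdc' | ring

end Pool.Agent.Lib.H80D
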