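import Pool.Agent.Lib.H80D.T6A
import Pool.Agent.Lib.H80D.T6B

/-!
# T6: the neighbours
-/

namespace Pool.Agent.Lib.H80D

open Matrix
open Pool.Agent.Lib.H80C

variable {q : QF}

lemma T6_JJ : JZ q * JZ q = 1 := by
  ext1 i j
  fin_cases i <;> fin_cases j <;> simp [JZ, Matrix.mul_apply, Fin.sum_univ_three]

lemma T6_star {m : ℕ} {z : OK q} (h : (m : OK q) ∣ star z) : (m : OK q) ∣ z := by
  obtain ⟨y, hy⟩ := h
  refine ⟨star y, ?_⟩
  have h1 := congrArg star hy
  rw [star_star, star_mul', star_natCast] at h1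
  exact h1

/-- The rows of an element of the group. -/
lemma T6_rows {L : M3 q} (h : Lᴴ * JZ q * L = JZ q) : fr (L 1) (L 2) = 0 := by
  have h1 : (JZ q * Lᴴ * JZ q) * L = 1 := by
    rw [Matrix.mul_assoc, Matrix.mul_assoc, ← Matrix.mul_assoc Lᴴ, h, T6_JJ]
  have h2 : L * (JZ q * Lᴴ * JZ q) = 1 := mul_eq_one_comm.1 h1
  have h3 : L * JZ q * Lᴴ = JZ q := by
    have h4 : L * (JZ q * Lᴴ * JZ q) * JZ q = L * JZ q * Lᴴ := by
      simp only [Matrix.mul_assoc]
      rw [T6_JJ, Matrix.mul_one]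
    rw [← h4, h2, Matrix.one_mul]
  have h5 := congrFun (congrFun h3 1) 2
  have h6 : (L * JZ q * Lᴴ) 1 2 = fr (L 1) (L 2) := by
    simp [Matrix.mul_apply, Fin.sum_univ_three, JZ, Matrix.conjTranspose_apply, fr]
    ring
  rw [h6] at h5
  rw [h5]
  simp [JZ]

lemma T6_diag (P : OK q) (hP : star P = P) :
    (diagonal ![P ^ 2, P, 1])ᴴ * JZ q * diagonal ![P ^ 2, P, 1] = (P ^ 2) • JZ q := by
  ext1 i j
  fin_cases i <;> fin_cases j <;>
    simp [JZ, Matrix.mul_apply, Fin.sum_univ_three, Matrix.diagonal, hP, star_pow] <;> ring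

/-- PROOF. `S = G' Δ L`, `Δ = diagonal ![p², p, 1]`, `G`, `G'` as in `exists_G`, `L` as in `exists_L`.
`Δ J Δ = p² J`, so `GE p 1 S`; `S = (p + n M₁) (1 + n M₂)`. `HasRow`: `G S = Δ L`, so (row `2` of `G`) `ᵥ* S`
is the last row `L 2 ≡ lam r`; multiply by an inverse of `lam` modulo `p ^ 2`. The row `i` of `S` is
`G' i 0 p² L 0 + G' i 1 p L 1 + G' i 2 L 2 ≡ (G' i 2 lam) r + p (G' i 1 • L 1)` modulo `p ^ 2`; and
`fr (L 1) (L 2) = 0` (entry `1 2` of `L J Lᴴ = J`) gives `star lam * fr (L 1) r ≡ 0` modulo `p`, so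
`p ∣ fr (L 1) r`. -/
theorem exists_nb {p n : ℕ} (hp : Inert q p) (hn : 1 ≤ n) (hnp : Nat.Coprime n p) (i : Ix p) :
    ∃ S M : M3 q, GE p 1 S ∧ S = gm n p M ∧ HasRow p S (rw3 q p i) := by
  obtain ⟨G, G', M₁, hGG, hG', hGdet, hGM⟩ := exists_G (q := q) hp hn hnp
  obtain ⟨L, M₂, lam, hL, hLdet, hLM, hlam, hrow⟩ := exists_L hp hn hnp i
  have hsP : star (p : OK q) = (p : OK q) := star_natCast _
  have hΔ := T6_diag (p : OK q) hsP
  set Δ : M3 q := diagonal ![(p : OK q) ^ 2, (p : OK q), 1] with hΔdef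
  have hp2 : ((p ^ 2 : ℕ) : OK q) = (p : OK q) ^ 2 := by push_cast; rfl
  -- the row of Δ L
  have hΔL0 : ∀ k, (Δ * L) 0 k = (p : OK q) ^ 2 * L 0 k := by
    intro k
    rw [hΔdef, Matrix.diagonal_mul]
    simp
  have hΔL1 : ∀ k, (Δ * L) 1 k = (p : OK q) * L 1 k := by
    intro k
    rw [hΔdef, Matrix.diagonal_mul]
    simp
  have hΔL2 : ∀ k, (Δ * L) 2 k = L 2 k := by
    intro k
    rw [hΔdef, Matrix.diagonal_mul]
    simp
  refine ⟨G' * Δ * L, M₁ + (p : OK q) • M₂ + (n : OK q) • (M₁ * M₂), ⟨?_, ?_⟩, ?_, ?_, ?_⟩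
  · rw [Matrix.conjTranspose_mul, Matrix.conjTranspose_mul]
    have e1 : Lᴴ * (Δᴴ * G'ᴴ) * JZ q * (G' * Δ * L) = Lᴴ * (Δᴴ * (G'ᴴ * JZ q * G') * Δ) * L := by
      simp only [Matrix.mul_assoc]
    rw [e1, hG', hΔ, Matrix.mul_smul, Matrix.smul_mul, hL]
  · rw [Matrix.det_mul, Matrix.det_mul, hGdet, hLdet, hΔdef, Matrix.det_diagonal,
      Fin.prod_univ_three]
    simp
    ring
  · rw [hGM, hLM]
    unfold gm
    rw [Matrix.add_mul, Matrix.mul_add, Matrix.mul_add]
    ext1 a b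
    simp only [Matrix.add_apply, Matrix.smul_apply, Matrix.smul_mul, Matrix.mul_smul,
      Matrix.one_mul, Matrix.mul_one, smul_eq_mul, Nat.cast_one, one_smul]
    ring
  · obtain ⟨m, hm⟩ := inv_mod hp hlam 2
    refine ⟨m • G 2, fun k => ?_⟩
    have e1 : (m • G 2) ᵥ* (G' * Δ * L) = m • L 2 := by
      rw [Matrix.smul_vecMul, ← Matrix.mul_apply_eq_vecMul]
      have e2 : G * (G' * Δ * L) = Δ * L := by
        rw [← Matrix.mul_assoc, ← Matrix.mul_assoc, hGG, Matrix.one_mul]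
      rw [e2]
      congr 1
      funext k
      exact hΔL2 k
    rw [e1]
    have e3 : (m • L 2 - rw3 q p i) k = m * (L 2 - lam • rw3 q p i) k +
        (m * lam - 1) * rw3 q p i k := by
      simp only [Pi.sub_apply, Pi.smul_apply, smul_eq_mul]
      ring
    rw [e3]
    exact dvd_add ((hrow k).mul_left _) (hm.mul_right _)
  · intro a
    refine ⟨G' a 2 * lam, G' a 1 • L 1, fun k => ?_, ?_⟩
    · have e1 : (G' * Δ * L) a k = G' a 0 * ((p : OK q) ^ 2 * L 0 k) + G' a 1 * ((p : OK q) * L 1 k) +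
          G' a 2 * L 2 k := by
        rw [Matrix.mul_assoc, Matrix.mul_apply, Fin.sum_univ_three, hΔL0, hΔL1, hΔL2]
      have e2 : ((G' * Δ * L) a - (G' a 2 * lam) • rw3 q p i - (p : OK q) • G' a 1 • L 1) k =
          (p : OK q) ^ 2 * (G' a 0 * L 0 k) + G' a 2 * (L 2 - lam • rw3 q p i) k := by
        simp only [Pi.sub_apply, Pi.smul_apply, smul_eq_mul]
        rw [e1]
        ring
      rw [e2]
      refine dvd_add ?_ ((hrow k).mul_left _)
      rw [hp2]
      exact dvd_mul_right _ _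
    · have h1 : (p : OK q) ∣ star lam * fr (L 1) (rw3 q p i) := by
        have e1 : star lam * fr (L 1) (rw3 q p i) = fr (L 1) (L 2) -
            (L 1 0 * star ((L 2 - lam • rw3 q p i) 2) + L 1 1 * star ((L 2 - lam • rw3 q p i) 1) +
              L 1 2 * star ((L 2 - lam • rw3 q p i) 0)) := by
          unfold fr
          simp only [Pi.sub_apply, Pi.smul_apply, smul_eq_mul, star_sub, star_mul']
          ring
        rw [e1, T6_rows hL, zero_sub, dvd_neg]
        have h2 : ∀ k, (p : OK q) ∣ star ((L 2 - lam • rw3 q p i) k) := by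
          intro k
          obtain ⟨y, hy⟩ := hrow k
          refine ⟨p * star y, ?_⟩
          rw [hy, hp2, star_mul', star_pow, hsP]
          ring
        exact dvd_add (dvd_add ((h2 2).mul_left _) ((h2 1).mul_left _)) ((h2 0).mul_left _)
      have e2 : fr (G' a 1 • L 1) (rw3 q p i) = G' a 1 * fr (L 1) (rw3 q p i) := by
        unfold fr
        simp only [Pi.smul_apply, smul_eq_mul]
        ring
      rw [e2]
      rcases hp.dvd_mul h1 with h3 | h3
      · exact absurd (T6_star h3) hlam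
      · exact h3.mul_left _

end Pool.Agent.Lib.H80D
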