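import Pool.Agent.Lib.H80D.T3

/-!
# T5: matrices and their rows
-/

namespace Pool.Agent.Lib.H80D

open Matrix
open Pool.Agent.Lib.H80C

variable {q : QF}

lemma T5_vk (r : Fin 3 → OK q) (A : M3 q) (k : Fin 3) :
    (r ᵥ* A) k = r 0 * A 0 k + r 1 * A 1 k + r 2 * A 2 k := by
  simp [Matrix.vecMul, dotProduct, Fin.sum_univ_three]

lemma T5_dot (r x : Fin 3 → OK q) : r ⬝ᵥ x = r 0 * x 0 + r 1 * x 1 + r 2 * x 2 := by
  simp [dotProduct, Fin.sum_univ_three]

lemma T5_vecMul_left {m : ℕ} {v : Fin 3 → OK q} (h : DvV m v) (A : M3 q) : DvV m (v ᵥ* A) := by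
  intro k
  rw [T5_vk]
  exact dvd_add (dvd_add ((h 0).mul_right _) ((h 1).mul_right _)) ((h 2).mul_right _)

lemma T5_vecMul_right {m : ℕ} {A : M3 q} (h : DvM m A) (v : Fin 3 → OK q) : DvV m (v ᵥ* A) := by
  intro k
  rw [T5_vk]
  exact dvd_add (dvd_add ((h 0 k).mul_left _) ((h 1 k).mul_left _)) ((h 2 k).mul_left _)

lemma T5_add {m : ℕ} {v w : Fin 3 → OK q} (h : DvV m v) (h' : DvV m w) : DvV m (v + w) :=
  fun k => dvd_add (h k) (h' k)

lemma T5_sub {m : ℕ} {v w : Fin 3 → OK q} (h : DvV m v) (h' : DvV m w) : DvV m (v - w) :=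
  fun k => dvd_sub (h k) (h' k)

lemma T5_smul {m : ℕ} {v : Fin 3 → OK q} (h : DvV m v) (c : OK q) : DvV m (c • v) :=
  fun k => (h k).mul_left c

lemma T5_of_sq {p : ℕ} {v : Fin 3 → OK q} (h : DvV (p ^ 2) v) : DvV p v := by
  intro k
  refine dvd_trans ?_ (h k)
  push_cast
  exact dvd_pow_self _ two_ne_zero

lemma T5_star {m : ℕ} {z : OK q} (h : (m : OK q) ∣ star z) : (m : OK q) ∣ z := by
  obtain ⟨y, hy⟩ := h
  refine ⟨star y, ?_⟩
  have h1 := congrArg star hy
  rw [star_star, star_mul', star_natCast] at h1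
  exact h1

/-- From the matrix to the row. -/
lemma T5_to_row {m : ℕ} {S A : M3 q} {r c : Fin 3 → OK q} (hc : DvV m (c ᵥ* S - r))
    (h : DvM m (S * A)) : DvV m (r ᵥ* A) := by
  have h1 : DvV m (c ᵥ* (S * A)) := T5_vecMul_right h c
  rw [← Matrix.vecMul_vecMul] at h1
  have h2 := T5_sub h1 (T5_vecMul_left hc A)
  rw [Matrix.sub_vecMul, sub_sub_cancel] at h2
  exact h2

lemma T5_row_eq {p : ℕ} {S A : M3 q} {r v : Fin 3 → OK q} {α : OK q} (i : Fin 3) :
    (S * A) i = (S i - α • r - (p : OK q) • v) ᵥ* A + α • (r ᵥ* A) + (p : OK q) • (v ᵥ* A) := by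
  rw [Matrix.mul_apply_eq_vecMul, Matrix.sub_vecMul, Matrix.sub_vecMul, Matrix.smul_vecMul,
    Matrix.smul_vecMul]
  abel

/-- PROOF. If `p` divides `S A`: `c ᵥ* (S A) = (c ᵥ* S) ᵥ* A ≡ r ᵥ* A`. Conversely the row `i` of `S A` is
`S i ᵥ* A ≡ α (r ᵥ* A) + p (v ᵥ* A)`. -/
theorem hasRow_one {p : ℕ} {S A : M3 q} {r : Fin 3 → OK q} (hS : HasRow p S r) :
    DvM p (S * A) ↔ DvV p (r ᵥ* A) := by
  obtain ⟨⟨c, hc⟩, hrow⟩ := hS
  constructor
  · intro h
    exact T5_to_row (T5_of_sq hc) h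
  · intro h i
    obtain ⟨α, v, h1, _⟩ := hrow i
    have h2 : DvV p ((S * A) i) := by
      rw [T5_row_eq (p := p) (r := r) (v := v) (α := α)]
      exact T5_add (T5_add (T5_vecMul_left (T5_of_sq h1) A) (T5_smul h α))
        (fun k => dvd_mul_right _ _)
    exact h2

/-- PROOF. As in `hasRow_one`; for the converse one needs `p ∣ v ᵥ* A`, i.e. `p ∣ v ⬝ᵥ x` (`col_dvd`). Let
`u = (star (r 2), star (r 1), star (r 0))`: not divisible by `p`, `fr u u = star (fr r r)` or so is divisible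
by `p`, `fr x u = r ⬝ᵥ x` is divisible by `p` (`col_dvd`), so `x ≡ μ u` modulo `p` (`iso`), and
`v ⬝ᵥ x ≡ μ (v ⬝ᵥ u) = μ fr v r ≡ 0`. -/
theorem hasRow_two {p : ℕ} (hp : Inert q p) {S A : M3 q} {r x : Fin 3 → OK q} (hS : HasRow p S r)
    (hr : ¬DvV p r) (hr' : (p : OK q) ∣ fr r r) (hx : Col p A x) :
    DvM (p ^ 2) (S * A) ↔ DvV (p ^ 2) (r ᵥ* A) := by
  obtain ⟨⟨c, hc⟩, hrow⟩ := hS
  constructor
  · intro h
    exact T5_to_row hc h
  · intro h
    have hrx : (p : OK q) ∣ r ⬝ᵥ x := (col_dvd hx r).1 (T5_of_sq h)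
    rw [T5_dot] at hrx
    -- the vector orthogonal to r
    let u : Fin 3 → OK q := ![star (r 2), star (r 1), star (r 0)]
    have u0 : u 0 = star (r 2) := rfl
    have u1 : u 1 = star (r 1) := rfl
    have u2 : u 2 = star (r 0) := rfl
    have hu : ¬DvV p u := by
      intro h1
      apply hr
      intro k
      fin_cases k
      · exact T5_star (h1 2)
      · exact T5_star (h1 1)
      · exact T5_star (h1 0)
    have huu : (p : OK q) ∣ fr u u := by
      have : fr u u = fr r r := by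
        unfold fr
        rw [u0, u1, u2, star_star, star_star, star_star]
        ring
      rw [this]
      exact hr'
    have hxu : (p : OK q) ∣ fr x u := by
      have : fr x u = r 0 * x 0 + r 1 * x 1 + r 2 * x 2 := by
        unfold fr
        rw [u0, u1, u2, star_star, star_star, star_star]
        ring
      rw [this]
      exact hrx
    obtain ⟨μ, hμ⟩ := iso hp hu huu hxu hx.iso
    intro i
    obtain ⟨α, v, h1, h2⟩ := hrow i
    have h3 : DvV p (v ᵥ* A) := by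
      rw [col_dvd hx v, T5_dot]
      have e : v 0 * x 0 + v 1 * x 1 + v 2 * x 2 =
          μ * fr v r + (v 0 * (x 0 - μ * u 0) + v 1 * (x 1 - μ * u 1) + v 2 * (x 2 - μ * u 2)) := by
        unfold fr
        rw [u0, u1, u2]
        ring
      rw [e]
      exact dvd_add (h2.mul_left _) (dvd_add (dvd_add ((hμ 0).mul_left _) ((hμ 1).mul_left _))
        ((hμ 2).mul_left _))
    have h4 : DvV (p ^ 2) ((S * A) i) := by
      rw [T5_row_eq (p := p) (r := r) (v := v) (α := α)]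
      refine T5_add (T5_add (T5_vecMul_left h1 A) (T5_smul h α)) (fun k => ?_)
      obtain ⟨y, hy⟩ := h3 k
      refine ⟨y, ?_⟩
      show (p : OK q) * (v ᵥ* A) k = _
      rw [hy]
      push_cast
      ring
    exact h4

end Pool.Agent.Lib.H80D
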