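import Pool.Agent.Lib.H80D.T4
import Pool.Agent.Lib.H80D.T5

/-!
# T7: the number of neighbours nearer to a given vertex
-/

namespace Pool.Agent.Lib.H80D

open Matrix
open Pool.Agent.Lib.H80C

variable {q : QF}

/-- PROOF. `exists_col`, `hasRow_one`, `card_one`. -/
theorem nb_one {p j : ℕ} (hp : Inert q p) (hj : 1 ≤ j) {S : Ix p → M3 q}
    (hS : ∀ i, HasRow p (S i) (rw3 q p i)) {A : M3 q} (hA : GE p j A) (hA' : ¬DvM p A) :
    Nat.card {i : Ix p // DvM p (S i * A)} = p := by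
  obtain ⟨x, hx⟩ := exists_col hp hj hA hA'
  have h1 := card_one hp hx
  refine Eq.trans ?_ h1
  apply Nat.card_congr
  exact Equiv.subtypeEquivRight (fun i => hasRow_one (hS i))

/-- PROOF. `exists_col`, `hasRow_two` (`rw3_prim`, `rw3_iso`), `exists_two`, `unique_two`. -/
theorem nb_two {p j : ℕ} (hp : Inert q p) (hj : 1 ≤ j) {S : Ix p → M3 q}
    (hS : ∀ i, HasRow p (S i) (rw3 q p i)) {A : M3 q} (hA : GE p j A) (hA' : ¬DvM p A) :
    Nat.card {i : Ix p // DvM (p ^ 2) (S i * A)} = 1 := by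
  obtain ⟨x, hx⟩ := exists_col hp hj hA hA'
  have h1 : ∀ i, DvM (p ^ 2) (S i * A) ↔ DvV (p ^ 2) (rw3 q p i ᵥ* A) := by
    intro i
    apply hasRow_two hp (hS i) (rw3_prim hp i) ?_ hx
    have h2 := rw3_iso hp i
    refine dvd_trans ?_ h2
    push_cast
    exact dvd_pow_self _ (by norm_num)
  rw [Nat.card_eq_one_iff_unique]
  refine ⟨⟨?_⟩, ?_⟩
  · rintro ⟨i, hi⟩ ⟨i', hi'⟩
    have := unique_two hp hj hA hA' ((h1 i).1 hi) ((h1 i').1 hi')
    subst this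
    rfl
  · obtain ⟨i, hi⟩ := exists_two hp hj hA hA'
    exact ⟨⟨i, (h1 i).2 hi⟩⟩

/-- PROOF. `hasRow_one`, `zero_dvd`, `rw3_prim`. -/
theorem nb_zero {p : ℕ} (hp : Inert q p) {S : Ix p → M3 q}
    (hS : ∀ i, HasRow p (S i) (rw3 q p i)) {A : M3 q} (hA : GE p 0 A) (i : Ix p) :
    ¬DvM p (S i * A) := by
  intro h
  exact rw3_prim hp i (zero_dvd hA ((hasRow_one (hS i)).1 h))

end Pool.Agent.Lib.H80D
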