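import Pool.Agent.Lib.H80D.TG2
import Pool.Agent.Lib.H80D.T6
import Pool.Agent.Lib.H80D.T7

/-!
# TG3: the instance
-/

namespace Pool.Agent.Lib.H80D

open Matrix hiding J
open Pool.Agent.Lib.H80C
open Pool.Agent.Lib.H56.Picard hiding O Gam mem_Gam star_mem_O T_mem sg_mem
open Pool.Agent.Lib.H56.Gen hiding dd dd_pos

open Classical in
/-- The height of an element of `HG`. -/
noncomputable def hgt (q : QD) (p n : ℕ) (g : SU21) : ℕ :=
  if h : ∃ j, Hgt q p n j g then Nat.find h else 0

lemma TG3_spec {q : QD} {p n : ℕ} {g : SU21} (h : ∃! j, Hgt q p n j g) :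
    Hgt q p n (hgt q p n g) g ∧ ∀ j, Hgt q p n j g → hgt q p n g = j := by
  classical
  have h1 : ∃ j, Hgt q p n j g := h.exists
  have h2 : Hgt q p n (hgt q p n g) g := by
    unfold hgt
    rw [dif_pos h1]
    exact Nat.find_spec h1
  exact ⟨h2, fun j hj => h.unique h2 hj⟩

/-- The tree structure of `HG`.

PROOF. `ht g = hgt q p n g`; `Hgt q p n (ht g) g` by `exists_hgt`. `inv`, `left`: `hgt_inv`, `hgt_left`, uniqueness
in `exists_hgt`. Neighbours: `S i` by `exists_nb` (`1 ≤ n`, `Coprime n p`). `S i` is not divisible by `p`: otherwise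
`p` divides `c ᵥ* S i`, which is congruent to `rw3 q p i` modulo `p ^ 2` (`HasRow`), against `rw3_prim`. So
`exists_of_mat` gives `s i` with `MatOf q p n 1 (s i) (S i)`. For `g` of
height `j` with matrix `A` (`hgt_iff`), by `hgt_mul` `ht (s i * g)` is `j + 1`, `j`, `j - 1` according to the cases
`¬DvM p`, `DvM p` and not `DvM (p ^ 2)`, `DvM (p ^ 2)` of `S i * A` (for `j = 0` always the first, `nb_zero`).
By `nb_one`, `nb_two`: `1`, `p - 1`, and `card_Ix - p = p ^ 4` indices. -/
theorem exists_HT {q : QD} {p n : ℕ} (hp : Inert (qd q) p) (hn : 1 ≤ n) (hnp : Nat.Coprime n p) :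
    ∃ T : HT (HG q p n) p, ∀ g, Hgt q p n (T.ht g) g.1 := by
  classical
  have hp1 : 1 ≤ p := hp.pos
  have hex : ∀ g : HG q p n, ∃! j, Hgt q p n j g.1 := fun g => exists_hgt hp.prime hn hnp g.2
  have hspec : ∀ g : HG q p n, Hgt q p n (hgt q p n g.1) g.1 := fun g => (TG3_spec (hex g)).1
  have huni : ∀ (g : HG q p n) (j : ℕ), Hgt q p n j g.1 → hgt q p n g.1 = j :=
    fun g => (TG3_spec (hex g)).2
  -- neighbours
  have hnb : ∀ i : Ix p, ∃ (s : HG q p n) (S : M3 (qd q)), MatOf q p n 1 s.1 S ∧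
      HasRow p S (rw3 (qd q) p i) := by
    intro i
    obtain ⟨S, M, h1, h2, h3⟩ := exists_nb hp hn hnp i
    have h4 : ¬DvM p S := by
      intro h5
      obtain ⟨⟨c, hc⟩, -⟩ := h3
      apply rw3_prim hp i
      intro k
      have h6 : (p : OK (qd q)) ∣ (c ᵥ* S) k := by
        unfold Matrix.vecMul dotProduct
        exact Finset.dvd_sum fun m _ => (h5 m k).mul_left _
      have h7 : (p : OK (qd q)) ∣ (c ᵥ* S - rw3 (qd q) p i) k := by
        refine dvd_trans ?_ (hc k)
        push_cast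
        exact dvd_pow_self _ (by norm_num)
      rw [Pi.sub_apply] at h7
      exact (dvd_sub_right h6).1 h7
    obtain ⟨s, hs⟩ := exists_of_mat hp1 h1 h4 ⟨M, by rw [pow_one]; exact h2⟩
    have h8 : Hgt q p n 1 s := (hgt_iff hp1).2 ⟨S, hs⟩
    exact ⟨⟨s, mem_HG_of_hgt h8⟩, S, hs, h3⟩
  choose s S hs hS using hnb
  -- the three cases
  have key : ∀ (g : HG q p n), ∃ A : M3 (qd q), GE p (hgt q p n g.1) A ∧ ¬DvM p A ∧ ∀ i : Ix p,
      (¬DvM p (S i * A) → hgt q p n (s i * g : HG q p n).1 = hgt q p n g.1 + 1) ∧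
      (DvM p (S i * A) → ¬DvM (p ^ 2) (S i * A) →
        hgt q p n (s i * g : HG q p n).1 = hgt q p n g.1) ∧
      (1 ≤ hgt q p n g.1 → DvM (p ^ 2) (S i * A) →
        hgt q p n (s i * g : HG q p n).1 = hgt q p n g.1 - 1) := by
    intro g
    obtain ⟨A, hA⟩ := (hgt_iff hp1).1 (hspec g)
    refine ⟨A, hA.1, hA.2.1, fun i => ?_⟩
    obtain ⟨h1, h2, h3⟩ := hgt_mul hp.prime hnp (hs i) hA
    exact ⟨fun h => huni _ _ (h1 h), fun h h' => huni _ _ (h2 h h'), fun h h' => huni _ _ (h3 h h')⟩
  have hdv : ∀ B : M3 (qd q), DvM (p ^ 2) B → DvM p B := by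
    intro B hB i k
    refine dvd_trans ?_ (hB i k)
    push_cast
    exact dvd_pow_self _ (by norm_num)
  have hzero : ∀ (i : Ix p) (g : HG q p n), hgt q p n g.1 = 0 →
      hgt q p n (s i * g : HG q p n).1 = 1 := by
    intro i g hg
    obtain ⟨A, hA, hA', hk⟩ := key g
    rw [hg] at hA hk
    exact (hk i).1 (nb_zero hp hS hA i)
  have hall : ∀ (i : Ix p) (g : HG q p n),
      hgt q p n (s i * g : HG q p n).1 ≤ hgt q p n g.1 + 1 ∧
      hgt q p n g.1 ≤ hgt q p n (s i * g : HG q p n).1 + 1 := by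
    intro i g
    rcases Nat.eq_zero_or_pos (hgt q p n g.1) with h0 | h0
    · rw [hzero i g h0, h0]
      omega
    · obtain ⟨A, hA, hA', hk⟩ := key g
      obtain ⟨k1, k2, k3⟩ := hk i
      by_cases c1 : DvM p (S i * A)
      · by_cases c2 : DvM (p ^ 2) (S i * A)
        · rw [k3 h0 c2]; omega
        · rw [k2 c1 c2]; omega
      · rw [k1 c1]; omega
  have hcnt : ∀ g : HG q p n, 1 ≤ hgt q p n g.1 →
      Nat.card {i // hgt q p n (s i * g : HG q p n).1 + 1 = hgt q p n g.1} = 1 ∧
      Nat.card {i // hgt q p n (s i * g : HG q p n).1 = hgt q p n g.1} = p - 1 ∧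
      Nat.card {i // hgt q p n (s i * g : HG q p n).1 = hgt q p n g.1 + 1} = p ^ 4 := by
    intro g hg
    obtain ⟨A, hA, hA', hk⟩ := key g
    have n1 := nb_one hp hg hS hA hA'
    have n2 := nb_two hp hg hS hA hA'
    rw [Nat.card_eq_fintype_card, Fintype.card_subtype] at n1 n2
    have e1 : ∀ i, hgt q p n (s i * g : HG q p n).1 + 1 = hgt q p n g.1 ↔ DvM (p ^ 2) (S i * A) := by
      intro i
      obtain ⟨k1, k2, k3⟩ := hk i
      by_cases c1 : DvM p (S i * A)
      · by_cases c2 : DvM (p ^ 2) (S i * A)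
        · rw [k3 hg c2]
          exact ⟨fun _ => c2, fun _ => by omega⟩
        · rw [k2 c1 c2]
          exact ⟨fun h => by omega, fun h => absurd h c2⟩
      · rw [k1 c1]
        exact ⟨fun h => by omega, fun h => absurd (hdv _ h) c1⟩
    have e2 : ∀ i, hgt q p n (s i * g : HG q p n).1 = hgt q p n g.1 ↔
        (DvM p (S i * A) ∧ ¬DvM (p ^ 2) (S i * A)) := by
      intro i
      obtain ⟨k1, k2, k3⟩ := hk i
      by_cases c1 : DvM p (S i * A)
      · by_cases c2 : DvM (p ^ 2) (S i * A)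
        · rw [k3 hg c2]
          exact ⟨fun _ => by omega, fun h => absurd c2 h.2⟩
        · rw [k2 c1 c2]
          exact ⟨fun _ => ⟨c1, c2⟩, fun _ => rfl⟩
      · rw [k1 c1]
        exact ⟨fun h => by omega, fun h => absurd h.1 c1⟩
    have e3 : ∀ i, hgt q p n (s i * g : HG q p n).1 = hgt q p n g.1 + 1 ↔ ¬DvM p (S i * A) := by
      intro i
      obtain ⟨k1, k2, k3⟩ := hk i
      by_cases c1 : DvM p (S i * A)
      · by_cases c2 : DvM (p ^ 2) (S i * A)
        · rw [k3 hg c2]
          exact ⟨fun _ => by omega, fun h => absurd c1 h⟩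
        · rw [k2 c1 c2]
          exact ⟨fun _ => by omega, fun h => absurd c1 h⟩
      · rw [k1 c1]
        exact ⟨fun _ => c1, fun _ => rfl⟩
    rw [Nat.card_eq_fintype_card, Nat.card_eq_fintype_card, Nat.card_eq_fintype_card,
      Fintype.card_subtype, Fintype.card_subtype, Fintype.card_subtype]
    simp only [e1, e2, e3]
    refine ⟨n2, ?_, ?_⟩
    · rw [Finset.filter_and_not]
      have hsub : (Finset.univ.filter fun i => DvM (p ^ 2) (S i * A)) ⊆
          (Finset.univ.filter fun i => DvM p (S i * A)) := by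
        intro i hi
        rw [Finset.mem_filter] at hi ⊢
        exact ⟨hi.1, hdv _ hi.2⟩
      rw [Finset.card_sdiff_of_subset hsub, n1, n2]
    · have h1 := Finset.card_filter_add_card_filter_not (s := (Finset.univ : Finset (Ix p)))
        (fun i => DvM p (S i * A))
      rw [n1, Finset.card_univ, card_Ix] at h1
      omega
  refine ⟨{ ht := fun g => hgt q p n g.1
            one := ?_
            inv := fun g => huni g⁻¹ _ (hgt_inv (hspec g))
            left := ?_
            s := s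
            hs := fun i => huni _ _ ((hgt_iff hp1).2 ⟨S i, hs i⟩)
            le := fun i g => (hall i g).1
            ge := fun i g => (hall i g).2
            zero := fun i g hg => hzero i g hg
            down := fun g hg => (hcnt g hg).1
            mid := fun g hg => (hcnt g hg).2.1
            up := fun g hg => (hcnt g hg).2.2 }, hspec⟩
  · apply huni 1 0
    exact (hgt_zero hp.prime).2 ⟨(Gam q).one_mem, (GamN q (n : ℂ)).one_mem⟩
  · intro g h hg
    apply huni (g * h)
    have h1 := hspec g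
    have h2 : hgt q p n g.1 = 0 := hg
    rw [h2] at h1
    exact hgt_left h1 (hspec h)

end Pool.Agent.Lib.H80D
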