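import Pool.Agent.Lib.H80D.AD
import Pool.Agent.Lib.H80D.TA4
import Pool.Agent.Lib.H80D.TG3

/-!
# B5: the tree: representatives in `SU21`, counting
-/

namespace Pool.Agent.Lib.H80D

open Matrix hiding J
open MeasureTheory Topology Filter
open Pool.Agent.Lib.H56.Picard hiding O Gam mem_Gam star_mem_O T_mem sg_mem
open Pool.Agent.Lib.H56.Gen hiding dd dd_pos
open Pool.Agent.Lib.H56D hiding om wG rho Eig Good K0
open scoped ENNReal

noncomputable section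

variable {q : QD} {p n : ℕ}

/-- PROOF. `hT`, uniqueness in `exists_hgt`. -/
theorem ht_iff (hp : Inert (qd q) p) (hn : 1 ≤ n) (hnp : Nat.Coprime n p)
    {T : HT (HG q p n) p} (hT : ∀ g, Hgt q p n (T.ht g) g.1) {k : ℕ} (g : HG q p n) :
    T.ht g = k ↔ Hgt q p n k g.1 := by
  constructor
  · rintro rfl
    exact hT g
  · intro h
    exact (exists_hgt hp.prime hn hnp g.2).unique (hT g) h

/-- PROOF. Elements of `S` are in `HG` (`mem_HG_of_hgt`); `ht_iff`. -/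
theorem reps_of_rp (hp : Inert (qd q) p) (hn : 1 ≤ n) (hnp : Nat.Coprime n p)
    {T : HT (HG q p n) p} (hT : ∀ g, Hgt q p n (T.ht g) g.1) {k : ℕ} {S : Finset SU21}
    (hS : Rp q p n k S) : ∃ R : Finset (HG q p n), Reps T k R ∧
      ∀ (M : Type) [AddCommMonoid M] (f : SU21 → M), ∑ s ∈ S, f s = ∑ r ∈ R, f r.1 := by
  classical
  have hmem : ∀ s ∈ S, s ∈ HG q p n := fun s hs => mem_HG_of_hgt (hS.1 s hs)
  refine ⟨S.subtype (fun g => g ∈ HG q p n), ⟨?_, ?_⟩, ?_⟩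
  · intro r hr
    rw [Finset.mem_subtype] at hr
    exact (ht_iff hp hn hnp hT r).2 (hS.1 r.1 hr)
  · intro g hg
    obtain ⟨s, ⟨hs, hs0⟩, hu⟩ := hS.2 g.1 ((ht_iff hp hn hnp hT g).1 hg)
    refine ⟨⟨s, hmem s hs⟩, ⟨Finset.mem_subtype.2 hs, (ht_iff hp hn hnp hT _).2 hs0⟩, ?_⟩
    rintro r ⟨hr, hr0⟩
    apply Subtype.ext
    exact hu r.1 ⟨Finset.mem_subtype.1 hr, (ht_iff hp hn hnp hT _).1 hr0⟩
  · intro M _ f
    exact (Finset.sum_subtype_of_mem f hmem).symm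

/-- PROOF. `ht_iff`. -/
theorem rp_of_reps (hp : Inert (qd q) p) (hn : 1 ≤ n) (hnp : Nat.Coprime n p)
    {T : HT (HG q p n) p} (hT : ∀ g, Hgt q p n (T.ht g) g.1) {k : ℕ} {R : Finset (HG q p n)}
    (hR : Reps T k R) : ∃ S : Finset SU21, Rp q p n k S ∧
      ∀ (M : Type) [AddCommMonoid M] (f : SU21 → M), ∑ s ∈ S, f s = ∑ r ∈ R, f r.1 := by
  classical
  refine ⟨R.map ⟨Subtype.val, Subtype.val_injective⟩, ⟨?_, ?_⟩, ?_⟩
  · intro s hs
    rw [Finset.mem_map] at hs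
    obtain ⟨r, hr, rfl⟩ := hs
    exact (ht_iff hp hn hnp hT r).1 (hR.1 r hr)
  · intro g hg
    have hgm : g ∈ HG q p n := mem_HG_of_hgt hg
    obtain ⟨r, ⟨hr, hr0⟩, hu⟩ := hR.2 ⟨g, hgm⟩ ((ht_iff hp hn hnp hT _).2 hg)
    refine ⟨r.1, ⟨Finset.mem_map.2 ⟨r, hr, rfl⟩, (ht_iff hp hn hnp hT _).1 hr0⟩, ?_⟩
    rintro s ⟨hs, hs0⟩
    rw [Finset.mem_map] at hs
    obtain ⟨r', hr', rfl⟩ := hs
    exact congrArg Subtype.val (hu r' ⟨hr', (ht_iff hp hn hnp hT _).2 hs0⟩)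
  · intro M _ f
    rw [Finset.sum_map]
    rfl

lemma B5_inv (hp : Inert (qd q) p) (hn : 1 ≤ n) (hnp : Nat.Coprime n p)
    {T : HT (HG q p n) p} (hT : ∀ g, Hgt q p n (T.ht g) g.1) {M : Type} {f : ℂ × ℂ → M}
    (hinv : ∀ γ : Gam q, γ ∈ GamN q (n : ℂ) → ∀ z ∈ U, f (act (mat γ.1) z) = f z) {z : ℂ × ℂ}
    (hz : z ∈ U) (γ h : HG q p n) (hγ : T.ht γ = 0) :
    f (act (mat (γ * h).1) z) = f (act (mat h.1) z) := by
  obtain ⟨h1, h2⟩ := (hgt_zero hp.prime).1 ((ht_iff hp hn hnp hT γ).1 hγ)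
  have h3 := hinv ⟨γ.1, h1⟩ h2 (act (mat h.1) z) (act_mem_U h.1 hz)
  rw [← h3]
  have h4 : act (mat γ.1) (act (mat h.1) z) = act (mat (γ.1 * h.1)) z := act_act γ.1 h.1 hz
  have h5 : ((γ * h : HG q p n) : SU21) = γ.1 * h.1 := rfl
  simp only
  rw [h4, h5]

/-- The eigenvalues of the higher Hecke operators.

PROOF. `hecke_pow` for the function `F g = f (act (mat g.1) z)` on `HG q p n`: `F (γ h) = F h` for
`ht γ = 0` by `hgt_zero` and `hinv` (`act_act`, `act_mem_U`); `∑ i, F (T.s i * g) = θ F g`: by `reps_of_rp` for the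
set `S` of `IsHecke` at the point `act (mat g.1) z`, and `reps_one_sum`. -/
theorem hecke_ev (hp : Inert (qd q) p) (hn : 1 ≤ n) (hnp : Nat.Coprime n p)
    {T : HT (HG q p n) p} (hT : ∀ g, Hgt q p n (T.ht g) g.1) {f : ℂ × ℂ → ℂ}
    (hinv : ∀ γ : Gam q, γ ∈ GamN q (n : ℂ) → ∀ z ∈ U, f (act (mat γ.1) z) = f z) {θ : ℂ}
    (h : IsHecke q p n f θ) {k : ℕ} {R : Finset (HG q p n)} (hR : Reps T k R) {z : ℂ × ℂ}
    (hz : z ∈ U) : ∑ r ∈ R, f (act (mat r.1) z) = ev p θ k * f z := by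
  obtain ⟨S, hS, hSum⟩ := h
  obtain ⟨R1, hR1, hs1⟩ := reps_of_rp hp hn hnp hT hS
  have hf : ∀ γ h : HG q p n, T.ht γ = 0 →
      (fun g : HG q p n => f (act (mat g.1) z)) (γ * h) =
        (fun g : HG q p n => f (act (mat g.1) z)) h := fun γ h hγ => B5_inv hp hn hnp hT hinv hz γ h hγ
  have hθ : ∀ g : HG q p n, ∑ i, (fun g : HG q p n => f (act (mat g.1) z)) (T.s i * g) =
      θ * (fun g : HG q p n => f (act (mat g.1) z)) g := by
    intro g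
    have hg := act_mem_U g.1 hz
    have h1 := hSum (act (mat g.1) z) hg
    rw [hs1 ℂ (fun s => f (act (mat s) (act (mat g.1) z)))] at h1
    have h2 := reps_one_sum T (f := fun r : HG q p n => f (act (mat r.1) (act (mat g.1) z)))
      (fun γ h hγ => B5_inv hp hn hnp hT hinv hg γ h hγ) hR1
    rw [h1] at h2
    simp only
    rw [h2]
    refine Finset.sum_congr rfl fun i _ => ?_
    have h4 : act (mat (T.s i).1) (act (mat g.1) z) = act (mat ((T.s i).1 * g.1)) z :=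
      act_act (T.s i).1 g.1 hz
    have h5 : ((T.s i * g : HG q p n) : SU21) = (T.s i).1 * g.1 := rfl
    rw [h4, h5]
  have h1 := hecke_pow T hp.pos (f := fun g : HG q p n => f (act (mat g.1) z)) hf (θ := θ) hθ hR 1
  simp only [mul_one] at h1
  rw [h1]
  have h3 : act (mat ((1 : HG q p n) : SU21)) z = z := by
    have h := one_smul SU21 (⟨z, hz⟩ : X)
    exact congrArg Subtype.val h
  rw [h3]

/-- PROOF. The map `(r, s, γ) ↦ β = r⁻¹ γ s` from `R × R × Γ(n)` to `HG`: for given `β` and `s ∈ R` there is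
a pair `(r, γ)` if and only if `β s⁻¹ = r⁻¹ γ` for some `r ∈ R`, `γ ∈ Γ(n)` (the elements of `HG` of height
zero: `hgt_zero`, `ht_iff`), if and only if `ht (s β⁻¹) = ht (β s⁻¹) = k`, and then it is unique (`Reps`). So
both sides are the sum of `F β` over all pairs `(β, s)`, `s ∈ R`, `ht (s β⁻¹) = k`. (Exchange sums with
`ENNReal.tsum_comm`, `Finset.card_filter`; a bijection for fixed `s`.) -/
theorem tree_sum (hp : Inert (qd q) p) (hn : 1 ≤ n) (hnp : Nat.Coprime n p)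
    {T : HT (HG q p n) p} (hT : ∀ g, Hgt q p n (T.ht g) g.1) {k : ℕ} {R : Finset (HG q p n)}
    (hR : Reps T k R) (F : SU21 → ℝ≥0∞) :
    ∑ r ∈ R, ∑ s ∈ R, ∑' γ : GamN q (n : ℂ), F (r.1⁻¹ * γ.1.1 * s.1) =
      ∑' β : HG q p n, ((R.filter fun s => T.ht (s * β⁻¹) = k).card : ℝ≥0∞) * F β.1 := by
  classical
  have h1 : ∀ β : HG q p n, ((R.filter fun s => T.ht (s * β⁻¹) = k).card : ℝ≥0∞) * F β.1 =
      ∑ s ∈ R, {β : HG q p n | T.ht (s * β⁻¹) = k}.indicator (fun β => F β.1) β := by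
    intro β
    rw [Finset.card_filter, Nat.cast_sum, Finset.sum_mul]
    refine Finset.sum_congr rfl fun s _ => ?_
    by_cases h : T.ht (s * β⁻¹) = k
    · rw [if_pos h, Set.indicator_of_mem (s := {β : HG q p n | T.ht (s * β⁻¹) = k}) h]
      simp
    · rw [if_neg h, Set.indicator_of_notMem (s := {β : HG q p n | T.ht (s * β⁻¹) = k}) h]
      simp
  simp only [h1]
  rw [Summable.tsum_finsetSum fun s _ => ENNReal.summable, Finset.sum_comm]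
  refine Finset.sum_congr rfl fun s _ => ?_
  rw [← tsum_subtype, ← Finset.tsum_subtype R
    (fun r => ∑' γ : GamN q (n : ℂ), F (r.1⁻¹ * γ.1.1 * s.1))]
  rw [← ENNReal.tsum_prod (f := fun (r : {x // x ∈ R}) (γ : GamN q (n : ℂ)) =>
    F (r.1.1⁻¹ * γ.1.1 * s.1))]
  have hγ : ∀ γ : GamN q (n : ℂ), Hgt q p n 0 γ.1.1 := fun γ =>
    (hgt_zero hp.prime).2 ⟨γ.1.2, γ.2⟩
  let φ : {x // x ∈ R} × GamN q (n : ℂ) → {β : HG q p n | T.ht (s * β⁻¹) = k} := fun x =>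
    ⟨x.1.1⁻¹ * ⟨x.2.1.1, mem_HG_of_hgt (hγ x.2)⟩ * s, by
      have e1 : s * (x.1.1⁻¹ * ⟨x.2.1.1, mem_HG_of_hgt (hγ x.2)⟩ * s)⁻¹ =
          (⟨x.2.1.1, mem_HG_of_hgt (hγ x.2)⟩ : HG q p n)⁻¹ * x.1.1 := by group
      have e2 : T.ht (⟨x.2.1.1, mem_HG_of_hgt (hγ x.2)⟩ : HG q p n)⁻¹ = 0 := by
        rw [T.inv]
        exact (ht_iff hp hn hnp hT _).2 (hγ x.2)
      show T.ht (s * (x.1.1⁻¹ * ⟨x.2.1.1, mem_HG_of_hgt (hγ x.2)⟩ * s)⁻¹) = k
      rw [e1, T.left _ _ e2]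
      exact hR.1 _ x.1.2⟩
  have hφ : Function.Bijective φ := by
    constructor
    · rintro ⟨⟨r, hr⟩, γ⟩ ⟨⟨r', hr'⟩, γ'⟩ h
      have h2 : r⁻¹ * (⟨γ.1.1, mem_HG_of_hgt (hγ γ)⟩ : HG q p n) * s =
          r'⁻¹ * (⟨γ'.1.1, mem_HG_of_hgt (hγ γ')⟩ : HG q p n) * s := congrArg Subtype.val h
      have h3 := mul_right_cancel h2
      have h4 : r = r' := by
        obtain ⟨t, _, hu⟩ := hR.2 r (hR.1 r hr)
        have u1 := hu r ⟨hr, by rw [mul_inv_cancel]; exact T.one⟩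
        have u2 := hu r' ⟨hr', by
          have e : r * r'⁻¹ = (⟨γ.1.1, mem_HG_of_hgt (hγ γ)⟩ : HG q p n) *
              (⟨γ'.1.1, mem_HG_of_hgt (hγ γ')⟩ : HG q p n)⁻¹ := by
            calc r * r'⁻¹ = r * (r'⁻¹ * (⟨γ'.1.1, mem_HG_of_hgt (hγ γ')⟩ : HG q p n)) *
                  (⟨γ'.1.1, mem_HG_of_hgt (hγ γ')⟩ : HG q p n)⁻¹ := by group
              _ = r * (r⁻¹ * (⟨γ.1.1, mem_HG_of_hgt (hγ γ)⟩ : HG q p n)) *
                  (⟨γ'.1.1, mem_HG_of_hgt (hγ γ')⟩ : HG q p n)⁻¹ := by rw [h3]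
              _ = _ := by group
          have e0 : T.ht (⟨γ.1.1, mem_HG_of_hgt (hγ γ)⟩ : HG q p n) = 0 :=
            (ht_iff hp hn hnp hT _).2 (hγ γ)
          rw [e, T.left _ _ e0, T.inv]
          exact (ht_iff hp hn hnp hT _).2 (hγ γ')⟩
        rw [u1, u2]
      subst h4
      have h5 := mul_left_cancel h3
      have h6 : γ.1.1 = γ'.1.1 := congrArg (fun g : HG q p n => g.1) h5
      have h7 : γ = γ' := Subtype.ext (Subtype.ext h6)
      rw [h7]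
    · rintro ⟨β, hβ⟩
      have hβ' : T.ht (s * β⁻¹) = k := hβ
      obtain ⟨r, ⟨hr, hr0⟩, -⟩ := hR.2 (s * β⁻¹) hβ'
      have h2 : T.ht (r * β * s⁻¹) = 0 := by
        have e : r * β * s⁻¹ = (s * β⁻¹ * r⁻¹)⁻¹ := by group
        rw [e, T.inv]
        exact hr0
      obtain ⟨h3, h4⟩ := (hgt_zero hp.prime).1 ((ht_iff hp hn hnp hT _).1 h2)
      refine ⟨(⟨r, hr⟩, ⟨⟨(r * β * s⁻¹ : HG q p n).1, h3⟩, h4⟩), ?_⟩
      apply Subtype.ext
      show r⁻¹ * (r * β * s⁻¹) * s = β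
      group
  rw [← (Equiv.ofBijective φ hφ).tsum_eq]
  rfl

/-- PROOF. `tree_sum`, `card_le`, `card_zero` for `β⁻¹` (`T.inv`). -/
theorem tree_sum_le (hp : Inert (qd q) p) (hn : 1 ≤ n) (hnp : Nat.Coprime n p)
    {T : HT (HG q p n) p} (hT : ∀ g, Hgt q p n (T.ht g) g.1) {k : ℕ} {R : Finset (HG q p n)}
    (hR : Reps T k R) (F : SU21 → ℝ≥0∞) :
    ∑ r ∈ R, ∑ s ∈ R, ∑' γ : GamN q (n : ℂ), F (r.1⁻¹ * γ.1.1 * s.1) ≤
      ∑' β : HG q p n, ENNReal.ofReal (nb p k (T.ht β)) * F β.1 := by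
  rw [tree_sum hp hn hnp hT hR F]
  refine ENNReal.tsum_le_tsum fun β => ?_
  refine mul_le_mul' ?_ le_rfl
  rw [← ENNReal.ofReal_natCast]
  apply ENNReal.ofReal_le_ofReal
  unfold nb
  split_ifs with h
  · have h1 := card_le T hp.prime.two_le hR β⁻¹
    rwa [T.inv] at h1
  · rw [card_zero T hR (g := β⁻¹) (by rw [T.inv]; omega)]
    simp

end

end Pool.Agent.Lib.H80D
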