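import Pool.Agent.Lib.H80D.TA

/-!
# TA3: lower bound for the eigenvalues
-/

namespace Pool.Agent.Lib.H80D

open Pool.Agent.Lib.H80C

/-- The auxiliary real sequence. -/
noncomputable def TA3_d (a d0 d1 : ℝ) : ℕ → ℝ
  | 0 => d0
  | 1 => d1
  | (m + 2) => a * TA3_d a d0 d1 (m + 1) - TA3_d a d0 d1 m

theorem TA3_step (a d0 d1 Y : ℝ) (hY : 0 < Y) (ha : Y + Y⁻¹ = a) (m : ℕ) :
    TA3_d a d0 d1 (m + 1) = TA3_d a d0 d1 m / Y + (d1 - d0 / Y) * Y ^ m := by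
  induction m with
  | zero =>
    simp only [TA3_d, pow_zero, mul_one]
    ring
  | succ m ih =>
    have h1 : TA3_d a d0 d1 (m + 1 + 1) = a * TA3_d a d0 d1 (m + 1) - TA3_d a d0 d1 m := rfl
    rw [h1]
    have h2 : TA3_d a d0 d1 m = Y * TA3_d a d0 d1 (m + 1) - (d1 - d0 / Y) * Y ^ (m + 1) := by
      rw [ih]
      field_simp
      ring
    linear_combination (-1 : ℝ) * h2 - TA3_d a d0 d1 (m + 1) * ha

theorem TA3_low (a d0 d1 Y : ℝ) (hY : 0 < Y) (ha : Y + Y⁻¹ = a) (h0 : 0 ≤ d0)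
    (h1 : 5 / 8 * Y ≤ d1 - d0 / Y) (m : ℕ) :
    0 ≤ TA3_d a d0 d1 m ∧ 5 / 8 * Y ^ (m + 1) ≤ TA3_d a d0 d1 (m + 1) := by
  have key : ∀ m, 0 ≤ TA3_d a d0 d1 m → 5 / 8 * Y ^ (m + 1) ≤ TA3_d a d0 d1 (m + 1) := by
    intro m hm
    rw [TA3_step a d0 d1 Y hY ha m]
    have h2 : 0 ≤ TA3_d a d0 d1 m / Y := div_nonneg hm hY.le
    have h3 : 5 / 8 * Y * Y ^ m ≤ (d1 - d0 / Y) * Y ^ m :=
      mul_le_mul_of_nonneg_right h1 (pow_nonneg hY.le _)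
    have h4 : 5 / 8 * Y ^ (m + 1) = 5 / 8 * Y * Y ^ m := by ring
    rw [h4]
    linarith
  have h5 : 0 ≤ TA3_d a d0 d1 m := by
    induction m with
    | zero => simpa [TA3_d] using h0
    | succ m ih =>
      have := key m ih
      have h6 : 0 ≤ 5 / 8 * Y ^ (m + 1) := by positivity
      linarith
  exact ⟨h5, key m h5⟩

theorem TA3_ev {p : ℕ} (hp : 2 ≤ p) {θ s a ε : ℝ} (hε : ε * ε = 1) (hs : s = ε * a)
    (hθ : θ = (p : ℝ) ^ 2 * s + (p - 1)) (m : ℕ) :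
    ev p θ (m + 1) = ((ε ^ (m + 1) * ((p : ℝ) ^ 2) ^ (m + 1) *
      TA3_d a (1 + ((p : ℝ) ^ 3)⁻¹) (ε * θ / (p : ℝ) ^ 2) (m + 1) : ℝ) : ℂ) := by
  have hp0 : (p : ℝ) ≠ 0 := by positivity
  set d := TA3_d a (1 + ((p : ℝ) ^ 3)⁻¹) (ε * θ / (p : ℝ) ^ 2) with hd
  have hθ' : ((θ : ℝ) : ℂ) - ((p : ℂ) - 1) = (((p : ℝ) ^ 2 * (ε * a) : ℝ) : ℂ) := by
    rw [← hs]
    have : θ - ((p : ℝ) - 1) = (p : ℝ) ^ 2 * s := by rw [hθ]; ring
    rw [← this]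
    push_cast
    ring
  have main : ∀ m, ev p θ (m + 1) = ((ε ^ (m + 1) * ((p : ℝ) ^ 2) ^ (m + 1) * d (m + 1) : ℝ) : ℂ) ∧
      ev p θ (m + 2) = ((ε ^ (m + 2) * ((p : ℝ) ^ 2) ^ (m + 2) * d (m + 2) : ℝ) : ℂ) := by
    intro m
    induction m with
    | zero =>
      constructor
      · have h1 : ev p θ (0 + 1) = (θ : ℂ) := rfl
        have h2 : d (0 + 1) = ε * θ / (p : ℝ) ^ 2 := rfl
        rw [h1, h2]
        congr 1
        field_simp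
        linear_combination (-(θ * (p : ℝ) ^ 2)) * hε
      · have h1 : ev p θ (0 + 2) = ((θ : ℂ) - (p - 1)) * θ - (p ^ 4 + p) := rfl
        have h2 : d (0 + 2) = a * (ε * θ / (p : ℝ) ^ 2) - (1 + ((p : ℝ) ^ 3)⁻¹) := rfl
        rw [h1, h2, hθ']
        have h3 : ((ε ^ (0 + 2) * ((p : ℝ) ^ 2) ^ (0 + 2) *
            (a * (ε * θ / (p : ℝ) ^ 2) - (1 + ((p : ℝ) ^ 3)⁻¹)) : ℝ)) =
            ((p : ℝ) ^ 2 * (ε * a)) * θ - ((p : ℝ) ^ 4 + p) := by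
          have h4 : ε ^ (0 + 2) = 1 := by
            rw [zero_add, pow_two]
            exact hε
          rw [h4]
          field_simp
          ring
        rw [h3]
        push_cast
        ring
    | succ m ih =>
      refine ⟨ih.2, ?_⟩
      have h1 : ev p θ (m + 1 + 2) = ((θ : ℂ) - (p - 1)) * ev p θ (m + 2) - p ^ 4 * ev p θ (m + 1) := rfl
      have h2 : d (m + 1 + 2) = a * d (m + 2) - d (m + 1) := rfl
      rw [h1, h2, hθ', ih.1, ih.2]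
      have h3 : (ε ^ (m + 1 + 2) * ((p : ℝ) ^ 2) ^ (m + 1 + 2) * (a * d (m + 2) - d (m + 1)) : ℝ) =
          ((p : ℝ) ^ 2 * (ε * a)) * (ε ^ (m + 2) * ((p : ℝ) ^ 2) ^ (m + 2) * d (m + 2)) -
          (p : ℝ) ^ 4 * (ε ^ (m + 1) * ((p : ℝ) ^ 2) ^ (m + 1) * d (m + 1)) := by
        have h5 : ε ^ (m + 1 + 2) = ε ^ (m + 1) := by
          rw [pow_add, pow_two, hε, mul_one]
        have h6 : ε ^ (m + 2) = ε ^ (m + 1) * ε := by ring
        rw [h5, h6]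
        linear_combination (-((p : ℝ) ^ 2 * a * ε ^ (m + 1) * ((p : ℝ) ^ 2) ^ (m + 2) * d (m + 2))) * hε
      rw [h3]
      push_cast
      ring
  exact (main m).1

/-- Lower bound for the eigenvalues.

PROOF. `θ - (p - 1) = p² (y + 1/y)` with a real `y`, `|y| ≥ x`: the equation `y² - s y + 1 = 0`,
`s = (θ - (p - 1)) / p²`, `|s| ≥ x + 1/x ≥ 2`, has a real root `y` of absolute value
`(|s| + √(s² - 4)) / 2 ≥ x`. Put `b₀ = 1 + p⁻³`, `b_m = ev p θ m / p ^ (2 m)` for `m ≥ 1`: the recursion is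
`b_{m+1} = (y + 1/y) b_m - b_{m-1}` for all `m ≥ 1`, so `b_{m+1} - b_m / y = y^m (b₁ - b₀ / y)`, and
`b₁ - b₀/y = y + (p - 1)/p² - p⁻³/y =: y κ`, `κ = 1 + (p - 1)/(p² y) - 1/(p³ y²) ≥ 1 - 1/4 - 1/8 = 5/8`. With
`ε = sign y`, `d_m = ε^m b_m`: `d_{m+1} = d_m / |y| + κ |y|^(m+1)`, so `d_m ≥ (5/8) |y|^m` for `m ≥ 1` by induction
(`d₀ > 0`). All `b_m` are real. `m = 0`: `ev = 1 ≥ 5/8`. -/
theorem ev_lower {p : ℕ} (hp : 2 ≤ p) {θ x : ℝ} (hx : 1 ≤ x)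
    (h : (p : ℝ) ^ 2 * (x + x⁻¹) ≤ |θ - (p - 1)|) (m : ℕ) :
    5 / 8 * ((p : ℝ) ^ 2 * x) ^ m ≤ ‖ev p θ m‖ := by
  have hp2 : (2 : ℝ) ≤ p := by exact_mod_cast hp
  have hp0 : (0 : ℝ) < p := by linarith
  have hx0 : 0 < x := by linarith
  cases m with
  | zero =>
    have : ev p θ 0 = 1 := rfl
    rw [this]
    norm_num
  | succ m =>
    set s : ℝ := (θ - (p - 1)) / (p : ℝ) ^ 2 with hs
    have hθ : θ = (p : ℝ) ^ 2 * s + (p - 1) := by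
      rw [hs]
      field_simp
      ring
    obtain ⟨ε, hε, hεs⟩ : ∃ ε : ℝ, ε * ε = 1 ∧ s = ε * |s| := by
      rcases le_total 0 s with h1 | h1
      · exact ⟨1, by norm_num, by rw [abs_of_nonneg h1, one_mul]⟩
      · exact ⟨-1, by norm_num, by rw [abs_of_nonpos h1]; ring⟩
    set a := |s| with ha
    have hax : x + x⁻¹ ≤ a := by
      have h1 : a = |θ - (p - 1)| / (p : ℝ) ^ 2 := by
        rw [ha, hs, abs_div, abs_of_pos (by positivity : (0 : ℝ) < (p : ℝ) ^ 2)]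
      rw [h1, le_div_iff₀ (by positivity)]
      linarith
    have hxx : x * x⁻¹ = 1 := mul_inv_cancel₀ hx0.ne'
    have hxi : 0 < x⁻¹ := inv_pos.2 hx0
    have hxi1 : x⁻¹ ≤ 1 := inv_le_one_of_one_le₀ hx
    have ha0 : 0 < a := by linarith
    have hsq : (x - x⁻¹) ^ 2 ≤ a ^ 2 - 4 := by
      nlinarith
    set b := √(a ^ 2 - 4) with hb
    have hb2 : b ^ 2 = a ^ 2 - 4 := Real.sq_sqrt (le_trans (sq_nonneg _) hsq)
    have hbx : x - x⁻¹ ≤ b := Real.le_sqrt_of_sq_le hsq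
    set Y := (a + b) / 2 with hYdef
    have hYx : x ≤ Y := by rw [hYdef]; linarith
    have hY1 : 1 ≤ Y := by linarith
    have hY0 : 0 < Y := by linarith
    have hYa : Y + Y⁻¹ = a := by
      have h1 : Y * Y - a * Y + 1 = 0 := by
        rw [hYdef]
        linear_combination (1 / 4) * hb2
      field_simp
      linarith
    have h0 : (0 : ℝ) ≤ 1 + ((p : ℝ) ^ 3)⁻¹ := by positivity
    have h1 : 5 / 8 * Y ≤ ε * θ / (p : ℝ) ^ 2 - (1 + ((p : ℝ) ^ 3)⁻¹) / Y := by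
      have e1 : ε * θ / (p : ℝ) ^ 2 = a + ε * (((p : ℝ) - 1) / (p : ℝ) ^ 2) := by
        have e2 : ε * s = a := by
          rw [hεs]
          linear_combination a * hε
        rw [hθ, ← e2]
        field_simp
      rw [e1, ← hYa]
      have e3 : |ε| = 1 := by
        have : |ε| * |ε| = 1 := by rw [← abs_mul, hε, abs_one]
        nlinarith [abs_nonneg ε]
      have e4 : ((p : ℝ) - 1) / (p : ℝ) ^ 2 ≤ 1 / 4 := by
        rw [div_le_div_iff₀ (by positivity) (by norm_num)]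
        nlinarith [sq_nonneg ((p : ℝ) - 2)]
      have e5 : 0 ≤ ((p : ℝ) - 1) / (p : ℝ) ^ 2 := div_nonneg (by linarith) (by positivity)
      have e6 : -(1 / 4) ≤ ε * (((p : ℝ) - 1) / (p : ℝ) ^ 2) := by
        have e7 : |ε * (((p : ℝ) - 1) / (p : ℝ) ^ 2)| ≤ 1 / 4 := by
          rw [abs_mul, e3, one_mul, abs_of_nonneg e5]
          exact e4
        exact (abs_le.1 e7).1
      have e8 : (1 + ((p : ℝ) ^ 3)⁻¹) / Y = Y⁻¹ + ((p : ℝ) ^ 3)⁻¹ * Y⁻¹ := by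
        field_simp
      have e9 : ((p : ℝ) ^ 3)⁻¹ * Y⁻¹ ≤ 1 / 8 := by
        have e10 : ((p : ℝ) ^ 3)⁻¹ ≤ 1 / 8 := by
          rw [inv_eq_one_div, div_le_div_iff₀ (by positivity) (by norm_num)]
          have : (2 : ℝ) ^ 3 ≤ (p : ℝ) ^ 3 := pow_le_pow_left₀ (by norm_num) hp2 3
          linarith
        have e11 : Y⁻¹ ≤ 1 := inv_le_one_of_one_le₀ hY1
        calc ((p : ℝ) ^ 3)⁻¹ * Y⁻¹ ≤ 1 / 8 * 1 :=
              mul_le_mul e10 e11 (inv_nonneg.2 hY0.le) (by norm_num)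
          _ = 1 / 8 := by ring
      rw [e8]
      linarith
    have h2 := (TA3_low a (1 + ((p : ℝ) ^ 3)⁻¹) (ε * θ / (p : ℝ) ^ 2) Y hY0 hYa h0 h1 m).2
    rw [TA3_ev hp hε hεs hθ m]
    rw [Complex.norm_real, Real.norm_eq_abs, abs_mul, abs_mul, abs_pow, abs_pow]
    have e3 : |ε| = 1 := by
      have : |ε| * |ε| = 1 := by rw [← abs_mul, hε, abs_one]
      nlinarith [abs_nonneg ε]
    rw [e3, one_pow, one_mul, abs_of_pos (by positivity : (0 : ℝ) < (p : ℝ) ^ 2)]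
    have h3 : 5 / 8 * x ^ (m + 1) ≤ |TA3_d a (1 + ((p : ℝ) ^ 3)⁻¹) (ε * θ / (p : ℝ) ^ 2) (m + 1)| := by
      refine le_trans ?_ (le_abs_self _)
      refine le_trans ?_ h2
      have := pow_le_pow_left₀ hx0.le hYx (m + 1)
      linarith
    calc 5 / 8 * ((p : ℝ) ^ 2 * x) ^ (m + 1) = ((p : ℝ) ^ 2) ^ (m + 1) * (5 / 8 * x ^ (m + 1)) := by
          rw [mul_pow]; ring
      _ ≤ _ := mul_le_mul_of_nonneg_left h3 (by positivity)

end Pool.Agent.Lib.H80D
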