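import Pool.Agent.Lib.H80D.B4
import Pool.Agent.Lib.H80D.B5
import Pool.Agent.Lib.H80D.A2
import Pool.Agent.Lib.H80D.TA3

/-!
# B6: pointwise bound
-/

namespace Pool.Agent.Lib.H80D

open Matrix hiding J
open MeasureTheory Topology Filter
open Pool.Agent.Lib.H56.Picard hiding O Gam mem_Gam star_mem_O T_mem sg_mem
open Pool.Agent.Lib.H56.Gen hiding dd dd_pos
open Pool.Agent.Lib.H56D hiding om wG rho Eig Good K0
open scoped ENNReal

noncomputable section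

variable {q : QD} {p n : ℕ}

/-- PROOF. `exists_reps` gives `R` with `Reps T k R`; `hecke_pretrace` for the set of the `r.1`, `r ∈ R`
(`rp_of_reps`), `a i = ev p (th i) k` (`hecke_ev`); `‖a i‖ ≥ 5/8 (p² x)^k` (`ev_lower`), `lower_small`; on the
right side `tree_sum_le`. `GamN q n` has finite index (`GamN_finiteIndex`). -/
theorem pt_bound {W : WD q} (hp : Inert (qd q) p) (hn : 1 ≤ n) (hnp : Nat.Coprime n p)
    {T : HT (HG q p n) p} (hT : ∀ g, Hgt q p n (T.ht g) g.1) {x Lam : ℝ} (hx : 1 ≤ x) {m : ℕ}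
    {e : Fin m → ℂ × ℂ → ℂ} {l th : Fin m → ℝ} (he : ∀ i, Gd W (GamN q (n : ℂ)) (e i) (l i))
    (hl : ∀ i, 0 ≤ l i ∧ l i ≤ Lam) (hh : ∀ i, IsHecke q p n (e i) (th i))
    (hth : ∀ i, (p : ℝ) ^ 2 * (x + x⁻¹) ≤ |th i - (p - 1)|)
    (hon : ∀ i j, ∫ z : X, star (e i z.1) * e j z.1 ∂(rh W (GamN q (n : ℂ))) =
      if i = j then 1 else 0)
    {L : ℝ} (hL : 1 < L) (hL3 : Lam * L ^ 3 * (L - 1) ≤ 3) (k : ℕ) {z : ℂ × ℂ} (hz : z ∈ U) :
    ENNReal.ofReal ((c3 / 2 * (L - 1) ^ 5 * (5 / 8 * ((p : ℝ) ^ 2 * x) ^ k)) ^ 2) *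
        ∑ i, ENNReal.ofReal (Complex.normSq (e i z)) ≤
      ∑' β : HG q p n, ENNReal.ofReal (nb p k (T.ht β)) * FL L (sgm z (act (mat β.1) z)) := by
  have : (GamN q (n : ℂ)).FiniteIndex := GamN_finiteIndex (natCast_mem _ n)
    (by
      have : n ≠ 0 := by omega
      exact_mod_cast this)
  obtain ⟨R, hR⟩ := exists_reps T k
  obtain ⟨S, hS, hsum⟩ := rp_of_reps hp hn hnp hT hR
  have h1 := hecke_pretrace he hon (R := S) (a := fun i => ev p (th i) k)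
    (fun i w hw => by
      rw [hsum ℂ fun s => e i (act (mat s) w)]
      exact hecke_ev hp hn hnp hT (he i).inv (hh i) hR hw) hL.le hz
  rw [hsum ℝ≥0∞ fun r => ∑ s ∈ S, ∑' γ : GamN q (n : ℂ),
    FL L (sgm z (act (mat (r⁻¹ * γ.1.1 * s)) z))] at h1
  have h2 : ∀ r ∈ R, ∑ s ∈ S, ∑' γ : GamN q (n : ℂ),
      FL L (sgm z (act (mat ((r : SU21)⁻¹ * γ.1.1 * s)) z)) =
      ∑ s ∈ R, ∑' γ : GamN q (n : ℂ),
        FL L (sgm z (act (mat ((r : SU21)⁻¹ * γ.1.1 * (s : SU21))) z)) := fun r _ =>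
    hsum ℝ≥0∞ fun s => ∑' γ : GamN q (n : ℂ),
      FL L (sgm z (act (mat ((r : SU21)⁻¹ * γ.1.1 * s)) z))
  rw [Finset.sum_congr rfl h2] at h1
  have h3 := tree_sum_le hp hn hnp hT hR (fun g => FL L (sgm z (act (mat g) z)))
  refine le_trans ?_ (h1.trans h3)
  rw [Finset.mul_sum]
  refine Finset.sum_le_sum fun i _ => ?_
  have hc := c3_pos
  have hL0 : 0 < (L - 1) ^ 5 := pow_pos (by linarith) 5
  have hx0 : 0 < x := by linarith
  have hA : 0 ≤ c3 / 2 * (L - 1) ^ 5 * (5 / 8 * ((p : ℝ) ^ 2 * x) ^ k) := by positivity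
  rw [← ENNReal.ofReal_mul (by positivity)]
  apply ENNReal.ofReal_le_ofReal
  have h4 := lower_small (he i).smooth (he i).eig (hl i).1 (hl i).2 hz hL hL3
  have h5 := ev_lower hp.prime.two_le hx (hth i) k
  rw [Complex.normSq_eq_norm_sq, ← mul_pow]
  refine pow_le_pow_left₀ (mul_nonneg hA (norm_nonneg _)) ?_ 2
  calc c3 / 2 * (L - 1) ^ 5 * (5 / 8 * ((p : ℝ) ^ 2 * x) ^ k) * ‖e i z‖
      = (5 / 8 * ((p : ℝ) ^ 2 * x) ^ k) * (c3 / 2 * (L - 1) ^ 5 * ‖e i z‖) := by ring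
    _ ≤ ‖ev p (th i) k‖ * ‖∫ w : X, (ker 3 L z w.1 : ℂ) * e i w.1 ∂mu‖ :=
      mul_le_mul h5 h4 (by positivity) (norm_nonneg _)

end

end Pool.Agent.Lib.H80D
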