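import Pool.Agent.Lib.H80D.B6

/-!
# B7: summation over the cosets
-/

namespace Pool.Agent.Lib.H80D

open Matrix hiding J
open MeasureTheory Topology Filter
open Pool.Agent.Lib.H56.Picard hiding O Gam mem_Gam star_mem_O T_mem sg_mem
open Pool.Agent.Lib.H56.Gen hiding dd dd_pos
open Pool.Agent.Lib.H56D hiding om wG rho Eig Good K0
open scoped ENNReal

noncomputable section

variable {q : QD} {p n : ℕ}

lemma B7_conj (δ : Gam q) {A : Matrix (Fin 3) (Fin 3) ℂ} {N : ℂ}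
    (hA : ∀ i k, ∃ x ∈ OO q, A i k = N * x) (i k : Fin 3) :
    ∃ x ∈ OO q, (mat δ.1 * A * mat δ.1⁻¹) i k = N * x := by
  choose x hx hxA using hA
  have h1 : ∀ a b, mat δ.1 a b ∈ OO q := fun a b => δ.2 a b
  have h2 : ∀ a b, mat δ.1⁻¹ a b ∈ OO q := fun a b => (δ⁻¹).2 a b
  refine ⟨∑ b, (∑ a, mat δ.1 i a * x a b) * mat δ.1⁻¹ b k, ?_, ?_⟩
  · exact (OO q).sum_mem fun b _ => (OO q).mul_mem
      ((OO q).sum_mem fun a _ => (OO q).mul_mem (h1 i a) (hx a b)) (h2 b k)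
  · rw [Matrix.mul_apply, Finset.mul_sum]
    refine Finset.sum_congr rfl fun b _ => ?_
    rw [Matrix.mul_apply, ← mul_assoc, Finset.mul_sum]
    congr 1
    refine Finset.sum_congr rfl fun a _ => ?_
    rw [hxA]
    ring

lemma B7_hgt {j : ℕ} (δ : Gam q) {g : SU21} (h : Hgt q p n j g) :
    Hgt q p n j (δ.1 * g * δ.1⁻¹) := by
  obtain ⟨h1, i0, k0, h2⟩ := h
  have hinv : mat δ.1 * mat δ.1⁻¹ = 1 := by rw [← mat_mul, mul_inv_cancel, mat_one]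
  have hinv' : mat δ.1⁻¹ * mat δ.1 = 1 := by rw [← mat_mul, inv_mul_cancel, mat_one]
  refine ⟨?_, ?_⟩
  · intro i k
    obtain ⟨x, hx, hxe⟩ := B7_conj δ (A := ((p : ℂ) ^ j) • (mat g - 1)) (N := n)
      (fun a b => by
        obtain ⟨x, hx, hxe⟩ := h1 a b
        exact ⟨x, hx, by rw [Matrix.smul_apply, Matrix.sub_apply, smul_eq_mul]; exact hxe⟩) i k
    refine ⟨x, hx, ?_⟩
    rw [← hxe]
    have e : mat δ.1 * (((p : ℂ) ^ j) • (mat g - 1)) * mat δ.1⁻¹ =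
        ((p : ℂ) ^ j) • (mat (δ.1 * g * δ.1⁻¹) - 1) := by
      rw [Matrix.mul_smul, Matrix.smul_mul, Matrix.mul_sub, Matrix.sub_mul, Matrix.mul_one, hinv,
        mat_mul, mat_mul]
    rw [e, Matrix.smul_apply, Matrix.sub_apply, smul_eq_mul]
  · by_contra hcon
    push Not at hcon
    obtain ⟨x, hx, hxe⟩ := B7_conj δ⁻¹ (A := ((p : ℂ) ^ j) • mat (δ.1 * g * δ.1⁻¹)) (N := p)
      (fun a b => by
        obtain ⟨x, hx, hxe⟩ := hcon a b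
        exact ⟨x, hx, by rw [Matrix.smul_apply, smul_eq_mul]; exact hxe⟩) i0 k0
    apply h2 x hx
    rw [← hxe]
    have e0 : ((δ⁻¹ : Gam q).1)⁻¹ = δ.1 := by
      have : (δ⁻¹ : Gam q).1 = δ.1⁻¹ := rfl
      rw [this, inv_inv]
    have e : mat (δ⁻¹ : Gam q).1 * (((p : ℂ) ^ j) • mat (δ.1 * g * δ.1⁻¹)) *
        mat ((δ⁻¹ : Gam q).1)⁻¹ = ((p : ℂ) ^ j) • mat g := by
      rw [e0]
      have e1 : (δ⁻¹ : Gam q).1 = δ.1⁻¹ := rfl
      rw [e1, Matrix.mul_smul, Matrix.smul_mul, mat_mul, mat_mul]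
      congr 1
      calc mat δ.1⁻¹ * (mat δ.1 * mat g * mat δ.1⁻¹) * mat δ.1
          = (mat δ.1⁻¹ * mat δ.1) * mat g * (mat δ.1⁻¹ * mat δ.1) := by
            simp only [Matrix.mul_assoc]
        _ = mat g := by rw [hinv', Matrix.one_mul, Matrix.mul_one]
    rw [e, Matrix.smul_apply, smul_eq_mul]

/-- PROOF. `δ (g - 1) δ⁻¹`: entries of `δ`, `δ⁻¹` are in `OO q`; conversely conjugate back. If all
`p ^ j (δ g δ⁻¹)` were divisible by `p` then so were all `p ^ j g`. -/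
theorem hgt_conj {j : ℕ} (δ : Gam q) (g : SU21) :
    Hgt q p n j (δ.1 * g * δ.1⁻¹) ↔ Hgt q p n j g := by
  refine ⟨fun h => ?_, B7_hgt δ⟩
  have h1 := B7_hgt δ⁻¹ h
  have e1 : (δ⁻¹ : Gam q).1 = δ.1⁻¹ := rfl
  rw [e1, inv_inv] at h1
  have e2 : δ.1⁻¹ * (δ.1 * g * δ.1⁻¹) * δ.1 = g := by group
  rwa [e2] at h1

/-- Conjugation by an element of `Gam q` does not change sums over `HG` of functions of the height.

PROOF. `β ↦ δ β δ⁻¹` is a bijection of `HG q p n` preserving `T.ht` (`hgt_conj`, `ht_iff`,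
`mem_HG_of_hgt`), and `σ(δ z, β δ z) = σ(z, δ⁻¹ β δ z)`. -/
theorem conj_sum (hp : Inert (qd q) p) (hn : 1 ≤ n) (hnp : Nat.Coprime n p)
    {T : HT (HG q p n) p} (hT : ∀ g, Hgt q p n (T.ht g) g.1) (F : ℕ → ℝ → ℝ≥0∞) (δ : Gam q)
    {z : ℂ × ℂ} (hz : z ∈ U) :
    ∑' β : HG q p n, F (T.ht β) (sgm (act (mat δ.1) z) (act (mat β.1) (act (mat δ.1) z))) =
      ∑' β : HG q p n, F (T.ht β) (sgm z (act (mat β.1) z)) := by
  have hmem : ∀ (δ : Gam q) (β : HG q p n), δ.1 * β.1 * δ.1⁻¹ ∈ HG q p n := fun δ β =>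
    mem_HG_of_hgt (B7_hgt δ (hT β))
  let φ : HG q p n ≃ HG q p n :=
    { toFun := fun β => ⟨(δ⁻¹ : Gam q).1 * β.1 * ((δ⁻¹ : Gam q).1)⁻¹, hmem δ⁻¹ β⟩
      invFun := fun β => ⟨δ.1 * β.1 * δ.1⁻¹, hmem δ β⟩
      left_inv := by
        intro β
        apply Subtype.ext
        show δ.1 * (δ.1⁻¹ * β.1 * (δ.1⁻¹)⁻¹) * δ.1⁻¹ = β.1
        group
      right_inv := by
        intro β
        apply Subtype.ext
        show δ.1⁻¹ * (δ.1 * β.1 * δ.1⁻¹) * (δ.1⁻¹)⁻¹ = β.1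
        group }
  rw [← φ.tsum_eq (fun β : HG q p n => F (T.ht β) (sgm z (act (mat β.1) z)))]
  refine tsum_congr fun β => ?_
  have h1 : T.ht (φ β) = T.ht β := by
    rw [ht_iff hp hn hnp hT]
    exact B7_hgt δ⁻¹ (hT β)
  rw [h1]
  congr 1
  have hδz := act_mem_U δ.1 hz
  have h2 := sgm_act δ.1⁻¹ hδz (act_mem_U β.1 hδz)
  have h3 : act (mat δ.1⁻¹) (act (mat δ.1) z) = z := act_inv_act δ.1 hz
  have h4 : act (mat δ.1⁻¹) (act (mat β.1) (act (mat δ.1) z)) = act (mat (φ β).1) z := by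
    rw [act_act β.1 δ.1 hz, act_act δ.1⁻¹ (β.1 * δ.1) hz]
    have e : (φ β).1 = δ.1⁻¹ * (β.1 * δ.1) := by
      show δ.1⁻¹ * β.1 * (δ.1⁻¹)⁻¹ = _
      group
    rw [e]
  rw [h3, h4] at h2
  exact h2.symm

/-- PROOF. As `coset_bound` in `H56D/Z1.lean`: sum `pt_bound` over the points `(c.out)⁻¹ z`, `conj_sum`. -/
theorem cs_bound {W : WD q} (hp : Inert (qd q) p) (hn : 1 ≤ n) (hnp : Nat.Coprime n p)
    {T : HT (HG q p n) p} (hT : ∀ g, Hgt q p n (T.ht g) g.1) {x Lam : ℝ} (hx : 1 ≤ x) {m : ℕ}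
    {e : Fin m → ℂ × ℂ → ℂ} {l th : Fin m → ℝ} (he : ∀ i, Gd W (GamN q (n : ℂ)) (e i) (l i))
    (hl : ∀ i, 0 ≤ l i ∧ l i ≤ Lam) (hh : ∀ i, IsHecke q p n (e i) (th i))
    (hth : ∀ i, (p : ℝ) ^ 2 * (x + x⁻¹) ≤ |th i - (p - 1)|)
    (hon : ∀ i j, ∫ z : X, star (e i z.1) * e j z.1 ∂(rh W (GamN q (n : ℂ))) =
      if i = j then 1 else 0)
    {L : ℝ} (hL : 1 < L) (hL3 : Lam * L ^ 3 * (L - 1) ≤ 3) (k : ℕ) (z : X) :
    ENNReal.ofReal ((c3 / 2 * (L - 1) ^ 5 * (5 / 8 * ((p : ℝ) ^ 2 * x) ^ k)) ^ 2) *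
        ∑ i, PhiS (GamN q (n : ℂ)) (e i) z ≤
      ((GamN q (n : ℂ)).index : ℝ≥0∞) *
        ∑' β : HG q p n, ENNReal.ofReal (nb p k (T.ht β)) * FL L (sgm z.1 (act (mat β.1) z.1)) := by
  have hfi : (GamN q (n : ℂ)).FiniteIndex := GamN_finiteIndex (natCast_mem _ n)
    (by
      have : n ≠ 0 := by omega
      exact_mod_cast this)
  have hfin : Finite (Gam q ⧸ GamN q (n : ℂ)) := inferInstance
  have : Fintype (Gam q ⧸ GamN q (n : ℂ)) := Fintype.ofFinite _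
  have hz : z.1 ∈ U := z.2
  have h1 : ∑ i, PhiS (GamN q (n : ℂ)) (e i) z = ∑ c : Gam q ⧸ GamN q (n : ℂ), ∑ i, ENNReal.ofReal
      (Complex.normSq (e i (act (mat (c.out : Gam q)⁻¹.1) z.1))) := by
    rw [Finset.sum_comm]
    refine Finset.sum_congr rfl fun i _ => ?_
    unfold PhiS
    rw [tsum_fintype]
    rfl
  rw [h1, Finset.mul_sum]
  have h2 : ∀ c : Gam q ⧸ GamN q (n : ℂ),
      ENNReal.ofReal ((c3 / 2 * (L - 1) ^ 5 * (5 / 8 * ((p : ℝ) ^ 2 * x) ^ k)) ^ 2) *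
      ∑ i, ENNReal.ofReal (Complex.normSq (e i (act (mat (c.out : Gam q)⁻¹.1) z.1))) ≤
      ∑' β : HG q p n, ENNReal.ofReal (nb p k (T.ht β)) *
        FL L (sgm z.1 (act (mat β.1) z.1)) := by
    intro c
    refine (pt_bound hp hn hnp hT hx he hl hh hth hon hL hL3 k
      (act_mem_U (c.out : Gam q)⁻¹.1 hz)).trans (le_of_eq ?_)
    exact conj_sum hp hn hnp hT (fun j s => ENNReal.ofReal (nb p k j) * FL L s)
      (c.out : Gam q)⁻¹ hz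
  refine (Finset.sum_le_sum fun c _ => h2 c).trans (le_of_eq ?_)
  rw [Finset.sum_const, Finset.card_univ, nsmul_eq_mul]
  congr 1
  rw [Subgroup.index, Nat.card_eq_fintype_card]

end

end Pool.Agent.Lib.H80D
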