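import Pool.Agent.Lib.H80D.B5
import Pool.Agent.Lib.H80D.B2

/-!
# B8: the Hecke operator is symmetric
-/

namespace Pool.Agent.Lib.H80D

open Matrix hiding J
open MeasureTheory Topology Filter
open Pool.Agent.Lib.H56.Picard hiding O Gam mem_Gam star_mem_O T_mem sg_mem
open Pool.Agent.Lib.H56.Gen hiding dd dd_pos
open Pool.Agent.Lib.H56D hiding om wG rho Eig Good K0
open scoped ENNReal

noncomputable section

variable {q : QD} {p n : ℕ}

/-- Sums over representatives do not depend on their choice.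

PROOF. `exists_HT`, `reps_of_rp` for `S` and `S'`, `reps_sum` for `F g = f (act (mat g.1) z)`
(`hgt_zero`, `ht_iff`, `act_act`). -/
theorem rp_sum (hp : Inert (qd q) p) (hn : 1 ≤ n) (hnp : Nat.Coprime n p) {k : ℕ}
    {S S' : Finset SU21} (hS : Rp q p n k S) (hS' : Rp q p n k S') {M : Type} [AddCommMonoid M]
    {f : ℂ × ℂ → M}
    (hinv : ∀ γ : Gam q, γ ∈ GamN q (n : ℂ) → ∀ z ∈ U, f (act (mat γ.1) z) = f z) {z : ℂ × ℂ}
    (hz : z ∈ U) : ∑ s ∈ S, f (act (mat s) z) = ∑ s ∈ S', f (act (mat s) z) := by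
  obtain ⟨T, hT⟩ := exists_HT hp hn hnp
  obtain ⟨R, hR, hRs⟩ := reps_of_rp hp hn hnp hT hS
  obtain ⟨R', hR', hRs'⟩ := reps_of_rp hp hn hnp hT hS'
  rw [hRs M fun s => f (act (mat s) z), hRs' M fun s => f (act (mat s) z)]
  refine reps_sum T (f := fun g : HG q p n => f (act (mat g.1) z)) ?_ hR hR'
  intro γ h hγ
  have h1 : Hgt q p n 0 γ.1 := (ht_iff hp hn hnp hT γ).1 hγ
  obtain ⟨h2, h3⟩ := (hgt_zero hp.prime).1 h1
  have h4 := hinv ⟨γ.1, h2⟩ h3 (act (mat h.1) z) (act_mem_U h.1 hz)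
  show f (act (mat (γ.1 * h.1)) z) = f (act (mat h.1) z)
  rw [← h4, act_act γ.1 h.1 hz]

/-- PROOF. `exists_HT`, `exists_reps`, `rp_of_reps`. -/
theorem exists_rp (hp : Inert (qd q) p) (hn : 1 ≤ n) (hnp : Nat.Coprime n p) (k : ℕ) :
    ∃ S : Finset SU21, Rp q p n k S := by
  obtain ⟨T, hT⟩ := exists_HT hp hn hnp
  obtain ⟨R, hR⟩ := exists_reps T k
  obtain ⟨S, hS, -⟩ := rp_of_reps hp hn hnp hT hR
  exact ⟨S, hS⟩

/-- Elements of height one. -/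
abbrev B8H (q : QD) (p n : ℕ) : Type := {g : SU21 // Hgt q p n 1 g}

/-- Products of elements of the level group and of representatives. -/
def B8_map (hp : Inert (qd q) p) {S : Finset SU21} (hS : Rp q p n 1 S)
    (x : S × GamN q (n : ℂ)) : B8H q p n :=
  ⟨x.2.1.1 * x.1.1, hgt_left ((hgt_zero hp.prime).2 ⟨x.2.1.2, x.2.2⟩) (hS.1 _ x.1.2)⟩

lemma B8_bij (hp : Inert (qd q) p) {S : Finset SU21} (hS : Rp q p n 1 S) :
    Function.Bijective (B8_map hp hS) := by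
  constructor
  · rintro ⟨s, γ⟩ ⟨s', γ'⟩ h
    have h1 : γ.1.1 * s.1 = γ'.1.1 * s'.1 := congrArg Subtype.val h
    have h2 : Hgt q p n 0 (γ.1.1 * s.1 * s.1⁻¹) := by
      rw [mul_inv_cancel_right]
      exact (hgt_zero hp.prime).2 ⟨γ.1.2, γ.2⟩
    have h3 : Hgt q p n 0 (γ.1.1 * s.1 * s'.1⁻¹) := by
      rw [h1, mul_inv_cancel_right]
      exact (hgt_zero hp.prime).2 ⟨γ'.1.2, γ'.2⟩
    have h4 := (hS.2 _ (B8_map hp hS (s, γ)).2).unique ⟨s.2, h2⟩ ⟨s'.2, h3⟩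
    have h5 : s = s' := Subtype.ext h4
    subst h5
    have h6 : γ.1.1 = γ'.1.1 := mul_right_cancel h1
    rw [Prod.mk.injEq]
    exact ⟨rfl, Subtype.ext (Subtype.ext h6)⟩
  · intro g
    obtain ⟨s, ⟨hs, hs0⟩, -⟩ := hS.2 g.1 g.2
    obtain ⟨h1, h2⟩ := (hgt_zero hp.prime).1 hs0
    refine ⟨(⟨s, hs⟩, ⟨⟨g.1 * s⁻¹, h1⟩, h2⟩), Subtype.ext ?_⟩
    show g.1 * s⁻¹ * s = g.1
    rw [inv_mul_cancel_right]

/-- The bijection. -/
def B8_equiv (hp : Inert (qd q) p) {S : Finset SU21} (hS : Rp q p n 1 S) :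
    S × GamN q (n : ℂ) ≃ B8H q p n := Equiv.ofBijective _ (B8_bij hp hS)

lemma B8_equiv_val (hp : Inert (qd q) p) {S : Finset SU21} (hS : Rp q p n 1 S)
    (x : S × GamN q (n : ℂ)) : (B8_equiv hp hS x).1 = x.2.1.1 * x.1.1 := rfl

lemma B8_countable (hp : Inert (qd q) p) {S : Finset SU21} (hS : Rp q p n 1 S) :
    Countable (B8H q p n) := by
  have := f4_countable (GamN q (n : ℂ))
  exact (B8_equiv hp hS).symm.injective.countable

/-- Inversion. -/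
def B8_inv (q : QD) (p n : ℕ) : B8H q p n ≃ B8H q p n where
  toFun g := ⟨g.1⁻¹, hgt_inv g.2⟩
  invFun g := ⟨g.1⁻¹, hgt_inv g.2⟩
  left_inv g := Subtype.ext (inv_inv g.1)
  right_inv g := Subtype.ext (inv_inv g.1)

/-- Sums over representatives as sums over all elements of height one. -/
lemma B8_rep (W : WD q) (hp : Inert (qd q) p) {S : Finset SU21} (hS : Rp q p n 1 S)
    {a : X → ℝ≥0∞} (ia : ∀ γ : Gam q, γ ∈ GamN q (n : ℂ) → ∀ z : X, a (γ • z) = a z) (z : X) :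
    ∑' g : B8H q p n, wt W (GamN q (n : ℂ)) (g.1 • z) * a (g.1 • z) = ∑ s ∈ S, a (s • z) := by
  rw [← (B8_equiv hp hS).tsum_eq, ENNReal.tsum_prod']
  rw [tsum_fintype, ← Finset.sum_coe_sort S]
  refine Finset.sum_congr rfl fun s _ => ?_
  have h1 : ∀ γ : GamN q (n : ℂ), (B8_equiv hp hS (s, γ)).1 • z = γ • (s.1 • z) := by
    intro γ
    rw [B8_equiv_val]
    exact mul_smul γ.1.1 s.1 z
  have h2 : ∀ γ : GamN q (n : ℂ), a (γ • (s.1 • z)) = a (s.1 • z) := fun γ => ia γ.1 γ.2 _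
  simp only [h1, h2]
  rw [ENNReal.tsum_mul_right, sum_wt, one_mul]

lemma B8_m {a : X → ℝ≥0∞} (ha : Measurable a) (g : SU21) : Measurable fun z : X => a (g • z) :=
  ha.comp (measurable_const_smul g)

lemma B8_left (W : WD q) (hp : Inert (qd q) p)
    {S : Finset SU21} (hS : Rp q p n 1 S) {a b : X → ℝ≥0∞} (ha : Measurable a) (hb : Measurable b)
    (ia : ∀ γ : Gam q, γ ∈ GamN q (n : ℂ) → ∀ z : X, a (γ • z) = a z) :
    ∫⁻ z, (∑ s ∈ S, a (s • z)) * b z ∂(rh W (GamN q (n : ℂ))) =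
      ∑' g : B8H q p n, ∫⁻ z, wt W (GamN q (n : ℂ)) z *
        ((wt W (GamN q (n : ℂ)) (g.1 • z) * a (g.1 • z)) * b z) ∂mu := by
  have hc := B8_countable hp hS
  have hw := measurable_wt W (GamN q (n : ℂ))
  have hsa : Measurable fun z : X => (∑ s ∈ S, a (s • z)) * b z :=
    (Finset.measurable_sum _ fun s _ => B8_m ha s).mul hb
  rw [rh]
  rw [lintegral_withDensity_eq_lintegral_mul _ hw hsa]
  have h5 : ∫⁻ z, ∑' g : B8H q p n, (wt W (GamN q (n : ℂ)) z *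
        ((wt W (GamN q (n : ℂ)) (g.1 • z) * a (g.1 • z)) * b z)) ∂mu =
      ∑' g : B8H q p n, ∫⁻ z, wt W (GamN q (n : ℂ)) z *
        ((wt W (GamN q (n : ℂ)) (g.1 • z) * a (g.1 • z)) * b z) ∂mu := by
    apply lintegral_tsum
    intro g
    apply Measurable.aemeasurable
    have m1 := B8_m hw g.1
    have m2 := B8_m ha g.1
    exact hw.mul ((m1.mul m2).mul hb)
  rw [← h5]
  refine lintegral_congr fun z => ?_
  rw [Pi.mul_apply, ENNReal.tsum_mul_left, ENNReal.tsum_mul_right, B8_rep W hp hS ia]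

lemma B8_right (W : WD q) (hp : Inert (qd q) p)
    {S : Finset SU21} (hS : Rp q p n 1 S) {a b : X → ℝ≥0∞} (ha : Measurable a) (hb : Measurable b)
    (ib : ∀ γ : Gam q, γ ∈ GamN q (n : ℂ) → ∀ z : X, b (γ • z) = b z) :
    ∫⁻ z, a z * ∑ s ∈ S, b (s • z) ∂(rh W (GamN q (n : ℂ))) =
      ∑' g : B8H q p n, ∫⁻ z, wt W (GamN q (n : ℂ)) z *
        (a z * (wt W (GamN q (n : ℂ)) (g.1 • z) * b (g.1 • z))) ∂mu := by
  have hc := B8_countable hp hS
  have hw := measurable_wt W (GamN q (n : ℂ))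
  have hsb : Measurable fun z : X => a z * ∑ s ∈ S, b (s • z) :=
    ha.mul (Finset.measurable_sum _ fun s _ => B8_m hb s)
  rw [rh]
  rw [lintegral_withDensity_eq_lintegral_mul _ hw hsb]
  have h5 : ∫⁻ z, ∑' g : B8H q p n, (wt W (GamN q (n : ℂ)) z *
        (a z * (wt W (GamN q (n : ℂ)) (g.1 • z) * b (g.1 • z)))) ∂mu =
      ∑' g : B8H q p n, ∫⁻ z, wt W (GamN q (n : ℂ)) z *
        (a z * (wt W (GamN q (n : ℂ)) (g.1 • z) * b (g.1 • z))) ∂mu := by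
    apply lintegral_tsum
    intro g
    apply Measurable.aemeasurable
    have m1 := B8_m hw g.1
    have m2 := B8_m hb g.1
    exact hw.mul (ha.mul (m1.mul m2))
  rw [← h5]
  refine lintegral_congr fun z => ?_
  rw [Pi.mul_apply, ENNReal.tsum_mul_left, ENNReal.tsum_mul_left, B8_rep W hp hS ib]

lemma B8_change (W : WD q) (g : SU21) {a b : X → ℝ≥0∞} (ha : Measurable a) (hb : Measurable b) :
    ∫⁻ z, wt W (GamN q (n : ℂ)) z *
        ((wt W (GamN q (n : ℂ)) (g⁻¹ • z) * a (g⁻¹ • z)) * b z) ∂mu =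
      ∫⁻ z, wt W (GamN q (n : ℂ)) z *
        (a z * (wt W (GamN q (n : ℂ)) (g • z) * b (g • z))) ∂mu := by
  have hw := measurable_wt W (GamN q (n : ℂ))
  have m1 := B8_m hw g⁻¹
  have m2 := B8_m ha g⁻¹
  have h3 := (measurePreserving_smul g (mu : Measure X)).lintegral_comp
    (f := fun z => wt W (GamN q (n : ℂ)) z *
      ((wt W (GamN q (n : ℂ)) (g⁻¹ • z) * a (g⁻¹ • z)) * b z))
    (hw.mul ((m1.mul m2).mul hb))
  rw [← h3]
  refine lintegral_congr fun z => ?_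
  rw [inv_smul_smul]
  ring

/-- Symmetry for nonnegative functions.

PROOF. Let `w = wt W (GamN q n)`; `∑_{γ ∈ Γ(n)} w (γ z) = 1` (`sum_wt`), so
`∑_{s ∈ S} a (s z) = ∑_{s ∈ S} ∑_γ w (γ s z) a (γ s z) = ∑_δ w (δ z) a (δ z)`, the last sum over all `δ` with
`Hgt q p n 1 δ` (a countable set: a subset of `HG`; `(s, γ) ↦ γ s` is a bijection by `hS`, `hgt_zero`). So the left
side is `∑_δ ∫⁻ w (z) w (δ z) a (δ z) b (z) dμ`; substitute `z ↦ δ⁻¹ z` (`measurePreserving_smul`) and replace `δ`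
by `δ⁻¹` (`hgt_inv`): `∑_δ ∫⁻ w (δ z) w (z) a (z) b (δ z) dμ`, which is the right side by the same argument. -/
theorem sym_nn (W : WD q) (hp : Inert (qd q) p) (hn : 1 ≤ n) (hnp : Nat.Coprime n p)
    {S : Finset SU21} (hS : Rp q p n 1 S) {a b : X → ℝ≥0∞} (ha : Measurable a) (hb : Measurable b)
    (ia : ∀ γ : Gam q, γ ∈ GamN q (n : ℂ) → ∀ z : X, a (γ • z) = a z)
    (ib : ∀ γ : Gam q, γ ∈ GamN q (n : ℂ) → ∀ z : X, b (γ • z) = b z) :
    ∫⁻ z, (∑ s ∈ S, a (s • z)) * b z ∂(rh W (GamN q (n : ℂ))) =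
      ∫⁻ z, a z * ∑ s ∈ S, b (s • z) ∂(rh W (GamN q (n : ℂ))) := by
  rw [B8_left W hp hS ha hb ia, B8_right W hp hS ha hb ib, ← (B8_inv q p n).tsum_eq]
  refine tsum_congr fun g => ?_
  exact B8_change W g.1 ha hb

lemma B8_fin (hn : 1 ≤ n) : (GamN q (n : ℂ)).FiniteIndex :=
  GamN_finiteIndex (natCast_mem _ n) (by exact_mod_cast (by omega : n ≠ 0))

/-- Sums over representatives as sums over all elements of height one, complex valued functions. -/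
lemma B8_repC (W : WD q) (hp : Inert (qd q) p) (hn : 1 ≤ n) {S : Finset SU21}
    (hS : Rp q p n 1 S) {c : X → ℂ}
    (ic : ∀ γ : Gam q, γ ∈ GamN q (n : ℂ) → ∀ z : X, c (γ • z) = c z) (z : X) :
    ∑' g : B8H q p n, ((wt W (GamN q (n : ℂ)) (g.1 • z)).toReal : ℂ) * c (g.1 • z) =
      ∑ s ∈ S, c (s • z) := by
  have hfi := B8_fin (q := q) hn
  have h0 := B8_rep W hp hS (a := fun z => ‖c z‖ₑ) (fun γ hγ z => by rw [ic γ hγ z]) z
  have h1 : ∑' g : B8H q p n, wt W (GamN q (n : ℂ)) (g.1 • z) * ‖c (g.1 • z)‖ₑ ≠ ⊤ := by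
    rw [h0]
    exact (ENNReal.sum_lt_top.2 fun s _ => enorm_lt_top).ne
  have hsum : Summable fun g : B8H q p n =>
      ((wt W (GamN q (n : ℂ)) (g.1 • z)).toReal : ℂ) * c (g.1 • z) := by
    refine Summable.of_norm ((ENNReal.summable_toReal h1).congr fun g => ?_)
    rw [norm_mul, Complex.norm_real, Real.norm_of_nonneg ENNReal.toReal_nonneg,
      ENNReal.toReal_mul, toReal_enorm]
  rw [← (B8_equiv hp hS).tsum_eq]
  have hsum' := (B8_equiv hp hS).summable_iff.2 hsum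
  have h2 := hsum'.tsum_prod
  simp only [Function.comp_apply] at h2
  rw [h2, tsum_fintype, ← Finset.sum_coe_sort S]
  refine Finset.sum_congr rfl fun s _ => ?_
  have h3 : ∀ γ : GamN q (n : ℂ), (B8_equiv hp hS (s, γ)).1 • z = γ • (s.1 • z) := by
    intro γ
    rw [B8_equiv_val]
    exact mul_smul γ.1.1 s.1 z
  have h4 : ∀ γ : GamN q (n : ℂ), c (γ • (s.1 • z)) = c (s.1 • z) := fun γ => ic γ.1 γ.2 _
  simp only [h3, h4]
  rw [tsum_mul_right]
  have h5 := sum_wt W (GamN q (n : ℂ)) (s.1 • z)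
  have h6 := ENNReal.tsum_toReal_eq
    (f := fun γ : GamN q (n : ℂ) => wt W (GamN q (n : ℂ)) (γ • (s.1 • z)))
    (fun γ => wt_ne_top W _ _)
  rw [h5, ENNReal.toReal_one] at h6
  rw [← Complex.ofReal_tsum, ← h6, Complex.ofReal_one, one_mul]

lemma B8_L2 (W : WD q) (hp : Inert (qd q) p) (hn : 1 ≤ n) (hnp : Nat.Coprime n p)
    {S : Finset SU21} (hS : Rp q p n 1 S) {c d : X → ℂ} (mc : Measurable c) (md : Measurable d)
    (ic : ∀ γ : Gam q, γ ∈ GamN q (n : ℂ) → ∀ z : X, c (γ • z) = c z)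
    (Lc : ∫⁻ z, ‖c z‖ₑ ^ 2 ∂(rh W (GamN q (n : ℂ))) ≠ ⊤)
    (Ld : ∫⁻ z, ‖d z‖ₑ ^ 2 ∂(rh W (GamN q (n : ℂ))) ≠ ⊤) :
    ∫⁻ z, (∑ s ∈ S, ‖c (s • z)‖ₑ) * ‖d z‖ₑ ∂(rh W (GamN q (n : ℂ))) ≠ ⊤ := by
  have mc2 : Measurable fun z : X => ‖c z‖ₑ ^ 2 := mc.enorm.pow_const 2
  have md2 : Measurable fun z : X => ‖d z‖ₑ ^ 2 := md.enorm.pow_const 2
  have h1 : ∀ z : X, (∑ s ∈ S, ‖c (s • z)‖ₑ) * ‖d z‖ₑ ≤
      (∑ s ∈ S, ‖c (s • z)‖ₑ ^ 2) * 1 + S.card * ‖d z‖ₑ ^ 2 := by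
    intro z
    rw [mul_one, Finset.sum_mul, ← nsmul_eq_mul, ← Finset.sum_const, ← Finset.sum_add_distrib]
    refine Finset.sum_le_sum fun s _ => ?_
    rcases le_total (‖c (s • z)‖ₑ) (‖d z‖ₑ) with h | h
    · calc ‖c (s • z)‖ₑ * ‖d z‖ₑ ≤ ‖d z‖ₑ * ‖d z‖ₑ := mul_le_mul' h le_rfl
        _ = ‖d z‖ₑ ^ 2 := (sq _).symm
        _ ≤ _ := le_add_self
    · calc ‖c (s • z)‖ₑ * ‖d z‖ₑ ≤ ‖c (s • z)‖ₑ * ‖c (s • z)‖ₑ := mul_le_mul' le_rfl h
        _ = ‖c (s • z)‖ₑ ^ 2 := (sq _).symm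
        _ ≤ _ := le_self_add
  refine ne_top_of_le_ne_top ?_ (lintegral_mono h1)
  have hm : Measurable fun z : X => (∑ s ∈ S, ‖c (s • z)‖ₑ ^ 2) * (1 : ℝ≥0∞) :=
    (Finset.measurable_sum _ fun s _ => B8_m mc2 s).mul measurable_const
  rw [lintegral_add_left hm, lintegral_const_mul _ md2]
  refine ENNReal.add_ne_top.2 ⟨?_, ENNReal.mul_ne_top (ENNReal.natCast_ne_top _) Ld⟩
  have h2 := sym_nn W hp hn hnp hS (a := fun z => ‖c z‖ₑ ^ 2) (b := fun _ => 1) mc2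
    measurable_const (fun γ hγ z => by rw [ic γ hγ z]) (fun _ _ _ => rfl)
  rw [h2]
  simp only [Finset.sum_const, nsmul_eq_mul, mul_one]
  rw [lintegral_mul_const _ mc2]
  exact ENNReal.mul_ne_top Lc (ENNReal.natCast_ne_top _)

lemma B8_fub (W : WD q) (hp : Inert (qd q) p) (hn : 1 ≤ n) (hnp : Nat.Coprime n p)
    {S : Finset SU21} (hS : Rp q p n 1 S) {c d : X → ℂ} (mc : Measurable c) (md : Measurable d)
    (ic : ∀ γ : Gam q, γ ∈ GamN q (n : ℂ) → ∀ z : X, c (γ • z) = c z)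
    (Lc : ∫⁻ z, ‖c z‖ₑ ^ 2 ∂(rh W (GamN q (n : ℂ))) ≠ ⊤)
    (Ld : ∫⁻ z, ‖d z‖ₑ ^ 2 ∂(rh W (GamN q (n : ℂ))) ≠ ⊤) :
    ∫ z, star (∑ s ∈ S, c (s • z)) * d z ∂(rh W (GamN q (n : ℂ))) =
      ∑' g : B8H q p n, ∫ z : X, (((wt W (GamN q (n : ℂ)) z).toReal *
        (wt W (GamN q (n : ℂ)) (g.1 • z)).toReal : ℝ) : ℂ) * (star (c (g.1 • z)) * d z) ∂mu := by
  have hcnt := B8_countable hp hS
  have hfi := B8_fin (q := q) hn
  have hw := measurable_wt W (GamN q (n : ℂ))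
  have mcg : ∀ g : SU21, Measurable fun z : X => c (g • z) := fun g =>
    mc.comp (measurable_const_smul g)
  rw [← integral_tsum]
  · rw [rh, integral_withDensity_eq_integral_toReal_smul hw
      (Filter.Eventually.of_forall fun z => lt_top_iff_ne_top.2 (wt_ne_top W _ z))]
    refine integral_congr_ae (Filter.Eventually.of_forall fun z => ?_)
    have h1 := B8_repC W hp hn hS (c := fun z => star (c z)) (fun γ hγ z => by rw [ic γ hγ z]) z
    simp only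
    rw [star_sum, ← h1, Complex.real_smul, ← tsum_mul_right, ← tsum_mul_left]
    refine tsum_congr fun g => ?_
    push_cast
    ring
  · intro g
    have m1 := B8_m hw g.1
    have m2 : Measurable fun z : X => star (c (g.1 • z)) := Complex.continuous_conj.measurable.comp (mcg g.1)
    exact ((Complex.measurable_ofReal.comp (hw.ennreal_toReal.mul m1.ennreal_toReal)).mul
      (m2.mul md)).aestronglyMeasurable
  · have h2 := B8_L2 W hp hn hnp hS mc md ic Lc Ld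
    rw [B8_left W hp hS (a := fun z => ‖c z‖ₑ) (b := fun z => ‖d z‖ₑ) mc.enorm md.enorm
      (fun γ hγ z => by rw [ic γ hγ z])] at h2
    refine ne_top_of_le_ne_top h2 (ENNReal.tsum_le_tsum fun g => lintegral_mono fun z => ?_)
    have e1 : ‖(((wt W (GamN q (n : ℂ)) z).toReal *
        (wt W (GamN q (n : ℂ)) (g.1 • z)).toReal : ℝ) : ℂ)‖ₑ =
        wt W (GamN q (n : ℂ)) z * wt W (GamN q (n : ℂ)) (g.1 • z) := by
      rw [← ofReal_norm, Complex.norm_real, Real.norm_of_nonneg (by positivity),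
        ENNReal.ofReal_mul ENNReal.toReal_nonneg, ENNReal.ofReal_toReal (wt_ne_top W _ z),
        ENNReal.ofReal_toReal (wt_ne_top W _ _)]
    have e2 : ‖star (c (g.1 • z))‖ₑ = ‖c (g.1 • z)‖ₑ := by
      rw [← ofReal_norm, norm_star, ofReal_norm]
    rw [enorm_mul, enorm_mul, e1, e2]
    exact le_of_eq (by ring)

lemma B8_gd {W : WD q} {f : ℂ × ℂ → ℂ} {l : ℝ} (hf : Gd W (GamN q (n : ℂ)) f l) :
    (Measurable fun z : X => f z.1) ∧
      (∀ γ : Gam q, γ ∈ GamN q (n : ℂ) → ∀ z : X, f (γ • z : X).1 = f z.1) ∧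
      ∫⁻ z : X, ‖f z.1‖ₑ ^ 2 ∂(rh W (GamN q (n : ℂ))) ≠ ⊤ := by
  have hm := (L2_meas hf.smooth).measurable
  refine ⟨hm, fun γ hγ z => hf.inv γ hγ z.1 z.2, ?_⟩
  have mc2 : Measurable fun z : X => ‖f z.1‖ₑ ^ 2 := hm.enorm.pow_const 2
  rw [rh, lintegral_withDensity_eq_lintegral_mul _ (measurable_wt W _) mc2]
  refine ne_top_of_le_ne_top hf.L2 (lintegral_mono fun z => ?_)
  rw [Pi.mul_apply, Complex.normSq_eq_norm_sq, ENNReal.ofReal_pow (norm_nonneg _), ofReal_norm]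

/-- PROOF. Absolute convergence: `sym_nn` with `a = |f|²`, `b = 1` gives `∫ ∑_s |f (s z)|² = #S ∫ |f|² < ∞`
(`h.L2`), and `|f (s z) g (z)| ≤ |f (s z)|² + |g (z)|²`. For real measurable invariant square integrable `a`, `b`
split into positive and negative parts and use `sym_nn` four times
(`integral_eq_lintegral_of_nonneg_ae`); then real and imaginary parts. -/
theorem hecke_sym {W : WD q} (hp : Inert (qd q) p) (hn : 1 ≤ n) (hnp : Nat.Coprime n p)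
    {f g : ℂ × ℂ → ℂ} {l l' : ℝ} (hf : Gd W (GamN q (n : ℂ)) f l)
    (hg : Gd W (GamN q (n : ℂ)) g l') {S : Finset SU21} (hS : Rp q p n 1 S) :
    ∫ z : X, star (∑ s ∈ S, f (act (mat s) z.1)) * g z.1 ∂(rh W (GamN q (n : ℂ))) =
      ∫ z : X, star (f z.1) * ∑ s ∈ S, g (act (mat s) z.1) ∂(rh W (GamN q (n : ℂ))) := by
  obtain ⟨mf, jf, Lf⟩ := B8_gd hf
  obtain ⟨mg, jg, Lg⟩ := B8_gd hg
  have h1 := B8_fub W hp hn hnp hS mf mg jf Lf Lg
  have h2 := B8_fub W hp hn hnp hS mg mf jg Lg Lf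
  have h3 : ∫ z : X, star (f z.1) * ∑ s ∈ S, g (act (mat s) z.1) ∂(rh W (GamN q (n : ℂ))) =
      star (∫ z : X, star (∑ s ∈ S, g (s • z : X).1) * f z.1 ∂(rh W (GamN q (n : ℂ)))) := by
    have h4 := integral_conj (μ := rh W (GamN q (n : ℂ)))
      (f := fun z : X => star (∑ s ∈ S, g (s • z : X).1) * f z.1)
    rw [← starRingEnd_apply, ← h4]
    refine integral_congr_ae (Filter.Eventually.of_forall fun z => ?_)
    simp only
    rw [starRingEnd_apply, star_mul', star_star, mul_comm]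
    rfl
  rw [h3, h2]
  have h5 : ∫ z : X, star (∑ s ∈ S, f (act (mat s) z.1)) * g z.1 ∂(rh W (GamN q (n : ℂ))) =
    ∫ z : X, star (∑ s ∈ S, f (s • z : X).1) * g z.1 ∂(rh W (GamN q (n : ℂ))) := rfl
  rw [h5, h1, ← starRingEnd_apply, Complex.conj_tsum, ← (B8_inv q p n).tsum_eq]
  refine tsum_congr fun γ => ?_
  rw [← integral_conj, ← (measurePreserving_smul γ.1 (mu : Measure X)).integral_comp
    (measurableEmbedding_const_smul γ.1)]
  refine integral_congr_ae (Filter.Eventually.of_forall fun z => ?_)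
  have h6 : ((B8_inv q p n γ).1 : SU21) = γ.1⁻¹ := rfl
  simp only
  rw [h6, inv_smul_smul, starRingEnd_apply, star_mul', star_mul', star_star]
  rw [Complex.star_def, Complex.conj_ofReal, mul_comm (wt W (GamN q (n : ℂ)) (γ.1 • z)).toReal]
  ring

/-- PROOF. `hecke_sym` (with the set of `h1`; `rp_sum` for `g`):
`star θ ⟨f, g⟩ = θ' ⟨f, g⟩`. -/
theorem hecke_orth {W : WD q} (hp : Inert (qd q) p) (hn : 1 ≤ n) (hnp : Nat.Coprime n p)
    {f g : ℂ × ℂ → ℂ} {l l' : ℝ} (hf : Gd W (GamN q (n : ℂ)) f l)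
    (hg : Gd W (GamN q (n : ℂ)) g l') {θ θ' : ℂ} (h1 : IsHecke q p n f θ)
    (h2 : IsHecke q p n g θ') (hne : star θ ≠ θ') :
    ∫ z : X, star (f z.1) * g z.1 ∂(rh W (GamN q (n : ℂ))) = 0 := by
  obtain ⟨S, hS, hS1⟩ := h1
  obtain ⟨S', hS', hS1'⟩ := h2
  have h3 := hecke_sym hp hn hnp hf hg hS
  have h4 : ∀ z : X, star (∑ s ∈ S, f (act (mat s) z.1)) * g z.1 =
      star θ * (star (f z.1) * g z.1) := by
    intro z
    rw [hS1 z.1 z.2, star_mul']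
    ring
  have h5 : ∀ z : X, star (f z.1) * ∑ s ∈ S, g (act (mat s) z.1) =
      θ' * (star (f z.1) * g z.1) := by
    intro z
    rw [rp_sum hp hn hnp hS hS' hg.inv z.2, hS1' z.1 z.2]
    ring
  simp only [h4, h5] at h3
  rw [integral_const_mul, integral_const_mul] at h3
  have h6 : (star θ - θ') * ∫ z : X, star (f z.1) * g z.1 ∂(rh W (GamN q (n : ℂ))) = 0 := by
    rw [sub_mul, h3, sub_self]
  rcases mul_eq_zero.1 h6 with h7 | h7
  · exact absurd (sub_eq_zero.1 h7) hne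
  · exact h7

/-- PROOF. If `θ` is not real then `⟨f, f⟩ = 0` by `hecke_orth`, so `f = 0` almost everywhere and everywhere
(`ae_zero_w`). -/
theorem hecke_real {W : WD q} (hp : Inert (qd q) p) (hn : 1 ≤ n) (hnp : Nat.Coprime n p)
    {f : ℂ × ℂ → ℂ} {l : ℝ} (hf : Gd W (GamN q (n : ℂ)) f l) {θ : ℂ} (h1 : IsHecke q p n f θ)
    (hne : ∃ z ∈ U, f z ≠ 0) : θ.im = 0 := by
  by_contra hcon
  have hfi := B8_fin (q := q) hn
  have h2 : star θ ≠ θ := by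
    intro h
    apply hcon
    exact Complex.conj_eq_iff_im.1 h
  have h3 := hecke_orth hp hn hnp hf hf h1 h1 h2
  have h4 : ∀ z : X, star (f z.1) * f z.1 = ((‖f z.1‖ ^ 2 : ℝ) : ℂ) := by
    intro z
    rw [Complex.star_def, ← Complex.normSq_eq_conj_mul_self, Complex.normSq_eq_norm_sq]
  simp only [h4] at h3
  rw [integral_complex_ofReal] at h3
  have h5 : ∫ z : X, ‖f z.1‖ ^ 2 ∂(rh W (GamN q (n : ℂ))) = 0 := by exact_mod_cast h3
  have h6 : Integrable (fun z : X => ‖f z.1‖ ^ 2) (rh W (GamN q (n : ℂ))) :=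
    (memLp_two_iff_integrable_sq_norm (Gd_memLp hf).1).1 (Gd_memLp hf)
  rw [integral_eq_zero_iff_of_nonneg (fun z => by positivity) h6] at h5
  obtain ⟨z, hz, hfz⟩ := hne
  apply hfz
  refine ae_zero_w (W := W) hf.smooth.continuousOn hf.inv ?_ z hz
  filter_upwards [h5] with w hw
  have h7 : ‖f w.1‖ ^ 2 = 0 := hw
  simpa using h7

/-- PROOF. `exists_rp`, `rp_sum` for each `f i` with `c i ≠ 0`. -/
theorem hecke_lin (hp : Inert (qd q) p) (hn : 1 ≤ n) (hnp : Nat.Coprime n p) {m : ℕ}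
    {f : Fin m → ℂ × ℂ → ℂ} {c : Fin m → ℂ} {θ : ℂ}
    (hinv : ∀ i, ∀ γ : Gam q, γ ∈ GamN q (n : ℂ) → ∀ z ∈ U, f i (act (mat γ.1) z) = f i z)
    (h : ∀ i, c i ≠ 0 → IsHecke q p n (f i) θ) :
    IsHecke q p n (fun z => ∑ i, c i * f i z) θ := by
  obtain ⟨S, hS⟩ := exists_rp hp hn hnp 1
  refine ⟨S, hS, fun z hz => ?_⟩
  rw [Finset.sum_comm, Finset.mul_sum]
  refine Finset.sum_congr rfl fun i _ => ?_
  rw [← Finset.mul_sum]
  by_cases hc : c i = 0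
  · rw [hc]
    simp
  · obtain ⟨S', hS', h1⟩ := h i hc
    rw [rp_sum hp hn hnp hS hS' (hinv i) hz, h1 z hz]
    ring

end

end Pool.Agent.Lib.H80D
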