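import Pool.Agent.Lib.H80D.B8
import Pool.Agent.Lib.H56D.G1

/-!
# B9: orthonormal families of joint eigenfunctions
-/

namespace Pool.Agent.Lib.H80D

open Matrix hiding J
open MeasureTheory Topology Filter
open Pool.Agent.Lib.H56.Picard hiding O Gam mem_Gam star_mem_O T_mem sg_mem
open Pool.Agent.Lib.H56.Gen hiding dd dd_pos
open Pool.Agent.Lib.H56D hiding om wG rho Eig Good K0
open scoped ENNReal

noncomputable section

variable {q : QD} {p n : ℕ}

/-- PROOF. As `exists_onb` in `H56D/G5.lean`: `exists_orthonormal (rh W (GamN q n))` with real labels obtained from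
an injection of the finite set of pairs `(l i, th i)` into the reals; for different pairs orthogonality is
`horth` or `hecke_orth` (`th` is real). Linear independence almost everywhere by `ae_zero_w`, `Gd_memLp`. -/
theorem exists_onb_w {W : WD q} (hp : Inert (qd q) p) (hn : 1 ≤ n) (hnp : Nat.Coprime n p)
    {m : ℕ} {f : Fin m → ℂ × ℂ → ℂ} {l th : Fin m → ℝ}
    (hf : ∀ i, Gd W (GamN q (n : ℂ)) (f i) (l i)) (hh : ∀ i, IsHecke q p n (f i) (th i))
    (hli : ∀ c : Fin m → ℂ, (∀ z ∈ U, ∑ i, c i * f i z = 0) → c = 0)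
    (horth : ∀ i j, l i ≠ l j →
      ∫ z : X, star (f i z.1) * f j z.1 ∂(rh W (GamN q (n : ℂ))) = 0) :
    ∃ c : Fin m → Fin m → ℂ, (∀ i j, c i j ≠ 0 → l j = l i ∧ th j = th i) ∧
      ∀ i j, ∫ z : X, star (∑ k, c i k * f k z.1) * (∑ k, c j k * f k z.1)
        ∂(rh W (GamN q (n : ℂ))) = if i = j then 1 else 0 := by
  classical
  have hfi := B8_fin (q := q) hn
  -- real labels
  obtain ⟨F, hF⟩ := Countable.exists_injective_nat (Set.range fun i : Fin m => (l i, th i))
  have hlab : ∀ i j : Fin m, ((F ⟨(l i, th i), Set.mem_range_self i⟩ : ℕ) : ℝ) =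
      ((F ⟨(l j, th j), Set.mem_range_self j⟩ : ℕ) : ℝ) ↔ l i = l j ∧ th i = th j := by
    intro i j
    rw [Nat.cast_inj, hF.eq_iff, Subtype.mk.injEq, Prod.mk.injEq]
  obtain ⟨c, hc, hon⟩ := exists_orthonormal (rh W (GamN q (n : ℂ))) (fun i (z : X) => f i z.1)
    (fun i => Gd_memLp (hf i)) (by
      intro c hc
      apply hli c
      refine ae_zero_w (W := W) (G := GamN q (n : ℂ)) (F := fun z => ∑ i, c i * f i z) ?_ ?_ hc
      · exact continuousOn_finsetSum _ fun i _ =>
          continuousOn_const.mul (hf i).smooth.continuousOn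
      · intro γ hγ z hz
        exact Finset.sum_congr rfl fun i _ => by rw [(hf i).inv γ hγ z hz])
    (fun i => ((F ⟨(l i, th i), Set.mem_range_self i⟩ : ℕ) : ℝ)) (fun i j hij => by
      by_cases h1 : l i = l j
      · have h2 : th i ≠ th j := fun h2 => hij ((hlab i j).2 ⟨h1, h2⟩)
        refine hecke_orth hp hn hnp (hf i) (hf j) (hh i) (hh j) ?_
        rw [Complex.star_def, Complex.conj_ofReal]
        exact fun h3 => h2 (Complex.ofReal_injective h3)
      · exact horth i j h1)
  exact ⟨c, fun i j h => (hlab j i).1 (hc i j h), hon⟩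

end

end Pool.Agent.Lib.H80D
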