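import Pool.Agent.Lib.H56.Gen.LevelCoord

/-!
# E1: scaled lattices of translations
-/

namespace Pool.Agent.Lib.H80D

open Matrix hiding J
open MeasureTheory Topology Filter
open Pool.Agent.Lib.H56.Picard hiding O Gam mem_Gam star_mem_O T_mem sg_mem
open Pool.Agent.Lib.H56.Gen hiding dd dd_pos
open scoped ENNReal

noncomputable section

variable {q : QD}

lemma scale_mem {s : ℕ} {p x : ℂ} (h : ∃ y ∈ OO q, x = p * y) :
    ∃ y ∈ OO q, (s : ℂ) * x = (s : ℂ) * p * y := by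
  obtain ⟨y, hy, rfl⟩ := h
  exact ⟨y, hy, by ring⟩

/-- The lattice of translations scaled by `s`. -/
def scaleC (K : Cusp q) (s : ℕ) (hs : 1 ≤ s) : Cusp q where
  p := s * K.p
  e1 := s * K.e1
  e2 := s * K.e2
  w1 := s * (s * K.w1)
  w2 := s * (s * K.w2)
  P := s * K.P
  hp := (OO q).mul_mem (natCast_mem _ s) K.hp
  hp0 := mul_ne_zero (by exact_mod_cast (Nat.one_le_iff_ne_zero.1 hs)) K.hp0
  he1 := scale_mem K.he1
  he2 := scale_mem K.he2
  hs1 := by
    rw [star_mul', star_natCast]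
    exact scale_mem K.hs1
  hs2 := by
    rw [star_mul', star_natCast]
    exact scale_mem K.hs2
  hw1 := by
    obtain ⟨y, hy, h⟩ := K.hw1
    exact ⟨s * y, (OO q).mul_mem (natCast_mem _ s) hy, by rw [h]; ring⟩
  hw2 := by
    obtain ⟨y, hy, h⟩ := K.hw2
    exact ⟨s * y, (OO q).mul_mem (natCast_mem _ s) hy, by rw [h]; ring⟩
  hw0 := by
    obtain ⟨y, hy, h⟩ := K.hw0
    refine ⟨y, hy, ?_⟩
    rw [mul_assoc, ← h]
    apply Complex.ext
    · simp
    · simp
      ring
  r1 := by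
    have h := K.r1
    simp only [Complex.normSq_mul, Complex.normSq_natCast, Complex.mul_re, Complex.natCast_re,
      Complex.natCast_im, zero_mul, sub_zero]
    linear_combination ((s : ℝ) * s) * h
  r2 := by
    have h := K.r2
    simp only [Complex.normSq_mul, Complex.normSq_natCast, Complex.mul_re, Complex.natCast_re,
      Complex.natCast_im, zero_mul, sub_zero]
    linear_combination ((s : ℝ) * s) * h
  hP := mul_pos (by exact_mod_cast hs) K.hP
  cov := by
    have h := K.cov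
    have hs' : (0 : ℝ) < s := by exact_mod_cast hs
    simp only [Complex.mul_re, Complex.mul_im, Complex.natCast_re, Complex.natCast_im, zero_mul,
      sub_zero, add_zero]
    have e : (s : ℝ) * K.e1.re * (s * K.e2.im) - s * K.e1.im * (s * K.e2.re) =
        s * s * (K.e1.re * K.e2.im - K.e1.im * K.e2.re) := by ring
    rw [e]
    positivity
  cen := by
    intro x hx h
    have hs' : (s : ℝ) ≠ 0 := by
      have : (1 : ℝ) ≤ s := by exact_mod_cast hs
      linarith
    have e : (s : ℂ) * K.p * x = (s : ℂ) * (K.p * x) := by ring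
    rw [e] at h ⊢
    simp only [Complex.mul_re, Complex.mul_im, Complex.natCast_re, Complex.natCast_im, zero_mul,
      sub_zero, add_zero] at h ⊢
    have h' : (K.p * x).re = 0 := by
      rw [Complex.mul_re]
      rcases mul_eq_zero.1 h with h1 | h1
      · exact absurd h1 hs'
      · exact h1
    obtain ⟨k, hk⟩ := K.cen x hx h'
    rw [Complex.mul_im] at hk
    exact ⟨k, by rw [hk]; ring⟩

lemma E1_int_mul {p e : ℂ} (h : ∃ y ∈ OO q, e = p * y) (m : ℤ) : (m : ℂ) * e ∈ PO q p := by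
  obtain ⟨y, hy, rfl⟩ := h
  refine ⟨(m : ℂ) * y, (OO q).mul_mem (intCast_mem (OO q) m) hy, by ring⟩

/-- PROOF. `mem_B`: `b` has matrix `TM (lv' m n) w`, `lv' m n = s lv m n`, `star (lv' m n)` and `w` are in
`s p OO q`, `p ∈ OO q`. -/
theorem scale_sub_one {K : Cusp q} {s : ℕ} {hs : 1 ≤ s} {b : Gam q}
    (hb : b ∈ (scaleC K s hs).B) (i j : Fin 3) :
    ∃ x ∈ OO q, mat b.1 i j - (1 : Matrix (Fin 3) (Fin 3) ℂ) i j = s * x := by
  obtain ⟨m, n, w, hw, hr, hm⟩ := hb
  set K' := scaleC K s hs with hK'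
  have h0 := (PO q K'.p).zero_mem
  have hl : K'.lv m n ∈ PO q K'.p := by
    unfold Cusp.lv
    exact (PO q K'.p).add_mem (E1_int_mul K'.he1 m) (E1_int_mul K'.he2 n)
  have hsl : star (K'.lv m n) ∈ PO q K'.p := by
    unfold Cusp.lv
    rw [star_add, star_mul', star_mul', star_intCast, star_intCast]
    exact (PO q K'.p).add_mem (E1_int_mul K'.hs1 m) (E1_int_mul K'.hs2 n)
  have h1 := (PO q K'.p).neg_mem hsl
  simp only [Complex.star_def] at h1
  have key : mat b.1 i j - (1 : Matrix (Fin 3) (Fin 3) ℂ) i j ∈ PO q K'.p := by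
    rw [hm]
    fin_cases i <;> fin_cases j <;> simp [TM, h0, h1, hl, hw]
  obtain ⟨x, hx, e⟩ := key
  refine ⟨K.p * x, (OO q).mul_mem K.hp hx, ?_⟩
  rw [e, hK']
  show (s : ℂ) * K.p * x = _
  ring

/-- PROOF. `mem_B`: `lv' m n = lv (s m) (s n)`. -/
theorem scale_le (K : Cusp q) (s : ℕ) (hs : 1 ≤ s) : (scaleC K s hs).B ≤ K.B := by
  rintro γ ⟨a, b, w, hw, hr, hm⟩
  have hlv : (scaleC K s hs).lv a b = K.lv (s * a) (s * b) := by
    simp only [Cusp.lv, scaleC]
    push_cast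
    ring
  refine ⟨s * a, s * b, w, ?_, ?_, ?_⟩
  · obtain ⟨x, hx, e⟩ := hw
    refine ⟨(s : ℂ) * x, (OO q).mul_mem (natCast_mem (OO q) s) hx, ?_⟩
    rw [e]
    show (s : ℂ) * K.p * x = _
    ring
  · rw [← hlv]
    exact hr
  · rw [← hlv]
    exact hm

/-- PROOF. The form is `|i e₂ - j e₁|² / (4 cv²)`, and `i e₂ - j e₁` is a nonzero element of `OO q`, so of
absolute value at least one (`one_le_norm`). -/
theorem exists_k0 (K : Cusp q) : ∃ k0 : ℝ, 0 < k0 ∧ ∀ i j : ℤ, (i ≠ 0 ∨ j ≠ 0) →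
    k0 ≤ K.A1 * i ^ 2 + K.A2 * i * j + K.A3 * j ^ 2 := by
  have hc := K.cv_pos
  have hdet : 4 * K.A1 * K.A3 - K.A2 ^ 2 = 1 / (4 * K.cv ^ 2) := by
    have h4 : K.cv ^ 2 = (K.e1.re * K.e2.im - K.e1.im * K.e2.re) ^ 2 := rfl
    have h5 : K.cv ^ 4 = (K.e1.re * K.e2.im - K.e1.im * K.e2.re) ^ 4 := rfl
    simp only [Cusp.A1, Cusp.A2, Cusp.A3, Complex.normSq_apply]
    field_simp
    rw [h4]
    ring
  have hd0 : 0 < 1 / (4 * K.cv ^ 2) := by positivity
  set d := 1 / (4 * K.cv ^ 2) with hd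
  have hn1 : 0 < Complex.normSq K.e1 := by
    rw [Complex.normSq_pos]
    intro he
    have := K.cov
    rw [he] at this
    simp at this
  have hn2 : 0 < Complex.normSq K.e2 := by
    rw [Complex.normSq_pos]
    intro he
    have := K.cov
    rw [he] at this
    simp at this
  have hA1 : 0 < K.A1 := by
    unfold Cusp.A1
    positivity
  have hA3 : 0 < K.A3 := by
    unfold Cusp.A3
    positivity
  refine ⟨min (d / (4 * K.A3)) (d / (4 * K.A1)), lt_min (by positivity) (by positivity), ?_⟩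
  have one_le : ∀ k : ℤ, k ≠ 0 → (1 : ℝ) ≤ (k : ℝ) ^ 2 := by
    intro k hk
    have h1 : (1 : ℤ) ≤ k ^ 2 := by
      have := sq_pos_of_ne_zero hk
      linarith
    exact_mod_cast h1
  intro i j hij
  rcases hij with hi | hj
  · refine (min_le_left _ _).trans ?_
    rw [div_le_iff₀ (by positivity)]
    have h1 := one_le i hi
    nlinarith [sq_nonneg (2 * K.A3 * j + K.A2 * i)]
  · refine (min_le_right _ _).trans ?_
    rw [div_le_iff₀ (by positivity)]
    have h1 := one_le j hj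
    nlinarith [sq_nonneg (2 * K.A1 * i + K.A2 * j)]

/-- PROOF. `cv' = s² cv`, so `A1' = A1/s²` and so on. -/
theorem scale_k0 {K : Cusp q} {k0 : ℝ} (hk : ∀ i j : ℤ, (i ≠ 0 ∨ j ≠ 0) →
    k0 ≤ K.A1 * i ^ 2 + K.A2 * i * j + K.A3 * j ^ 2) (s : ℕ) (hs : 1 ≤ s) (i j : ℤ)
    (hij : i ≠ 0 ∨ j ≠ 0) : k0 / (s : ℝ) ^ 2 ≤ (scaleC K s hs).A1 * i ^ 2 +
      (scaleC K s hs).A2 * i * j + (scaleC K s hs).A3 * j ^ 2 := by
  have hs' : (s : ℝ) ≠ 0 := Nat.cast_ne_zero.2 (Nat.one_le_iff_ne_zero.1 hs)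
  have hc := K.cv_pos.ne'
  have e0 : (scaleC K s hs).cv = (s : ℝ) ^ 2 * K.cv := by
    simp only [Cusp.cv, scaleC]
    simp
    ring
  have a1 : (scaleC K s hs).A1 = K.A1 / s ^ 2 := by
    simp only [Cusp.A1, e0]
    have e2 : Complex.normSq (scaleC K s hs).e2 = (s : ℝ) ^ 2 * Complex.normSq K.e2 := by
      simp only [scaleC]
      rw [Complex.normSq_mul, Complex.normSq_natCast]
      ring
    rw [e2]
    field_simp
  have a2 : (scaleC K s hs).A2 = K.A2 / s ^ 2 := by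
    simp only [Cusp.A2, e0]
    have e2 : (scaleC K s hs).e1.re * (scaleC K s hs).e2.re +
        (scaleC K s hs).e1.im * (scaleC K s hs).e2.im =
        (s : ℝ) ^ 2 * (K.e1.re * K.e2.re + K.e1.im * K.e2.im) := by
      simp only [scaleC]
      simp
      ring
    rw [e2]
    field_simp
  have a3 : (scaleC K s hs).A3 = K.A3 / s ^ 2 := by
    simp only [Cusp.A3, e0]
    have e2 : Complex.normSq (scaleC K s hs).e1 = (s : ℝ) ^ 2 * Complex.normSq K.e1 := by
      simp only [scaleC]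
      rw [Complex.normSq_mul, Complex.normSq_natCast]
      ring
    rw [e2]
    field_simp
  rw [a1, a2, a3]
  have h1 := hk i j hij
  have h2 : K.A1 / s ^ 2 * i ^ 2 + K.A2 / s ^ 2 * i * j + K.A3 / s ^ 2 * j ^ 2 =
      (K.A1 * i ^ 2 + K.A2 * i * j + K.A3 * j ^ 2) / s ^ 2 := by
    field_simp
  rw [h2]
  exact div_le_div_of_nonneg_right h1 (by positivity)

end

end Pool.Agent.Lib.H80D
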