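import Pool.Agent.Lib.H56.Gen.Main
import Pool.Agent.Lib.H56.Gen.LevelCoord
import Pool.Agent.Lib.H56.Gen.Level

/-!
# E2: comparison of the boxes of two lattices
-/

namespace Pool.Agent.Lib.H80D

open Matrix hiding J
open MeasureTheory Topology Filter
open Pool.Agent.Lib.H56.Picard hiding O Gam mem_Gam star_mem_O T_mem sg_mem
open Pool.Agent.Lib.H56.Gen hiding dd dd_pos
open scoped ENNReal

noncomputable section

variable {q : QD}

/-- number of translates of `y` by the subgroup `H` in the box -/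
def E2_repH (H : Subgroup (Gam q)) (Box : Set (ℂ × ℂ)) (y : X) : ℝ≥0∞ :=
  ∑' a : H, bx Box (a • y : X).1

lemma E2_repH_const {H B : Subgroup (Gam q)} {Box : Set (ℂ × ℂ)} (hBA : B ≤ H)
    (hB : ∀ z ∈ U, ∃! b : B, act (mat b.1.1) z ∈ Box) (y y1 : X) :
    E2_repH H Box y = E2_repH H Box y1 := by
  have h1 : E2_repH H Box y = ∑' a : H, ∑' b : B,
      bx Box (a • y : X).1 * bx Box (b • (a • y1) : X).1 := by
    refine tsum_congr fun a => ?_
    rw [ENNReal.tsum_mul_left, sum_bx hB, mul_one]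
  have h2 : E2_repH H Box y1 = ∑' a : H, ∑' b : B,
      bx Box (b⁻¹ • (a • y) : X).1 * bx Box (a • y1 : X).1 := by
    refine tsum_congr fun a => ?_
    rw [ENNReal.tsum_mul_right, sum_bx_inv hB, one_mul]
  rw [h1, h2, ENNReal.tsum_comm, ENNReal.tsum_comm (α := H)]
  refine tsum_congr fun b => ?_
  set b' : H := ⟨b.1, hBA b.2⟩ with hb'
  rw [← (Equiv.mulLeft b').tsum_eq (fun a : H =>
    bx Box (b⁻¹ • (a • y) : X).1 * bx Box (a • y1 : X).1)]
  refine tsum_congr fun a => ?_
  have e1 : (b⁻¹ • ((Equiv.mulLeft b') a • y) : X) = a • y := by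
    have : (b⁻¹ • ((Equiv.mulLeft b') a • y) : X) = b.1⁻¹ • ((b.1 * a.1) • y) := rfl
    rw [this, smul_smul, inv_mul_cancel_left]
    rfl
  have e2 : ((Equiv.mulLeft b') a • y1 : X) = b • (a • y1) := by
    have : ((Equiv.mulLeft b') a • y1 : X) = (b.1 * a.1) • y1 := rfl
    rw [this, mul_smul]
    rfl
  rw [e1, e2]

lemma E2_one_le_repH {H B : Subgroup (Gam q)} {Box : Set (ℂ × ℂ)} (hBA : B ≤ H)
    (hB : ∀ z ∈ U, ∃! b : B, act (mat b.1.1) z ∈ Box) (y : X) : 1 ≤ E2_repH H Box y := by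
  obtain ⟨b, hb, -⟩ := hB y.1 y.2
  refine le_trans ?_ (ENNReal.le_tsum (⟨b.1, hBA b.2⟩ : H))
  exact (if_pos hb).ge

lemma E2_repH_ne_top {H : Subgroup (Gam q)} (K : Cusp q) (hH : H ≤ stab (OO q) star_mem) (y : X) :
    E2_repH H K.Box y ≠ ⊤ := by
  classical
  obtain ⟨S0, hK, hKU, hKc⟩ := Box_compact K (height y.1) (height y.1) y.2
  obtain ⟨S, hS⟩ := Pool.Agent.Lib.H56.Picard.locally_finite (hO := star_mem (q := q))
    Pool.Agent.Lib.H56.Gen.finite_ball hK hKU (z := y.1) y.2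
  have hS' := hS.self_of_nhds.2
  refine tsum_ne_top_of_finite (S.subtype (fun a => a ∈ H)) (fun a ha => ?_)
    fun a => bx_ne_top _ _
  refine if_neg fun hmem => ?_
  have hh : height (act (mat a.1.1) y.1) = height y.1 :=
    height_stab one_le_norm (⟨a.1, hH a.2⟩ : stab (OO q) star_mem) y
  have h1 : act (mat a.1.1) y.1 ∈ S0 := hKc _ hmem hh.ge hh.le
  have h2 : a.1 ∉ S := fun h => ha (Finset.mem_subtype.2 h)
  exact hS' a.1 h2 h1

/-- Integrals over the boxes of two lattices `K1 ⊆ K2` of a function invariant under the translations of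
`K2` are proportional.

PROOF. `ν z = ∑' b : K2.B, bx K1.Box (b • z)` does not depend on `z`: choosing representatives of the cosets of
`K1.B` in `K2.B`, `ν z = ∑_c ∑' b : K1.B, bx K1.Box (b • (c • z)) = ∑_c 1` (`sum_bx`, `K1.exists_unique_B`);
call it `c`. `c ≠ 0`: some `b ∈ K1.B` moves `z` into `K1.Box`. `c ≠ ⊤`: for `b ∈ K2.B` the height of `b z` is that
of `z` (the third row of `TM` is `(0, 0, 1)`), so if `b z ∈ K1.Box` then it lies in a compact subset of `U`
(`Box_compact K1`), and only finitely many elements of `Gam q` move `z` into this set (`exists_entry_bound`,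
`finite_entries finite_ball`). Finally, with `∑' b : K2.B, bx K2.Box (b • z) = 1`,
`∫⁻_{K1.Box} φ = ∫⁻ bx K1.Box z φ z ∑' b, bx K2.Box (b z) = ∑' b, ∫⁻ bx K1.Box (b⁻¹ z) φ z bx K2.Box z =
∫⁻ φ bx K2.Box ν = c ∫⁻_{K2.Box} φ` (`lintegral_tsum`, `measurePreserving_smul`, `Equiv.inv`). -/
theorem box_index (K1 K2 : Cusp q) (h12 : K1.B ≤ K2.B) : ∃ c : ℝ≥0∞, c ≠ 0 ∧ c ≠ ⊤ ∧
    ∀ φ : X → ℝ≥0∞, Measurable φ → (∀ b : Gam q, b ∈ K2.B → ∀ z : X, φ (b • z) = φ z) →
      ∫⁻ z in {z : X | z.1 ∈ K1.Box}, φ z ∂mu = c * ∫⁻ z in {z : X | z.1 ∈ K2.Box}, φ z ∂mu := by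
  have hcount : Countable (Gam q) := countable_arith Pool.Agent.Lib.H56.Gen.finite_ball
  have hcB : Countable K2.B := inferInstance
  set y0 : X := ⟨((-(1 / 2) : ℂ), (0 : ℂ)), by
    show 0 < height _
    simp [height]⟩ with hy0
  refine ⟨E2_repH K2.B K1.Box y0, ?_, E2_repH_ne_top K1 (B_le_stab K2) y0, ?_⟩
  · have := E2_one_le_repH h12 (fun z hz => K1.exists_unique_B hz) y0
    intro h0
    rw [h0] at this
    exact absurd this (by simp)
  intro Ψ mΨ hΨ
  have mb' := measurable_bx (measurableSet_Box K1)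
  have mb := measurable_bx (measurableSet_Box K2)
  have mF : Measurable fun z : X => bx K1.Box z.1 * Ψ z := mb'.mul mΨ
  have hind : ∀ (K : Cusp q), ∫⁻ z in {z : X | z.1 ∈ K.Box}, Ψ z ∂mu =
      ∫⁻ z, bx K.Box z.1 * Ψ z ∂mu := by
    intro K
    have hs : MeasurableSet {z : X | z.1 ∈ K.Box} :=
      (measurableSet_Box K).preimage measurable_subtype_coe
    rw [← lintegral_indicator hs]
    refine lintegral_congr fun z => ?_
    by_cases hz : z ∈ {z : X | z.1 ∈ K.Box}
    · rw [Set.indicator_of_mem hz]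
      have : bx K.Box z.1 = 1 := if_pos hz
      rw [this, one_mul]
    · rw [Set.indicator_of_notMem hz]
      have : bx K.Box z.1 = 0 := if_neg hz
      rw [this, zero_mul]
  have h2 := unfold_lintegral (G := K2.B) (w := fun z : X => bx K2.Box z.1) mb (c := 1)
    (Filter.Eventually.of_forall (fun z => sum_bx (fun z hz => K2.exists_unique_B hz) z)) mF
  rw [one_mul] at h2
  rw [hind K1, hind K2, h2]
  have h3 : ∀ z : X, ∑' γ : K2.B, bx K1.Box (γ • z : X).1 * Ψ (γ • z) =
      E2_repH K2.B K1.Box y0 * Ψ z := by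
    intro z
    rw [E2_repH_const h12 (fun z hz => K1.exists_unique_B hz) y0 z]
    unfold E2_repH
    rw [← ENNReal.tsum_mul_right]
    refine tsum_congr fun b => ?_
    have e1 : Ψ (b • z : X) = Ψ z := hΨ b.1 b.2 z
    rw [e1]
  simp only [h3]
  have h4 : ∀ z : X, bx K2.Box z.1 * (E2_repH K2.B K1.Box y0 * Ψ z) =
      E2_repH K2.B K1.Box y0 * (bx K2.Box z.1 * Ψ z) := fun z => by ring
  simp only [h4]
  exact lintegral_const_mul _ (mb.mul mΨ)

/-- Elements of `K.B` do not change the height. -/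
theorem height_B {K : Cusp q} {b : Gam q} (hb : b ∈ K.B) (z : X) :
    height (b • z : X).1 = height z.1 :=
  height_stab one_le_norm (⟨b, B_le_stab K hb⟩ : stab (OO q) star_mem) z

/-- PROOF. `box_index` for `φ` times the indicator function of the heights above `Y` (`height_B`). -/
theorem box_index_Y (K1 K2 : Cusp q) (h12 : K1.B ≤ K2.B) : ∃ c : ℝ≥0∞, c ≠ 0 ∧ c ≠ ⊤ ∧
    ∀ φ : X → ℝ≥0∞, Measurable φ → (∀ b : Gam q, b ∈ K2.B → ∀ z : X, φ (b • z) = φ z) → ∀ Y : ℝ,
      ∫⁻ z in {z : X | z.1 ∈ K1.Box ∧ Y < height z.1}, φ z ∂mu =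
        c * ∫⁻ z in {z : X | z.1 ∈ K2.Box ∧ Y < height z.1}, φ z ∂mu := by
  obtain ⟨c, hc0, hct, h⟩ := box_index K1 K2 h12
  refine ⟨c, hc0, hct, fun φ mφ hφ Y => ?_⟩
  have mh : Measurable fun z : X => height z.1 := measurable_height
  have hY : MeasurableSet {z : X | Y < height z.1} := measurableSet_lt measurable_const mh
  have hS : ∀ K : Cusp q, MeasurableSet {z : X | z.1 ∈ K.Box} := fun K =>
    (measurableSet_Box K).preimage measurable_subtype_coe
  have h1 := h ({z : X | Y < height z.1}.indicator φ) (mφ.indicator hY) (fun b hb z => by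
    by_cases hz : Y < height z.1
    · rw [Set.indicator_of_mem (show z ∈ {z : X | Y < height z.1} from hz),
        Set.indicator_of_mem (show b • z ∈ {z : X | Y < height z.1} from by
          show Y < height (b • z : X).1
          rw [height_B hb]
          exact hz), hφ b hb]
    · rw [Set.indicator_of_notMem (show z ∉ {z : X | Y < height z.1} from hz),
        Set.indicator_of_notMem (show b • z ∉ {z : X | Y < height z.1} from fun h2 => hz (by
          have h3 : Y < height (b • z : X).1 := h2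
          rw [height_B hb] at h3
          exact h3))])
  have h2 : ∀ K : Cusp q, ∫⁻ z in {z : X | z.1 ∈ K.Box}, {z : X | Y < height z.1}.indicator φ z ∂mu =
      ∫⁻ z in {z : X | z.1 ∈ K.Box ∧ Y < height z.1}, φ z ∂mu := by
    intro K
    rw [setLIntegral_indicator hY]
    congr 2
    ext z
    exact And.comm
  rw [h2, h2] at h1
  exact h1

end

end Pool.Agent.Lib.H80D
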