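import Pool.Agent.Lib.H80D.E1
import Pool.Agent.Lib.H56.Gen.LevelConj
import Pool.Agent.Lib.H56.Gen.Level

/-!
# E3: inequality of Poincare type for cusp forms
-/

namespace Pool.Agent.Lib.H80D

open Matrix hiding J
open MeasureTheory Topology Filter
open Pool.Agent.Lib.H56.Picard hiding O Gam mem_Gam star_mem_O T_mem sg_mem
open Pool.Agent.Lib.H56.Gen hiding dd dd_pos
open scoped ENNReal

noncomputable section

variable {q : QD}

lemma E3_tr (K : Cusp q) {F : ℂ × ℂ → ℂ}
    (hper : ∀ b : Gam q, b ∈ K.B → ∀ z ∈ U, F (act (mat b.1) z) = F z) (m n : ℤ) {w : ℂ}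
    (hw : w ∈ PO q K.p) (hr : 2 * w.re = -Complex.normSq (K.lv m n)) {z : ℂ × ℂ} (hz : z ∈ U) :
    F (z.1 - star (K.lv m n) * z.2 + w, z.2 + K.lv m n) = F z := by
  have hT : T (K.lv m n) w hr ∈ Gam q :=
    T_mem hr (PO_le K.hp (K.lv_mem m n)) (PO_le K.hp hw)
  have h1 := hper ⟨T (K.lv m n) w hr, hT⟩ ⟨m, n, w, hw, hr, mat_T hr⟩ z hz
  have h2 : act (mat (⟨T (K.lv m n) w hr, hT⟩ : Gam q).1) z =
      (z.1 - star (K.lv m n) * z.2 + w, z.2 + K.lv m n) := by
    show act (mat (T (K.lv m n) w hr)) z = _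
    rw [mat_T, act_TM]
  rw [h2] at h1
  exact h1

lemma E3_cuspFun (K : Cusp q) {F : ℂ × ℂ → ℂ} (hF : ContDiffOn ℝ 2 F U)
    (hper : ∀ b : Gam q, b ∈ K.B → ∀ z ∈ U, F (act (mat b.1) z) = F z) (R : ℂ →L[ℝ] ℝ) :
    CuspFun K (fun z => R (F z)) := by
  have l0 : K.lv 0 0 = 0 := by simp [Cusp.lv]
  have l1 : K.lv 1 0 = K.e1 := by simp [Cusp.lv]
  have l2 : K.lv 0 1 = K.e2 := by simp [Cusp.lv]
  refine ⟨R.contDiff.comp_contDiffOn hF, fun z hz => ?_, fun z hz => ?_, fun z hz => ?_⟩
  · have h1 := E3_tr K hper 0 0 (w := ⟨0, K.P / 2⟩) K.hw0 (by rw [l0]; simp) (z := z) hz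
    rw [l0, star_zero, zero_mul, sub_zero, add_zero] at h1
    exact congrArg R h1
  · have h1 := E3_tr K hper 1 0 (w := K.w1) K.hw1 (by rw [l1]; exact K.r1) (z := z) hz
    rw [l1] at h1
    exact congrArg R h1
  · have h1 := E3_tr K hper 0 1 (w := K.w2) K.hw2 (by rw [l2]; exact K.r2) (z := z) hz
    rw [l2] at h1
    exact congrArg R h1

lemma E3_above (K : Cusp q) (Y : ℝ) (φ : X → ℝ≥0∞) :
    ∫⁻ z in {z : X | z.1 ∈ K.Box ∧ Y < height z.1}, φ z ∂mu =
      ∫⁻ z in {z : X | z.1 ∈ K.Box}, above Y (height z.1) * φ z ∂mu := by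
  have mh : Measurable fun z : X => height z.1 := measurable_height
  have hY : MeasurableSet {z : X | Y < height z.1} := measurableSet_lt measurable_const mh
  have h1 : ∫⁻ z in {z : X | z.1 ∈ K.Box}, {z : X | Y < height z.1}.indicator φ z ∂mu =
      ∫⁻ z in {z : X | z.1 ∈ K.Box ∧ Y < height z.1}, φ z ∂mu := by
    rw [setLIntegral_indicator hY]
    congr 2
    ext z
    exact And.comm
  rw [← h1]
  refine lintegral_congr fun z => ?_
  by_cases hz : Y < height z.1
  · rw [Set.indicator_of_mem (show z ∈ {z : X | Y < height z.1} from hz),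
      show above Y (height z.1) = 1 from
        Set.indicator_of_mem (show height z.1 ∈ Set.Ioi Y from hz) _, one_mul]
  · rw [Set.indicator_of_notMem (show z ∉ {z : X | Y < height z.1} from hz),
      show above Y (height z.1) = 0 from
        Set.indicator_of_notMem (show height z.1 ∉ Set.Ioi Y from hz) _, zero_mul]

/-- PROOF. `cusp_real K` for `g = Re F` and `g = Im F`, with `h = Y`, `w = 1`, `V = v0`, `B1 = B2 = 0`, `L = 0`,
`k0`: `CuspFun K g` (`pv`, `ps`, `pt`: `hper` for the translations `T 0 (i P/2)`, `T e1 w1`, `T e2 w2`, which are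
elements of `K.B` (`mem_B`); see `cuspFun_re` in `H56/Gen/LevelConj.lean`), the mean value `h0` is the real or
imaginary part of `hcusp` (continuity: `cont_fixedE`), `hfin` from `hfin` here. Translate `BW` into integrals over
the box by `lintegral_Box_weight` (with the indicator function of `(Y, ∞)` as weight) or `lintegral_Box'`, and add
the two inequalities (`normSq F = (Re F)² + (Im F)²`). -/
theorem poinc (K : Cusp q) {k0 : ℝ} (hk0 : 0 ≤ k0) (hk : ∀ i j : ℤ, (i ≠ 0 ∨ j ≠ 0) →
      k0 ≤ K.A1 * i ^ 2 + K.A2 * i * j + K.A3 * j ^ 2)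
    {F : ℂ × ℂ → ℂ} (hF : ContDiffOn ℝ 2 F U)
    (hper : ∀ b : Gam q, b ∈ K.B → ∀ z ∈ U, F (act (mat b.1) z) = F z)
    (hcusp : ∀ u : ℝ, 0 < u → ∫ s in (0:ℝ)..1, ∫ t in (0:ℝ)..1, ∫ v in (0:ℝ)..K.P,
      F (PsiE K.e1 K.e2 s t v u) = 0)
    {Y v0 : ℝ} (hY : 0 < Y) (hv0 : 0 ≤ v0) (hv1 : v0 ≤ Y ^ 2 * (2 * Real.pi / K.P) ^ 2)
    (hv2 : v0 ≤ Y * (4 * Real.pi ^ 2 * k0))
    (hfin : ∫⁻ z in {z : X | z.1 ∈ K.Box ∧ Y < height z.1},
      ENNReal.ofReal (Complex.normSq (F z.1)) ∂mu ≠ ⊤) :
    ENNReal.ofReal v0 * ∫⁻ z in {z : X | z.1 ∈ K.Box ∧ Y < height z.1},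
        ENNReal.ofReal (Complex.normSq (F z.1)) ∂mu ≤
      ∫⁻ z in {z : X | z.1 ∈ K.Box ∧ Y < height z.1},
        ENNReal.ofReal (energy (fun z => (F z).re) z.1 + energy (fun z => (F z).im) z.1) ∂mu := by
  rw [E3_above, E3_above]
  rw [E3_above] at hfin
  have mA := measurable_above Y
  have mh : Measurable fun z : X => height z.1 := measurable_height
  have hab1 : ∀ u, Y < u → above Y u = 1 := fun u hu =>
    Set.indicator_of_mem (show u ∈ Set.Ioi Y from hu) _
  have hab0 : ∀ u, u ≤ Y → above Y u = 0 := fun u hu =>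
    Set.indicator_of_notMem (show u ∉ Set.Ioi Y from not_lt.mpr hu) _
  have mN : Measurable fun z : X => Complex.normSq (F z.1) :=
    (continuous_restrict (φ := fun z => Complex.normSq (F z))
      (Complex.continuous_normSq.comp_continuousOn hF.continuousOn)).measurable
  have hfinC : BW Y K.P (fun s t v u =>
      Complex.normSq (F (PsiE K.e1 K.e2 s t v u))) < ∞ := by
    have e2 := lintegral_Box_weight K hY (wE := above Y) (w := fun _ => 1) mA
      (fun u _ => zero_le_one) (fun u hu => by rw [hab1 u hu, ENNReal.ofReal_one])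
      (fun u hu => hab0 u hu) (fun z => Complex.normSq (F z)) mN
    rw [e2] at hfin
    simp only [one_mul] at hfin
    by_contra hcon
    have h4 : BW Y K.P (fun s t v u => Complex.normSq (F (PsiE K.e1 K.e2 s t v u))) = ⊤ := by
      by_contra h5
      exact hcon (lt_top_iff_ne_top.2 h5)
    rw [h4, ENNReal.mul_top] at hfin
    · exact hfin rfl
    · have := K.cv_pos
      rw [ENNReal.ofReal_ne_zero_iff]
      positivity
  have hcn : ∀ R : ℂ →L[ℝ] ℝ, Measurable fun z : X => R (F z.1) ^ 2 := by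
    intro R
    have h1 := (E3_cuspFun K hF hper R).smooth.continuousOn
    exact ((continuous_restrict h1).pow 2).measurable
  have hce : ∀ R : ℂ →L[ℝ] ℝ, Measurable fun z : X => energy (fun z => R (F z)) z.1 := by
    intro R
    have h1 := (E3_cuspFun K hF hper R).smooth.of_le (m := 1) (by norm_num)
    exact (continuous_restrict (φ := fun z => normL z
      (fderiv ℝ (fun z => R (F z)) z)) (continuousOn_normL h1)).measurable
  set vE : ℝ → ℝ≥0∞ := fun u => ENNReal.ofReal v0 * above Y u with hvE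
  have mvE : Measurable vE := measurable_const.mul mA
  have hpart : ∀ (R : ℂ →L[ℝ] ℝ), (∀ c : ℂ, R c ^ 2 ≤ Complex.normSq c) →
      ∫⁻ z in {z : X | z.1 ∈ K.Box}, vE (height z.1) * ENNReal.ofReal (R (F z.1) ^ 2) ∂mu ≤
      ∫⁻ z in {z : X | z.1 ∈ K.Box}, above Y (height z.1) *
        ENNReal.ofReal (energy (fun z => R (F z)) z.1) ∂mu := by
    intro R hR
    rw [lintegral_Box_weight K hY (w := fun _ => v0) mvE (fun _ _ => hv0)
        (fun u hu => by
          simp only [hvE]
          rw [hab1 u hu, mul_one])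
        (fun u hu => by
          simp only [hvE]
          rw [hab0 u hu, mul_zero])
        (fun z => R (F z) ^ 2) (hcn R),
      lintegral_Box_weight K hY (w := fun _ => 1) mA (fun _ _ => zero_le_one)
        (fun u hu => by rw [hab1 u hu, ENNReal.ofReal_one])
        (fun u hu => hab0 u hu)
        (fun z => energy (fun z => R (F z)) z) (hce R)]
    refine mul_le_mul' le_rfl ?_
    refine cusp_real K (h := Y) (L := 0) (k0 := k0) (w := fun _ => 1) (V := fun _ => v0)
      (B1 := fun _ => 0) (B2 := fun _ => 0) (B1' := fun _ => 0) (B2' := fun _ => 0) (M := 0)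
      hY hk0 hk le_rfl zero_le_one continuousOn_const (fun _ _ => one_pos)
      measurable_const
      (fun _ _ => hv0) (fun u _ => hasDerivAt_const _ _) (fun u _ => hasDerivAt_const _ _)
      continuousOn_const continuousOn_const continuousOn_const continuousOn_const le_rfl le_rfl
      (fun u _ => by simp) (fun u _ => by simp) (fun u hu => ?_) (fun u hu => ?_)
      (E3_cuspFun K hF hper R) (fun u hu => ?_) ?_
    · have hu0 : 0 < u := hY.trans hu
      have h1 : v0 ≤ u ^ 2 * (2 * Real.pi / K.P) ^ 2 := hv1.trans (by gcongr)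
      have h2 : 0 ≤ u⁻¹ ^ 3 := by positivity
      have h3 : u⁻¹ ^ 3 * v0 ≤ u⁻¹ ^ 3 * (u ^ 2 * (2 * Real.pi / K.P) ^ 2) :=
        mul_le_mul_of_nonneg_left h1 h2
      simpa using h3
    · have hu0 : 0 < u := hY.trans hu
      have h1 : v0 ≤ u * (4 * Real.pi ^ 2 * k0) := hv2.trans (by gcongr)
      have h2 : 0 ≤ u⁻¹ ^ 3 := by positivity
      have h3 : u⁻¹ ^ 3 * v0 ≤ u⁻¹ ^ 3 * (u * (4 * Real.pi ^ 2 * k0)) :=
        mul_le_mul_of_nonneg_left h1 h2
      simpa using h3
    · have hu0 : 0 < u := hY.trans hu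
      have h1 := triple_comm R (G := fun s t v => F (PsiE K.e1 K.e2 s t v u))
        (cont_fixedE K.e1 K.e2 hF.continuousOn hu0) K.P
      rw [h1, hcusp u hu0, map_zero]
    · refine lt_of_le_of_lt ?_ hfinC
      unfold BW
      refine setLIntegral_mono' measurableSet_Ioi fun u hu => ?_
      have hu0 : 0 < u := hY.trans hu
      refine lintegral_mono fun s => lintegral_mono fun t => lintegral_mono fun v => ?_
      apply ENNReal.ofReal_le_ofReal
      exact mul_le_mul_of_nonneg_left (hR _) (by positivity)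
  have h1 := hpart Complex.reCLM (fun c => by
    rw [Complex.normSq_apply, Complex.reCLM_apply]
    nlinarith [sq_nonneg c.im])
  have h2 := hpart Complex.imCLM (fun c => by
    rw [Complex.normSq_apply, Complex.imCLM_apply]
    nlinarith [sq_nonneg c.re])
  have m0 : Measurable fun z : X => above Y (height z.1) *
      ENNReal.ofReal (Complex.normSq (F z.1)) :=
    (mA.comp mh).mul (ENNReal.measurable_ofReal.comp mN)
  have b1 : ENNReal.ofReal v0 * ∫⁻ z in {z : X | z.1 ∈ K.Box}, above Y (height z.1) *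
      ENNReal.ofReal (Complex.normSq (F z.1)) ∂mu =
      ∫⁻ z in {z : X | z.1 ∈ K.Box}, vE (height z.1) *
        ENNReal.ofReal (Complex.reCLM (F z.1) ^ 2) ∂mu +
      ∫⁻ z in {z : X | z.1 ∈ K.Box}, vE (height z.1) *
        ENNReal.ofReal (Complex.imCLM (F z.1) ^ 2) ∂mu := by
    have m1 : Measurable fun z : X => vE (height z.1) *
        ENNReal.ofReal (Complex.reCLM (F z.1) ^ 2) :=
      (mvE.comp mh).mul (ENNReal.measurable_ofReal.comp (hcn Complex.reCLM))
    rw [← lintegral_const_mul _ m0, ← lintegral_add_left m1]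
    refine lintegral_congr fun z => ?_
    rw [← mul_add, ← ENNReal.ofReal_add (by positivity) (by positivity), Complex.normSq_apply,
      Complex.reCLM_apply, Complex.imCLM_apply]
    simp only [hvE]
    rw [mul_assoc]
    congr 3
    ring
  have b2 : ∫⁻ z in {z : X | z.1 ∈ K.Box}, above Y (height z.1) *
      ENNReal.ofReal (energy (fun z => (F z).re) z.1 + energy (fun z => (F z).im) z.1) ∂mu =
      ∫⁻ z in {z : X | z.1 ∈ K.Box}, above Y (height z.1) *
        ENNReal.ofReal (energy (fun z => Complex.reCLM (F z)) z.1) ∂mu +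
      ∫⁻ z in {z : X | z.1 ∈ K.Box}, above Y (height z.1) *
        ENNReal.ofReal (energy (fun z => Complex.imCLM (F z)) z.1) ∂mu := by
    have m1 : Measurable fun z : X => above Y (height z.1) *
        ENNReal.ofReal (energy (fun z => Complex.reCLM (F z)) z.1) :=
      (mA.comp mh).mul (ENNReal.measurable_ofReal.comp (hce Complex.reCLM))
    rw [← lintegral_add_left m1]
    refine lintegral_congr fun z => ?_
    have n1 : 0 ≤ energy (fun z => (F z).re) z.1 := normL_nonneg z.2.le _
    have n2 : 0 ≤ energy (fun z => (F z).im) z.1 := normL_nonneg z.2.le _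
    rw [ENNReal.ofReal_add n1 n2, mul_add]
    rfl
  rw [b1, b2]
  exact add_le_add h1 h2

end

end Pool.Agent.Lib.H80D
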