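import Pool.Agent.Lib.H80D.ED
import Pool.Agent.Lib.H80D.E2
import Pool.Agent.Lib.H80D.E3
import Pool.Agent.Lib.H56M.W2
import Pool.Agent.Lib.H56M.O5
import Pool.Agent.Lib.H43T.MassM

/-!
# E4: the inequality in each cusp, summed over the cosets
-/

namespace Pool.Agent.Lib.H80D

open Matrix hiding J
open MeasureTheory Topology Filter
open Pool.Agent.Lib.H56.Picard hiding O Gam mem_Gam star_mem_O T_mem sg_mem
open Pool.Agent.Lib.H56.Gen hiding dd dd_pos cnt
open Pool.Agent.Lib.H56D hiding om wG rho Eig Good K0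
open Pool.Agent.Lib.H56M (MC top bxi ind cnt om wG rho Eig Good)
open scoped ENNReal

noncomputable section

variable {q : QD}

/-- PROOF. Let `G = Γ(n)`. Finiteness of `∫ om PhiS` is `lintegral_PhiS`; by `om_eq` and the substitution
`z = g_i w` it is at least `∫_{Box, height > Y} (cnt (g_i w))⁻¹ PhiS (g_i w)`, and `cnt (g_i w) = κ < ⊤`
(`cnt_high`). -/
theorem high_fin (D : MC q) {n : ℕ} (hn : 1 ≤ n) {f : ℂ × ℂ → ℂ} {l : ℝ}
    (h : Good D (GamN q (n : ℂ)) f l) (i : Fin D.r) {Y : ℝ} (hY : top D ≤ Y) :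
    ∫⁻ b in {b : X | b.1 ∈ D.K.Box ∧ Y < height b.1}, PhiS (GamN q (n : ℂ)) f (D.g i • b) ∂mu
      ≠ ⊤ := by
  have hGfin := GamN_finiteIndex (q := q) (p := (n : ℂ)) (natCast_mem (OO q) n)
    (Nat.cast_ne_zero.2 (Nat.one_le_iff_ne_zero.1 hn))
  set G := GamN q (n : ℂ) with hG
  have mP : Measurable (PhiS G f) := measurable_PhiS h.smooth
  have mh : Measurable fun z : X => height z.1 := measurable_height
  have msm : Measurable fun w : X => D.g i • w := measurable_const_smul (D.g i)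
  have hBox : MeasurableSet {w : X | w.1 ∈ D.K.Box} :=
    (measurableSet_Box D.K).preimage measurable_subtype_coe
  have hT1 := H43T.one_le_top D
  have hIt : ∫⁻ z, om D z * PhiS G f z ∂mu ≠ ⊤ := by
    rw [← H56M.lintegral_PhiS D G h.smooth]
    exact h.L2
  obtain ⟨κ, hκ1, hκt, hκ⟩ := H56M.cnt_high D i
  intro hi
  rw [E3_above] at hi
  have h1 : κ⁻¹ * ∫⁻ w in {w : X | w.1 ∈ D.K.Box}, above Y (height w.1) *
      PhiS G f (D.g i • w) ∂mu ≤ ∫⁻ z, om D z * PhiS G f z ∂mu := by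
    have m3 : Measurable fun w : X => above Y (height w.1) * PhiS G f (D.g i • w) :=
      ((measurable_above Y).comp mh).mul (mP.comp msm)
    rw [← lintegral_const_mul _ m3, H43T.int_om D mP]
    refine le_trans ?_ (Finset.single_le_sum (f := fun i => ∫⁻ w in {w : X | w.1 ∈ D.K.Box},
        above D.h (height w.1) * ((cnt D (D.g i • w))⁻¹ * PhiS G f (D.g i • w)) ∂mu)
        (fun _ _ => zero_le) (Finset.mem_univ i))
    refine setLIntegral_mono' hBox fun w hw => ?_
    rcases le_or_gt (height w.1) Y with h2 | h2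
    · rw [show above Y (height w.1) = 0 from
        Set.indicator_of_notMem (show height w.1 ∉ Set.Ioi Y from not_lt.2 h2) _, zero_mul,
        mul_zero]
      exact zero_le
    · have h3 : D.h < height w.1 := lt_of_le_of_lt (D.h1.trans (hT1.trans hY)) h2
      rw [show above Y (height w.1) = 1 from
        Set.indicator_of_mem (show height w.1 ∈ Set.Ioi Y from h2) _,
        show above D.h (height w.1) = 1 from
        Set.indicator_of_mem (show height w.1 ∈ Set.Ioi D.h from h3) _,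
        hκ w hw (lt_of_le_of_lt hY h2), one_mul, one_mul]
  rw [hi, ENNReal.mul_top (ENNReal.inv_ne_zero.2 hκt)] at h1
  exact hIt (top_le_iff.1 h1)

/-- PROOF. For a coset `c` let `F c w = f (act (mat (c.out⁻¹ * g_i)) w) = conj G f c (g_i w)` (`act_act`): it is
`C²` on `U` (`contDiffAt_act2`), periodic under `(lat D n).B` (`lat_per`), with vanishing mean values (`hc`), and
`∑_c |F c w|² = PhiS (g_i w)`. `poinc` for the lattice `lat D n` with `k0/s²`, `s = n N²` (`scale_k0`), for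
each `c`; finiteness: `box_index_Y` for `lat D n ≤ D.K` (`scale_le`) and `φ w = PhiS (g_i w)`, which is invariant under
`D.K.B` (`D.tr`, `PhiS_smul`), and `high_fin`. The energy of `F c` at `w` is the energy of `conj G f c` at `g_i w`
(`energy_comp`). Sum over the finitely many `c`, replace the box of `lat D n` by that of `D.K` on both
sides (`box_index_Y`, `EnS_smul`) and cancel the constant. -/
theorem poinc_sum (D : MC q) {k0 : ℝ} (hk0 : 0 ≤ k0) (hk : ∀ i j : ℤ, (i ≠ 0 ∨ j ≠ 0) →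
      k0 ≤ D.K.A1 * i ^ 2 + D.K.A2 * i * j + D.K.A3 * j ^ 2)
    {n : ℕ} (hn : 1 ≤ n) {f : ℂ × ℂ → ℂ} {l : ℝ} (h : Good D (GamN q (n : ℂ)) f l)
    (hc : CuspD D n hn f) (i : Fin D.r) {Y v0 : ℝ} (hY : top D ≤ Y) (hY0 : 0 < Y) (hv0 : 0 ≤ v0)
    (hv1 : v0 ≤ Y ^ 2 * (2 * Real.pi / (n * (D.N : ℝ) ^ 2 * D.K.P)) ^ 2)
    (hv2 : v0 ≤ Y * (4 * Real.pi ^ 2 * (k0 / (n * (D.N : ℝ) ^ 2) ^ 2))) :
    ENNReal.ofReal v0 * ∫⁻ b in {b : X | b.1 ∈ D.K.Box ∧ Y < height b.1},
        PhiS (GamN q (n : ℂ)) f (D.g i • b) ∂mu ≤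
      ∫⁻ b in {b : X | b.1 ∈ D.K.Box ∧ Y < height b.1},
        EnS (GamN q (n : ℂ)) f (D.g i • b) ∂mu := by
  have hGfin := GamN_finiteIndex (q := q) (p := (n : ℂ)) (natCast_mem (OO q) n)
    (Nat.cast_ne_zero.2 (Nat.one_le_iff_ne_zero.1 hn))
  set G := GamN q (n : ℂ) with hG
  have hfinq : Finite (Gam q ⧸ G) := Subgroup.finite_quotient_of_finiteIndex
  have hFt := Fintype.ofFinite (Gam q ⧸ G)
  have hf := h.smooth
  have hinv := h.inv
  set g₀ := D.g i with hg₀
  set L := lat D n hn with hL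
  have hLP : L.P = n * (D.N : ℝ) ^ 2 * D.K.P := by
    show ((n * D.N ^ 2 : ℕ) : ℝ) * D.K.P = _
    push_cast
    ring
  have mP : Measurable (PhiS G f) := measurable_PhiS hf
  have mE : Measurable (EnS G f) := measurable_EnS hf
  have mh : Measurable fun z : X => height z.1 := measurable_height
  have msm : Measurable fun w : X => g₀ • w := measurable_const_smul g₀
  have htr : ∀ (b : Gam q) (hb : b ∈ D.K.B) (z : X), g₀ • (b • z : X) =
      ((⟨g₀ * b.1 * g₀⁻¹, D.tr i b hb⟩ : Gam q) • (g₀ • z) : X) := by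
    intro b hb z
    have h1 : ((⟨g₀ * b.1 * g₀⁻¹, D.tr i b hb⟩ : Gam q) • (g₀ • z) : X) =
        (g₀ * b.1 * g₀⁻¹) • (g₀ • z) := rfl
    rw [h1, smul_smul]
    have h2 : g₀ * b.1 * g₀⁻¹ * g₀ = g₀ * b.1 := by group
    rw [h2, mul_smul]
    rfl
  obtain ⟨c, hc0, hct, hbox⟩ := box_index_Y L D.K (scale_le D.K _ _)
  have uP := hbox (fun w => PhiS G f (g₀ • w)) (mP.comp msm) (fun b hb z => by
    show PhiS G f (g₀ • (b • z)) = PhiS G f (g₀ • z)
    rw [htr b hb z]
    exact PhiS_smul hinv _ _) Y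
  have uE := hbox (fun w => EnS G f (g₀ • w)) (mE.comp msm) (fun b hb z => by
    show EnS G f (g₀ • (b • z)) = EnS G f (g₀ • z)
    rw [htr b hb z]
    exact EnS_smul hf hinv _ _) Y
  have hfinP : ∫⁻ z in {z : X | z.1 ∈ L.Box ∧ Y < height z.1}, PhiS G f (g₀ • z) ∂mu ≠ ⊤ := by
    rw [uP]
    exact ENNReal.mul_ne_top hct (high_fin D hn h i hY)
  have hPhi : ∀ w : X, PhiS G f (g₀ • w) =
      ∑' x : Gam q ⧸ G, ENNReal.ofReal (Complex.normSq (H43T.cj g₀ G f x w.1)) := fun w => rfl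
  have hEns : ∀ w : X, EnS G f (g₀ • w) = ∑' x : Gam q ⧸ G,
      ENNReal.ofReal (energy (fun z => (conj G f x z).re) (g₀ • w : X).1 +
          energy (fun z => (conj G f x z).im) (g₀ • w : X).1) := fun w => rfl
  have mN : ∀ x : Gam q ⧸ G, Measurable fun z : X =>
      Complex.normSq (H43T.cj g₀ G f x z.1) := fun x =>
    (continuous_restrict (φ := fun z => Complex.normSq (H43T.cj g₀ G f x z))
      (Complex.continuous_normSq.comp_continuousOn
        (H43T.contDiffOn_cj hf g₀ x).continuousOn)).measurable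
  have hcj : ∀ (x : Gam q ⧸ G) (w : ℂ × ℂ), w ∈ U → H43T.cj g₀ G f x w =
      f (act (mat ((x.out : Gam q)⁻¹.1 * g₀)) w) := by
    intro x w hw
    show f (act (mat (x.out : Gam q)⁻¹.1) (act (mat g₀) w)) = _
    rw [act_act _ _ hw]
  have hone : ∀ x : Gam q ⧸ G,
      ENNReal.ofReal v0 * ∫⁻ z in {z : X | z.1 ∈ L.Box ∧ Y < height z.1},
        ENNReal.ofReal (Complex.normSq (H43T.cj g₀ G f x z.1)) ∂mu ≤
      ∫⁻ z in {z : X | z.1 ∈ L.Box ∧ Y < height z.1},
        ENNReal.ofReal (energy (fun z => (conj G f x z).re) (g₀ • z : X).1 +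
          energy (fun z => (conj G f x z).im) (g₀ • z : X).1) ∂mu := by
    intro x
    have h1 := poinc L (k0 := k0 / ((n * D.N ^ 2 : ℕ) : ℝ) ^ 2) (by positivity)
      (fun a b hab => scale_k0 hk _ _ a b hab) (F := H43T.cj g₀ G f x)
      (H43T.contDiffOn_cj hf g₀ x) ?_ ?_ hY0 hv0 (by rw [hLP]; exact hv1)
      (by push_cast; exact hv2) ?_
    · refine h1.trans (le_of_eq ?_)
      refine lintegral_congr fun z => ?_
      have d1 : DifferentiableAt ℝ (fun z => Complex.reCLM (conj G f x z)) (act (mat g₀) z.1) := by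
        have h1 : ContDiffOn ℝ 2 (fun z => Complex.reCLM (conj G f x z)) U :=
          Complex.reCLM.contDiff.comp_contDiffOn (contDiffOn_conj2 hf x)
        exact (h1.contDiffAt (isOpen_U.mem_nhds (act_mem_U _ z.2))).differentiableAt (by norm_num)
      have d2 : DifferentiableAt ℝ (fun z => Complex.imCLM (conj G f x z)) (act (mat g₀) z.1) := by
        have h1 : ContDiffOn ℝ 2 (fun z => Complex.imCLM (conj G f x z)) U :=
          Complex.imCLM.contDiff.comp_contDiffOn (contDiffOn_conj2 hf x)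
        exact (h1.contDiffAt (isOpen_U.mem_nhds (act_mem_U _ z.2))).differentiableAt (by norm_num)
      have e1 : energy (fun z => (H43T.cj g₀ G f x z).re) z.1 =
          energy (fun z => (conj G f x z).re) (g₀ • z : X).1 := energy_comp g₀ z.2 d1
      have e2 : energy (fun z => (H43T.cj g₀ G f x z).im) z.1 =
          energy (fun z => (conj G f x z).im) (g₀ • z : X).1 := energy_comp g₀ z.2 d2
      rw [e1, e2]
    · intro b hb z hz
      rw [hcj x _ (act_mem_U _ hz), hcj x _ hz, act_act _ _ hz]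
      exact lat_per D hn hinv (x.out : Gam q)⁻¹ i hb hz
    · intro u hu
      rw [← hc (x.out : Gam q)⁻¹ i u hu]
      congr 1
      funext s
      congr 1
      funext t
      congr 1
      funext v
      refine hcj x _ ?_
      show 0 < height _
      rw [ht_PsiE]
      exact hu
    · refine ne_top_of_le_ne_top hfinP (lintegral_mono fun z => ?_)
      rw [hPhi]
      exact ENNReal.le_tsum (f := fun x : Gam q ⧸ G =>
        ENNReal.ofReal (Complex.normSq (H43T.cj g₀ G f x z.1))) x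
  have l3 : ENNReal.ofReal v0 * ∫⁻ z in {z : X | z.1 ∈ L.Box ∧ Y < height z.1},
      PhiS G f (g₀ • z) ∂mu ≤
      ∫⁻ z in {z : X | z.1 ∈ L.Box ∧ Y < height z.1}, EnS G f (g₀ • z) ∂mu := by
    simp only [hPhi, hEns, tsum_fintype]
    rw [lintegral_finsetSum, lintegral_finsetSum, Finset.mul_sum]
    · exact Finset.sum_le_sum fun x _ => hone x
    · intro x _
      exact (measurable_energy hf x).comp msm
    · intro x _
      exact ENNReal.measurable_ofReal.comp (mN x)
  rw [uE, uP] at l3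
  have l4 : c * (ENNReal.ofReal v0 * ∫⁻ z in {z : X | z.1 ∈ D.K.Box ∧ Y < height z.1},
      PhiS G f (g₀ • z) ∂mu) ≤
      c * ∫⁻ z in {z : X | z.1 ∈ D.K.Box ∧ Y < height z.1}, EnS G f (g₀ • z) ∂mu := by
    refine le_trans (le_of_eq ?_) l3
    ring
  exact (ENNReal.mul_le_mul_iff_right hc0 hct).1 l4

end

end Pool.Agent.Lib.H80D
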