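import Pool.Agent.Lib.H80D.E4
import Pool.Agent.Lib.H56M.N3
import Pool.Agent.Lib.H56M.W1

/-!
# E5: cusp forms are concentrated below the height `A n²`
-/

namespace Pool.Agent.Lib.H80D

open Matrix hiding J
open MeasureTheory Topology Filter
open Pool.Agent.Lib.H56.Picard hiding O Gam mem_Gam star_mem_O T_mem sg_mem
open Pool.Agent.Lib.H56.Gen hiding dd dd_pos cnt
open Pool.Agent.Lib.H56D hiding om wG rho Eig Good K0
open Pool.Agent.Lib.H56M (MC top bxi ind cnt om wG rho Eig Good)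
open scoped ENNReal

noncomputable section

variable {q : QD}

/-- The weight and the cusps of `D`. -/
def RDof (D : MC q) : RD q where
  w := om D
  meas := H56M.measurable_om D
  sum := H56M.sum_om D
  r := D.r
  g := D.g
  K := D.K
  h := D.h
  hh := D.hh

/-- PROOF. Let `k0` be from `exists_k0 D.K`, `P = D.K.P`, `Y = A (1 + Lam) n²` with `A ≥ top D`, `A² ≥ 2 N⁴ P²`
(`4 π² ≥ 1`), `A ≥ 2 N⁴/k0`, and `v0 = 2 (1 + Lam)`: then `hv1`, `hv2` of `poinc_sum` hold for all `n ≥ 1`. Let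
`S = ∫ om PhiS` (finite). By `om_eq` and the substitutions `z = g_i b`, `S = ∑_i ∫_{Box, height > h}
(cnt (g_i b))⁻¹ PhiS (g_i b)`; let `low_i`, `high_i` be the parts `height b ≤ Y`, `height b > Y` of the `i`-th
integral. `v0 high_i ≤ ∫_{Box, height > Y} (cnt (g_i b))⁻¹ EnS (g_i b)` (`poinc_sum`, `cnt_high`), so
`v0 ∑ high_i ≤ ∫ om EnS ≤ l S ≤ Lam S` (`energy_level`; trivial if `f = 0` on `U`), so
`∑ high_i ≤ S/2` and `S ≤ 2 ∑ low_i`; and `low_i ≤ ∫_{BxY} PhiS (g_i b)` (`one_le_cnt`). -/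
theorem trunc (D : MC q) : ∃ A : ℝ, 1 ≤ A ∧ ∀ (Lam : ℝ), 0 ≤ Lam → ∀ (n : ℕ) (hn : 1 ≤ n)
    (f : ℂ × ℂ → ℂ) (l : ℝ), Good D (GamN q (n : ℂ)) f l → 0 ≤ l → l ≤ Lam → CuspD D n hn f →
    ∫⁻ z, om D z * PhiS (GamN q (n : ℂ)) f z ∂mu ≤
      2 * ∑ i, ∫⁻ b in BxY (RDof D) (A * (1 + Lam) * (n : ℝ) ^ 2),
        PhiS (GamN q (n : ℂ)) f (D.g i • b) ∂mu := by
  obtain ⟨k0, hk0, hk⟩ := exists_k0 D.K
  have hP := D.K.hP
  have hpi := Real.pi_pos
  have hT1 := H43T.one_le_top D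
  have hN : (1 : ℝ) ≤ D.N := by exact_mod_cast D.hN
  have hN0 : (0 : ℝ) < D.N := by linarith
  refine ⟨max (top D) (max (2 * (D.N : ℝ) ^ 4 * D.K.P ^ 2 / (4 * Real.pi ^ 2))
    (2 * (D.N : ℝ) ^ 4 / (4 * Real.pi ^ 2 * k0))), hT1.trans (le_max_left _ _), ?_⟩
  intro Λ hΛ n hn f l hf hl0 hl hcus
  set A := max (top D) (max (2 * (D.N : ℝ) ^ 4 * D.K.P ^ 2 / (4 * Real.pi ^ 2))
    (2 * (D.N : ℝ) ^ 4 / (4 * Real.pi ^ 2 * k0))) with hA
  have hn1 : (1 : ℝ) ≤ n := by exact_mod_cast hn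
  have hn' : (0 : ℝ) < n := by linarith
  have hn2 : (1 : ℝ) ≤ (n : ℝ) ^ 2 := by nlinarith
  have hAT : top D ≤ A := le_max_left _ _
  have hA1 : 1 ≤ A := hT1.trans hAT
  have hAP : 2 * (D.N : ℝ) ^ 4 * D.K.P ^ 2 ≤ A * (4 * Real.pi ^ 2) := by
    have h1 : 2 * (D.N : ℝ) ^ 4 * D.K.P ^ 2 / (4 * Real.pi ^ 2) ≤ A :=
      (le_max_left _ _).trans (le_max_right _ _)
    rwa [div_le_iff₀ (by positivity)] at h1
  have hAk : 2 * (D.N : ℝ) ^ 4 ≤ A * (4 * Real.pi ^ 2 * k0) := by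
    have h1 : 2 * (D.N : ℝ) ^ 4 / (4 * Real.pi ^ 2 * k0) ≤ A :=
      (le_max_right _ _).trans (le_max_right _ _)
    rwa [div_le_iff₀ (by positivity)] at h1
  set B := A * (1 + Λ) * (n : ℝ) ^ 2 with hB
  have hB2 : A ≤ B := by
    rw [hB]
    have h1 : A ≤ A * (1 + Λ) := by nlinarith
    nlinarith
  have hBT : top D ≤ B := hAT.trans hB2
  have hB1 : 1 ≤ B := hT1.trans hBT
  have hhB : D.h ≤ B := D.h1.trans hB1
  have hv1 : 2 * (1 + Λ) ≤ B ^ 2 * (2 * Real.pi / (n * (D.N : ℝ) ^ 2 * D.K.P)) ^ 2 := by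
    have e1 : B ^ 2 * (2 * Real.pi / (n * (D.N : ℝ) ^ 2 * D.K.P)) ^ 2 =
        (1 + Λ) ^ 2 * n ^ 2 * (A * (A * (4 * Real.pi ^ 2))) / ((D.N : ℝ) ^ 4 * D.K.P ^ 2) := by
      rw [hB]
      field_simp
      ring
    rw [e1, le_div_iff₀ (by positivity)]
    have h1 : 2 * (D.N : ℝ) ^ 4 * D.K.P ^ 2 ≤ A * (A * (4 * Real.pi ^ 2)) := by
      have : 0 ≤ A * (4 * Real.pi ^ 2) := by positivity
      nlinarith
    have h2 : 1 + Λ ≤ (1 + Λ) ^ 2 * n ^ 2 := by
      have h3 : 1 + Λ ≤ (1 + Λ) ^ 2 := by nlinarith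
      nlinarith
    calc 2 * (1 + Λ) * ((D.N : ℝ) ^ 4 * D.K.P ^ 2) = (1 + Λ) * (2 * (D.N : ℝ) ^ 4 * D.K.P ^ 2) := by
          ring
      _ ≤ ((1 + Λ) ^ 2 * n ^ 2) * (A * (A * (4 * Real.pi ^ 2))) :=
        mul_le_mul h2 h1 (by positivity) (by positivity)
  have hv2 : 2 * (1 + Λ) ≤ B * (4 * Real.pi ^ 2 * (k0 / (n * (D.N : ℝ) ^ 2) ^ 2)) := by
    have e1 : B * (4 * Real.pi ^ 2 * (k0 / (n * (D.N : ℝ) ^ 2) ^ 2)) =
        (1 + Λ) * (A * (4 * Real.pi ^ 2 * k0)) / (D.N : ℝ) ^ 4 := by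
      rw [hB]
      field_simp
    rw [e1, le_div_iff₀ (by positivity)]
    calc 2 * (1 + Λ) * (D.N : ℝ) ^ 4 = (1 + Λ) * (2 * (D.N : ℝ) ^ 4) := by ring
      _ ≤ (1 + Λ) * (A * (4 * Real.pi ^ 2 * k0)) := mul_le_mul_of_nonneg_left hAk (by linarith)
  have hBox : MeasurableSet {w : X | w.1 ∈ D.K.Box} :=
    (measurableSet_Box D.K).preimage measurable_subtype_coe
  have hGfin := GamN_finiteIndex (q := q) (p := (n : ℂ)) (natCast_mem (OO q) n)
    (Nat.cast_ne_zero.2 (Nat.one_le_iff_ne_zero.1 hn))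
  set G := GamN q (n : ℂ) with hG
  have hfinq : Finite (Gam q ⧸ G) := Subgroup.finite_quotient_of_finiteIndex
  by_cases hne : ∃ z ∈ U, f z ≠ 0
  swap
  · push Not at hne
    have h0 : ∀ z : X, PhiS G f z = 0 := by
      intro z
      unfold PhiS
      rw [ENNReal.tsum_eq_zero]
      intro x
      have h1 : conj G f x z.1 = 0 := by
        unfold conj
        exact hne _ (act_mem_U _ z.2)
      rw [h1]
      simp
    simp only [h0, mul_zero, lintegral_zero]
    exact zero_le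
  have mP : Measurable (PhiS G f) := measurable_PhiS hf.smooth
  have mE : Measurable (EnS G f) := measurable_EnS hf.smooth
  have mh : Measurable fun z : X => height z.1 := measurable_height
  choose κ hκ1 hκt hκ using fun i => H56M.cnt_high D i
  set I := ∫⁻ z, H56M.om D z * PhiS G f z ∂mu with hI
  set E := ∫⁻ z, H56M.om D z * EnS G f z ∂mu with hE
  have hIt : I ≠ ⊤ := by
    rw [hI, ← H56M.lintegral_PhiS D G hf.smooth]
    exact hf.L2
  have hEI : E ≤ ENNReal.ofReal l * I := by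
    have := (H56M.energy_level D hf.smooth hf.inv hf.eig hf.L2 hne).2
    rwa [Complex.ofReal_re] at this
  -- the high parts
  set a : Fin D.r → ℝ≥0∞ := fun i => ∫⁻ w in {w : X | w.1 ∈ D.K.Box},
    above B (height w.1) * PhiS G f (D.g i • w) ∂mu with ha
  set b : Fin D.r → ℝ≥0∞ := fun i => ∫⁻ w in {w : X | w.1 ∈ D.K.Box},
    above B (height w.1) * EnS G f (D.g i • w) ∂mu with hb
  set Lo := ∑ i, ∫⁻ w in {w : X | w.1 ∈ D.K.Box ∧ D.h < height w.1 ∧ height w.1 ≤ B},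
        PhiS G f (D.g i • w) ∂mu with hLo
  have msm : ∀ i, Measurable fun w : X => D.g i • w := fun i => measurable_const_smul (D.g i)
  -- general facts on the weight above `B`
  have hw1 : ∀ (i : Fin D.r) (Φ : X → ℝ≥0∞) (w : X), w.1 ∈ D.K.Box →
      above B (height w.1) * ((κ i)⁻¹ * Φ (D.g i • w)) ≤
      above D.h (height w.1) * ((cnt D (D.g i • w))⁻¹ * Φ (D.g i • w)) := by
    intro i Φ w hw
    rcases le_or_gt (height w.1) B with h1 | h1
    · rw [show above B (height w.1) = 0 from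
        Set.indicator_of_notMem (show height w.1 ∉ Set.Ioi B from not_lt.2 h1) _, zero_mul]
      exact zero_le
    · rw [show above B (height w.1) = 1 from
        Set.indicator_of_mem (show height w.1 ∈ Set.Ioi B from h1) _,
        show above D.h (height w.1) = 1 from
        Set.indicator_of_mem (show height w.1 ∈ Set.Ioi D.h from lt_of_le_of_lt hhB h1) _,
        hκ i w hw (lt_of_le_of_lt hBT h1)]
  have hhigh : ∀ (i : Fin D.r) {Φ : X → ℝ≥0∞}, Measurable Φ →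
      (κ i)⁻¹ * ∫⁻ w in {w : X | w.1 ∈ D.K.Box}, above B (height w.1) * Φ (D.g i • w) ∂mu ≤
      ∫⁻ w in {w : X | w.1 ∈ D.K.Box},
        above D.h (height w.1) * ((cnt D (D.g i • w))⁻¹ * Φ (D.g i • w)) ∂mu := by
    intro i Φ hΦ
    have m3 : Measurable fun w : X => above B (height w.1) * Φ (D.g i • w) :=
      ((measurable_above B).comp mh).mul (hΦ.comp (msm i))
    rw [← lintegral_const_mul _ m3]
    refine setLIntegral_mono' hBox fun w hw => ?_
    refine le_trans (le_of_eq ?_) (hw1 i Φ w hw)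
    ring
  have hat : ∀ i, a i ≠ ⊤ := by
    intro i hi
    have h1 := hhigh i mP
    have h2 : (κ i)⁻¹ * a i ≤ I := by
      refine h1.trans ?_
      rw [hI, H43T.int_om D mP]
      exact Finset.single_le_sum (f := fun i => ∫⁻ w in {w : X | w.1 ∈ D.K.Box},
        above D.h (height w.1) * ((cnt D (D.g i • w))⁻¹ * PhiS G f (D.g i • w)) ∂mu)
        (fun _ _ => zero_le) (Finset.mem_univ i)
    rw [hi, ENNReal.mul_top (ENNReal.inv_ne_zero.2 (hκt i))] at h2
    exact hIt (top_le_iff.1 h2)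
  have hbox : ∀ i, ENNReal.ofReal (2 * (1 + Λ)) * a i ≤ b i := by
    intro i
    have h1 := poinc_sum D hk0.le hk hn hf hcus i hBT (by linarith) (by linarith) hv1 hv2
    rw [E3_above, E3_above] at h1
    exact h1
  set Hi := ∑ i, (κ i)⁻¹ * a i with hHi
  have hHE : ENNReal.ofReal (2 * (1 + Λ)) * Hi ≤ E := by
    rw [hE, H43T.int_om D mE, hHi, Finset.mul_sum]
    refine Finset.sum_le_sum fun i _ => ?_
    refine le_trans ?_ (hhigh i mE)
    calc ENNReal.ofReal (2 * (1 + Λ)) * ((κ i)⁻¹ * a i) = (κ i)⁻¹ * (ENNReal.ofReal (2 * (1 + Λ)) * a i) := by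
          ring
      _ ≤ (κ i)⁻¹ * b i := by gcongr; exact hbox i
  -- splitting
  have hsplit : I ≤ Lo + Hi := by
    rw [hI, H43T.int_om D mP, hLo, hHi, ← Finset.sum_add_distrib]
    refine Finset.sum_le_sum fun i _ => ?_
    have hS : MeasurableSet {w : X | w.1 ∈ D.K.Box ∧ D.h < height w.1 ∧ height w.1 ≤ B} :=
      hBox.inter ((measurableSet_lt measurable_const mh).inter
        (measurableSet_le mh measurable_const))
    have m1 : Measurable ({w : X | w.1 ∈ D.K.Box ∧ D.h < height w.1 ∧ height w.1 ≤ B}.indicator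
      fun w => PhiS G f (D.g i • w)) := (mP.comp (msm i)).indicator hS
    have m2 : Measurable ({w : X | w.1 ∈ D.K.Box}.indicator
      fun w => above B (height w.1) * PhiS G f (D.g i • w)) :=
      (((measurable_above B).comp mh).mul (mP.comp (msm i))).indicator hBox
    simp only [ha]
    rw [← lintegral_indicator hS, ← lintegral_indicator hBox, ← lintegral_indicator hBox,
      ← lintegral_const_mul _ m2, ← lintegral_add_left m1]
    refine lintegral_mono fun w => ?_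
    by_cases hw : w.1 ∈ D.K.Box
    · rw [Set.indicator_of_mem (show w ∈ {w : X | w.1 ∈ D.K.Box} from hw),
        Set.indicator_of_mem (show w ∈ {w : X | w.1 ∈ D.K.Box} from hw)]
      rcases le_or_gt (height w.1) D.h with h1 | h1
      · rw [show above D.h (height w.1) = 0 from
          Set.indicator_of_notMem (show height w.1 ∉ Set.Ioi D.h from not_lt.2 h1) _, zero_mul]
        exact zero_le
      rcases le_or_gt (height w.1) B with h2 | h2
      · rw [Set.indicator_of_mem (show w ∈ {w : X | w.1 ∈ D.K.Box ∧ D.h < height w.1 ∧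
          height w.1 ≤ B} from ⟨hw, h1, h2⟩), show above D.h (height w.1) = 1 from
          Set.indicator_of_mem (show height w.1 ∈ Set.Ioi D.h from h1) _, one_mul]
        refine le_trans ?_ le_self_add
        have h3 : (cnt D (D.g i • w))⁻¹ ≤ 1 := ENNReal.inv_le_one.2 (H56M.one_le_cnt D _)
        calc (cnt D (D.g i • w))⁻¹ * PhiS G f (D.g i • w) ≤ 1 * PhiS G f (D.g i • w) := by gcongr
          _ = _ := one_mul _
      · rw [show above D.h (height w.1) = 1 from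
          Set.indicator_of_mem (show height w.1 ∈ Set.Ioi D.h from h1) _, one_mul,
          show above B (height w.1) = 1 from
          Set.indicator_of_mem (show height w.1 ∈ Set.Ioi B from h2) _, one_mul,
          hκ i w hw (lt_of_le_of_lt hBT h2)]
        exact le_add_self
    · rw [Set.indicator_of_notMem (show w ∉ {w : X | w.1 ∈ D.K.Box} from hw)]
      exact zero_le
  have hHiI : Hi ≤ I := by
    rw [hI, H43T.int_om D mP, hHi]
    exact Finset.sum_le_sum fun i _ => hhigh i mP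
  have hHt : Hi ≠ ⊤ := ne_top_of_le_ne_top hIt hHiI
  have hcA : 2 * Λ ≤ 2 * (1 + Λ) := by linarith
  have hcA0 : 0 < 2 * (1 + Λ) := by positivity
  have h2 : ENNReal.ofReal (2 * (1 + Λ)) * (2 * Hi) ≤ ENNReal.ofReal (2 * (1 + Λ)) * I := by
    calc ENNReal.ofReal (2 * (1 + Λ)) * (2 * Hi) = 2 * (ENNReal.ofReal (2 * (1 + Λ)) * Hi) := by ring
      _ ≤ 2 * (ENNReal.ofReal l * I) := mul_le_mul' le_rfl (hHE.trans hEI)
      _ = ENNReal.ofReal (2 * l) * I := by
        rw [ENNReal.ofReal_mul (by norm_num), ← mul_assoc]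
        simp
      _ ≤ ENNReal.ofReal (2 * (1 + Λ)) * I :=
        mul_le_mul' (ENNReal.ofReal_le_ofReal (by linarith)) le_rfl
  have h3 : 2 * Hi ≤ I := (ENNReal.mul_le_mul_iff_right (by
    rw [ENNReal.ofReal_ne_zero_iff]
    exact hcA0) ENNReal.ofReal_ne_top).1 h2
  have h4 : Hi + Hi ≤ Lo + Hi := by
    rw [← two_mul]
    exact h3.trans hsplit
  have h5 : Hi ≤ Lo := (ENNReal.add_le_add_iff_right hHt).1 h4
  calc I ≤ Lo + Hi := hsplit
    _ ≤ Lo + Lo := by gcongr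
    _ = 2 * Lo := (two_mul _).symm

end

end Pool.Agent.Lib.H80D
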