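import Pool.Agent.Lib.H80D.AD
import Pool.Agent.Lib.H80D.E1
import Pool.Agent.Lib.H56M.Defs

/-!
# ED: cusp forms
-/

namespace Pool.Agent.Lib.H80D

open Matrix hiding J
open MeasureTheory Topology Filter
open Pool.Agent.Lib.H56.Picard hiding O Gam mem_Gam star_mem_O T_mem sg_mem
open Pool.Agent.Lib.H56.Gen hiding dd dd_pos cnt
open Pool.Agent.Lib.H56D hiding om wG rho Eig Good K0
open Pool.Agent.Lib.H56M (MC top bxi ind cnt om wG rho Eig Good)
open scoped ENNReal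

noncomputable section

variable {q : QD}

/-- **Cusp forms**: for every rational element `g` (moving `∞` to an arbitrary cusp) and every lattice of
translations under which `f ∘ g` is periodic, the mean value of `f ∘ g` over the horospheres vanishes. -/
def CuspForm (q : QD) (f : ℂ × ℂ → ℂ) : Prop :=
  ∀ (g : SU21) (N : ℕ), 1 ≤ N → (∀ k l, (N : ℂ) * mat g k l ∈ OO q) → ∀ K : Cusp q,
    (∀ b : Gam q, b ∈ K.B → ∀ z ∈ U, f (act (mat (g * b.1)) z) = f (act (mat g) z)) →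
    ∀ u : ℝ, 0 < u → ∫ s in (0:ℝ)..1, ∫ t in (0:ℝ)..1, ∫ v in (0:ℝ)..K.P,
      f (act (mat g) (PsiE K.e1 K.e2 s t v u)) = 0

lemma scale_pos {n N : ℕ} (hn : 1 ≤ n) (hN : 1 ≤ N) : 1 ≤ n * N ^ 2 :=
  Nat.one_le_iff_ne_zero.2 (by positivity)

/-- The lattice of translations of level `n` in all cusps of `D`. -/
def lat (D : MC q) (n : ℕ) (hn : 1 ≤ n) : Cusp q := scaleC D.K (n * D.N ^ 2) (scale_pos hn D.hN)

/-- The mean values of `f` over the horospheres at the cusps of `D` vanish. -/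
def CuspD (D : MC q) (n : ℕ) (hn : 1 ≤ n) (f : ℂ × ℂ → ℂ) : Prop :=
  ∀ (γ : Gam q) (i : Fin D.r) (u : ℝ), 0 < u →
    ∫ s in (0:ℝ)..1, ∫ t in (0:ℝ)..1, ∫ v in (0:ℝ)..(lat D n hn).P,
      f (act (mat (γ.1 * D.g i)) (PsiE (lat D n hn).e1 (lat D n hn).e2 s t v u)) = 0

lemma ED_inv (a : SU21) (i k : Fin 3) :
    mat a⁻¹ i k = star (mat a (Fin.rev k) (Fin.rev i)) := by
  rw [mat_inv]
  fin_cases i <;> fin_cases k <;>
    simp [Matrix.mul_apply, Fin.sum_univ_three, J, Matrix.vecMul, dotProduct,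
      Matrix.conjTranspose_apply, Fin.rev]

/-- Linearity of the triple integral. -/
lemma ED_triple {m : ℕ} (c : Fin m → ℂ) {G : Fin m → ℝ → ℝ → ℝ → ℂ}
    (hG : ∀ i, Continuous fun p : ℝ × ℝ × ℝ => G i p.1 p.2.1 p.2.2) (P : ℝ) :
    ∫ s in (0:ℝ)..1, ∫ t in (0:ℝ)..1, ∫ v in (0:ℝ)..P, ∑ i, c i * G i s t v =
      ∑ i, c i * ∫ s in (0:ℝ)..1, ∫ t in (0:ℝ)..1, ∫ v in (0:ℝ)..P, G i s t v := by
  have c1 : ∀ i, ∀ s t : ℝ, Continuous fun v => G i s t v := fun i s t =>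
    (hG i).comp (by fun_prop : Continuous fun v : ℝ => (s, t, v))
  have c2' : ∀ i, Continuous (Function.uncurry fun (p : ℝ × ℝ) (v : ℝ) => G i p.1 p.2 v) := fun i =>
    (hG i).comp (by fun_prop : Continuous fun p : (ℝ × ℝ) × ℝ => (p.1.1, p.1.2, p.2))
  have c2 : ∀ i, Continuous fun p : ℝ × ℝ => ∫ v in (0:ℝ)..P, G i p.1 p.2 v := fun i =>
    intervalIntegral.continuous_parametric_intervalIntegral_of_continuous' (c2' i) 0 P
  have c3 : ∀ i, ∀ s : ℝ, Continuous fun t => ∫ v in (0:ℝ)..P, G i s t v := fun i s =>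
    (c2 i).comp (by fun_prop : Continuous fun t : ℝ => (s, t))
  have c4 : ∀ i, Continuous fun s : ℝ => ∫ t in (0:ℝ)..1, ∫ v in (0:ℝ)..P, G i s t v := fun i =>
    intervalIntegral.continuous_parametric_intervalIntegral_of_continuous' (by exact c2 i) 0 1
  have e1 : ∀ s t : ℝ, ∫ v in (0:ℝ)..P, ∑ i, c i * G i s t v =
      ∑ i, c i * ∫ v in (0:ℝ)..P, G i s t v := by
    intro s t
    rw [intervalIntegral.integral_finsetSum fun i _ =>
      ((c1 i s t).intervalIntegrable _ _).const_mul _]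
    exact Finset.sum_congr rfl fun i _ => intervalIntegral.integral_const_mul _ _
  have e2 : ∀ s : ℝ, ∫ t in (0:ℝ)..1, ∫ v in (0:ℝ)..P, ∑ i, c i * G i s t v =
      ∑ i, c i * ∫ t in (0:ℝ)..1, ∫ v in (0:ℝ)..P, G i s t v := by
    intro s
    simp only [e1]
    rw [intervalIntegral.integral_finsetSum fun i _ =>
      ((c3 i s).intervalIntegrable _ _).const_mul _]
    exact Finset.sum_congr rfl fun i _ => intervalIntegral.integral_const_mul _ _
  simp only [e2]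
  rw [intervalIntegral.integral_finsetSum fun i _ =>
    ((c4 i).intervalIntegrable _ _).const_mul _]
  exact Finset.sum_congr rfl fun i _ => intervalIntegral.integral_const_mul _ _

/-- The translations of `lat D n` at the cusps are in `Γ(n)`.

PROOF. `b - 1 = n N² x`, `x` integral (`scale_sub_one`); `N g_i` and `N g_i⁻¹` have entries in `OO q` (`D.rat`;
`mat g⁻¹ = J (mat g)ᴴ J`), so `g_i b g_i⁻¹ = 1 + n (N g_i) x (N g_i⁻¹)`; `GamN_normal` for the conjugation by `γ`. -/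
theorem lat_conj (D : MC q) {n : ℕ} (hn : 1 ≤ n) (i : Fin D.r) {b : Gam q}
    (hb : b ∈ (lat D n hn).B) : ∃ δ : Gam q, δ ∈ GamN q (n : ℂ) ∧
      δ.1 = D.g i * b.1 * (D.g i)⁻¹ := by
  choose x hx hxe using scale_sub_one hb
  have hr := D.rat i
  have hri : ∀ k l, (D.N : ℂ) * mat (D.g i)⁻¹ k l ∈ OO q := by
    intro k l
    rw [ED_inv]
    have h1 := star_mem _ (hr (Fin.rev l) (Fin.rev k))
    rwa [star_mul', star_natCast] at h1
  set g := D.g i with hg
  set A : Matrix (Fin 3) (Fin 3) ℂ := Matrix.of x with hA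
  set M : Matrix (Fin 3) (Fin 3) ℂ := ((D.N : ℂ) • mat g) * A * ((D.N : ℂ) • mat g⁻¹) with hM
  have hMO : ∀ k l, M k l ∈ OO q := by
    intro k l
    rw [hM, Matrix.mul_apply]
    refine (OO q).sum_mem fun a _ => (OO q).mul_mem ?_ ?_
    · rw [Matrix.mul_apply]
      refine (OO q).sum_mem fun c _ => (OO q).mul_mem ?_ (hx c a)
      rw [Matrix.smul_apply, smul_eq_mul]
      exact hr k c
    · rw [Matrix.smul_apply, smul_eq_mul]
      exact hri a l
  have e1 : mat b.1 = 1 + ((n * D.N ^ 2 : ℕ) : ℂ) • A := by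
    ext k l
    rw [Matrix.add_apply, Matrix.smul_apply, smul_eq_mul, hA, Matrix.of_apply]
    linear_combination hxe k l
  have e2 : mat g * mat g⁻¹ = 1 := by rw [← mat_mul, mul_inv_cancel, mat_one]
  have e3 : mat (g * b.1 * g⁻¹) = 1 + (n : ℂ) • M := by
    rw [mat_mul, mat_mul, e1, Matrix.mul_add, Matrix.add_mul, Matrix.mul_one, e2, Matrix.mul_smul,
      Matrix.smul_mul, hM, Matrix.smul_mul, Matrix.smul_mul, Matrix.mul_smul, smul_smul, smul_smul]
    congr 2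
    push_cast
    ring
  have h : g * b.1 * g⁻¹ ∈ Gam q := by
    intro k l
    rw [e3, Matrix.add_apply, Matrix.smul_apply, smul_eq_mul]
    refine (OO q).add_mem ?_ ((OO q).mul_mem (natCast_mem _ n) (hMO k l))
    rw [Matrix.one_apply]
    split_ifs
    · exact (OO q).one_mem
    · exact (OO q).zero_mem
  refine ⟨⟨g * b.1 * g⁻¹, h⟩, ?_, rfl⟩
  rw [mem_GamN]
  intro k l
  refine ⟨_, hMO k l, ?_⟩
  show mat (g * b.1 * g⁻¹) k l - _ = _
  rw [e3, Matrix.add_apply, Matrix.smul_apply, smul_eq_mul]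
  ring

/-- PROOF. `f (δ g_i b z) = f (γ δ' ...)`: for `γ ∈ Gam q` one has
`γ g_i b = (γ (g_i b g_i⁻¹) γ⁻¹) γ g_i` and the bracket is in `Γ(n)` (`lat_conj`, `GamN_normal`). -/
theorem lat_per (D : MC q) {n : ℕ} (hn : 1 ≤ n) {f : ℂ × ℂ → ℂ}
    (hinv : ∀ γ : Gam q, γ ∈ GamN q (n : ℂ) → ∀ z ∈ U, f (act (mat γ.1) z) = f z) (γ : Gam q)
    (i : Fin D.r) {b : Gam q} (hb : b ∈ (lat D n hn).B) {z : ℂ × ℂ} (hz : z ∈ U) :
    f (act (mat (γ.1 * D.g i * b.1)) z) = f (act (mat (γ.1 * D.g i)) z) := by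
  obtain ⟨δ, hδ, e⟩ := lat_conj D hn i hb
  have hn' : γ * δ * γ⁻¹ ∈ GamN q (n : ℂ) := GamN_normal.conj_mem δ hδ γ
  have e1 : γ.1 * D.g i * b.1 = (γ * δ * γ⁻¹).1 * (γ.1 * D.g i) := by
    show γ.1 * D.g i * b.1 = γ.1 * δ.1 * γ.1⁻¹ * (γ.1 * D.g i)
    rw [e]
    group
  rw [e1, ← act_act _ _ hz]
  exact hinv _ hn' _ (act_mem_U _ hz)

/-- PROOF. `CuspForm` for `g = γ g_i`, denominator `D.N`, `K = lat D n`, periodic by `lat_per`. -/
theorem cuspD_of_cuspForm (D : MC q) {n : ℕ} (hn : 1 ≤ n) {f : ℂ × ℂ → ℂ}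
    (hinv : ∀ γ : Gam q, γ ∈ GamN q (n : ℂ) → ∀ z ∈ U, f (act (mat γ.1) z) = f z)
    (h : CuspForm q f) : CuspD D n hn f := by
  intro γ i u hu
  refine h (γ.1 * D.g i) D.N D.hN ?_ (lat D n hn) ?_ u hu
  · intro k l
    have e1 : (D.N : ℂ) * mat (γ.1 * D.g i) k l =
        ∑ a, mat γ.1 k a * ((D.N : ℂ) * mat (D.g i) a l) := by
      rw [mat_mul, Matrix.mul_apply, Finset.mul_sum]
      exact Finset.sum_congr rfl fun a _ => by ring
    rw [e1]
    exact (OO q).sum_mem fun a _ => (OO q).mul_mem (γ.2 k a) (D.rat i a l)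
  · intro b hb z hz
    exact lat_per D hn hinv γ i hb hz

/-- PROOF. Linearity of the integral (finite sums; continuity of the integrands: `cont_fixedE`, `f i ∘ g` is
continuous on `U`). -/
theorem cuspD_lin (D : MC q) {n : ℕ} (hn : 1 ≤ n) {m : ℕ} {f : Fin m → ℂ × ℂ → ℂ}
    {c : Fin m → ℂ} (hf : ∀ i, ContDiffOn ℝ 2 (f i) U) (h : ∀ i, CuspD D n hn (f i)) :
    CuspD D n hn (fun z => ∑ i, c i * f i z) := by
  intro γ i u hu
  have hc : ∀ j, ContinuousOn (fun w => f j (act (mat (γ.1 * D.g i)) w)) U := by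
    intro j z hz
    apply ContinuousAt.continuousWithinAt
    exact (((hf j).contDiffAt (isOpen_U.mem_nhds (act_mem_U _ hz))).continuousAt).comp
      (contDiffAt_act2 _ hz).continuousAt
  rw [ED_triple c (G := fun j s t v =>
    f j (act (mat (γ.1 * D.g i)) (PsiE (lat D n hn).e1 (lat D n hn).e2 s t v u)))
    (fun j => cont_fixedE _ _ (hc j) hu)]
  refine Finset.sum_eq_zero fun j _ => ?_
  rw [h j γ i u hu, mul_zero]

end

end Pool.Agent.Lib.H80D
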