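import Pool.Agent.Lib.H80D.A3
import Pool.Agent.Lib.H80D.TG3
import Pool.Agent.Lib.H80C.CA2
import Pool.Agent.Lib.H43T.Count

/-!
# F1: the count at a point
-/

namespace Pool.Agent.Lib.H80D

open Matrix hiding J
open MeasureTheory Topology Filter
open Pool.Agent.Lib.H56.Picard hiding O Gam mem_Gam star_mem_O T_mem sg_mem
open Pool.Agent.Lib.H56.Gen hiding dd dd_pos
open Pool.Agent.Lib.H56D hiding om wG rho Eig Good K0
open Pool.Agent.Lib.H80C (M3 toC Elt Bdd Tdd gm ab count_all QF OK)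
open Pool.Agent.Lib.H43T (exists_M)
open scoped ENNReal

noncomputable section

variable {q : QD}

/-- PROOF. Let `C` be from `ent_le K hh 16 g`; `H = C' u p^j`, `X = C' p^j` with `C' = max (3 C) (1/h)`, `u = height b`,
so `p^j ≤ H`, `p^j ≤ X`. An element `β` of the set has a matrix `A = gm n (p^j) M` (`hgt_iff`, `MatOf`),
`p^j mat β = toC A`, so `M` satisfies `Elt n (p^j) M` (`GE`), `Bdd n (p^j) H M`, `Tdd n (p^j) X M`
(`ab = ‖toC ..‖`), and `β ↦ M` is injective. `count_all` with `P = p^j` (`Nat.Coprime n (p^j)`), and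
`H = C' (u p^j)`. -/
theorem ct_point (K : Cusp q) {h : ℝ} (hh : 0 < h) (g : SU21) {ε : ℝ} (hε : 0 < ε) :
    ∃ C : ℝ, 0 < C ∧ ∀ p n : ℕ, p.Prime → 1 ≤ n → Nat.Coprime n p → ∀ (j : ℕ) (b : ℂ × ℂ),
      b ∈ K.Box → h < height b →
      {β : SU21 | Hgt q p n j β ∧
        sgm (act (mat g) b) (act (mat β) (act (mat g) b)) ≤ 16}.Finite ∧
      ({β : SU21 | Hgt q p n j β ∧
        sgm (act (mat g) b) (act (mat β) (act (mat g) b)) ≤ 16}.ncard : ℝ) ≤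
        C * (height b * (p : ℝ) ^ j) ^ ε * (1 + (height b * (p : ℝ) ^ j) ^ 2 / (n : ℝ) ^ 2 +
          (1 + (p : ℝ) ^ j / (n : ℝ) ^ 2) * (1 + (p : ℝ) ^ j / (n : ℝ) ^ 3) *
            ((height b * (p : ℝ) ^ j) ^ 2 / (n : ℝ) ^ 3)) := by
  set h' := min h 1 with hh'
  have hh0 : 0 < h' := lt_min hh one_pos
  have hh1 : h' ≤ 1 := min_le_right _ _
  obtain ⟨C1, hC1, hent⟩ := H43T.entries_g K hh0 hh1 g
  obtain ⟨C2, hC2, hcount⟩ := count_all (qd q) hε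
  set K1 : ℝ := C1 * √16 with hK1
  have hS1 : 1 ≤ √(16 : ℝ) := Real.one_le_sqrt.2 (by norm_num)
  have hK1' : 1 ≤ K1 := by nlinarith
  set K2 : ℝ := K1 / h' with hK2
  have hK12 : K1 ≤ K2 := by
    rw [hK2, le_div_iff₀ hh0]
    nlinarith
  have hK2' : 1 ≤ K2 := hK1'.trans hK12
  refine ⟨C2 * K2 ^ ε * K2 ^ 4, by positivity, ?_⟩
  intro p n hin hn hnp j z hz hhz
  set P : ℝ := (p : ℝ) ^ j with hP
  have hp : 1 ≤ p := hin.pos
  have hp1 : (1 : ℝ) ≤ p := by exact_mod_cast hp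
  have hn1 : (1 : ℝ) ≤ n := by exact_mod_cast hn
  have hP1 : 1 ≤ P := one_le_pow₀ hp1
  set u := height z with hu
  have huh : h' < u := lt_of_le_of_lt (min_le_left _ _) hhz
  have hu0 : 0 < u := hh0.trans huh
  have hum : max u 1 ≤ u / h' := by
    rw [le_div_iff₀ hh0]
    rcases le_total u 1 with h1 | h1
    · rw [max_eq_right h1]
      linarith
    · rw [max_eq_left h1]
      nlinarith
  have hPc : ((p ^ j : ℕ) : ℝ) = P := by push_cast; rfl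
  have hK2u : 1 ≤ K2 * u := by
    rw [hK2, div_mul_eq_mul_div, le_div_iff₀ hh0]
    nlinarith
  obtain ⟨hfin, hcard⟩ := hcount n (p ^ j) hn (Nat.one_le_pow _ _ hp) (hnp.pow_right j)
    (K2 * (u * P)) (K2 * P) (by
      rw [hPc, ← mul_assoc]
      nlinarith) (by
      rw [hPc]
      nlinarith)
  -- the injection
  set W : Set (M3 (qd q)) := {M | Elt n (p ^ j) M ∧ Bdd n (p ^ j) (K2 * (u * P)) M ∧
    Tdd n (p ^ j) (K2 * P) M} with hW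
  set Z : Set SU21 := {β : SU21 | Hgt q p n j β ∧
        sgm (act (mat g) z) (act (mat β) (act (mat g) z)) ≤ 16} with hZ
  have hex : ∀ β ∈ Z, ∃ M : M3 (qd q), M ∈ W ∧
      ∀ i k, (p : ℂ) ^ j * mat β i k = toC (qd q) (gm n (p ^ j) M i k) := by
    intro β hg
    obtain ⟨M, hM, hMe⟩ := exists_M q hg.1
    have hb := hent z hz huh β
    have hpn : ‖(p : ℂ) ^ j‖ = P := by
      rw [norm_pow, Complex.norm_natCast]
    have hsq : √(sgm (act (mat g) z) (act (mat β) (act (mat g) z))) ≤ √16 :=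
      Real.sqrt_le_sqrt hg.2
    refine ⟨M, ⟨hM, fun i k => ?_, ?_⟩, hMe⟩
    · unfold ab
      rw [← hMe, norm_mul, hpn]
      have h1 := hb.1 i k
      calc P * ‖mat β i k‖ ≤ P * (C1 * (u / h') * √16) := by
            gcongr
            refine h1.trans ?_
            gcongr
        _ = K2 * (u * P) := by rw [hK2, hK1]; ring
    · unfold Tdd ab
      have h3 : toC (qd q) (gm n (p ^ j) M).trace = (p : ℂ) ^ j * (mat β).trace := by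
        rw [Matrix.trace_fin_three, Matrix.trace_fin_three, map_add, map_add, ← hMe, ← hMe, ← hMe]
        ring
      rw [h3, norm_mul, hpn]
      have h1 := hb.2
      calc P * ‖(mat β).trace‖ ≤ P * (C1 * √16) := by
            gcongr
            refine h1.trans ?_
            gcongr
        _ = K1 * P := by rw [hK1]; ring
        _ ≤ K2 * P := by gcongr
  choose! F hF hFe using hex
  have hinj : Set.InjOn F Z := by
    intro β hg β' hg' hgg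
    apply mat_injective
    ext i k
    have h1 := hFe β hg i k
    have h2 := hFe β' hg' i k
    rw [hgg, ← h2] at h1
    have hpc : (p : ℂ) ^ j ≠ 0 := by
      have : (p : ℂ) ≠ 0 := by exact_mod_cast (by omega : p ≠ 0)
      exact pow_ne_zero _ this
    exact mul_left_cancel₀ hpc h1
  have hfinK : Z.Finite := Set.Finite.of_injOn (fun g hg => hF g hg) hinj hfin
  refine ⟨hfinK, ?_⟩
  have hle : Z.ncard ≤ W.ncard := Set.ncard_le_ncard_of_injOn F (fun g hg => hF g hg) hinj hfin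
  have h1 : (Z.ncard : ℝ) ≤ (W.ncard : ℝ) := by exact_mod_cast hle
  refine h1.trans (hcard.trans ?_)
  have hE : (K2 * (u * P)) ^ ε = K2 ^ ε * (u * P) ^ ε :=
    Real.mul_rpow (by positivity) (by positivity)
  have hn0 : (0 : ℝ) < n := by linarith
  have hK22 : 1 ≤ K2 ^ 2 := one_le_pow₀ hK2'
  have hK4 : K2 ^ 2 ≤ K2 ^ 4 := pow_le_pow_right₀ hK2' (by norm_num)
  have s1 : 1 + K2 * P / (n : ℝ) ^ 2 ≤ K2 * (1 + P / (n : ℝ) ^ 2) := by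
    have : K2 * P / (n : ℝ) ^ 2 = K2 * (P / (n : ℝ) ^ 2) := by ring
    rw [this]
    linarith
  have s2 : 1 + K2 * P / (n : ℝ) ^ 3 ≤ K2 * (1 + P / (n : ℝ) ^ 3) := by
    have : K2 * P / (n : ℝ) ^ 3 = K2 * (P / (n : ℝ) ^ 3) := by ring
    rw [this]
    linarith
  have s3 : 0 ≤ K2 ^ ε := by positivity
  have hkey : 1 + (K2 * (u * P)) ^ 2 / (n : ℝ) ^ 2 +
      (1 + K2 * P / (n : ℝ) ^ 2) * (1 + K2 * P / (n : ℝ) ^ 3) *
        ((K2 * (u * P)) ^ 2 / (n : ℝ) ^ 3) ≤ K2 ^ 4 * (1 + (u * P) ^ 2 / (n : ℝ) ^ 2 +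
      (1 + P / (n : ℝ) ^ 2) * (1 + P / (n : ℝ) ^ 3) * ((u * P) ^ 2 / (n : ℝ) ^ 3)) := by
    have t1 : (K2 * (u * P)) ^ 2 / (n : ℝ) ^ 2 ≤ K2 ^ 4 * ((u * P) ^ 2 / (n : ℝ) ^ 2) := by
      have : (K2 * (u * P)) ^ 2 / (n : ℝ) ^ 2 = K2 ^ 2 * ((u * P) ^ 2 / (n : ℝ) ^ 2) := by ring
      rw [this]
      gcongr
    have t2 : (1 + K2 * P / (n : ℝ) ^ 2) * (1 + K2 * P / (n : ℝ) ^ 3) *
        ((K2 * (u * P)) ^ 2 / (n : ℝ) ^ 3) ≤
        (K2 * (1 + P / (n : ℝ) ^ 2)) * (K2 * (1 + P / (n : ℝ) ^ 3)) *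
        ((K2 * (u * P)) ^ 2 / (n : ℝ) ^ 3) := by gcongr
    have t3 : (1 : ℝ) ≤ K2 ^ 4 := hK22.trans hK4
    have t4 : (K2 * (1 + P / (n : ℝ) ^ 2)) * (K2 * (1 + P / (n : ℝ) ^ 3)) *
        ((K2 * (u * P)) ^ 2 / (n : ℝ) ^ 3) = K2 ^ 4 * ((1 + P / (n : ℝ) ^ 2) *
          (1 + P / (n : ℝ) ^ 3) * ((u * P) ^ 2 / (n : ℝ) ^ 3)) := by ring
    rw [t4] at t2
    rw [mul_add, mul_add, mul_one]
    linarith
  rw [hE]
  calc C2 * (K2 ^ ε * (u * P) ^ ε) * (1 + (K2 * (u * P)) ^ 2 / (n : ℝ) ^ 2 +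
      (1 + K2 * P / (n : ℝ) ^ 2) * (1 + K2 * P / (n : ℝ) ^ 3) *
        ((K2 * (u * P)) ^ 2 / (n : ℝ) ^ 3)) ≤
      C2 * (K2 ^ ε * (u * P) ^ ε) * (K2 ^ 4 * (1 + (u * P) ^ 2 / (n : ℝ) ^ 2 +
      (1 + P / (n : ℝ) ^ 2) * (1 + P / (n : ℝ) ^ 3) * ((u * P) ^ 2 / (n : ℝ) ^ 3))) := by
        gcongr
    _ = _ := by ring

/-- PROOF. `ct_point` with `ε/6`. With `u = height b > h`, `P = p^j`, `1 ≤ P ≤ n⁴`: the bracket is at most
`(5 + h⁻²) u² P²` (`1 ≤ h⁻² u² P²`; `(1 + P/n²)(1 + P/n³)/n³ ≤ (2 n²)(2 n)/n³ = 4`), and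
`(u P)^(ε/6) ≤ (A n⁶)^(ε/6) ≤ A n^ε`. -/
theorem ct_point' (K : Cusp q) {h : ℝ} (hh : 0 < h) (g : SU21) {ε : ℝ} (hε : 0 < ε)
    (hε1 : ε ≤ 1) : ∃ C : ℝ, 0 < C ∧ ∀ p n : ℕ, p.Prime → 1 ≤ n → Nat.Coprime n p →
      ∀ (j : ℕ), p ^ j ≤ n ^ 4 → ∀ A : ℝ, 1 ≤ A → ∀ b : ℂ × ℂ, b ∈ K.Box → h < height b →
      height b ≤ A * (n : ℝ) ^ 2 →
      {β : SU21 | Hgt q p n j β ∧
        sgm (act (mat g) b) (act (mat β) (act (mat g) b)) ≤ 16}.Finite ∧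
      ({β : SU21 | Hgt q p n j β ∧
        sgm (act (mat g) b) (act (mat β) (act (mat g) b)) ≤ 16}.ncard : ℝ) ≤
        C * A * (n : ℝ) ^ ε * height b ^ 2 * (p : ℝ) ^ (2 * j) := by
  obtain ⟨C, hC, hct⟩ := ct_point K hh g (ε := ε / 6) (by positivity)
  refine ⟨C * (5 + (h⁻¹) ^ 2), by positivity, ?_⟩
  intro p n hin hn hnp j hjn A hA b hb hhb hbA
  obtain ⟨h1, h2⟩ := hct p n hin hn hnp j b hb hhb
  refine ⟨h1, h2.trans ?_⟩
  have hp1 : (1 : ℝ) ≤ p := by exact_mod_cast hin.pos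
  have hn1 : (1 : ℝ) ≤ n := by exact_mod_cast hn
  have hn0 : (0 : ℝ) < n := by linarith
  set P : ℝ := (p : ℝ) ^ j with hP
  have hP1 : 1 ≤ P := one_le_pow₀ hp1
  have hPn : P ≤ (n : ℝ) ^ 4 := by
    rw [hP]
    exact_mod_cast hjn
  set u := height b with hu
  have hu0 : 0 < u := hh.trans hhb
  have hpow : (p : ℝ) ^ (2 * j) = P ^ 2 := by rw [hP, ← pow_mul, mul_comm]
  -- the power
  have e1 : (u * P) ^ (ε / 6) ≤ A * (n : ℝ) ^ ε := by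
    have h3 : u * P ≤ A * (n : ℝ) ^ (6 : ℝ) := by
      have : (n : ℝ) ^ (6 : ℝ) = (n : ℝ) ^ 2 * (n : ℝ) ^ 4 := by
        rw [← pow_add]
        norm_num
      rw [this, ← mul_assoc]
      gcongr
    calc (u * P) ^ (ε / 6) ≤ (A * (n : ℝ) ^ (6 : ℝ)) ^ (ε / 6) :=
          Real.rpow_le_rpow (by positivity) h3 (by positivity)
      _ = A ^ (ε / 6) * (n : ℝ) ^ ε := by
          rw [Real.mul_rpow (by positivity) (by positivity), ← Real.rpow_mul hn0.le]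
          congr 2
          ring
      _ ≤ A * (n : ℝ) ^ ε := by
          gcongr
          calc A ^ (ε / 6) ≤ A ^ (1 : ℝ) := Real.rpow_le_rpow_of_exponent_le hA (by linarith)
            _ = A := Real.rpow_one A
  -- the bracket
  have e2 : 1 ≤ (h⁻¹) ^ 2 * (u * P) ^ 2 := by
    have h3 : 1 ≤ h⁻¹ * (u * P) := by
      rw [inv_mul_eq_div, le_div_iff₀ hh]
      nlinarith
    calc (1 : ℝ) ≤ (h⁻¹ * (u * P)) ^ 2 := one_le_pow₀ h3
      _ = _ := by ring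
  have e3 : (u * P) ^ 2 / (n : ℝ) ^ 2 ≤ (u * P) ^ 2 :=
    div_le_self (by positivity) (one_le_pow₀ hn1)
  have e4 : (1 + P / (n : ℝ) ^ 2) * (1 + P / (n : ℝ) ^ 3) *
      ((u * P) ^ 2 / (n : ℝ) ^ 3) ≤ 4 * (u * P) ^ 2 := by
    have h3 : 1 + P / (n : ℝ) ^ 2 ≤ 2 * (n : ℝ) ^ 2 := by
      have h5 : P / (n : ℝ) ^ 2 ≤ (n : ℝ) ^ 2 := by
        rw [div_le_iff₀ (by positivity)]
        calc P ≤ (n : ℝ) ^ 4 := hPn
          _ = (n : ℝ) ^ 2 * (n : ℝ) ^ 2 := by ring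
      have h6 : (1 : ℝ) ≤ (n : ℝ) ^ 2 := one_le_pow₀ hn1
      linarith
    have h4 : 1 + P / (n : ℝ) ^ 3 ≤ 2 * (n : ℝ) := by
      have h5 : P / (n : ℝ) ^ 3 ≤ (n : ℝ) := by
        rw [div_le_iff₀ (by positivity)]
        calc P ≤ (n : ℝ) ^ 4 := hPn
          _ = (n : ℝ) * (n : ℝ) ^ 3 := by ring
      linarith
    calc (1 + P / (n : ℝ) ^ 2) * (1 + P / (n : ℝ) ^ 3) * ((u * P) ^ 2 / (n : ℝ) ^ 3) ≤
        (2 * (n : ℝ) ^ 2) * (2 * (n : ℝ)) * ((u * P) ^ 2 / (n : ℝ) ^ 3) := by gcongr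
      _ = 4 * (u * P) ^ 2 := by
        field_simp
        norm_num
  rw [hpow]
  calc C * (u * P) ^ (ε / 6) * (1 + (u * P) ^ 2 / (n : ℝ) ^ 2 +
      (1 + P / (n : ℝ) ^ 2) * (1 + P / (n : ℝ) ^ 3) * ((u * P) ^ 2 / (n : ℝ) ^ 3)) ≤
      C * (A * (n : ℝ) ^ ε) * ((h⁻¹) ^ 2 * (u * P) ^ 2 + (u * P) ^ 2 + 4 * (u * P) ^ 2) := by
        gcongr
    _ = _ := by ring

end

end Pool.Agent.Lib.H80D
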