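import Pool.Agent.Lib.H80D.F1
import Pool.Agent.Lib.H80D.AD
import Pool.Agent.Lib.H80D.B5
import Pool.Agent.Lib.H56D.E1

/-!
# F2: the sum over the group at a point
-/

namespace Pool.Agent.Lib.H80D

open Matrix hiding J
open MeasureTheory Topology Filter
open Pool.Agent.Lib.H56.Picard hiding O Gam mem_Gam star_mem_O T_mem sg_mem
open Pool.Agent.Lib.H56.Gen hiding dd dd_pos
open Pool.Agent.Lib.H56D hiding om wG rho Eig Good K0
open scoped ENNReal

noncomputable section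

variable {q : QD}

/-- PROOF. For `1 ≤ L ≤ 2` and `s ≥ 1` (`one_le_sgm`): `FL L s ≤ 128 c3 2⁸` and `FL L s = 0` for `s > 16 ≥ 4 L²`. Group the sum
by `j = T.ht β` (`j ≤ 2 k` else `nb = 0`; `ht_iff`): it is at most
`∑_{j ≤ 2k} 2 (1 + 2 j) p^(4k) p^(-2j) 128 c3 2⁸ #{β : Hgt j β, σ ≤ 16}`, and `ct_point'` with `ε/2` applies, as
`p^j ≤ p^(2k) ≤ n⁴`. `∑_{j ≤ 2k} 2 (1 + 2 j) ≤ 2 (2k + 1)²` and `2^(2k) ≤ n⁴` gives
`(2k + 1)² ≤ C n^(ε/2)`. -/
theorem sum_point (K : Cusp q) {h : ℝ} (hh : 0 < h) (g : SU21) {ε : ℝ} (hε : 0 < ε)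
    (hε1 : ε ≤ 1) : ∃ C : ℝ, 0 < C ∧ ∀ p n : ℕ, Inert (qd q) p → 1 ≤ n → Nat.Coprime n p →
      ∀ T : HT (HG q p n) p, (∀ g, Hgt q p n (T.ht g) g.1) →
      ∀ (k : ℕ), p ^ (2 * k) ≤ n ^ 4 → ∀ A : ℝ, 1 ≤ A → ∀ b : ℂ × ℂ, b ∈ K.Box → h < height b →
      height b ≤ A * (n : ℝ) ^ 2 → ∀ L : ℝ, 1 ≤ L → L ≤ 2 →
      ∑' β : HG q p n, ENNReal.ofReal (nb p k (T.ht β)) *
          FL L (sgm (act (mat g) b) (act (mat β.1) (act (mat g) b))) ≤
        ENNReal.ofReal (C * A * (n : ℝ) ^ ε * height b ^ 2 * (p : ℝ) ^ (4 * k)) := by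
  classical
  obtain ⟨C, hC, hct⟩ := ct_point' K hh g (ε := ε / 2) (by positivity) (by linarith)
  have hlog2 : 0 < Real.log 2 := Real.log_pos (by norm_num)
  set E : ℝ := 4 / (ε / 4 * Real.log 2) + 1 with hE
  have hE0 : 0 < E := by positivity
  have hc3 := c3_pos
  refine ⟨4 * E ^ 2 * (128 * c3 * 2 ^ 8) * C, by positivity, ?_⟩
  intro p n hin hn hnp T hT k hk A hA b hb hhb hbA L hL1 hL2
  have hp1 : (1 : ℝ) ≤ p := by exact_mod_cast hin.pos
  have hp0 : (0 : ℝ) < p := by linarith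
  have hp2 : (2 : ℝ) ≤ p := by exact_mod_cast hin.prime.two_le
  have hn1 : (1 : ℝ) ≤ n := by exact_mod_cast hn
  have hn0 : (0 : ℝ) < n := by linarith
  set z := act (mat g) b with hz
  set u := height b with hu
  have hbU : b ∈ U := hh.trans hhb
  have hzU : z ∈ U := act_mem_U g hbU
  set F0 : ℝ := 128 * c3 * 2 ^ 8 with hF0
  have hF00 : 0 < F0 := by positivity
  set Z : ℕ → Set SU21 := fun j => {β : SU21 | Hgt q p n j β ∧
        sgm z (act (mat β) z) ≤ 16} with hZ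
  have hu0 : 0 < u := hbU
  -- each term
  have hterm : ∀ β : HG q p n, ENNReal.ofReal (nb p k (T.ht β)) * FL L (sgm z (act (mat β.1) z)) ≤
      ∑ j ∈ Finset.range (2 * k + 1), (if β.1 ∈ Z j then ENNReal.ofReal (nb p k j * F0) else 0) := by
    intro β
    by_cases hj : T.ht β ≤ 2 * k
    swap
    · have h1 : nb p k (T.ht β) = 0 := by
        unfold nb
        rw [if_neg hj]
      rw [h1, ENNReal.ofReal_zero, zero_mul]
      exact zero_le
    by_cases hs : sgm z (act (mat β.1) z) ≤ 16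
    swap
    · have h1 : FL L (sgm z (act (mat β.1) z)) = 0 := by
        unfold FL
        rw [if_neg]
        intro h2
        apply hs
        nlinarith
      rw [h1, mul_zero]
      exact zero_le
    have hs1 : 1 ≤ sgm z (act (mat β.1) z) := one_le_sgm hzU (act_mem_U _ hzU)
    refine le_trans ?_ (Finset.single_le_sum (f := fun j =>
      if β.1 ∈ Z j then ENNReal.ofReal (nb p k j * F0) else 0) (fun _ _ => zero_le)
      (Finset.mem_range.2 (Nat.lt_succ_of_le hj)))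
    rw [if_pos (show β.1 ∈ Z (T.ht β) from ⟨hT β, hs⟩)]
    have hnb : 0 ≤ nb p k (T.ht β) := by
      unfold nb
      rw [if_pos hj]
      positivity
    rw [ENNReal.ofReal_mul hnb]
    gcongr
    unfold FL
    split_ifs
    · apply ENNReal.ofReal_le_ofReal
      rw [hF0]
      calc 128 * c3 * L ^ 8 / sgm z (act (mat β.1) z) ≤ 128 * c3 * L ^ 8 / 1 := by gcongr
        _ = 128 * c3 * L ^ 8 := div_one _
        _ ≤ 128 * c3 * 2 ^ 8 := by gcongr
    · exact zero_le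
  -- the count
  have hcount : ∀ j ∈ Finset.range (2 * k + 1),
      ∑' β : HG q p n, (if β.1 ∈ Z j then ENNReal.ofReal (nb p k j * F0) else 0) ≤
      ENNReal.ofReal (nb p k j * F0 * (C * A * (n : ℝ) ^ (ε / 2) * u ^ 2 * (p : ℝ) ^ (2 * j))) := by
    intro j hj
    have hj' : j ≤ 2 * k := Nat.lt_succ_iff.1 (Finset.mem_range.1 hj)
    have hpj : p ^ j ≤ n ^ 4 := (Nat.pow_le_pow_right hin.pos hj').trans hk
    obtain ⟨hfin, hcard⟩ := hct p n hin.prime hn hnp j hpj A hA b hb hhb hbA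
    have hnb : 0 ≤ nb p k j := by
      unfold nb
      rw [if_pos hj']
      positivity
    have h1 : ∑' β : HG q p n, (if β.1 ∈ Z j then ENNReal.ofReal (nb p k j * F0) else 0) ≤
        ∑' β : SU21, (Z j).indicator (fun _ => ENNReal.ofReal (nb p k j * F0)) β := by
      refine le_trans (le_of_eq ?_) (ENNReal.tsum_comp_le_tsum_of_injective
        (Subtype.val_injective (p := fun β => β ∈ HG q p n))
        (fun β => (Z j).indicator (fun _ => ENNReal.ofReal (nb p k j * F0)) β))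
      refine tsum_congr fun β => ?_
      by_cases hβ : β.1 ∈ Z j
      · rw [if_pos hβ, Set.indicator_of_mem hβ]
      · rw [if_neg hβ, Set.indicator_of_notMem hβ]
    refine h1.trans ?_
    rw [← tsum_subtype, ENNReal.tsum_set_const]
    have h2 : ((Z j).encard : ℝ≥0∞) = ENNReal.ofReal ((Z j).ncard : ℝ) := by
      have hf : (Z j).Finite := hfin
      rw [← hf.cast_ncard_eq, ENNReal.ofReal_natCast]
      rfl
    rw [h2, ← ENNReal.ofReal_mul (by positivity)]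
    apply ENNReal.ofReal_le_ofReal
    rw [mul_comm]
    exact mul_le_mul_of_nonneg_left hcard (by positivity)
  -- summation over the heights
  have hkE : ((2 * k : ℕ) : ℝ) + 1 ≤ E * (n : ℝ) ^ (ε / 4) := by
    have h1 : (2 : ℝ) ^ (2 * k) ≤ (n : ℝ) ^ 4 := by
      calc (2 : ℝ) ^ (2 * k) ≤ (p : ℝ) ^ (2 * k) := pow_le_pow_left₀ (by norm_num) hp2 _
        _ ≤ (n : ℝ) ^ 4 := by exact_mod_cast hk
    have h2 := Real.log_le_log (by positivity) h1
    rw [Real.log_pow, Real.log_pow] at h2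
    have h3 := Real.log_le_rpow_div (x := (n : ℝ)) hn0.le (ε := ε / 4) (by positivity)
    have h4 : (1 : ℝ) ≤ (n : ℝ) ^ (ε / 4) := Real.one_le_rpow hn1 (by positivity)
    have h5 : ((2 * k : ℕ) : ℝ) * Real.log 2 ≤ 4 * ((n : ℝ) ^ (ε / 4) / (ε / 4)) := by
      have : ((4 : ℕ) : ℝ) = 4 := by norm_num
      rw [this] at h2
      linarith
    have h6 : ((2 * k : ℕ) : ℝ) ≤ 4 / (ε / 4 * Real.log 2) * (n : ℝ) ^ (ε / 4) := by
      have e : 4 / (ε / 4 * Real.log 2) * (n : ℝ) ^ (ε / 4) =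
          4 * ((n : ℝ) ^ (ε / 4) / (ε / 4)) / Real.log 2 := by
        field_simp
      rw [e, le_div_iff₀ hlog2]
      exact h5
    rw [hE, add_mul, one_mul]
    linarith
  have hsum : ∑ j ∈ Finset.range (2 * k + 1),
      nb p k j * F0 * (C * A * (n : ℝ) ^ (ε / 2) * u ^ 2 * (p : ℝ) ^ (2 * j)) ≤
      4 * E ^ 2 * F0 * C * A * (n : ℝ) ^ ε * u ^ 2 * (p : ℝ) ^ (4 * k) := by
    have h1 : ∀ j ∈ Finset.range (2 * k + 1),
        nb p k j * F0 * (C * A * (n : ℝ) ^ (ε / 2) * u ^ 2 * (p : ℝ) ^ (2 * j)) ≤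
        2 * (((2 * k : ℕ) : ℝ) * 2 + 1) *
          (F0 * (C * A * (n : ℝ) ^ (ε / 2) * u ^ 2 * (p : ℝ) ^ (4 * k))) := by
      intro j hj
      have hj' : j ≤ 2 * k := Nat.lt_succ_iff.1 (Finset.mem_range.1 hj)
      have hj2 : (j : ℝ) ≤ ((2 * k : ℕ) : ℝ) := by exact_mod_cast hj'
      have e : nb p k j * F0 * (C * A * (n : ℝ) ^ (ε / 2) * u ^ 2 * (p : ℝ) ^ (2 * j)) =
          2 * (1 + 2 * j) * (F0 * (C * A * (n : ℝ) ^ (ε / 2) * u ^ 2 * (p : ℝ) ^ (4 * k))) := by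
        unfold nb
        rw [if_pos hj']
        field_simp
      rw [e]
      exact mul_le_mul_of_nonneg_right (by linarith) (by positivity)
    refine (Finset.sum_le_sum h1).trans ?_
    rw [Finset.sum_const, Finset.card_range, nsmul_eq_mul]
    have h2 : (((2 * k + 1 : ℕ) : ℝ)) = ((2 * k : ℕ) : ℝ) + 1 := by push_cast; ring
    rw [h2]
    set κ : ℝ := ((2 * k : ℕ) : ℝ) with hκ
    have hκ0 : 0 ≤ κ := Nat.cast_nonneg _
    have h3 : (κ + 1) * (2 * (κ * 2 + 1)) ≤ 4 * (E * (n : ℝ) ^ (ε / 4)) ^ 2 := by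
      have h4 : (κ + 1) ^ 2 ≤ (E * (n : ℝ) ^ (ε / 4)) ^ 2 :=
        pow_le_pow_left₀ (by positivity) hkE 2
      nlinarith
    have h4 : (E * (n : ℝ) ^ (ε / 4)) ^ 2 = E ^ 2 * (n : ℝ) ^ (ε / 2) := by
      rw [mul_pow, ← Real.rpow_natCast ((n : ℝ) ^ (ε / 4)), ← Real.rpow_mul hn0.le]
      congr 2
      push_cast
      ring
    have h5 : (n : ℝ) ^ (ε / 2) * (n : ℝ) ^ (ε / 2) = (n : ℝ) ^ ε := by
      rw [← Real.rpow_add hn0]
      congr 1
      ring
    calc (κ + 1) * (2 * (κ * 2 + 1) *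
          (F0 * (C * A * (n : ℝ) ^ (ε / 2) * u ^ 2 * (p : ℝ) ^ (4 * k)))) =
        ((κ + 1) * (2 * (κ * 2 + 1))) *
          (F0 * (C * A * (n : ℝ) ^ (ε / 2) * u ^ 2 * (p : ℝ) ^ (4 * k))) := by ring
      _ ≤ (4 * (E * (n : ℝ) ^ (ε / 4)) ^ 2) *
          (F0 * (C * A * (n : ℝ) ^ (ε / 2) * u ^ 2 * (p : ℝ) ^ (4 * k))) :=
        mul_le_mul_of_nonneg_right h3 (by positivity)
      _ = 4 * E ^ 2 * F0 * C * A * ((n : ℝ) ^ (ε / 2) * (n : ℝ) ^ (ε / 2)) * u ^ 2 *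
          (p : ℝ) ^ (4 * k) := by
        rw [h4]
        ring
      _ = _ := by rw [h5]
  calc ∑' β : HG q p n, ENNReal.ofReal (nb p k (T.ht β)) * FL L (sgm z (act (mat β.1) z)) ≤
      ∑' β : HG q p n, ∑ j ∈ Finset.range (2 * k + 1),
        (if β.1 ∈ Z j then ENNReal.ofReal (nb p k j * F0) else 0) := ENNReal.tsum_le_tsum hterm
    _ = ∑ j ∈ Finset.range (2 * k + 1), ∑' β : HG q p n,
        (if β.1 ∈ Z j then ENNReal.ofReal (nb p k j * F0) else 0) :=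
      Summable.tsum_finsetSum fun _ _ => ENNReal.summable
    _ ≤ ∑ j ∈ Finset.range (2 * k + 1),
        ENNReal.ofReal (nb p k j * F0 * (C * A * (n : ℝ) ^ (ε / 2) * u ^ 2 * (p : ℝ) ^ (2 * j))) :=
      Finset.sum_le_sum hcount
    _ = ENNReal.ofReal (∑ j ∈ Finset.range (2 * k + 1),
        nb p k j * F0 * (C * A * (n : ℝ) ^ (ε / 2) * u ^ 2 * (p : ℝ) ^ (2 * j))) := by
      rw [ENNReal.ofReal_sum_of_nonneg]
      intro j _
      have : 0 ≤ nb p k j := by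
        unfold nb
        split_ifs
        · positivity
        · exact le_rfl
      positivity
    _ ≤ _ := ENNReal.ofReal_le_ofReal (hsum.trans (le_of_eq (by ring)))

end

end Pool.Agent.Lib.H80D
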