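import Pool.Agent.Lib.H80D.AD
import Pool.Agent.Lib.H43T.Count

/-!
# F3: the integral over the box
-/

namespace Pool.Agent.Lib.H80D

open Matrix hiding J
open MeasureTheory Topology Filter
open Pool.Agent.Lib.H56.Picard hiding O Gam mem_Gam star_mem_O T_mem sg_mem
open Pool.Agent.Lib.H56.Gen hiding dd dd_pos
open Pool.Agent.Lib.H56D hiding om wG rho Eig Good K0
open scoped ENNReal

noncomputable section

/-- PROOF. `lintegral_Box'` (`ht_PsiE`): the integral is `(cv/4) P ∫_h^Y u² u⁻³ du = (cv/4) P log (Y/h)` (zero if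
`Y ≤ h`), and `log (Y/h) ≤ C Y^ε` for `Y ≥ 1` (`Real.log_le_rpow_div`). -/
theorem int_box {q : QD} (R : RD q) {ε : ℝ} (hε : 0 < ε) : ∃ C : ℝ, 0 < C ∧ ∀ Y : ℝ, 1 ≤ Y →
    ∫⁻ b in BxY R Y, ENNReal.ofReal (height b.1 ^ 2) ∂mu ≤ ENNReal.ofReal (C * Y ^ ε) := by
  have hcv := R.K.cv_pos
  have hP := R.K.hP
  set h' := min R.h 1 with hh'
  have hh0 : 0 < h' := lt_min R.hh one_pos
  have hh1 : h' ≤ 1 := min_le_right _ _
  refine ⟨R.K.cv / 4 * R.K.P * (1 * h'⁻¹ ^ 2 * (h'⁻¹ ^ ε / ε)), by positivity, fun Y hY => ?_⟩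
  have hY0 : 0 < Y := by linarith
  have h1 := H43T.box_height R.K (h := h') (T := Y) (M := 1) hh0 hh1 (hh1.trans hY) zero_le_one
  have h2 : ∫⁻ b in BxY R Y, ENNReal.ofReal (height b.1 ^ 2) ∂mu ≤
      ∫⁻ z in {z : X | z.1 ∈ R.K.Box ∧ h' < height z.1 ∧ height z.1 ≤ Y},
        ENNReal.ofReal (1 * max (height z.1) 1 ^ 2) ∂mu := by
    have hsub : BxY R Y ⊆ {z : X | z.1 ∈ R.K.Box ∧ h' < height z.1 ∧ height z.1 ≤ Y} :=
      fun z hz => ⟨hz.1, lt_of_le_of_lt (min_le_left _ _) hz.2.1, hz.2.2⟩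
    refine (lintegral_mono_set hsub).trans (lintegral_mono fun z => ?_)
    apply ENNReal.ofReal_le_ofReal
    rw [one_mul]
    have h3 : 0 ≤ height z.1 := le_of_lt z.2
    exact pow_le_pow_left₀ h3 (le_max_left _ _) 2
  refine h2.trans (h1.trans (ENNReal.ofReal_le_ofReal ?_))
  have h3 : Real.log (Y / h') ≤ h'⁻¹ ^ ε / ε * Y ^ ε := by
    have h4 := Real.log_le_rpow_div (x := Y / h') (by positivity) hε
    have h5 : (Y / h') ^ ε = h'⁻¹ ^ ε * Y ^ ε := by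
      rw [div_eq_mul_inv, mul_comm, Real.mul_rpow (by positivity) (by positivity)]
    rw [h5] at h4
    calc _ ≤ _ := h4
      _ = _ := by ring
  calc R.K.cv / 4 * R.K.P * (1 * h'⁻¹ ^ 2 * Real.log (Y / h')) ≤
      R.K.cv / 4 * R.K.P * (1 * h'⁻¹ ^ 2 * (h'⁻¹ ^ ε / ε * Y ^ ε)) := by gcongr
    _ = _ := by ring

end

end Pool.Agent.Lib.H80D
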