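import Pool.Agent.Lib.H80D.B7
import Pool.Agent.Lib.H80D.F2
import Pool.Agent.Lib.H80D.F3

/-!
# F4: the bound for an orthonormal family of joint eigenfunctions
-/

namespace Pool.Agent.Lib.H80D

open Matrix hiding J
open MeasureTheory Topology Filter
open Pool.Agent.Lib.H56.Picard hiding O Gam mem_Gam star_mem_O T_mem sg_mem
open Pool.Agent.Lib.H56.Gen hiding dd dd_pos
open Pool.Agent.Lib.H56D hiding om wG rho Eig Good K0
open scoped ENNReal

noncomputable section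

variable {q : QD}

theorem F4_x {p n : ℝ} {k : ℕ} {ν : ℝ} (hp : 2 ≤ p) (hn : 1 ≤ n) (hν : 0 ≤ ν) (hν1 : ν ≤ 1)
    (hk : n ^ 4 ≤ p ^ (2 * (k + 1))) :
    1 ≤ (p ^ (2 * ν)) ^ (2 * k) * p ^ 4 * n ^ (-(8 * ν)) := by
  have hp0 : 0 < p := by linarith
  have hn0 : 0 < n := by linarith
  have h1 : n ^ (8 * ν) ≤ (p ^ (2 * ν)) ^ (2 * k) * p ^ 4 := by
    calc n ^ (8 * ν) = (n ^ 4) ^ (2 * ν) := by
          rw [← Real.rpow_natCast n 4, ← Real.rpow_mul hn0.le]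
          congr 1
          push_cast
          ring
      _ ≤ (p ^ (2 * (k + 1))) ^ (2 * ν) := Real.rpow_le_rpow (by positivity) hk (by linarith)
      _ = (p ^ (2 * ν)) ^ (2 * k) * p ^ (4 * ν) := by
          rw [← Real.rpow_natCast p, ← Real.rpow_mul hp0.le, ← Real.rpow_natCast (p ^ (2 * ν)),
            ← Real.rpow_mul hp0.le, ← Real.rpow_add hp0]
          congr 1
          push_cast
          ring
      _ ≤ (p ^ (2 * ν)) ^ (2 * k) * p ^ 4 := by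
          apply mul_le_mul_of_nonneg_left _ (by positivity)
          rw [← Real.rpow_natCast p 4]
          apply Real.rpow_le_rpow_of_exponent_le (by linarith)
          push_cast
          linarith
  have h2 : n ^ (8 * ν) * n ^ (-(8 * ν)) = 1 := by
    rw [← Real.rpow_add hn0, add_neg_cancel, Real.rpow_zero]
  have h3 : 0 < n ^ (-(8 * ν)) := by positivity
  calc 1 = n ^ (8 * ν) * n ^ (-(8 * ν)) := h2.symm
    _ ≤ _ := mul_le_mul_of_nonneg_right h1 h3.le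

theorem F4_num {c S C₂ p n A Lam ν ε I m : ℝ} {k : ℕ} (hc : 0 < c) (hS : 0 ≤ S) (hC₂ : 0 < C₂)
    (hp : 2 ≤ p) (hn : 1 ≤ n) (hA : 1 ≤ A) (hLam : 0 ≤ Lam) (hν : 0 ≤ ν) (hν1 : ν ≤ 1)
    (hε : 0 < ε) (hε1 : ε ≤ 1) (hI : 0 ≤ I) (hm : 0 ≤ m) (hk : n ^ 4 ≤ p ^ (2 * (k + 1)))
    (h : (c / 2 * (1 + 3 / (8 * (1 + Lam)) - 1) ^ 5 * (5 / 8 * (p ^ 2 * p ^ (2 * ν)) ^ k)) ^ 2 * m ≤
      2 * I * (S * A * n ^ (ε / 2) * p ^ (4 * k) * (C₂ * (A * n ^ 2) ^ (ε / 4)))) :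
    m ≤ (2 * S * C₂ / ((c / 2) ^ 2 * (25 / 64) * (3 / 8) ^ 10)) * A ^ 2 * (1 + Lam) ^ 10 * p ^ 4 *
      I * n ^ (ε - 8 * ν) := by
  have hp0 : 0 < p := by linarith
  have hn0 : 0 < n := by linarith
  have hA0 : 0 < A := by linarith
  have hl0 : 0 < 1 + Lam := by linarith
  set K0 : ℝ := (c / 2) ^ 2 * (25 / 64) * (3 / 8) ^ 10 with hK0
  have hK0p : 0 < K0 := by positivity
  have hx := F4_x hp hn hν hν1 hk
  -- the constant
  have e1 : (c / 2 * (1 + 3 / (8 * (1 + Lam)) - 1) ^ 5 * (5 / 8 * (p ^ 2 * p ^ (2 * ν)) ^ k)) ^ 2 *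
      (1 + Lam) ^ 10 = K0 * p ^ (4 * k) * (p ^ (2 * ν)) ^ (2 * k) := by
    have h1 : 1 + 3 / (8 * (1 + Lam)) - 1 = (3 / 8) * (1 + Lam)⁻¹ := by
      field_simp
      ring
    rw [h1, hK0, mul_pow (p ^ 2)]
    have h2 : p ^ (4 * k) = ((p ^ 2) ^ k) ^ 2 := by
      rw [← pow_mul, ← pow_mul]
      congr 1
      ring
    have h3 : (p ^ (2 * ν)) ^ (2 * k) = ((p ^ (2 * ν)) ^ k) ^ 2 := by
      rw [← pow_mul]
      congr 1
      ring
    rw [h2, h3]
    have h4 : (1 + Lam)⁻¹ ^ 10 * (1 + Lam) ^ 10 = 1 := by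
      rw [← mul_pow, inv_mul_cancel₀ hl0.ne', one_pow]
    linear_combination ((c / 2) ^ 2 * (25 / 64) * (3 / 8) ^ 10 * ((p ^ 2) ^ k) ^ 2 *
      ((p ^ (2 * ν)) ^ k) ^ 2) * h4
  have e2 : (A * n ^ 2) ^ (ε / 4) ≤ A * n ^ (ε / 2) := by
    rw [Real.mul_rpow hA0.le (by positivity)]
    apply mul_le_mul _ _ (by positivity) hA0.le
    · calc A ^ (ε / 4) ≤ A ^ (1 : ℝ) := Real.rpow_le_rpow_of_exponent_le hA (by linarith)
        _ = A := Real.rpow_one A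
    · rw [← Real.rpow_natCast n 2, ← Real.rpow_mul hn0.le]
      apply le_of_eq
      congr 1
      push_cast
      ring
  have e3 : n ^ (ε / 2) * n ^ (ε / 2) * n ^ (-(8 * ν)) = n ^ (ε - 8 * ν) := by
    rw [← Real.rpow_add hn0, ← Real.rpow_add hn0]
    congr 1
    ring
  have hP : 0 < p ^ (4 * k) := by positivity
  have hN : 0 < n ^ (-(8 * ν)) := by positivity
  have h5 : K0 * p ^ (4 * k) * m ≤ K0 * p ^ (4 * k) *
      ((2 * S * C₂ / K0) * A ^ 2 * (1 + Lam) ^ 10 * p ^ 4 * I * n ^ (ε - 8 * ν)) := by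
    calc K0 * p ^ (4 * k) * m = K0 * p ^ (4 * k) * m * 1 := by ring
      _ ≤ K0 * p ^ (4 * k) * m * ((p ^ (2 * ν)) ^ (2 * k) * p ^ 4 * n ^ (-(8 * ν))) := by
          apply mul_le_mul_of_nonneg_left hx (by positivity)
      _ = ((c / 2 * (1 + 3 / (8 * (1 + Lam)) - 1) ^ 5 * (5 / 8 * (p ^ 2 * p ^ (2 * ν)) ^ k)) ^ 2 *
            m) * ((1 + Lam) ^ 10 * p ^ 4 * n ^ (-(8 * ν))) := by
          linear_combination (-(m * p ^ 4 * n ^ (-(8 * ν)))) * e1
      _ ≤ (2 * I * (S * A * n ^ (ε / 2) * p ^ (4 * k) * (C₂ * (A * n ^ 2) ^ (ε / 4)))) *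
            ((1 + Lam) ^ 10 * p ^ 4 * n ^ (-(8 * ν))) := by
          apply mul_le_mul_of_nonneg_right h (by positivity)
      _ ≤ (2 * I * (S * A * n ^ (ε / 2) * p ^ (4 * k) * (C₂ * (A * n ^ (ε / 2))))) *
            ((1 + Lam) ^ 10 * p ^ 4 * n ^ (-(8 * ν))) := by
          apply mul_le_mul_of_nonneg_right _ (by positivity)
          gcongr
      _ = p ^ (4 * k) * (2 * S * C₂ * A ^ 2 * (1 + Lam) ^ 10 * p ^ 4 * I *
            (n ^ (ε / 2) * n ^ (ε / 2) * n ^ (-(8 * ν)))) := by ring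
      _ = K0 * p ^ (4 * k) *
          ((2 * S * C₂ / K0) * A ^ 2 * (1 + Lam) ^ 10 * p ^ 4 * I * n ^ (ε - 8 * ν)) := by
          rw [e3]
          field_simp
  exact le_of_mul_le_mul_left h5 (by positivity)

theorem F4_mass {W : WD q} {G : Subgroup (Gam q)} [G.FiniteIndex] {f : ℂ × ℂ → ℂ} {l : ℝ}
    (h : Gd W G f l) (h1 : ∫ z : X, star (f z.1) * f z.1 ∂(rh W G) = 1) :
    ∫⁻ z, W.w z * PhiS G f z ∂mu = 1 := by
  rw [← lintegral_wt_PhiS W G h.smooth]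
  have hc : Continuous fun z : X => Complex.normSq (f z.1) :=
    Complex.continuous_normSq.comp
      (continuousOn_iff_continuous_domRestrict.mp h.smooth.continuousOn)
  have hm : Measurable fun z : X => ENNReal.ofReal (Complex.normSq (f z.1)) :=
    (ENNReal.continuous_ofReal.comp hc).measurable
  have h2 : ∫⁻ z : X, ENNReal.ofReal (Complex.normSq (f z.1)) ∂(rh W G) =
      ∫⁻ z, wt W G z * ENNReal.ofReal (Complex.normSq (f z.1)) ∂mu := by
    unfold rh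
    rw [lintegral_withDensity_eq_lintegral_mul _ (measurable_wt W G) hm]
    rfl
  rw [← h2]
  have h3 : ∫ z : X, Complex.normSq (f z.1) ∂(rh W G) = 1 := by
    have h4 : ∫ z : X, star (f z.1) * f z.1 ∂(rh W G) =
        ((∫ z : X, Complex.normSq (f z.1) ∂(rh W G) : ℝ) : ℂ) := by
      rw [← integral_complex_ofReal]
      refine integral_congr_ae (Eventually.of_forall fun z => ?_)
      simp only [Complex.star_def]
      rw [Complex.normSq_eq_conj_mul_self]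
    rw [h4] at h1
    exact_mod_cast h1
  have h5 : Integrable (fun z : X => Complex.normSq (f z.1)) (rh W G) := by
    by_contra hcon
    rw [integral_undef hcon] at h3
    exact zero_ne_one h3
  rw [← ofReal_integral_eq_lintegral_ofReal h5
    (Eventually.of_forall fun z => Complex.normSq_nonneg _), h3, ENNReal.ofReal_one]

/-- PROOF. `x = p^(2ν)`, `L = 1 + 3/(8 (1 + Lam))`, so `1 < L ≤ 2` and `Lam L³ (L - 1) ≤ 8 Lam (L - 1) ≤ 3`; `k` with
`p^(2k) ≤ n⁴ < p^(2k+2)` (`n ≥ 1`, `p ≥ 2`); `Y = A n²`; `T` from `exists_HT`. By `hl1`, `htr` and `cs_bound` at the points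
`g_i b`, with `κ = (c3/2 (L-1)⁵ (5/8 (p² x)^k))²`:
`κ m ≤ 2 ∑_i ∫_{BxY} index ∑' β, nb FL ≤ 2 index ∑_i ∫_{BxY} C A n^ε p^(4k) u²` (`sum_point` for each of the finitely
many `g_i`: take the maximum of the constants; `ε/2`), and `∫_{BxY} u² ≤ C (A n²)^(ε/4)` (`int_box`). As
`κ = c (L-1)^10 p^(4k) x^(2k)` with `(L-1)^10 ≥ c' (1 + Lam)^(-10)`, and
`x^(2k) = p^(4νk) = (p^(2k+2))^(2ν) p^(-4ν) ≥ n^(8ν) p^(-4)`: the claim. -/
theorem density_R (R : RD q) {ε : ℝ} (hε : 0 < ε) (hε1 : ε ≤ 1) : ∃ C : ℝ, 0 < C ∧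
    ∀ p n : ℕ, Inert (qd q) p → 1 ≤ n → Nat.Coprime n p → ∀ Lam : ℝ, 0 ≤ Lam → ∀ A : ℝ, 1 ≤ A →
    ∀ ν : ℝ, 0 ≤ ν → ν ≤ 1 → ∀ (m : ℕ) (e : Fin m → ℂ × ℂ → ℂ) (l th : Fin m → ℝ),
    (∀ i, Gd R.toWD (GamN q (n : ℂ)) (e i) (l i)) → (∀ i, 0 ≤ l i ∧ l i ≤ Lam) →
    (∀ i, IsHecke q p n (e i) (th i)) →
    (∀ i, (p : ℝ) ^ 2 * ((p : ℝ) ^ (2 * ν) + (p : ℝ) ^ (-(2 * ν))) ≤ |th i - (p - 1)|) →
    (∀ i j, ∫ z : X, star (e i z.1) * e j z.1 ∂(rh R.toWD (GamN q (n : ℂ))) =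
      if i = j then 1 else 0) →
    (∀ i, ∫⁻ z, R.w z * PhiS (GamN q (n : ℂ)) (e i) z ∂mu ≤
      2 * ∑ c, ∫⁻ b in BxY R (A * (n : ℝ) ^ 2), PhiS (GamN q (n : ℂ)) (e i) (R.g c • b) ∂mu) →
    (m : ℝ) ≤ C * A ^ 2 * (1 + Lam) ^ 10 * (p : ℝ) ^ 4 * ((GamN q (n : ℂ)).index : ℝ) *
      (n : ℝ) ^ (ε - 8 * ν) := by
  choose C₁ hC₁ hsum using fun c : Fin R.r =>
    sum_point R.K R.hh (R.g c) (half_pos hε) (by linarith : ε / 2 ≤ 1)
  obtain ⟨C₂, hC₂, hbox⟩ := int_box R (ε := ε / 4) (by positivity)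
  have hc3 := c3_pos
  have hS : 0 ≤ ∑ c, C₁ c := Finset.sum_nonneg fun c _ => (hC₁ c).le
  refine ⟨2 * (∑ c, C₁ c) * C₂ / ((c3 / 2) ^ 2 * (25 / 64) * (3 / 8) ^ 10) + 1,
    by positivity, ?_⟩
  intro p n hp hn hnp Lam hLam A hA ν hν hν1 m e l th he hl hh hth hon htr
  have hp2 : (2 : ℝ) ≤ p := by exact_mod_cast hp.prime.two_le
  have hp0 : (0 : ℝ) < p := by linarith
  have hn1 : (1 : ℝ) ≤ n := by exact_mod_cast hn
  have hn0' : (0 : ℝ) < n := by linarith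
  have hn0 : (n : ℂ) ≠ 0 := by
    have : n ≠ 0 := by omega
    exact_mod_cast this
  have hl0 : 0 < 1 + Lam := by linarith
  have hfin : (GamN q (n : ℂ)).FiniteIndex := GamN_finiteIndex (natCast_mem (OO q) n) hn0
  obtain ⟨T, hT⟩ := exists_HT hp hn hnp
  -- the radius
  set L : ℝ := 1 + 3 / (8 * (1 + Lam)) with hLd
  have hLs : 0 < 3 / (8 * (1 + Lam)) := by positivity
  have hL1 : 1 < L := by rw [hLd]; linarith
  have hL38 : 3 / (8 * (1 + Lam)) ≤ 3 / 8 := by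
    apply div_le_div_of_nonneg_left (by norm_num) (by norm_num)
    linarith
  have hL2 : L ≤ 2 := by rw [hLd]; linarith
  have hL3 : Lam * L ^ 3 * (L - 1) ≤ 3 := by
    have h1 : L ^ 3 ≤ 8 := by
      calc L ^ 3 ≤ 2 ^ 3 := pow_le_pow_left₀ (by linarith) hL2 3
        _ = 8 := by norm_num
    have h2 : L - 1 = 3 / (8 * (1 + Lam)) := by rw [hLd]; ring
    calc Lam * L ^ 3 * (L - 1) ≤ Lam * 8 * (L - 1) := by
          apply mul_le_mul_of_nonneg_right _ (by linarith)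
          exact mul_le_mul_of_nonneg_left h1 hLam
      _ = 3 * (Lam / (1 + Lam)) := by
          rw [h2]
          field_simp
      _ ≤ 3 * 1 := by
          apply mul_le_mul_of_nonneg_left _ (by norm_num)
          rw [div_le_one hl0]
          linarith
      _ = 3 := by norm_num
  -- the height
  have hpp : 1 < p ^ 2 := by
    have := hp.prime.two_le
    nlinarith
  set k : ℕ := Nat.log (p ^ 2) (n ^ 4) with hk
  have hn4 : n ^ 4 ≠ 0 := by positivity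
  have hk1 : p ^ (2 * k) ≤ n ^ 4 := by
    rw [pow_mul]
    exact Nat.pow_log_le_self _ hn4
  have hk2 : (n : ℝ) ^ 4 ≤ (p : ℝ) ^ (2 * (k + 1)) := by
    have h1 : n ^ 4 < (p ^ 2) ^ (k + 1) := Nat.lt_pow_succ_log_self hpp _
    rw [← pow_mul] at h1
    exact_mod_cast h1.le
  have hx : (1 : ℝ) ≤ (p : ℝ) ^ (2 * ν) := Real.one_le_rpow (by linarith) (by linarith)
  have hxinv : ((p : ℝ) ^ (2 * ν))⁻¹ = (p : ℝ) ^ (-(2 * ν)) := (Real.rpow_neg hp0.le _).symm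
  set G := GamN q (n : ℂ) with hG
  set κ : ℝ := (c3 / 2 * (L - 1) ^ 5 * (5 / 8 * ((p : ℝ) ^ 2 * (p : ℝ) ^ (2 * ν)) ^ k)) ^ 2 with hκ
  have hpt : ∀ z : X, ENNReal.ofReal κ * ∑ i, PhiS G (e i) z ≤
      (G.index : ℝ≥0∞) * ∑' β : HG q p n, ENNReal.ofReal (nb p k (T.ht β)) *
        FL L (sgm z.1 (act (mat β.1) z.1)) := fun z =>
    cs_bound hp hn hnp hT hx he hl hh (fun i => by rw [hxinv]; exact hth i) hon hL1 hL3 k z
  have hcountA : Countable (Gam q) := countable_arith finite_ball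
  have hcountQ : Countable (Gam q ⧸ G) := Quotient.countable
  have hmPhi : ∀ i, Measurable (PhiS G (e i)) := fun i => measurable_PhiS (he i).smooth
  -- the masses
  have h1 : (m : ℝ≥0∞) ≤ 2 * ∑ c, ∫⁻ b in BxY R (A * (n : ℝ) ^ 2), ∑ i, PhiS G (e i) (R.g c • b) ∂mu := by
    calc (m : ℝ≥0∞) = ∑ i : Fin m, ∫⁻ z, R.w z * PhiS G (e i) z ∂mu := by
          rw [Finset.sum_congr rfl fun i _ => F4_mass (he i) (by rw [hon i i, if_pos rfl])]
          simp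
      _ ≤ ∑ i : Fin m, 2 * ∑ c, ∫⁻ b in BxY R (A * (n : ℝ) ^ 2), PhiS G (e i) (R.g c • b) ∂mu :=
          Finset.sum_le_sum fun i _ => htr i
      _ = 2 * ∑ c, ∑ i, ∫⁻ b in BxY R (A * (n : ℝ) ^ 2), PhiS G (e i) (R.g c • b) ∂mu := by
          rw [← Finset.mul_sum, Finset.sum_comm]
      _ = _ := by
          congr 1
          refine Finset.sum_congr rfl fun c _ => ?_
          rw [lintegral_finsetSum' (μ := mu.restrict (BxY R (A * (n : ℝ) ^ 2))) Finset.univ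
            (f := fun (i : Fin m) (b : X) => PhiS G (e i) (R.g c • b)) (fun i _ =>
              ((hmPhi i).comp (measurable_const_smul (R.g c))).aemeasurable)]
  have hhm : Measurable fun b : X => height b.1 := by
    have : Continuous fun b : X => height b.1 := by
      unfold height
      fun_prop
    exact this.measurable
  have h2 : ∀ c, ENNReal.ofReal κ *
      ∫⁻ b in BxY R (A * (n : ℝ) ^ 2), ∑ i, PhiS G (e i) (R.g c • b) ∂mu ≤
      (G.index : ℝ≥0∞) * ENNReal.ofReal (C₁ c * A * (n : ℝ) ^ (ε / 2) * (p : ℝ) ^ (4 * k) *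
        (C₂ * (A * (n : ℝ) ^ 2) ^ (ε / 4))) := by
    intro c
    have hC : 0 ≤ C₁ c * A * (n : ℝ) ^ (ε / 2) * (p : ℝ) ^ (4 * k) := by
      have := hC₁ c
      positivity
    calc ENNReal.ofReal κ * ∫⁻ b in BxY R (A * (n : ℝ) ^ 2), ∑ i, PhiS G (e i) (R.g c • b) ∂mu
        = ∫⁻ b in BxY R (A * (n : ℝ) ^ 2), ENNReal.ofReal κ *
            ∑ i, PhiS G (e i) (R.g c • b) ∂mu :=
          (lintegral_const_mul' _ _ ENNReal.ofReal_ne_top).symm
      _ ≤ ∫⁻ b in BxY R (A * (n : ℝ) ^ 2), (G.index : ℝ≥0∞) *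
            (ENNReal.ofReal (C₁ c * A * (n : ℝ) ^ (ε / 2) * (p : ℝ) ^ (4 * k)) *
            ENNReal.ofReal (height b.1 ^ 2)) ∂mu := by
          refine setLIntegral_mono ?_ ?_
          · exact ((hhm.pow_const 2).ennreal_ofReal.const_mul _).const_mul _
          · intro b hb
            refine (hpt (R.g c • b)).trans (mul_le_mul_right ?_ _)
            have h3 := hsum c p n hp hn hnp T hT k hk1 A hA b.1 hb.1 hb.2.1 hb.2.2 L hL1.le hL2
            refine h3.trans (le_of_eq ?_)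
            rw [← ENNReal.ofReal_mul hC]
            congr 1
            ring
      _ = (G.index : ℝ≥0∞) *
            (ENNReal.ofReal (C₁ c * A * (n : ℝ) ^ (ε / 2) * (p : ℝ) ^ (4 * k)) *
            ∫⁻ b in BxY R (A * (n : ℝ) ^ 2), ENNReal.ofReal (height b.1 ^ 2) ∂mu) := by
          rw [lintegral_const_mul' _ _ (ENNReal.natCast_ne_top _),
            lintegral_const_mul' _ _ ENNReal.ofReal_ne_top]
      _ ≤ (G.index : ℝ≥0∞) *
            (ENNReal.ofReal (C₁ c * A * (n : ℝ) ^ (ε / 2) * (p : ℝ) ^ (4 * k)) *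
            ENNReal.ofReal (C₂ * (A * (n : ℝ) ^ 2) ^ (ε / 4))) := by
          refine mul_le_mul_right (mul_le_mul_right (hbox _ ?_) _) _
          have : (1 : ℝ) ≤ (n : ℝ) ^ 2 := one_le_pow₀ hn1
          nlinarith
      _ = _ := by rw [← ENNReal.ofReal_mul hC]
  have hκ0 : 0 ≤ κ := by rw [hκ]; positivity
  have h3 : κ * (m : ℝ) ≤ 2 * (G.index : ℝ) * ((∑ c, C₁ c) * A * (n : ℝ) ^ (ε / 2) *
      (p : ℝ) ^ (4 * k) * (C₂ * (A * (n : ℝ) ^ 2) ^ (ε / 4))) := by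
    have h4 : ENNReal.ofReal (κ * (m : ℝ)) ≤ ENNReal.ofReal (2 * (G.index : ℝ) *
        ((∑ c, C₁ c) * A * (n : ℝ) ^ (ε / 2) *
        (p : ℝ) ^ (4 * k) * (C₂ * (A * (n : ℝ) ^ 2) ^ (ε / 4)))) := by
      calc ENNReal.ofReal (κ * (m : ℝ)) = ENNReal.ofReal κ * (m : ℝ≥0∞) := by
            rw [ENNReal.ofReal_mul hκ0, ENNReal.ofReal_natCast]
        _ ≤ ENNReal.ofReal κ * (2 * ∑ c, ∫⁻ b in BxY R (A * (n : ℝ) ^ 2),
              ∑ i, PhiS G (e i) (R.g c • b) ∂mu) := mul_le_mul_right h1 _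
        _ = 2 * ∑ c, ENNReal.ofReal κ * ∫⁻ b in BxY R (A * (n : ℝ) ^ 2),
              ∑ i, PhiS G (e i) (R.g c • b) ∂mu := by
            rw [← Finset.mul_sum]
            ring
        _ ≤ 2 * ∑ c, (G.index : ℝ≥0∞) * ENNReal.ofReal (C₁ c * A * (n : ℝ) ^ (ε / 2) *
              (p : ℝ) ^ (4 * k) * (C₂ * (A * (n : ℝ) ^ 2) ^ (ε / 4))) :=
            mul_le_mul_right (Finset.sum_le_sum fun c _ => h2 c) _
        _ = _ := by
            rw [← Finset.mul_sum, ← ENNReal.ofReal_sum_of_nonneg, ENNReal.ofReal_mul (by positivity),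
              ENNReal.ofReal_mul (by norm_num), ENNReal.ofReal_natCast, ENNReal.ofReal_ofNat,
              mul_assoc]
            · congr 3
              simp only [Finset.sum_mul]
            · intro c _
              have := hC₁ c
              positivity
    refine (ENNReal.ofReal_le_ofReal_iff ?_).1 h4
    positivity
  have h5 := F4_num hc3 hS hC₂ hp2 hn1 hA hLam hν hν1 hε hε1 (Nat.cast_nonneg G.index)
    (Nat.cast_nonneg m) hk2 h3
  refine h5.trans ?_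
  gcongr
  linarith

end

end Pool.Agent.Lib.H80D
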