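import Pool.Agent.Lib.H80D.F4
import Pool.Agent.Lib.H80D.E5
import Pool.Agent.Lib.H80D.B9
import Pool.Agent.Lib.H56M.G3
import Pool.Agent.Lib.H56M.G0

/-!
# F5: the density theorem at an inert prime
-/

namespace Pool.Agent.Lib.H80D

open Matrix hiding J
open MeasureTheory Topology Filter
open Pool.Agent.Lib.H56.Picard hiding O Gam mem_Gam star_mem_O T_mem sg_mem
open Pool.Agent.Lib.H56.Gen hiding dd dd_pos cnt
open Pool.Agent.Lib.H56D hiding om wG rho Eig Good K0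
open Pool.Agent.Lib.H56M (MC top bxi ind cnt om wG rho Eig Good)
open scoped ENNReal

noncomputable section

variable {q : QD}

theorem F5_num {C₄ ε' ε ν V n : ℝ} (hC₄ : 1 ≤ C₄) (hε' : 0 < ε') (hεε : 2 * ε' ≤ ε)
    (hν : 0 ≤ ν) (hν1 : ν ≤ 1) (hn : 1 ≤ n) (hnV : n ≤ V) (hV : V ≤ C₄ * n ^ (8 + ε')) :
    V * n ^ (ε' - 8 * ν) ≤ C₄ * V ^ (1 - ν + ε) := by
  have hn0 : 0 < n := by linarith
  have hV0 : 0 < V := by linarith
  have hV1 : 1 ≤ V := by linarith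
  have e3 : V ^ ν ≤ C₄ * n ^ (8 * ν + ε') := by
    calc V ^ ν ≤ (C₄ * n ^ (8 + ε')) ^ ν := Real.rpow_le_rpow hV0.le hV hν
      _ = C₄ ^ ν * (n ^ (8 + ε')) ^ ν := Real.mul_rpow (by linarith) (by positivity)
      _ ≤ C₄ * n ^ (8 * ν + ε') := by
          apply mul_le_mul _ _ (by positivity) (by linarith)
          · calc C₄ ^ ν ≤ C₄ ^ (1 : ℝ) := Real.rpow_le_rpow_of_exponent_le hC₄ hν1
              _ = C₄ := Real.rpow_one _
          · rw [← Real.rpow_mul hn0.le]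
            apply Real.rpow_le_rpow_of_exponent_le hn
            nlinarith
  have e4 : n ^ (-(8 * ν)) ≤ C₄ * n ^ ε' * V ^ (-ν) := by
    have h1 : V ^ ν * V ^ (-ν) = 1 := by
      rw [← Real.rpow_add hV0, add_neg_cancel, Real.rpow_zero]
    have h2 : n ^ (-(8 * ν)) * n ^ (8 * ν + ε') = n ^ ε' := by
      rw [← Real.rpow_add hn0]
      congr 1
      ring
    have h3 : 0 < n ^ (-(8 * ν)) := by positivity
    have h4 : 0 < V ^ (-ν) := by positivity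
    calc n ^ (-(8 * ν)) = n ^ (-(8 * ν)) * (V ^ ν * V ^ (-ν)) := by rw [h1, mul_one]
      _ ≤ n ^ (-(8 * ν)) * ((C₄ * n ^ (8 * ν + ε')) * V ^ (-ν)) := by
          apply mul_le_mul_of_nonneg_left _ h3.le
          exact mul_le_mul_of_nonneg_right e3 h4.le
      _ = C₄ * (n ^ (-(8 * ν)) * n ^ (8 * ν + ε')) * V ^ (-ν) := by ring
      _ = C₄ * n ^ ε' * V ^ (-ν) := by rw [h2]
  have e5 : n ^ ε' * n ^ ε' ≤ V ^ ε := by
    rw [← Real.rpow_add hn0]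
    calc n ^ (ε' + ε') ≤ V ^ (ε' + ε') := Real.rpow_le_rpow hn0.le hnV (by positivity)
      _ ≤ V ^ ε := Real.rpow_le_rpow_of_exponent_le hV1 (by linarith)
  have e6 : V * V ^ (-ν) * V ^ ε = V ^ (1 - ν + ε) := by
    have h1 : V * V ^ (-ν) = V ^ (1 - ν) := by
      conv_lhs => rw [← Real.rpow_one V]
      rw [← Real.rpow_mul hV0.le, one_mul, ← Real.rpow_add hV0]
      rfl
    rw [h1, ← Real.rpow_add hV0]
  have e7 : n ^ (ε' - 8 * ν) = n ^ ε' * n ^ (-(8 * ν)) := by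
    rw [← Real.rpow_add hn0]
    congr 1
  have hC0 : 0 < C₄ := by linarith
  calc V * n ^ (ε' - 8 * ν) = V * n ^ ε' * n ^ (-(8 * ν)) := by rw [e7]; ring
    _ ≤ V * n ^ ε' * (C₄ * n ^ ε' * V ^ (-ν)) := mul_le_mul_of_nonneg_left e4 (by positivity)
    _ = C₄ * V * V ^ (-ν) * (n ^ ε' * n ^ ε') := by ring
    _ ≤ C₄ * V * V ^ (-ν) * V ^ ε := mul_le_mul_of_nonneg_left e5 (by positivity)
    _ = C₄ * (V * V ^ (-ν) * V ^ ε) := by ring
    _ = _ := by rw [e6]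

theorem F5_gd {D : MC q} {G : Subgroup (Gam q)} {f : ℂ × ℂ → ℂ} {l : ℝ} (h : Good D G f l) :
    Gd (RDof D).toWD G f l :=
  ⟨h.smooth, h.inv, h.eig, h.L2⟩

theorem F5_good {D : MC q} {G : Subgroup (Gam q)} {f : ℂ × ℂ → ℂ} {l : ℝ}
    (h : Gd (RDof D).toWD G f l) : Good D G f l :=
  ⟨h.smooth, h.inv, h.eig, h.L2⟩

/-- PROOF. Each `f i` is nonzero somewhere (`hli`), so `Good D G (f i) (lam i).re`, `0 ≤ (lam i).re`
(`Good_of_Eig`), which is `Gd (RDof D).toWD G (f i) (lam i).re` (same weight), and `(θ i).im = 0` (`hecke_real`), `θ i` is real.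
`exists_onb_w` with `Good_orth`: coefficients `c`; `e i = ∑ k, c i k * f k` satisfies `Gd_sum`, `hecke_lin`,
`cuspD_lin` (`cuspD_of_cuspForm` for the `f k`), so `trunc` with `A' = A (1 + Lam)`. `density_R` for `RDof D`:
`m ≤ C A² (1 + Lam)^12 p⁴ V n^(ε' - 8ν)`. By `hindex`, `hlow`: `V^ν ≤ C' n^(8ν + ε')`, so
`n^(-8ν) ≤ C' n^ε' V^(-ν)`, and `n^(2ε') ≤ V^(2ε')` (`ε' = min (ε/2) 1`; compare `z3_num` in `H56D/Z3.lean`). -/
theorem density_inert (D : MC q)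
    (hindex : ∀ ε : ℝ, 0 < ε → ∃ C : ℝ, ∀ n : ℕ, 1 ≤ n →
      ((GamN q (n : ℂ)).index : ℝ) ≤ C * (n : ℝ) ^ (8 + ε))
    (hlow : ∀ n : ℕ, 1 ≤ n → n ≤ (GamN q (n : ℂ)).index) {ε : ℝ} (hε : 0 < ε) :
    ∃ C : ℝ, ∀ p n : ℕ, Inert (qd q) p → 1 ≤ n → Nat.Coprime n p → ∀ Lam : ℝ, 0 ≤ Lam →
    ∀ ν : ℝ, 0 ≤ ν → ν ≤ 1 → ∀ (m : ℕ) (f : Fin m → ℂ × ℂ → ℂ) (lam θ : Fin m → ℂ),
    (∀ i, Eig D (GamN q (n : ℂ)) (f i) (lam i)) → (∀ i, (lam i).re ≤ Lam) →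
    (∀ i, CuspForm q (f i)) → (∀ i, IsHecke q p n (f i) (θ i)) →
    (∀ i, (p : ℝ) ^ 2 * ((p : ℝ) ^ (2 * ν) + (p : ℝ) ^ (-(2 * ν))) ≤ ‖θ i - (p - 1)‖) →
    (∀ c : Fin m → ℂ, (∀ z ∈ U, ∑ i, c i * f i z = 0) → c = 0) →
    (m : ℝ) ≤ C * (1 + Lam) ^ 12 * (p : ℝ) ^ 4 *
      ((GamN q (n : ℂ)).index : ℝ) ^ (1 - ν + ε) := by
  have hε'0 : 0 < min (ε / 2) 1 := lt_min (by positivity) one_pos
  have hε'1 : min (ε / 2) 1 ≤ 1 := min_le_right _ _
  have hεε : 2 * min (ε / 2) 1 ≤ ε := by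
    have := min_le_left (ε / 2) (1 : ℝ)
    linarith
  obtain ⟨C₁, hC₁, hden⟩ := density_R (RDof D) hε'0 hε'1
  obtain ⟨A₀, hA₀, htrunc⟩ := trunc D
  obtain ⟨C₄, hC₄⟩ := hindex (min (ε / 2) 1) hε'0
  refine ⟨C₁ * A₀ ^ 2 * max 1 C₄, ?_⟩
  intro p n hp hn hnp Lam hLam ν hν hν1 m f lam θ hE hlam hcf hhe hbd hli
  have hC40 : (0 : ℝ) < max 1 C₄ := lt_of_lt_of_le one_pos (le_max_left _ _)
  have hn0 : (n : ℂ) ≠ 0 := by
    have : n ≠ 0 := by omega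
    exact_mod_cast this
  have hn1 : (1 : ℝ) ≤ n := by exact_mod_cast hn
  have hfin : (GamN q (n : ℂ)).FiniteIndex := GamN_finiteIndex (natCast_mem (OO q) n) hn0
  have hp0 : (0 : ℝ) < p := by exact_mod_cast hp.prime.pos
  rcases Nat.eq_zero_or_pos m with hm | hm
  · subst hm
    have h1 : (0 : ℝ) ≤ (1 + Lam) ^ 12 := by positivity
    rw [Nat.cast_zero]
    positivity
  have hne : ∀ i, ∃ z ∈ U, f i z ≠ 0 := by
    intro i
    by_contra hcon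
    push Not at hcon
    have h1 := hli (Pi.single i 1) (fun z hz => by
      rw [Finset.sum_eq_single i]
      · rw [hcon z hz, mul_zero]
      · intro j _ hj
        rw [Pi.single_eq_of_ne hj, zero_mul]
      · intro h
        exact absurd (Finset.mem_univ i) h)
    have h2 := congrFun h1 i
    rw [Pi.single_eq_same] at h2
    exact one_ne_zero h2
  have hGood : ∀ i, Good D (GamN q (n : ℂ)) (f i) (lam i).re ∧ 0 ≤ (lam i).re := fun i =>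
    H56M.Good_of_Eig (hE i) (hne i)
  have hGd : ∀ i, Gd (RDof D).toWD (GamN q (n : ℂ)) (f i) (lam i).re := fun i => F5_gd (hGood i).1
  have him : ∀ i, (θ i).im = 0 := fun i => hecke_real hp hn hnp (hGd i) (hhe i) (hne i)
  have hθ : ∀ i, θ i = (((θ i).re : ℝ) : ℂ) := by
    intro i
    apply Complex.ext
    · simp
    · simp [him i]
  have hhe' : ∀ i, IsHecke q p n (f i) (((θ i).re : ℝ) : ℂ) := fun i => by
    rw [← hθ i]
    exact hhe i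
  have hbd' : ∀ i, (p : ℝ) ^ 2 * ((p : ℝ) ^ (2 * ν) + (p : ℝ) ^ (-(2 * ν))) ≤
      |(θ i).re - (p - 1)| := by
    intro i
    refine (hbd i).trans (le_of_eq ?_)
    rw [hθ i]
    have h1 : ((((θ i).re : ℝ) : ℂ) - ((p : ℂ) - 1)) = (((θ i).re - ((p : ℝ) - 1) : ℝ) : ℂ) := by
      push_cast
      ring
    rw [h1, Complex.norm_real, Real.norm_eq_abs]
    simp
  obtain ⟨c, hc, hon⟩ := exists_onb_w (W := (RDof D).toWD) hp hn hnp hGd hhe' hli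
    (fun i j hij => H56M.Good_orth (hGood i).1 (hGood j).1 hij)
  have hGde : ∀ i, Gd (RDof D).toWD (GamN q (n : ℂ)) (fun z => ∑ k, c i k * f k z)
      (lam i).re := by
    intro i
    apply Gd_sum
    intro k hk
    rw [← (hc i k hk).1]
    exact hGd k
  have hhee : ∀ i, IsHecke q p n (fun z => ∑ k, c i k * f k z) (((θ i).re : ℝ) : ℂ) := by
    intro i
    apply hecke_lin hp hn hnp (fun k => (hE k).inv)
    intro k hk
    rw [← (hc i k hk).2]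
    exact hhe' k
  have hce : ∀ i, CuspD D n hn (fun z => ∑ k, c i k * f k z) := by
    intro i
    apply cuspD_lin D hn (fun k => (hE k).smooth)
    intro k
    exact cuspD_of_cuspForm D hn (hE k).inv (hcf k)
  have hA1 : 1 ≤ A₀ * (1 + Lam) := by nlinarith
  have hfinal := hden p n hp hn hnp Lam hLam (A₀ * (1 + Lam)) hA1 ν hν hν1 m
    (fun i z => ∑ k, c i k * f k z) (fun i => (lam i).re) (fun i => (θ i).re) hGde
    (fun i => ⟨(hGood i).2, hlam i⟩) hhee hbd' hon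
    (fun i => htrunc Lam hLam n hn _ _ (F5_good (hGde i)) (hGood i).2 (hlam i) (hce i))
  have hV1 : (n : ℝ) ≤ ((GamN q (n : ℂ)).index : ℝ) := by exact_mod_cast hlow n hn
  have hV2 : ((GamN q (n : ℂ)).index : ℝ) ≤ max 1 C₄ * (n : ℝ) ^ (8 + min (ε / 2) 1) := by
    refine (hC₄ n hn).trans ?_
    exact mul_le_mul_of_nonneg_right (le_max_right _ _) (by positivity)
  have hnum := F5_num (le_max_left 1 C₄) hε'0 hεε hν hν1 hn1 hV1 hV2
  calc (m : ℝ) ≤ C₁ * (A₀ * (1 + Lam)) ^ 2 * (1 + Lam) ^ 10 * (p : ℝ) ^ 4 *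
        ((GamN q (n : ℂ)).index : ℝ) * (n : ℝ) ^ (min (ε / 2) 1 - 8 * ν) := hfinal
    _ = C₁ * A₀ ^ 2 * (1 + Lam) ^ 12 * (p : ℝ) ^ 4 *
        (((GamN q (n : ℂ)).index : ℝ) * (n : ℝ) ^ (min (ε / 2) 1 - 8 * ν)) := by ring
    _ ≤ C₁ * A₀ ^ 2 * (1 + Lam) ^ 12 * (p : ℝ) ^ 4 *
        (max 1 C₄ * ((GamN q (n : ℂ)).index : ℝ) ^ (1 - ν + ε)) :=
        mul_le_mul_of_nonneg_left hnum (by positivity)
    _ = _ := by ring

end

end Pool.Agent.Lib.H80D
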