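import Pool.Agent.Lib.H80D.TD

/-!
# T1: arithmetic modulo `p` and `p ^ 2`
-/

namespace Pool.Agent.Lib.H80D

open Matrix
open Pool.Agent.Lib.H80C

variable {q : QF}

/-- PROOF. `p` does not divide the integer `nm z` (`Inert.inert`), so there is an integer `m` with
`m nm z ≡ 1` modulo `p ^ k`; `w = m star z` (`nm_eq`). -/
theorem inv_mod {p : ℕ} (hp : Inert q p) {z : OK q} (hz : ¬(p : OK q) ∣ z) (k : ℕ) :
    ∃ w : OK q, ((p ^ k : ℕ) : OK q) ∣ w * z - 1 := by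
  have h1 : ¬(p : ℤ) ∣ nm z := fun h => hz (hp.inert z h)
  have hpz : Prime (p : ℤ) := Nat.prime_iff_prime_int.1 hp.prime
  have h2 : IsCoprime (nm z) ((p : ℤ) ^ k) :=
    (((Prime.coprime_iff_not_dvd hpz).2 h1).symm).pow_right
  obtain ⟨a, b, hab⟩ := h2
  refine ⟨(a : OK q) * star z, ⟨(-b : ℤ), ?_⟩⟩
  have h3 : ((a * nm z + b * (p : ℤ) ^ k : ℤ) : OK q) = ((1 : ℤ) : OK q) := by rw [hab]
  push_cast at h3
  rw [nm_eq] at h3
  push_cast
  linear_combination h3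

/-- PROOF. `dl * star dl = dd` (`dl_mul`), `nm (dl q) = dd q`: if `p` divides `dd q` then `p` divides `dl`
(`Inert.inert`), whose coordinates are `-t` and `2`, so `p = 2` and `t` is even. -/
theorem not_dvd_dd {p : ℕ} (hp : Inert q p) : ¬(p : ℤ) ∣ dd q := by
  intro h
  have h1 : nm (dl q) = dd q := by
    have h2 : ((nm (dl q) : ℤ) : OK q) = ((dd q : ℤ) : OK q) := by rw [nm_eq, dl_mul]
    exact_mod_cast h2
  rw [← h1] at h
  obtain ⟨y, hy⟩ := hp.inert _ h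
  have h3 := congrArg QuadraticAlgebra.im hy
  have h4 : (2 : ℤ) = p * y.im := by
    simpa [dl] using h3
  have h5 : (p : ℤ) ∣ 2 := ⟨_, h4⟩
  have h6 : p ∣ 2 := by exact_mod_cast h5
  have h7 : p = 2 := (Nat.prime_dvd_prime_iff_eq hp.prime Nat.prime_two).1 h6
  obtain ⟨k, hk⟩ := hp.t_odd h7
  have h8 := congrArg QuadraticAlgebra.re hy
  have h9 : -q.t = p * y.re := by
    simpa [dl] using h8
  rw [h7] at h9
  push_cast at h9
  omega

theorem not_dvd_dl {p : ℕ} (hp : Inert q p) : ¬(p : OK q) ∣ dl q := by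
  intro h
  apply not_dvd_dd hp
  rw [← dvd_int (q := q), ← dl_mul]
  exact h.mul_right _

theorem imag_odd {p : ℕ} (hp : Inert q p) (h2' : p ≠ 2) {k : ℕ} {z : OK q}
    (h : ((p ^ k : ℕ) : OK q) ∣ z + star z) :
    ∃ x : ℕ, x < p ^ k ∧ ((p ^ k : ℕ) : OK q) ∣ z - (x : OK q) * dl q := by
  obtain ⟨y, hy⟩ := h
  have hpos : (0 : ℤ) < ((p ^ k : ℕ) : ℤ) := by
    have := pow_pos hp.pos k
    exact_mod_cast this
  -- an integral inverse of two
  obtain ⟨u, v, huv⟩ : IsCoprime (2 : ℤ) ((p : ℤ) ^ k) := by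
    have h1 : ¬(p : ℤ) ∣ 2 := by
      intro h2
      have h6 : p ∣ 2 := by exact_mod_cast h2
      exact h2' ((Nat.prime_dvd_prime_iff_eq hp.prime Nat.prime_two).1 h6)
    exact (((Prime.coprime_iff_not_dvd (Nat.prime_iff_prime_int.1 hp.prime)).2 h1).symm).pow_right
  have hsub : z - star z = ((z.im : ℤ) : OK q) * dl q := by
    apply QuadraticAlgebra.ext
    · simp [dl]
      ring
    · simp [dl]
      ring
  have huv' : ((u * 2 + v * (p : ℤ) ^ k : ℤ) : OK q) = ((1 : ℤ) : OK q) := by rw [huv]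
  push_cast at huv'
  have hx0 : 0 ≤ (u * z.im) % ((p ^ k : ℕ) : ℤ) := Int.emod_nonneg _ hpos.ne'
  have hx1 : (u * z.im) % ((p ^ k : ℕ) : ℤ) < ((p ^ k : ℕ) : ℤ) := Int.emod_lt_of_pos _ hpos
  have hx2 := Int.emod_add_mul_ediv (u * z.im) ((p ^ k : ℕ) : ℤ)
  obtain ⟨x, hx⟩ := Int.eq_ofNat_of_zero_le hx0
  rw [hx] at hx1 hx2
  refine ⟨x, by exact_mod_cast hx1, ?_⟩
  have hx3 : (((x : ℤ) + ((p ^ k : ℕ) : ℤ) * (u * z.im / ((p ^ k : ℕ) : ℤ)) : ℤ) : OK q) =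
      ((u * z.im : ℤ) : OK q) := by rw [hx2]
  push_cast at hx3 hy
  refine ⟨(v : OK q) * z + (u : OK q) * y +
    ((u * z.im / ((p ^ k : ℕ) : ℤ) : ℤ) : OK q) * dl q, ?_⟩
  push_cast
  linear_combination (-z) * huv' + (u : OK q) * hy + (u : OK q) * hsub - dl q * hx3

/-- PROOF. `p = 2`: with `u t ≡ 1` modulo `2 ^ k` take `x ≡ -u z.re`. -/
theorem imag_two {p : ℕ} (hp : Inert q p) (h2' : p = 2) {k : ℕ} {z : OK q}
    (h : ((p ^ k : ℕ) : OK q) ∣ z + star z) :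
    ∃ x : ℕ, x < p ^ k ∧ ((p ^ k : ℕ) : OK q) ∣ z - (x : OK q) * dl q := by
  have hpos : (0 : ℤ) < ((p ^ k : ℕ) : ℤ) := by
    have := pow_pos hp.pos k
    exact_mod_cast this
  have e0 : z + star z = ((2 * z.re + q.t * z.im : ℤ) : OK q) := by
    apply QuadraticAlgebra.ext
    · simp only [QuadraticAlgebra.re_add, QuadraticAlgebra.re_star, QuadraticAlgebra.re_intCast,
        Int.cast_id]
      ring
    · simp only [QuadraticAlgebra.im_add, QuadraticAlgebra.im_star, QuadraticAlgebra.im_intCast]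
      ring
  rw [e0, dvd_int] at h
  obtain ⟨y, hy⟩ := h
  obtain ⟨u, v, huv⟩ : IsCoprime (q.t : ℤ) (((p ^ k : ℕ) : ℤ)) := by
    obtain ⟨m, hm⟩ := hp.t_odd h2'
    have h1 : IsCoprime q.t (2 : ℤ) := ⟨1, -m, by rw [hm]; ring⟩
    have h3 := h1.pow_right (n := k)
    rw [h2']
    push_cast
    exact h3
  have hx0 : 0 ≤ (-(u * z.re)) % ((p ^ k : ℕ) : ℤ) := Int.emod_nonneg _ hpos.ne'
  have hx1 : (-(u * z.re)) % ((p ^ k : ℕ) : ℤ) < ((p ^ k : ℕ) : ℤ) := Int.emod_lt_of_pos _ hpos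
  have hx2 := Int.emod_add_mul_ediv (-(u * z.re)) ((p ^ k : ℕ) : ℤ)
  obtain ⟨x, hx⟩ := Int.eq_ofNat_of_zero_le hx0
  rw [hx] at hx1 hx2
  refine ⟨x, by exact_mod_cast hx1, ?_⟩
  set P : ℤ := ((p ^ k : ℕ) : ℤ) with hP
  set e : ℤ := (-(u * z.re)) / P with he
  refine ⟨⟨v * z.re - q.t * e, v * z.im + u * y + 2 * e⟩, ?_⟩
  have hc : ((p ^ k : ℕ) : OK q) = ((P : ℤ) : OK q) := by
    rw [hP]
    push_cast
    rfl
  rw [hc]
  apply QuadraticAlgebra.ext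
  · simp only [QuadraticAlgebra.re_sub, QuadraticAlgebra.re_mul, QuadraticAlgebra.re_intCast,
      QuadraticAlgebra.im_intCast, QuadraticAlgebra.re_natCast, QuadraticAlgebra.im_natCast, dl,
      Int.cast_id]
    linear_combination (-z.re) * huv + q.t * hx2
  · simp only [QuadraticAlgebra.im_sub, QuadraticAlgebra.im_mul, QuadraticAlgebra.re_intCast,
      QuadraticAlgebra.im_intCast, QuadraticAlgebra.re_natCast, QuadraticAlgebra.im_natCast, dl,
      Int.cast_id]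
    linear_combination (-z.im) * huv + u * hy - 2 * hx2

theorem imag {p : ℕ} (hp : Inert q p) {k : ℕ} {z : OK q} (h : ((p ^ k : ℕ) : OK q) ∣ z + star z) :
    ∃ x : ℕ, x < p ^ k ∧ ((p ^ k : ℕ) : OK q) ∣ z - (x : OK q) * dl q := by
  by_cases h2' : p = 2
  · exact imag_two hp h2' h
  · exact imag_odd hp h2' h

/-- PROOF. `a` and `dl` are invertible modulo `p ^ k` (`inv_mod`), so `p ^ k` divides `t` in the order;
`dvd_int`. -/
theorem dl_dvd {p : ℕ} (hp : Inert q p) {k : ℕ} {t : ℤ} {a : OK q} (ha : ¬(p : OK q) ∣ a)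
    (h : ((p ^ k : ℕ) : OK q) ∣ (t : OK q) * dl q * a) : ((p ^ k : ℕ) : ℤ) ∣ t := by
  rw [← dvd_int (q := q)]
  have h0 : ¬(p : OK q) ∣ dl q * a := fun h1 => by
    rcases hp.dvd_mul h1 with h2 | h2
    · exact not_dvd_dl hp h2
    · exact ha h2
  obtain ⟨w, e, he⟩ := inv_mod hp h0 k
  obtain ⟨y, hy⟩ := h
  refine ⟨w * y - e * t, ?_⟩
  linear_combination w * hy - (t : OK q) * he

end Pool.Agent.Lib.H80D
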