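import Pool.Agent.Lib.H80D.T1

/-!
# T2: the matrices `A` modulo `p` have rank one
-/

namespace Pool.Agent.Lib.H80D

open Matrix
open Pool.Agent.Lib.H80C

variable {q : QF}

lemma T2_star_dvd {p : ℕ} {z : OK q} (h : (p : OK q) ∣ star z) : (p : OK q) ∣ z := by
  obtain ⟨y, hy⟩ := h
  refine ⟨star y, ?_⟩
  have := congrArg star hy
  rw [star_star] at this
  rw [this, star_mul', star_natCast]

lemma T2_self {p : ℕ} (hp : Inert q p) {z : OK q} (h : (p : OK q) ∣ z * star z) :
    (p : OK q) ∣ z := by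
  rcases hp.dvd_mul h with h1 | h1
  · exact h1
  · exact T2_star_dvd h1

lemma T2_dvd_star {p : ℕ} {z : OK q} (h : (p : OK q) ∣ z) : (p : OK q) ∣ star z :=
  T2_star_dvd (by rwa [star_star])

/-- The congruence facts for `w = v - μ u`. -/
lemma T2_sub {p : ℕ} {u v : Fin 3 → OK q} (μ : OK q)
    (h1 : (p : OK q) ∣ fr u u) (h2 : (p : OK q) ∣ fr v u) (h3 : (p : OK q) ∣ fr v v) :
    (p : OK q) ∣ fr (v - μ • u) u ∧ (p : OK q) ∣ fr (v - μ • u) (v - μ • u) := by
  have h4 : fr (v - μ • u) u = fr v u - μ * fr u u := by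
    simp only [fr, Pi.sub_apply, Pi.smul_apply, smul_eq_mul]
    ring
  have h5 : fr (v - μ • u) (v - μ • u) = fr v v - star μ * fr v u - μ * star (fr v u) +
      μ * star μ * fr u u := by
    simp only [fr, Pi.sub_apply, Pi.smul_apply, smul_eq_mul, star_sub, star_mul', star_add,
      star_star]
    ring
  refine ⟨?_, ?_⟩
  · rw [h4]
    exact dvd_sub h2 (h1.mul_left _)
  · rw [h5]
    exact dvd_add (dvd_sub (dvd_sub h3 (h2.mul_left _)) ((T2_dvd_star h2).mul_left _))
      (h1.mul_left _)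

/-- An isotropic vector modulo `p` orthogonal to an isotropic vector is proportional to it.

PROOF. Case `p ∤ u 0`: choose `μ` with `μ u 0 ≡ v 0` modulo `p` (`inv_mod`), `w = v - μ u`. Then `w 0 ≡ 0`,
`fr w w ≡ 0`, which is `w 1 star (w 1)` modulo `p`; so `p ∣ w 1` (`Inert.dvd_mul`; if `p ∣ star z` then
`p ∣ z`); `fr w u ≡ w 2 star (u 0) ≡ 0`, so `p ∣ w 2`. Case `p ∣ u 0`: `fr u u ≡ u 1 star (u 1)`, so `p ∣ u 1`,
and `p ∤ u 2`; choose `μ` with `μ u 2 ≡ v 2`, `w = v - μ u`: `w 2 ≡ 0`, `fr w w ≡ w 1 star (w 1)`, so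
`p ∣ w 1`; `fr w u ≡ w 0 star (u 2)`, so `p ∣ w 0`. -/
theorem iso {p : ℕ} (hp : Inert q p) {u v : Fin 3 → OK q} (hu : ¬DvV p u)
    (h1 : (p : OK q) ∣ fr u u) (h2 : (p : OK q) ∣ fr v u) (h3 : (p : OK q) ∣ fr v v) :
    ∃ μ : OK q, DvV p (v - μ • u) := by
  by_cases hu0 : (p : OK q) ∣ u 0
  · have hu1 : (p : OK q) ∣ u 1 := by
      apply T2_self hp
      have h4 : u 1 * star (u 1) = fr u u - u 0 * star (u 2) - u 2 * star (u 0) := by
        simp only [fr]
        ring
      rw [h4]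
      exact dvd_sub (dvd_sub h1 (hu0.mul_right _)) ((T2_dvd_star hu0).mul_left _)
    have hu2 : ¬(p : OK q) ∣ u 2 := by
      intro h
      apply hu
      intro k
      fin_cases k
      · exact hu0
      · exact hu1
      · exact h
    obtain ⟨m, hm⟩ := inv_mod hp hu2 1
    rw [pow_one] at hm
    refine ⟨v 2 * m, ?_⟩
    obtain ⟨h4, h5⟩ := T2_sub (v 2 * m) h1 h2 h3
    set w := v - (v 2 * m) • u with hw
    have hw2 : (p : OK q) ∣ w 2 := by
      have : w 2 = -(v 2 * (m * u 2 - 1)) := by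
        simp only [hw, Pi.sub_apply, Pi.smul_apply, smul_eq_mul]
        ring
      rw [this]
      exact (hm.mul_left _).neg_right
    have hw1 : (p : OK q) ∣ w 1 := by
      apply T2_self hp
      have h4 : w 1 * star (w 1) = fr w w - w 0 * star (w 2) - w 2 * star (w 0) := by
        simp only [fr]
        ring
      rw [h4]
      exact dvd_sub (dvd_sub h5 ((T2_dvd_star hw2).mul_left _)) (hw2.mul_right _)
    have hw0 : (p : OK q) ∣ w 0 := by
      have h6 : (p : OK q) ∣ w 0 * star (u 2) := by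
        have h7 : w 0 * star (u 2) = fr w u - w 1 * star (u 1) - w 2 * star (u 0) := by
          simp only [fr]
          ring
        rw [h7]
        exact dvd_sub (dvd_sub h4 (hw1.mul_right _)) (hw2.mul_right _)
      rcases hp.dvd_mul h6 with h | h
      · exact h
      · exact absurd (T2_star_dvd h) hu2
    intro k
    fin_cases k
    · exact hw0
    · exact hw1
    · exact hw2
  · obtain ⟨m, hm⟩ := inv_mod hp hu0 1
    rw [pow_one] at hm
    refine ⟨v 0 * m, ?_⟩
    obtain ⟨h4, h5⟩ := T2_sub (v 0 * m) h1 h2 h3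
    set w := v - (v 0 * m) • u with hw
    have hw0 : (p : OK q) ∣ w 0 := by
      have : w 0 = -(v 0 * (m * u 0 - 1)) := by
        simp only [hw, Pi.sub_apply, Pi.smul_apply, smul_eq_mul]
        ring
      rw [this]
      exact (hm.mul_left _).neg_right
    have hw1 : (p : OK q) ∣ w 1 := by
      apply T2_self hp
      have h4 : w 1 * star (w 1) = fr w w - w 0 * star (w 2) - w 2 * star (w 0) := by
        simp only [fr]
        ring
      rw [h4]
      exact dvd_sub (dvd_sub h5 (hw0.mul_right _)) ((T2_dvd_star hw0).mul_left _)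
    have hw2 : (p : OK q) ∣ w 2 := by
      have h6 : (p : OK q) ∣ w 2 * star (u 0) := by
        have h7 : w 2 * star (u 0) = fr w u - w 0 * star (u 2) - w 1 * star (u 1) := by
          simp only [fr]
          ring
        rw [h7]
        exact dvd_sub (dvd_sub h4 (hw0.mul_right _)) (hw1.mul_right _)
      rcases hp.dvd_mul h6 with h | h
      · exact h
      · exact absurd (T2_star_dvd h) hu0
    intro k
    fin_cases k
    · exact hw0
    · exact hw1
    · exact hw2

/-- `x` is a primitive column of `A`, and all columns are multiples of `x` modulo `p`. -/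
structure Col (p : ℕ) (A : M3 q) (x : Fin 3 → OK q) : Prop where
  prim : ¬DvV p x
  iso : (p : OK q) ∣ fr x x
  mem : ∃ k, ∀ i, A i k = x i
  mul : ∀ k, ∃ μ : OK q, ∀ i, (p : OK q) ∣ A i k - μ * x i

/-- Entries of `Aᴴ J A`. -/
lemma T2_entry (A : M3 q) (k l : Fin 3) :
    (Aᴴ * JZ q * A) k l = fr (fun i => A i l) (fun i => A i k) := by
  simp only [Matrix.mul_apply, Fin.sum_univ_three, Matrix.conjTranspose_apply, JZ, fr]
  simp
  ring

/-- PROOF. Entries of `Aᴴ J A = p ^ (2 j) J`: `fr` of two columns is divisible by `p` (`j ≥ 1`). Take a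
column `x` with an entry not divisible by `p`; `iso`. -/
theorem exists_col {p j : ℕ} (hp : Inert q p) (hj : 1 ≤ j) {A : M3 q} (hA : GE p j A)
    (hA' : ¬DvM p A) : ∃ x, Col p A x := by
  have hfr : ∀ k l, (p : OK q) ∣ fr (fun i => A i l) (fun i => A i k) := by
    intro k l
    rw [← T2_entry, hA.1, Matrix.smul_apply, smul_eq_mul]
    exact (dvd_pow_self _ (by omega)).mul_right _
  simp only [DvM, not_forall] at hA'
  obtain ⟨i, k, hik⟩ := hA'
  refine ⟨fun i => A i k, fun h => hik (h i), hfr k k, ⟨k, fun _ => rfl⟩, fun l => ?_⟩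
  obtain ⟨μ, hμ⟩ := iso hp (u := fun i => A i k) (v := fun i => A i l) (fun h => hik (h i))
    (hfr k k) (hfr k l) (hfr l l)
  exact ⟨μ, fun i => by simpa using hμ i⟩

/-- PROOF. The entries of `r ᵥ* A` are `r ⬝ᵥ column k`, multiples of `r ⬝ᵥ x` modulo `p`, and one of them is
`r ⬝ᵥ x`. -/
theorem col_dvd {p : ℕ} {A : M3 q} {x : Fin 3 → OK q} (h : Col p A x) (r : Fin 3 → OK q) :
    DvV p (r ᵥ* A) ↔ (p : OK q) ∣ r ⬝ᵥ x := by
  constructor
  · intro h1
    obtain ⟨k, hk⟩ := h.mem
    have h2 : (r ᵥ* A) k = r ⬝ᵥ x := by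
      simp only [Matrix.vecMul, dotProduct, hk]
    rw [← h2]
    exact h1 k
  · intro h1 k
    obtain ⟨μ, hμ⟩ := h.mul k
    have h2 : (r ᵥ* A) k = (∑ i, r i * (A i k - μ * x i)) + μ * (r ⬝ᵥ x) := by
      simp only [Matrix.vecMul, dotProduct, Finset.mul_sum, ← Finset.sum_add_distrib]
      exact Finset.sum_congr rfl fun i _ => by ring
    rw [h2]
    exact dvd_add (Finset.dvd_sum fun i _ => (hμ i).mul_left _) (h1.mul_left _)

/-- PROOF. Let `A† = J Aᴴ J`: `A† A = p ^ (2 j)`, and `A† J A†ᴴ = p ^ (2 j) J` (since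
`A A† = p ^ (2 j)` too: `A` has a nonzero determinant; or from `A J Aᴴ = p ^ (2 j) J`). The entries of `A†` are
the conjugates of those of `A`, so some row `r` of `A†` is not divisible by `p`; `r ᵥ* A` is a row of
`p ^ (2 j)`, and `fr r r` is a diagonal entry of `p ^ (2 j) J`. -/
theorem exists_row {p j : ℕ} (hp : Inert q p) (hj : 1 ≤ j) {A : M3 q} (hA : GE p j A)
    (hA' : ¬DvM p A) : ∃ r : Fin 3 → OK q, ¬DvV p r ∧ ((p ^ 2 : ℕ) : OK q) ∣ fr r r ∧
      DvV (p ^ 2) (r ᵥ* A) := by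
  have hp0 : (p : OK q) ≠ 0 := by
    have := hp.pos.ne'
    exact_mod_cast this
  have hJJ : JZ q * JZ q = 1 := by
    apply Matrix.ext
    intro i k
    fin_cases i <;> fin_cases k <;> simp [JZ, Matrix.mul_apply, Fin.sum_univ_three]
  have hJH : (JZ q)ᴴ = JZ q := by
    apply Matrix.ext
    intro i k
    fin_cases i <;> fin_cases k <;> simp [JZ, Matrix.conjTranspose_apply]
  set B : M3 q := JZ q * Aᴴ * JZ q with hB
  have hBA : B * A = ((p : OK q) ^ (2 * j)) • 1 := by
    rw [hB, Matrix.mul_assoc, Matrix.mul_assoc, ← Matrix.mul_assoc Aᴴ, hA.1, Matrix.mul_smul, hJJ]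
  have hAB : A * B = ((p : OK q) ^ (2 * j)) • 1 := by
    have hdet : A.det ≠ 0 := by
      rw [hA.2]
      exact pow_ne_zero _ hp0
    have h1 : A * (B * A) = (((p : OK q) ^ (2 * j)) • 1) * A := by
      rw [hBA, Matrix.mul_smul, Matrix.smul_mul, Matrix.mul_one, Matrix.one_mul]
    rw [← Matrix.mul_assoc] at h1
    have h2 : (A * B) * (A * A.adjugate) = (((p : OK q) ^ (2 * j)) • 1) * (A * A.adjugate) := by
      rw [← Matrix.mul_assoc, h1, Matrix.mul_assoc]
    rw [Matrix.mul_adjugate, Matrix.mul_smul, Matrix.mul_smul, Matrix.mul_one,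
      Matrix.mul_one] at h2
    exact smul_right_injective _ hdet h2
  have hBJB : B * JZ q * Bᴴ = ((p : OK q) ^ (2 * j)) • JZ q := by
    have h1 : Bᴴ = JZ q * A * JZ q := by
      rw [hB, Matrix.conjTranspose_mul, Matrix.conjTranspose_mul, hJH,
        Matrix.conjTranspose_conjTranspose, Matrix.mul_assoc]
    calc B * JZ q * Bᴴ = B * (JZ q * JZ q) * A * JZ q := by
          rw [h1]
          simp only [Matrix.mul_assoc]
      _ = _ := by rw [hJJ, Matrix.mul_one, hBA, Matrix.smul_mul, Matrix.one_mul]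
  have hent : ∀ i k, (B * JZ q * Bᴴ) i k = fr (B i) (B k) := by
    intro i k
    simp only [Matrix.mul_apply, Fin.sum_univ_three, Matrix.conjTranspose_apply, JZ, fr]
    simp
    ring
  have hBn : ¬DvM p B := by
    intro h
    apply hA'
    have h1 : A = JZ q * Bᴴ * JZ q := by
      rw [hB, Matrix.conjTranspose_mul, Matrix.conjTranspose_mul, hJH,
        Matrix.conjTranspose_conjTranspose]
      calc A = (JZ q * JZ q) * A * (JZ q * JZ q) := by rw [hJJ, Matrix.one_mul, Matrix.mul_one]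
        _ = _ := by simp only [Matrix.mul_assoc]
    intro i k
    rw [h1, Matrix.mul_apply]
    refine Finset.dvd_sum fun l _ => Dvd.dvd.mul_right ?_ _
    rw [Matrix.mul_apply]
    refine Finset.dvd_sum fun m _ => Dvd.dvd.mul_left ?_ _
    rw [Matrix.conjTranspose_apply]
    exact T2_dvd_star (h _ _)
  simp only [DvM, not_forall] at hBn
  obtain ⟨i, k, hik⟩ := hBn
  refine ⟨B i, fun h => hik (h k), ?_, ?_⟩
  · rw [← hent, hBJB, Matrix.smul_apply, smul_eq_mul]
    push_cast
    exact (pow_dvd_pow _ (by omega)).mul_right _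
  · intro l
    have h1 : (B i ᵥ* A) l = (B * A) i l := rfl
    rw [h1, hBA, Matrix.smul_apply, smul_eq_mul]
    push_cast
    exact (pow_dvd_pow _ (by omega)).mul_right _

/-- For `j = 0` the matrix is invertible. PROOF. `det A = 1`, so `r = (r ᵥ* A) ᵥ* adjugate A`. -/
theorem zero_dvd {p : ℕ} {A : M3 q} (hA : GE p 0 A) {r : Fin 3 → OK q} (h : DvV p (r ᵥ* A)) :
    DvV p r := by
  have hdet : A.det = 1 := by
    rw [hA.2]
    simp
  have h1 : r = (r ᵥ* A) ᵥ* A.adjugate := by
    rw [Matrix.vecMul_vecMul, Matrix.mul_adjugate, hdet, one_smul, Matrix.vecMul_one]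
  intro k
  rw [h1]
  rw [Matrix.vecMul, dotProduct]
  exact Finset.dvd_sum fun i _ => (h i).mul_right _

end Pool.Agent.Lib.H80D
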