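import Pool.Agent.Lib.H80D.T2

/-!
# T3: the rows killed modulo `p`
-/

namespace Pool.Agent.Lib.H80D

open Matrix
open Pool.Agent.Lib.H80C

variable {q : QF}

theorem T3_one {p : ℕ} (hp : Inert q p) : ¬(p : OK q) ∣ 1 := by
  intro h
  have h1 : (p : OK q) ∣ ((1 : ℤ) : OK q) := by
    rw [Int.cast_one]
    exact h
  rw [dvd_int] at h1
  have h2 : p ∣ 1 := by exact_mod_cast h1
  exact hp.prime.one_lt.ne' (Nat.dvd_one.1 h2)

theorem T3_star {m : ℕ} {z : OK q} (h : (m : OK q) ∣ star z) : (m : OK q) ∣ z := by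
  obtain ⟨y, hy⟩ := h
  refine ⟨star y, ?_⟩
  have h1 := congrArg star hy
  rw [star_star, star_mul', star_natCast] at h1
  exact h1

theorem T3_star' {m : ℕ} {z : OK q} (h : (m : OK q) ∣ z) : (m : OK q) ∣ star z := by
  apply T3_star
  rw [star_star]
  exact h

theorem rw3_prim {p : ℕ} (hp : Inert q p) (i : Ix p) : ¬DvV p (rw3 q p i) := by
  intro h
  apply T3_one hp
  rcases i with ⟨a, b, x⟩ | x
  · exact h 2
  · exact h 0

/-- PROOF. First case: `fr r r = r 0 + star (r 0) + r 1 star (r 1) = (1 - 2 h2) nm l` (`star_dl`, `nm_eq`,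
`two_h2`). Second case: `fr r r = star (p x dl) + p x dl = 0`. -/
theorem rw3_iso {p : ℕ} (hp : Inert q p) (i : Ix p) :
    ((p ^ 2 : ℕ) : OK q) ∣ fr (rw3 q p i) (rw3 q p i) := by
  obtain ⟨c, hh⟩ := et_tr hp
  rcases i with ⟨a, b, x⟩ | x
  · obtain ⟨l, hl⟩ : ∃ l : OK q, l = ⟨(a : ℕ), (b : ℕ)⟩ := ⟨_, rfl⟩
    have e0 : rw3 q p (Sum.inl (a, b, x)) 0 = -(et q p * ((nm l : ℤ) : OK q)) +
      ((x : ℕ) : OK q) * dl q := by rw [hl]; rfl
    have e1 : rw3 q p (Sum.inl (a, b, x)) 1 = l := by rw [hl]; rfl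
    have e2 : rw3 q p (Sum.inl (a, b, x)) 2 = 1 := rfl
    refine ⟨-((c : OK q) * ((nm l : ℤ) : OK q)), ?_⟩
    unfold fr
    rw [e0, e1, e2, star_one, star_add, star_neg, star_mul', star_mul', star_natCast,
      star_intCast, star_dl]
    have h3 := nm_eq l
    push_cast
    linear_combination -h3 - ((nm l : ℤ) : OK q) * hh
  · have e0 : rw3 q p (Sum.inr x) 0 = 1 := rfl
    have e1 : rw3 q p (Sum.inr x) 1 = 0 := rfl
    have e2 : rw3 q p (Sum.inr x) 2 = (p : OK q) * ((x : ℕ) : OK q) * dl q := rfl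
    refine ⟨0, ?_⟩
    unfold fr
    rw [e0, e1, e2, star_one, star_mul', star_mul', star_natCast, star_natCast, star_dl]
    ring

theorem T3_dot (r x : Fin 3 → OK q) : r ⬝ᵥ x = r 0 * x 0 + r 1 * x 1 + r 2 * x 2 := by
  rw [dotProduct, Fin.sum_univ_three]

/-- PROOF. Case `p ∣ x 0`: then `p ∣ x 1` (`Col.iso`: `fr x x ≡ x 1 star (x 1)`), `p ∤ x 2`. `r ⬝ᵥ x ≡ r 2 x 2`;
for `inl` `r 2 = 1`: not divisible; for `inr y` `r 2` is divisible by `p`: so exactly the `inr y`. -/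
theorem case_zero {p : ℕ} (hp : Inert q p) {A : M3 q} {x : Fin 3 → OK q} (h : Col p A x)
    (h0 : (p : OK q) ∣ x 0) (i : Ix p) :
    DvV p (rw3 q p i ᵥ* A) ↔ ∃ y, i = Sum.inr y := by
  have h1 : (p : OK q) ∣ x 1 := by
    have h2 : (p : OK q) ∣ x 1 * star (x 1) := by
      have h3 := h.iso
      have e : x 1 * star (x 1) = fr x x - x 0 * star (x 2) - x 2 * star (x 0) := by
        unfold fr
        ring
      rw [e]
      exact dvd_sub (dvd_sub h3 (Dvd.dvd.mul_right h0 _)) (Dvd.dvd.mul_left (T3_star' h0) _)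
    rcases hp.dvd_mul h2 with h3 | h3
    · exact h3
    · exact T3_star h3
  have h2 : ¬(p : OK q) ∣ x 2 := by
    intro h3
    apply h.prim
    intro k
    fin_cases k
    · exact h0
    · exact h1
    · exact h3
  rw [col_dvd h, T3_dot]
  rcases i with ⟨a, b, y⟩ | y
  · have e2 : rw3 q p (Sum.inl (a, b, y)) 2 = 1 := rfl
    rw [e2, one_mul]
    constructor
    · intro h3
      exfalso
      apply h2
      rwa [dvd_add_right (dvd_add (Dvd.dvd.mul_left h0 _) (Dvd.dvd.mul_left h1 _))] at h3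
    · rintro ⟨y', hy'⟩
      cases hy'
  · have e2 : rw3 q p (Sum.inr y) 2 = (p : OK q) * ((y : ℕ) : OK q) * dl q := rfl
    refine ⟨fun _ => ⟨y, rfl⟩, fun _ => ?_⟩
    rw [e2]
    refine dvd_add (dvd_add (Dvd.dvd.mul_left h0 _) (Dvd.dvd.mul_left h1 _)) ?_
    exact ⟨((y : ℕ) : OK q) * dl q * x 2, by ring⟩

theorem T3_coord {m : ℕ} {z : OK q} : (m : OK q) ∣ z ↔ (m : ℤ) ∣ z.re ∧ (m : ℤ) ∣ z.im := by
  constructor
  · rintro ⟨y, rfl⟩
    exact ⟨⟨y.re, by simp [QuadraticAlgebra.re_mul]⟩, ⟨y.im, by simp [QuadraticAlgebra.im_mul]⟩⟩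
  · rintro ⟨⟨a, ha⟩, ⟨b, hb⟩⟩
    refine ⟨⟨a, b⟩, ?_⟩
    ext
    · simp [ha]
    · simp [hb]

/-- PROOF. Case `p ∤ x 0`. `inr`: `r ⬝ᵥ x ≡ x 0`, not divisible. `inl (a, b, y)`: let `m` be an inverse of `x 0`
modulo `p`, `b₁ = m x 1`, `c₁ = m x 2`: `fr x x ≡ 0` gives `c₁ + star c₁ + b₁ star b₁ ≡ 0`. With `l = ⟨a, b⟩` the
condition is `-h2 nm l + y dl + l b₁ + c₁ ≡ 0` (*). Adding the conjugate: `2 h2 ≡ 1`, so
`-nm l + l b₁ + star (l b₁) - nm b₁ = -nm (l - star b₁) ≡ 0` and `p ∣ l - star b₁`: `l` is the residue of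
`star b₁` (coordinates modulo `p`). For this `l`, (*) becomes `y dl + (c₁ + h2 nm b₁) ≡ 0`, and
`c₁ + h2 nm b₁` has trace `≡ 0`, so is `≡ z dl` with an integer `z` (`imag`, `k = 1`): the condition is
`y ≡ -z` modulo `p` (`dl_dvd`). -/
theorem case_unit {p : ℕ} (hp : Inert q p) {A : M3 q} {x : Fin 3 → OK q} (h : Col p A x)
    (h0 : ¬(p : OK q) ∣ x 0) : ∃ (a b : Fin p) (z : ℤ), ∀ i : Ix p,
      DvV p (rw3 q p i ᵥ* A) ↔ ∃ y : Fin (p ^ 2), i = Sum.inl (a, b, y) ∧ (p : ℤ) ∣ ((y : ℕ) : ℤ) + z := by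
  have hp0 := hp.pos
  obtain ⟨c, hh⟩ := et_tr hp
  obtain ⟨m, hm⟩ := inv_mod hp h0 1
  rw [pow_one] at hm
  have hm0 : ¬(p : OK q) ∣ m := by
    intro h1
    apply T3_one hp
    have e : (1 : OK q) = m * x 0 - (m * x 0 - 1) := by ring
    rw [e]
    exact dvd_sub (Dvd.dvd.mul_right h1 _) hm
  obtain ⟨k0, hk0⟩ := hm
  -- b₁, c₁
  obtain ⟨b1, hb1⟩ : ∃ b1, b1 = m * x 1 := ⟨_, rfl⟩
  obtain ⟨c1, hc1⟩ : ∃ c1, c1 = m * x 2 := ⟨_, rfl⟩
  have hk0' : star m * star (x 0) - 1 = p * star k0 := by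
    have := congrArg star hk0
    rw [star_sub, star_mul', star_one, star_mul', star_natCast] at this
    exact this
  have hbc : (p : OK q) ∣ c1 + star c1 + b1 * star b1 := by
    obtain ⟨k1, hk1⟩ := h.iso
    unfold fr at hk1
    refine ⟨m * star m * k1 - k0 * star c1 - star k0 * c1, ?_⟩
    rw [hb1, hc1, star_mul', star_mul']
    linear_combination (m * star m) * hk1 - (star m * star (x 2)) * hk0 - (m * x 2) * hk0'
  -- the condition
  have hcond : ∀ (l : OK q) (y : ℕ), (p : OK q) ∣ (-(et q p * ((nm l : ℤ) : OK q)) +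
      ((y : ℕ) : OK q) * dl q) * x 0 + l * x 1 + 1 * x 2 ↔
      (p : OK q) ∣ -(et q p * ((nm l : ℤ) : OK q)) + ((y : ℕ) : OK q) * dl q +
        l * b1 + c1 := by
    intro l y
    have e : -(et q p * ((nm l : ℤ) : OK q)) + ((y : ℕ) : OK q) * dl q +
        l * b1 + c1 = m * ((-(et q p * ((nm l : ℤ) : OK q)) +
      ((y : ℕ) : OK q) * dl q) * x 0 + l * x 1 + 1 * x 2) -
      p * (k0 * (-(et q p * ((nm l : ℤ) : OK q)) + ((y : ℕ) : OK q) * dl q)) := by
      rw [hb1, hc1]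
      linear_combination (-(-(et q p * ((nm l : ℤ) : OK q)) + ((y : ℕ) : OK q) * dl q)) * hk0
    rw [e, dvd_sub_left (Dvd.intro _ rfl)]
    constructor
    · intro h1
      exact Dvd.dvd.mul_left h1 _
    · intro h1
      exact (hp.dvd_mul h1).resolve_left hm0
  obtain ⟨k3, hk3⟩ := hbc
  -- first half
  have hA : ∀ (l : OK q) (y : ℕ), (p : OK q) ∣ -(et q p * ((nm l : ℤ) : OK q)) +
      ((y : ℕ) : OK q) * dl q + l * b1 + c1 → (p : OK q) ∣ l - star b1 := by
    intro l y hE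
    obtain ⟨k2, hk2⟩ := hE
    have hk2' := congrArg star hk2
    simp only [star_add, star_neg, star_mul', star_natCast, star_intCast, star_dl] at hk2'
    apply hp.inert
    rw [← dvd_int (q := q), nm_eq]
    refine ⟨-(k2 + star k2 - k3) - p * c * ((nm l : ℤ) : OK q), ?_⟩
    rw [star_sub, star_star]
    have h3 := nm_eq l
    linear_combination -hk2 - hk2' + hk3 - h3 - ((nm l : ℤ) : OK q) * hh
  -- the residue
  obtain ⟨u, hu, hu2⟩ : ∃ u : Fin p, (p : ℤ) ∣ ((u : ℕ) : ℤ) - (star b1).re ∧ True := by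
    have hpz : (0 : ℤ) < p := by exact_mod_cast hp0
    have h1 := Int.emod_nonneg (star b1).re hpz.ne'
    have h2 := Int.emod_lt_of_pos (star b1).re hpz
    refine ⟨⟨((star b1).re % p).toNat, by omega⟩, ?_, trivial⟩
    have h3 : (((⟨((star b1).re % p).toNat, by omega⟩ : Fin p) : ℕ) : ℤ) = (star b1).re % p := by
      simp only
      omega
    rw [h3]
    refine ⟨-((star b1).re / p), ?_⟩
    have := Int.mul_ediv_add_emod (star b1).re p
    linear_combination this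
  obtain ⟨v, hv, hv2⟩ : ∃ v : Fin p, (p : ℤ) ∣ ((v : ℕ) : ℤ) - (star b1).im ∧ True := by
    have hpz : (0 : ℤ) < p := by exact_mod_cast hp0
    have h1 := Int.emod_nonneg (star b1).im hpz.ne'
    have h2 := Int.emod_lt_of_pos (star b1).im hpz
    refine ⟨⟨((star b1).im % p).toNat, by omega⟩, ?_, trivial⟩
    have h3 : (((⟨((star b1).im % p).toNat, by omega⟩ : Fin p) : ℕ) : ℤ) = (star b1).im % p := by
      simp only
      omega
    rw [h3]
    refine ⟨-((star b1).im / p), ?_⟩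
    have := Int.mul_ediv_add_emod (star b1).im p
    linear_combination this
  obtain ⟨l0, hl0⟩ : ∃ l0 : OK q, l0 = ⟨((u : ℕ) : ℤ), ((v : ℕ) : ℤ)⟩ := ⟨_, rfl⟩
  have hl0b : (p : OK q) ∣ l0 - star b1 := by
    rw [T3_coord, hl0]
    exact ⟨hu, hv⟩
  obtain ⟨k4, hk4⟩ := hl0b
  have hk4' := congrArg star hk4
  simp only [star_sub, star_star, star_mul', star_natCast] at hk4'
  have hn0 := nm_eq l0
  obtain ⟨z, hz, hz2⟩ := imag hp (k := 1) (z := c1 + star (et q p) * ((nm l0 : ℤ) : OK q)) (by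
    rw [pow_one, star_add, star_mul', star_star, star_intCast]
    refine ⟨k3 + p * c * ((nm l0 : ℤ) : OK q) + k4 * star l0 + star k4 * star b1, ?_⟩
    linear_combination hk3 + ((nm l0 : ℤ) : OK q) * hh + hn0 + star l0 * hk4 + star b1 * hk4')
  rw [pow_one] at hz2
  obtain ⟨k5, hk5⟩ := hz2
  have hB : ∀ y : ℕ, (p : OK q) ∣ -(et q p * ((nm l0 : ℤ) : OK q)) +
      ((y : ℕ) : OK q) * dl q + l0 * b1 + c1 ↔ (p : ℤ) ∣ (y : ℤ) + z := by
    intro y
    have e : -(et q p * ((nm l0 : ℤ) : OK q)) + ((y : ℕ) : OK q) * dl q + l0 * b1 + c1 =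
        (((y : ℤ) + z : ℤ) : OK q) * dl q * 1 + p * (k5 - p * c * ((nm l0 : ℤ) : OK q) - l0 * star k4) := by
      push_cast
      linear_combination hk5 - ((nm l0 : ℤ) : OK q) * hh - hn0 - l0 * hk4'
    rw [e, dvd_add_left (Dvd.intro _ rfl)]
    constructor
    · intro h1
      have h2 := dl_dvd hp (k := 1) (T3_one hp) (t := (y : ℤ) + z) (by rw [pow_one]; exact h1)
      rwa [pow_one] at h2
    · rintro ⟨w, hw⟩
      refine ⟨(w : OK q) * dl q, ?_⟩
      rw [hw]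
      push_cast
      ring
  refine ⟨u, v, z, fun i => ?_⟩
  rw [col_dvd h, T3_dot]
  rcases i with ⟨a, b, y⟩ | y
  · have e0 : rw3 q p (Sum.inl (a, b, y)) 0 = -(et q p *
      ((nm (⟨(a : ℕ), (b : ℕ)⟩ : OK q) : ℤ) : OK q)) + ((y : ℕ) : OK q) * dl q := rfl
    have e1 : rw3 q p (Sum.inl (a, b, y)) 1 = ⟨(a : ℕ), (b : ℕ)⟩ := rfl
    have e2 : rw3 q p (Sum.inl (a, b, y)) 2 = 1 := rfl
    rw [e0, e1, e2, hcond]
    constructor
    · intro h1
      have h2 := hA _ _ h1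
      rw [T3_coord] at h2
      obtain ⟨h3, h4⟩ := h2
      have h3' : (p : ℤ) ∣ ((a : ℕ) : ℤ) - (star b1).re := h3
      have h4' : (p : ℤ) ∣ ((b : ℕ) : ℤ) - (star b1).im := h4
      have hau : a = u := by
        have h5 := dvd_sub h3' hu
        have h6 : ((a : ℕ) : ℤ) - (star b1).re - (((u : ℕ) : ℤ) - (star b1).re) =
          ((a : ℕ) : ℤ) - ((u : ℕ) : ℤ) := by ring
        rw [h6] at h5
        have h7 := Int.eq_zero_of_abs_lt_dvd h5 (by
          have := a.2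
          have := u.2
          rw [abs_lt]
          constructor <;> omega)
        apply Fin.ext
        omega
      have hbv : b = v := by
        have h5 := dvd_sub h4' hv
        have h6 : ((b : ℕ) : ℤ) - (star b1).im - (((v : ℕ) : ℤ) - (star b1).im) =
          ((b : ℕ) : ℤ) - ((v : ℕ) : ℤ) := by ring
        rw [h6] at h5
        have h7 := Int.eq_zero_of_abs_lt_dvd h5 (by
          have := b.2
          have := v.2
          rw [abs_lt]
          constructor <;> omega)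
        apply Fin.ext
        omega
      subst hau hbv
      refine ⟨y, rfl, ?_⟩
      rw [← hB, hl0]
      exact h1
    · rintro ⟨y', hy', hd⟩
      have h5 : (a, b, y) = (u, v, y') := Sum.inl.inj hy'
      obtain ⟨rfl, h6⟩ := Prod.mk.inj h5
      obtain ⟨rfl, rfl⟩ := Prod.mk.inj h6
      rw [← hB, hl0] at hd
      exact hd
  · have e0 : rw3 q p (Sum.inr y) 0 = 1 := rfl
    have e1 : rw3 q p (Sum.inr y) 1 = 0 := rfl
    have e2 : rw3 q p (Sum.inr y) 2 = (p : OK q) * ((y : ℕ) : OK q) * dl q := rfl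
    rw [e0, e1, e2, one_mul, zero_mul, add_zero]
    constructor
    · intro h1
      exfalso
      apply h0
      rwa [dvd_add_left ⟨((y : ℕ) : OK q) * dl q * x 2, by ring⟩] at h1
    · rintro ⟨y', hy', -⟩
      cases hy'

/-- PROOF. `case_zero`: the `p` elements `inr y`. `case_unit`: the residues modulo `p ^ 2` in a given class
modulo `p`: there are `p`. -/
theorem card_one {p : ℕ} (hp : Inert q p) {A : M3 q} {x : Fin 3 → OK q} (h : Col p A x) :
    Nat.card {i : Ix p // DvV p (rw3 q p i ᵥ* A)} = p := by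
  have hp0 := hp.pos
  by_cases h0 : (p : OK q) ∣ x 0
  · have hc := case_zero hp h h0
    have e : Fin p ≃ {i : Ix p // DvV p (rw3 q p i ᵥ* A)} := by
      refine Equiv.ofBijective (fun y => ⟨Sum.inr y, (hc _).2 ⟨y, rfl⟩⟩) ⟨?_, ?_⟩
      · intro y y' hy
        exact Sum.inr.inj (congrArg Subtype.val hy)
      · rintro ⟨i, hi⟩
        obtain ⟨y, hy⟩ := (hc i).1 hi
        exact ⟨y, Subtype.ext hy.symm⟩
    rw [← Nat.card_congr e, Nat.card_fin]
  · obtain ⟨a, b, z, hc⟩ := case_unit hp h h0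
    obtain ⟨s, hs, hsz⟩ : ∃ s : ℕ, s < p ∧ (p : ℤ) ∣ (s : ℤ) + z := by
      have hpz : (0 : ℤ) < p := by exact_mod_cast hp0
      have h1 := Int.emod_nonneg (-z) hpz.ne'
      have h2 := Int.emod_lt_of_pos (-z) hpz
      refine ⟨((-z) % p).toNat, by omega, ?_⟩
      have h3 : ((((-z) % p).toNat : ℕ) : ℤ) = (-z) % p := by omega
      rw [h3]
      refine ⟨-((-z) / p), ?_⟩
      have := Int.mul_ediv_add_emod (-z) p
      linear_combination this
    have hlt : ∀ t : Fin p, s + p * (t : ℕ) < p ^ 2 := by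
      intro t
      have h1 : p * ((t : ℕ) + 1) ≤ p * p := Nat.mul_le_mul_left p t.2
      nlinarith
    have e : Fin p ≃ {i : Ix p // DvV p (rw3 q p i ᵥ* A)} := by
      refine Equiv.ofBijective (fun t => ⟨Sum.inl (a, b, ⟨s + p * (t : ℕ), hlt t⟩),
        (hc _).2 ⟨_, rfl, ?_⟩⟩) ⟨?_, ?_⟩
      · obtain ⟨w, hw⟩ := hsz
        refine ⟨w + (t : ℕ), ?_⟩
        push_cast
        linear_combination hw
      · intro t t' ht
        have h1 := Sum.inl.inj (congrArg Subtype.val ht)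
        have h2 := congrArg (fun w : Fin p × Fin p × Fin (p ^ 2) => ((w.2.2 : Fin (p ^ 2)) : ℕ)) h1
        simp only at h2
        apply Fin.ext
        have h3 : p * (t : ℕ) = p * (t' : ℕ) := by omega
        exact Nat.eq_of_mul_eq_mul_left hp0 h3
      · rintro ⟨i, hi⟩
        obtain ⟨y, hy, hd⟩ := (hc i).1 hi
        have h1 : (p : ℤ) ∣ ((y : ℕ) : ℤ) - s := by
          have := dvd_sub hd hsz
          have e2 : ((y : ℕ) : ℤ) + z - (s + z) = ((y : ℕ) : ℤ) - s := by ring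
          rwa [e2] at this
        have h2 : ((y : ℕ) : ℤ) % p = s := by
          have h3 := Int.emod_emod_of_dvd ((y : ℕ) : ℤ) (dvd_refl (p : ℤ))
          have h4 : ((y : ℕ) : ℤ) % p = (s : ℤ) % p := (Int.emod_emod_of_dvd _ (dvd_refl _)).symm.trans
            (by rw [h3]; exact (Int.emod_eq_emod_iff_emod_sub_eq_zero.2 (Int.emod_eq_zero_of_dvd h1)))
          rw [h4]
          exact Int.emod_eq_of_lt (by omega) (by omega)
        have h3 : (y : ℕ) % p = s := by exact_mod_cast h2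
        have h4 : (y : ℕ) / p < p := by
          rw [Nat.div_lt_iff_lt_mul hp0, ← sq]
          exact y.2
        refine ⟨⟨(y : ℕ) / p, h4⟩, Subtype.ext ?_⟩
        have h5 : (⟨s + p * ((y : ℕ) / p), hlt ⟨(y : ℕ) / p, h4⟩⟩ : Fin (p ^ 2)) = y := by
          apply Fin.ext
          simp only
          have := Nat.mod_add_div (y : ℕ) p
          omega
        show (Sum.inl (a, b, (⟨s + p * ((y : ℕ) / p), hlt ⟨(y : ℕ) / p, h4⟩⟩ : Fin (p ^ 2))) : Ix p) = i
        rw [h5, hy]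
    rw [← Nat.card_congr e, Nat.card_fin]

end Pool.Agent.Lib.H80D
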