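import Pool.Agent.Lib.H80D.T3
import Pool.Agent.Lib.H80D.T5

/-!
# T4: the row killed modulo `p ^ 2`
-/

namespace Pool.Agent.Lib.H80D

open Matrix
open Pool.Agent.Lib.H80C

variable {q : QF}

lemma T4_x1 {p : ℕ} (hp : Inert q p) {x : Fin 3 → OK q} (h : (p : OK q) ∣ fr x x)
    (h0 : (p : OK q) ∣ x 0) : (p : OK q) ∣ x 1 := by
  have h1 : (p : OK q) ∣ x 1 * star (x 1) := by
    obtain ⟨a, ha⟩ := h
    obtain ⟨b, hb⟩ := h0
    refine ⟨a - b * star (x 2) - x 2 * star b, ?_⟩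
    have hb' : star (x 0) = p * star b := by
      rw [hb, star_mul', star_natCast]
    unfold fr at ha
    linear_combination ha - star (x 2) * hb - x 2 * hb'
  rcases hp.dvd_mul h1 with h2 | h2
  · exact h2
  · exact T5_star h2

lemma T4_x1' {p : ℕ} (hp : Inert q p) {x : Fin 3 → OK q} (h : (p : OK q) ∣ fr x x)
    (h0 : (p : OK q) ∣ x 2) : (p : OK q) ∣ x 1 := by
  have h1 : (p : OK q) ∣ x 1 * star (x 1) := by
    obtain ⟨a, ha⟩ := h
    obtain ⟨b, hb⟩ := h0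
    refine ⟨a - x 0 * star b - b * star (x 0), ?_⟩
    have hb' : star (x 2) = p * star b := by
      rw [hb, star_mul', star_natCast]
    unfold fr at ha
    linear_combination ha - star (x 0) * hb - x 0 * hb'
  rcases hp.dvd_mul h1 with h2 | h2
  · exact h2
  · exact T5_star h2

lemma T4_x2 {p : ℕ} (hp : Inert q p) {A : M3 q} {x : Fin 3 → OK q} (h : Col p A x)
    (h0 : (p : OK q) ∣ x 0) : ¬ (p : OK q) ∣ x 2 := by
  intro h2
  apply h.prim
  intro k
  fin_cases k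
  · exact h0
  · exact T4_x1 hp h.iso h0
  · exact h2

lemma T4_sq_dvd {p : ℕ} (hp : Inert q p) {z : OK q} (h : ((p ^ 2 : ℕ) : OK q) ∣ p * z) :
    (p : OK q) ∣ z := by
  have h0 : (p : OK q) ≠ 0 := by exact_mod_cast hp.pos.ne'
  push_cast at h
  rw [pow_two] at h
  exact (mul_dvd_mul_iff_left h0).1 h

lemma T4_fin_eq {m : ℕ} {y y' : Fin m} (h : ((m : ℕ) : ℤ) ∣ ((y : ℕ) : ℤ) - ((y' : ℕ) : ℤ)) :
    y = y' := by
  have h1 := Int.eq_zero_of_abs_lt_dvd h (by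
    have := y.2
    have := y'.2
    rw [abs_lt]
    constructor <;> omega)
  apply Fin.ext
  omega

/-- PROOF. Two solutions. They satisfy the condition modulo `p`. Case `p ∣ x 0` (`x` as in `exists_col`):
`inr y`, `inr y'`: the difference is `p (y - y') dl` times the row `2` of `A`, so `p` divides
`(y - y') dl A 2 k` for all `k`; the column `x` has `p ∤ x 2` (`p ∣ x 0`, `p ∣ x 1`), so `p ∣ y - y'` (`dl_dvd`)
and `y = y'`. Case `p ∤ x 0`: `inl (a, b, y)`, `inl (a, b, y')` with the same `a`, `b` (`case_unit`): the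
difference is `(y - y') dl` times the row `0` of `A`, which contains `x 0`, so `p ^ 2 ∣ y - y'`. -/
theorem unique_two {p j : ℕ} (hp : Inert q p) (hj : 1 ≤ j) {A : M3 q} (hA : GE p j A)
    (hA' : ¬DvM p A) {i i' : Ix p} (h : DvV (p ^ 2) (rw3 q p i ᵥ* A))
    (h' : DvV (p ^ 2) (rw3 q p i' ᵥ* A)) : i = i' := by
  obtain ⟨x, hx⟩ := exists_col hp hj hA hA'
  obtain ⟨k, hk⟩ := hx.mem
  have hdiff : ((p ^ 2 : ℕ) : OK q) ∣ (rw3 q p i ᵥ* A) k - (rw3 q p i' ᵥ* A) k :=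
    dvd_sub (h k) (h' k)
  rw [T5_vk, T5_vk] at hdiff
  by_cases h0 : (p : OK q) ∣ x 0
  · obtain ⟨y, rfl⟩ := (case_zero hp hx h0 i).1 (T5_of_sq h)
    obtain ⟨y', rfl⟩ := (case_zero hp hx h0 i').1 (T5_of_sq h')
    have h2 := T4_x2 hp hx h0
    have h3 : ((p ^ 2 : ℕ) : OK q) ∣
        p * ((((((y : ℕ) : ℤ) - ((y' : ℕ) : ℤ)) : ℤ) : OK q) * dl q * x 2) := by
      have e : (p : OK q) * ((((((y : ℕ) : ℤ) - ((y' : ℕ) : ℤ)) : ℤ) : OK q) * dl q * x 2) =
          rw3 q p (Sum.inr y) 0 * A 0 k + rw3 q p (Sum.inr y) 1 * A 1 k +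
            rw3 q p (Sum.inr y) 2 * A 2 k - (rw3 q p (Sum.inr y') 0 * A 0 k +
            rw3 q p (Sum.inr y') 1 * A 1 k + rw3 q p (Sum.inr y') 2 * A 2 k) := by
        rw [← hk 2]
        simp only [rw3, Matrix.cons_val_zero, Matrix.cons_val_one, Matrix.cons_val_two,
          Matrix.head_cons, Matrix.tail_cons]
        push_cast
        ring
      rw [e]
      exact hdiff
    have h4 := T4_sq_dvd hp h3
    have h5 := dl_dvd (k := 1) hp h2 (by rw [pow_one]; exact h4)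
    rw [pow_one] at h5
    rw [T4_fin_eq h5]
  · obtain ⟨a, b, z, hz⟩ := case_unit hp hx h0
    obtain ⟨y, rfl, _⟩ := (hz i).1 (T5_of_sq h)
    obtain ⟨y', rfl, _⟩ := (hz i').1 (T5_of_sq h')
    have h3 : ((p ^ 2 : ℕ) : OK q) ∣
        ((((((y : ℕ) : ℤ) - ((y' : ℕ) : ℤ)) : ℤ) : OK q) * dl q * x 0) := by
      have e : ((((((y : ℕ) : ℤ) - ((y' : ℕ) : ℤ)) : ℤ) : OK q) * dl q * x 0) =
          rw3 q p (Sum.inl (a, b, y)) 0 * A 0 k + rw3 q p (Sum.inl (a, b, y)) 1 * A 1 k +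
            rw3 q p (Sum.inl (a, b, y)) 2 * A 2 k - (rw3 q p (Sum.inl (a, b, y')) 0 * A 0 k +
            rw3 q p (Sum.inl (a, b, y')) 1 * A 1 k + rw3 q p (Sum.inl (a, b, y')) 2 * A 2 k) := by
        rw [← hk 0]
        simp only [rw3, Matrix.cons_val_zero, Matrix.cons_val_one, Matrix.cons_val_two,
          Matrix.head_cons, Matrix.tail_cons]
        push_cast
        ring
      rw [e]
      exact hdiff
    have h5 := dl_dvd (k := 2) hp h0 h3
    rw [T4_fin_eq h5]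

/-- The form of a multiple of a row. -/
lemma T4_fr_smul (m : OK q) (r : Fin 3 → OK q) : fr (m • r) (m • r) = m * star m * fr r r := by
  unfold fr
  simp only [Pi.smul_apply, smul_eq_mul, star_mul']
  ring

lemma T4_case_zero {p : ℕ} (hp : Inert q p) {A : M3 q} {x r : Fin 3 → OK q} (hx : Col p A x)
    (h0 : (p : OK q) ∣ x 0) (hr : ¬DvV p r) (hr' : ((p ^ 2 : ℕ) : OK q) ∣ fr r r)
    (hrA : DvV (p ^ 2) (r ᵥ* A)) : ∃ i : Ix p, DvV (p ^ 2) (rw3 q p i ᵥ* A) := by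
  have hp0 : (p : OK q) ≠ 0 := by exact_mod_cast hp.pos.ne'
  have hpp : (p : OK q) ∣ ((p ^ 2 : ℕ) : OK q) := by
    push_cast
    exact dvd_pow_self _ two_ne_zero
  have h1 := T4_x1 hp hx.iso h0
  have h2 := T4_x2 hp hx h0
  have hrx : (p : OK q) ∣ r ⬝ᵥ x := (col_dvd hx r).1 (T5_of_sq hrA)
  rw [T5_dot] at hrx
  have hr2 : (p : OK q) ∣ r 2 := by
    have h3 : (p : OK q) ∣ r 2 * x 2 := by
      have e : r 2 * x 2 = (r 0 * x 0 + r 1 * x 1 + r 2 * x 2) - r 0 * x 0 - r 1 * x 1 := by ring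
      rw [e]
      exact dvd_sub (dvd_sub hrx (h0.mul_left _)) (h1.mul_left _)
    rcases hp.dvd_mul h3 with h4 | h4
    · exact h4
    · exact absurd h4 h2
  have hr1 : (p : OK q) ∣ r 1 := T4_x1' hp (hpp.trans hr') hr2
  have hr0 : ¬ (p : OK q) ∣ r 0 := by
    intro h3
    apply hr
    intro k
    fin_cases k
    · exact h3
    · exact hr1
    · exact hr2
  obtain ⟨m, t, ht⟩ := inv_mod hp hr0 2
  obtain ⟨w₁, hw₁⟩ : (p : OK q) ∣ m * r 1 := hr1.mul_left _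
  obtain ⟨w₂, hw₂⟩ : (p : OK q) ∣ m * r 2 := hr2.mul_left _
  push_cast at ht
  -- the form
  have hfr : ((p ^ 2 : ℕ) : OK q) ∣ p * (w₂ + star w₂) := by
    have h3 : ((p ^ 2 : ℕ) : OK q) ∣ fr (m • r) (m • r) := by
      rw [T4_fr_smul]
      exact hr'.mul_left _
    obtain ⟨s, hs⟩ := h3
    unfold fr at hs
    simp only [Pi.smul_apply, smul_eq_mul] at hs
    have e0 : m * r 0 = 1 + (p : OK q) ^ 2 * t := by linear_combination ht
    rw [hw₁, hw₂, e0] at hs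
    simp only [star_add, star_mul', star_one, star_natCast, star_pow] at hs
    push_cast at hs ⊢
    refine ⟨s - p * t * star w₂ - w₁ * star w₁ - p * w₂ * star t, ?_⟩
    linear_combination hs
  have h3 := T4_sq_dvd hp hfr
  obtain ⟨y, hy, hyw⟩ := imag (k := 1) hp (z := w₂) (by rw [pow_one]; exact h3)
  rw [pow_one] at hy hyw
  obtain ⟨z, hz⟩ := hyw
  refine ⟨Sum.inr ⟨y, hy⟩, fun k => ?_⟩
  obtain ⟨s, hs⟩ := hrA k
  rw [T5_vk] at hs
  obtain ⟨A1, hA1⟩ : (p : OK q) ∣ A 1 k := by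
    obtain ⟨μ, hμ⟩ := hx.mul k
    have e : A 1 k = (A 1 k - μ * x 1) + μ * x 1 := by ring
    rw [e]
    exact dvd_add (hμ 1) (h1.mul_left _)
  rw [T5_vk]
  simp only [rw3, Matrix.cons_val_zero, Matrix.cons_val_one, Matrix.cons_val_two,
    Matrix.head_cons, Matrix.tail_cons]
  push_cast at hs ⊢
  refine ⟨m * s - t * A 0 k - w₁ * A1 - z * A 2 k, ?_⟩
  linear_combination m * hs - A 0 k * ht - A 1 k * hw₁ - A 2 k * hw₂ - p * w₁ * hA1 - p * A 2 k * hz

lemma T4_case_unit {p : ℕ} (hp : Inert q p) {A : M3 q} {x r : Fin 3 → OK q} (hx : Col p A x)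
    (h0 : ¬ (p : OK q) ∣ x 0) (hr : ¬DvV p r) (hr' : ((p ^ 2 : ℕ) : OK q) ∣ fr r r)
    (hrA : DvV (p ^ 2) (r ᵥ* A)) : ∃ i : Ix p, DvV (p ^ 2) (rw3 q p i ᵥ* A) := by
  have hpp : (p : OK q) ∣ ((p ^ 2 : ℕ) : OK q) := by
    push_cast
    exact dvd_pow_self _ two_ne_zero
  have hrx : (p : OK q) ∣ r ⬝ᵥ x := (col_dvd hx r).1 (T5_of_sq hrA)
  rw [T5_dot] at hrx
  have hr2 : ¬ (p : OK q) ∣ r 2 := by
    intro h2
    have h1 := T4_x1' hp (hpp.trans hr') h2
    have h3 : (p : OK q) ∣ r 0 * x 0 := by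
      have e : r 0 * x 0 = (r 0 * x 0 + r 1 * x 1 + r 2 * x 2) - r 1 * x 1 - r 2 * x 2 := by ring
      rw [e]
      exact dvd_sub (dvd_sub hrx (h1.mul_right _)) (h2.mul_right _)
    rcases hp.dvd_mul h3 with h4 | h4
    · apply hr
      intro k
      fin_cases k
      · exact h4
      · exact h1
      · exact h2
    · exact h0 h4
  obtain ⟨m, t, ht⟩ := inv_mod hp hr2 2
  push_cast at ht
  -- the normalised row
  obtain ⟨s0, hs0⟩ : ∃ s, s = m * r 0 := ⟨_, rfl⟩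
  obtain ⟨s1, hs1⟩ : ∃ s, s = m * r 1 := ⟨_, rfl⟩
  have e2 : m * r 2 = 1 + (p : OK q) ^ 2 * t := by linear_combination ht
  -- the form of the normalised row
  obtain ⟨f, hf⟩ : ∃ f, s0 + star s0 + s1 * star s1 = (p : OK q) ^ 2 * f := by
    have h3 : ((p ^ 2 : ℕ) : OK q) ∣ fr (m • r) (m • r) := by
      rw [T4_fr_smul]
      exact hr'.mul_left _
    obtain ⟨s, hs⟩ := h3
    unfold fr at hs
    simp only [Pi.smul_apply, smul_eq_mul] at hs
    rw [← hs0, ← hs1, e2] at hs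
    simp only [star_add, star_mul', star_one, star_natCast, star_pow] at hs
    push_cast at hs
    refine ⟨s - s0 * star t - t * star s0, ?_⟩
    linear_combination hs
  -- reduce the middle entry
  have hpz : (0 : ℤ) < p := by exact_mod_cast hp.pos
  have ha0 := Int.emod_nonneg s1.re hpz.ne'
  have ha1 := Int.emod_lt_of_pos s1.re hpz
  have hb0 := Int.emod_nonneg s1.im hpz.ne'
  have hb1 := Int.emod_lt_of_pos s1.im hpz
  let a : Fin p := ⟨(s1.re % p).toNat, by omega⟩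
  let b : Fin p := ⟨(s1.im % p).toNat, by omega⟩
  obtain ⟨l, hl⟩ : ∃ l : OK q, l = ⟨(a : ℕ), (b : ℕ)⟩ := ⟨_, rfl⟩
  obtain ⟨v₁, hv₁⟩ : ∃ v₁, l = s1 + p * v₁ := by
    refine ⟨⟨-(s1.re / p), -(s1.im / p)⟩, ?_⟩
    rw [hl]
    apply QuadraticAlgebra.ext
    · have h3 : (((a : ℕ) : ℤ)) = s1.re % p := Int.toNat_of_nonneg ha0
      have h4 := Int.emod_add_mul_ediv s1.re p
      simp only [QuadraticAlgebra.re_add, QuadraticAlgebra.re_mul, QuadraticAlgebra.re_natCast,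
        QuadraticAlgebra.im_natCast]
      rw [h3]
      linear_combination h4
    · have h3 : (((b : ℕ) : ℤ)) = s1.im % p := Int.toNat_of_nonneg hb0
      have h4 := Int.emod_add_mul_ediv s1.im p
      simp only [QuadraticAlgebra.im_add, QuadraticAlgebra.im_mul, QuadraticAlgebra.re_natCast,
        QuadraticAlgebra.im_natCast]
      rw [h3]
      linear_combination h4
  obtain ⟨c, hc⟩ : ∃ c, c = s0 - p * (v₁ * star s1) := ⟨_, rfl⟩
  have hstl : star l = star s1 + p * star v₁ := by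
    rw [hv₁, star_add, star_mul', star_natCast]
  have hstc : star c = star s0 - p * (star v₁ * s1) := by
    rw [hc, star_sub, star_mul', star_mul', star_natCast, star_star]
  have hnm : ((nm l : ℤ) : OK q) = l * star l := nm_eq l
  obtain ⟨ce, h2h⟩ := et_tr hp
  -- the trace
  have htr : ((p ^ 2 : ℕ) : OK q) ∣ (c + et q p * ((nm l : ℤ) : OK q)) +
      star (c + et q p * ((nm l : ℤ) : OK q)) := by
    rw [star_add, star_mul', star_intCast, hstc]
    push_cast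
    refine ⟨f + v₁ * star v₁ + ce * (l * star l), ?_⟩
    rw [hnm, hc, hstl, hv₁]
    linear_combination hf + (s1 + p * v₁) * (star s1 + p * star v₁) * h2h
  obtain ⟨y, hy, z, hz⟩ := imag (k := 2) hp htr
  push_cast at hz
  -- the proportionality
  have hprop : (p : OK q) ∣ x 1 - star s1 * x 0 := by
    let u : Fin 3 → OK q := ![1, star s1, star s0]
    have u0 : u 0 = 1 := rfl
    have u1 : u 1 = star s1 := rfl
    have u2 : u 2 = star s0 := rfl
    have hu : ¬DvV p u := by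
      intro h1
      apply h0
      exact (h1 0).trans (one_dvd _)
    have huu : (p : OK q) ∣ fr u u := by
      have : fr u u = (p : OK q) * (p * f) := by
        unfold fr
        rw [u0, u1, u2, star_star, star_star, star_one]
        linear_combination hf
      rw [this]
      exact dvd_mul_right _ _
    have hxu : (p : OK q) ∣ fr x u := by
      have h3 : fr x u = m * (r 0 * x 0 + r 1 * x 1 + r 2 * x 2) - (p : OK q) * (p * t * x 2) := by
        unfold fr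
        rw [u0, u1, u2, star_star, star_star, star_one]
        linear_combination x 0 * hs0 + x 1 * hs1 - x 2 * e2
      rw [h3]
      exact dvd_sub (hrx.mul_left _) (dvd_mul_right _ _)
    obtain ⟨μ, hμ⟩ := iso hp hu huu hxu hx.iso
    have h3 : x 1 - star s1 * x 0 = (x 1 - μ * u 1) - star s1 * (x 0 - μ * u 0) := by
      rw [u0, u1]
      ring
    rw [h3]
    exact dvd_sub (hμ 1) ((hμ 0).mul_left _)
  refine ⟨Sum.inl (a, b, ⟨y, hy⟩), fun k => ?_⟩
  obtain ⟨s, hs⟩ := hrA k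
  rw [T5_vk] at hs
  -- the combination of the rows 0 and 1
  obtain ⟨g, hg⟩ : (p : OK q) ∣ A 1 k - star s1 * A 0 k := by
    obtain ⟨μ, hμ⟩ := hx.mul k
    have e : A 1 k - star s1 * A 0 k = (A 1 k - μ * x 1) - star s1 * (A 0 k - μ * x 0) +
        μ * (x 1 - star s1 * x 0) := by ring
    rw [e]
    exact dvd_add (dvd_sub (hμ 1) ((hμ 0).mul_left _)) (hprop.mul_left _)
  rw [T5_vk]
  simp only [rw3, Matrix.cons_val_zero, Matrix.cons_val_one, Matrix.cons_val_two,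
    Matrix.head_cons, Matrix.tail_cons]
  rw [← hl]
  push_cast at hs ⊢
  refine ⟨m * s - z * A 0 k + v₁ * g - t * A 2 k, ?_⟩
  linear_combination m * hs + A 0 k * hs0 + A 1 k * hs1 - A 2 k * e2 - A 0 k * hz + A 0 k * hc +
    A 1 k * hv₁ + p * v₁ * hg

/-- PROOF. Case `p ∣ x 0` (`x` as in `exists_col`, so `p ∣ x 1`, `p ∤ x 2`, and all entries of the rows `0` and
`1` of `A` are divisible by `p`). Let `r` be as in `exists_row`: `r ⬝ᵥ x ≡ r 2 x 2 ≡ 0`, so `p ∣ r 2`;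
`fr r r ≡ r 1 star (r 1)` so `p ∣ r 1`; so `p ∤ r 0`. Multiply by an inverse of `r 0` modulo `p ^ 2`: we may
assume `r 0 = 1` (`DvV (p ^ 2)` of the difference). `r 1 = p w₁`, `r 2 = p w₂`, and `fr r r ≡ 0` modulo `p ^ 2`
gives `p (w₂ + star w₂) ≡ 0`, so `w₂ ≡ y dl` modulo `p` (`imag`, `k = 1`). Then `rw3 (inr y) ≡ r - (0, p w₁, 0)`
modulo `p ^ 2` and `(0, p w₁, 0) ᵥ* A` is `p w₁` times the row `1` of `A`, divisible by `p ^ 2`.
Case `p ∤ x 0`. `r` as in `exists_row`. `p ∤ r 2` (otherwise `p ∣ r 1` by `fr r r ≡ 0`, `p ∤ r 0`, and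
`r ⬝ᵥ x ≡ r 0 x 0` is not divisible by `p`). Multiply by an inverse of `r 2` modulo `p ^ 2`: `r ≡ (r 0, r 1, 1)`.
Let `l = ⟨a, b⟩`, `0 ≤ a, b < p`, be congruent to `r 1` modulo `p`: `l = r 1 + p v₁`; put
`v₀ = -v₁ star (r 1)`, `r' = (r 0 + p v₀, l, 1)`. `fr r' r' ≡ fr r r + p (v₀ + star v₀ + v₁ star (r 1) +
star v₁ r 1) ≡ 0` modulo `p ^ 2`, i.e. `r' 0 + star (r' 0) ≡ -nm l`, so `r' 0 + h2 nm l` has trace `≡ 0` and is
`≡ y dl` modulo `p ^ 2` (`imag`, `k = 2`; `two_h2`): `r' ≡ rw3 (inl (a, b, y))`. And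
`r' ᵥ* A ≡ p (v₀ A 0 + v₁ A 1)`, where modulo `p` the columns are multiples of `x`:
`v₀ x 0 + v₁ x 1 = v₁ (x 1 - star (r 1) x 0) ≡ 0`, because `u = (1, star (r 1), star (r 0))` is isotropic,
`fr x u = r ⬝ᵥ x ≡ 0`, so `x ≡ μ u` (`iso`) and `x 0 ≡ μ`, `x 1 ≡ μ star (r 1)`. -/
theorem exists_two {p j : ℕ} (hp : Inert q p) (hj : 1 ≤ j) {A : M3 q} (hA : GE p j A)
    (hA' : ¬DvM p A) : ∃ i : Ix p, DvV (p ^ 2) (rw3 q p i ᵥ* A) := by
  obtain ⟨x, hx⟩ := exists_col hp hj hA hA'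
  obtain ⟨r, hr, hr', hrA⟩ := exists_row hp hj hA hA'
  by_cases h0 : (p : OK q) ∣ x 0
  · exact T4_case_zero hp hx h0 hr hr' hrA
  · exact T4_case_unit hp hx h0 hr hr' hrA

end Pool.Agent.Lib.H80D
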