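import Pool.Agent.Lib.H80D.T3
import Pool.Agent.Lib.H80D.T6B

/-!
# T6A: elements of level `n` with given last row modulo `p ^ 2`
-/

namespace Pool.Agent.Lib.H80D

open Matrix
open Pool.Agent.Lib.H80C

variable {q : QF}

lemma T6A_inl_odd {p n : ℕ} (hp : Inert q p) (hp2 : p ≠ 2) (hnp : Nat.Coprime n p) (a b : Fin p)
    (x : Fin (p ^ 2)) :
    ∃ (L M : M3 q) (lam : OK q), Lᴴ * JZ q * L = JZ q ∧ L.det = 1 ∧ L = gm n 1 M ∧
      ¬(p : OK q) ∣ lam ∧ DvV (p ^ 2) (L 2 - lam • rw3 q p (Sum.inl (a, b, x))) := by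
  have hcop : IsCoprime (n : ℤ) ((p : ℤ) ^ 2) := by
    have h1 : IsCoprime (n : ℤ) (p : ℤ) := Nat.isCoprime_iff_coprime.2 hnp
    exact h1.pow_right
  obtain ⟨n', s, hns⟩ := hcop
  have hns' : (n' : OK q) * n + s * (p : OK q) ^ 2 = 1 := by
    exact_mod_cast congrArg (Int.cast : ℤ → OK q) hns
  have h2h : 2 * ((h2 p : ℕ) : OK q) = (p : OK q) ^ 2 + 1 := by
    have := two_h2 hp hp2
    exact_mod_cast this
  obtain ⟨h, hh⟩ : ∃ h, h = ((h2 p : ℕ) : OK q) := ⟨_, rfl⟩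
  obtain ⟨l, hl⟩ : ∃ l : OK q, l = ⟨(a : ℕ), (b : ℕ)⟩ := ⟨_, rfl⟩
  obtain ⟨X, hX⟩ : ∃ X : OK q, X = ((x : ℕ) : OK q) := ⟨_, rfl⟩
  obtain ⟨P, hP⟩ : ∃ P : OK q, P = (p : OK q) := ⟨_, rfl⟩
  obtain ⟨Nn, hNn⟩ : ∃ P : OK q, P = (n : OK q) := ⟨_, rfl⟩
  have hnm : ((nm l : ℤ) : OK q) = l * star l := nm_eq l
  have hst := star_dl q
  have shh : star h = h := by rw [hh, star_natCast]
  have shX : star X = X := by rw [hX, star_natCast]
  have shP : star P = P := by rw [hP, star_natCast]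
  have shN : star Nn = Nn := by rw [hNn, star_natCast]
  have shn : star (n' : OK q) = n' := by rw [star_intCast]
  have het : et q p = h := by rw [et, if_neg hp2, hh]
  rw [← hP, ← hNn] at hns'
  rw [← hh, ← hP] at h2h
  refine ⟨!![1, 0, 0; -(2 * Nn * n' * h * star l), 1, 0;
    -(2 * Nn ^ 2 * n' ^ 2 * h ^ 2 * (l * star l)) + Nn * n' * X * dl q, 2 * Nn * n' * h * l, 1],
    !![0, 0, 0; -(2 * n' * h * star l), 0, 0;
    -(2 * Nn * n' ^ 2 * h ^ 2 * (l * star l)) + n' * X * dl q, 2 * n' * h * l, 0], 1, ?_, ?_, ?_, ?_, ?_⟩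
  · ext1 i j
    fin_cases i <;> fin_cases j <;>
      simp [Matrix.mul_apply, Fin.sum_univ_three, JZ, Matrix.conjTranspose_apply, hst, shh, shX, shN,
        shn, star_mul'] <;> ring
  · rw [Matrix.det_fin_three]
    simp
  · ext1 i j
    fin_cases i <;> fin_cases j <;> simp [gm, ← hNn] <;> ring
  · intro h1
    have h3 : ((p : ℕ) : OK q) ∣ ((1 : ℤ) : OK q) := by rw [Int.cast_one]; exact h1
    have h4 := dvd_int.1 h3
    have h5 : p ∣ 1 := by exact_mod_cast h4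
    exact hp.prime.one_lt.ne' (Nat.dvd_one.1 h5)
  · intro k
    fin_cases k
    · simp only [rw3, Fin.zero_eta, Fin.isValue, Pi.sub_apply, Pi.smul_apply, smul_eq_mul,
        Matrix.cons_val_zero, Matrix.cons_val_one, Matrix.cons_val_two, Matrix.head_cons,
        Matrix.tail_cons, Matrix.of_apply, one_mul]
      rw [← hl, ← hX, het, hnm]
      push_cast
      rw [← hP]
      have e : Nn * (n' : OK q) = 1 - s * P ^ 2 := by linear_combination hns'
      refine ⟨h * (l * star l) * (2 * s - s ^ 2 * P ^ 2 - (1 - s * P ^ 2) ^ 2) - s * X * dl q, ?_⟩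
      linear_combination (-(2 * h ^ 2 * (l * star l) * (Nn * n' + (1 - s * P ^ 2))) + X * dl q) * e -
        (h * (l * star l) * (1 - s * P ^ 2) ^ 2) * h2h
    · simp only [rw3, Fin.mk_one, Fin.isValue, Pi.sub_apply, Pi.smul_apply, smul_eq_mul,
        Matrix.cons_val_zero, Matrix.cons_val_one, Matrix.cons_val_two, Matrix.head_cons,
        Matrix.tail_cons, Matrix.of_apply, one_mul]
      rw [← hl]
      push_cast
      rw [← hP]
      refine ⟨(1 - s * (P ^ 2 + 1)) * l, ?_⟩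
      have e : Nn * (n' : OK q) = 1 - s * P ^ 2 := by linear_combination hns'
      linear_combination (2 * h * l) * e + (1 - s * P ^ 2) * l * h2h
    · simp [rw3]

lemma T6A_inl_two {p n : ℕ} (hp : Inert q p) (hp2 : p = 2) (hnp : Nat.Coprime n p) (a b : Fin p)
    (x : Fin (p ^ 2)) :
    ∃ (L M : M3 q) (lam : OK q), Lᴴ * JZ q * L = JZ q ∧ L.det = 1 ∧ L = gm n 1 M ∧
      ¬(p : OK q) ∣ lam ∧ DvV (p ^ 2) (L 2 - lam • rw3 q p (Sum.inl (a, b, x))) := by
  have hcop : IsCoprime (n : ℤ) ((p : ℤ) ^ 2) := by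
    have h1 : IsCoprime (n : ℤ) (p : ℤ) := Nat.isCoprime_iff_coprime.2 hnp
    exact h1.pow_right
  obtain ⟨n', s, hns⟩ := hcop
  have hns' : (n' : OK q) * n + s * (p : OK q) ^ 2 = 1 := by
    exact_mod_cast congrArg (Int.cast : ℤ → OK q) hns
  have h2h := et_two hp hp2
  obtain ⟨h, hh⟩ : ∃ h, h = et q p := ⟨_, rfl⟩
  obtain ⟨l, hl⟩ : ∃ l : OK q, l = ⟨(a : ℕ), (b : ℕ)⟩ := ⟨_, rfl⟩
  obtain ⟨X, hX⟩ : ∃ X : OK q, X = ((x : ℕ) : OK q) := ⟨_, rfl⟩
  obtain ⟨P, hP⟩ : ∃ P : OK q, P = (p : OK q) := ⟨_, rfl⟩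
  obtain ⟨Nn, hNn⟩ : ∃ P : OK q, P = (n : OK q) := ⟨_, rfl⟩
  have hnm : ((nm l : ℤ) : OK q) = l * star l := nm_eq l
  have hst := star_dl q
  have shX : star X = X := by rw [hX, star_natCast]
  have shP : star P = P := by rw [hP, star_natCast]
  have shN : star Nn = Nn := by rw [hNn, star_natCast]
  have shn : star (n' : OK q) = n' := by rw [star_intCast]
  rw [← hP, ← hNn] at hns'
  rw [← hh] at h2h
  refine ⟨!![1, 0, 0; -(Nn * n' * star l), 1, 0;
    -(Nn ^ 2 * n' ^ 2 * h * (l * star l)) + Nn * n' * X * dl q, Nn * n' * l, 1],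
    !![0, 0, 0; -(n' * star l), 0, 0;
    -(Nn * n' ^ 2 * h * (l * star l)) + n' * X * dl q, n' * l, 0], 1, ?_, ?_, ?_, ?_, ?_⟩
  · ext1 i j
    fin_cases i <;> fin_cases j <;>
      simp [Matrix.mul_apply, Fin.sum_univ_three, JZ, Matrix.conjTranspose_apply, hst, shX, shN,
        shn, star_mul'] <;> first | linear_combination (-(Nn ^ 2 * n' ^ 2 * (l * star l))) * h2h | ring
  · rw [Matrix.det_fin_three]
    simp
  · ext1 i j
    fin_cases i <;> fin_cases j <;> simp [gm, ← hNn] <;> ring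
  · intro h1
    have h3 : ((p : ℕ) : OK q) ∣ ((1 : ℤ) : OK q) := by rw [Int.cast_one]; exact h1
    have h4 := dvd_int.1 h3
    have h5 : p ∣ 1 := by exact_mod_cast h4
    exact hp.prime.one_lt.ne' (Nat.dvd_one.1 h5)
  · intro k
    fin_cases k
    · simp only [rw3, Fin.zero_eta, Fin.isValue, Pi.sub_apply, Pi.smul_apply, smul_eq_mul,
        Matrix.cons_val_zero, Matrix.cons_val_one, Matrix.cons_val_two, Matrix.head_cons,
        Matrix.tail_cons, Matrix.of_apply, one_mul]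
      rw [← hl, ← hX, ← hh, hnm]
      push_cast
      rw [← hP]
      have e : Nn * (n' : OK q) = 1 - s * P ^ 2 := by linear_combination hns'
      refine ⟨h * (l * star l) * (2 * s - s ^ 2 * P ^ 2) - s * X * dl q, ?_⟩
      linear_combination (-(h * (l * star l) * (Nn * n' + (1 - s * P ^ 2))) + X * dl q) * e
    · simp only [rw3, Fin.mk_one, Fin.isValue, Pi.sub_apply, Pi.smul_apply, smul_eq_mul,
        Matrix.cons_val_zero, Matrix.cons_val_one, Matrix.cons_val_two, Matrix.head_cons,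
        Matrix.tail_cons, Matrix.of_apply, one_mul]
      rw [← hl]
      push_cast
      rw [← hP]
      refine ⟨-(s * l), ?_⟩
      have e : Nn * (n' : OK q) = 1 - s * P ^ 2 := by linear_combination hns'
      linear_combination l * e
    · simp [rw3]

lemma T6A_inl {p n : ℕ} (hp : Inert q p) (hnp : Nat.Coprime n p) (a b : Fin p)
    (x : Fin (p ^ 2)) :
    ∃ (L M : M3 q) (lam : OK q), Lᴴ * JZ q * L = JZ q ∧ L.det = 1 ∧ L = gm n 1 M ∧
      ¬(p : OK q) ∣ lam ∧ DvV (p ^ 2) (L 2 - lam • rw3 q p (Sum.inl (a, b, x))) := by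
  by_cases h : p = 2
  · exact T6A_inl_two hp h hnp a b x
  · exact T6A_inl_odd hp h hnp a b x

lemma T6A_inr {p n : ℕ} (hp : Inert q p) (hnp : Nat.Coprime n p) (x : Fin p) :
    ∃ (L M : M3 q) (lam : OK q), Lᴴ * JZ q * L = JZ q ∧ L.det = 1 ∧ L = gm n 1 M ∧
      ¬(p : OK q) ∣ lam ∧ DvV (p ^ 2) (L 2 - lam • rw3 q p (Sum.inr x)) := by
  have hcop : IsCoprime ((p : ℤ) ^ 2) ((n : ℤ) ^ 2 * dd q) := (T6B_coprime hp hnp).pow_left
  obtain ⟨α, β, hab⟩ := hcop
  have hab' : (α : OK q) * (p : OK q) ^ 2 + β * ((n : OK q) ^ 2 * ((dd q : ℤ) : OK q)) = 1 := by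
    exact_mod_cast congrArg (Int.cast : ℤ → OK q) hab
  obtain ⟨X, hX⟩ : ∃ X : OK q, X = ((x : ℕ) : OK q) := ⟨_, rfl⟩
  obtain ⟨P, hP⟩ : ∃ P : OK q, P = (p : OK q) := ⟨_, rfl⟩
  obtain ⟨Nn, hNn⟩ : ∃ P : OK q, P = (n : OK q) := ⟨_, rfl⟩
  obtain ⟨D, hD⟩ : ∃ P : OK q, P = ((dd q : ℤ) : OK q) := ⟨_, rfl⟩
  have hst := star_dl q
  have hdl : dl q * dl q = -D := by rw [hD]; exact T6B_dl_sq
  have shX : star X = X := by rw [hX, star_natCast]
  have shP : star P = P := by rw [hP, star_natCast]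
  have shN : star Nn = Nn := by rw [hNn, star_natCast]
  have shD : star D = D := by rw [hD, star_intCast]
  have shb : star (β : OK q) = β := by rw [star_intCast]
  rw [← hP, ← hNn, ← hD] at hab'
  obtain ⟨K, hK⟩ : ∃ K : OK q, K = -(β * (1 + Nn * P * X * D)) := ⟨_, rfl⟩
  have shK : star K = K := by
    rw [hK]
    simp only [star_neg, star_mul', star_add, star_one, shb, shN, shP, shX, shD]
  refine ⟨!![1, 0, -(Nn * K * dl q); 0, 1, 0; Nn * dl q, 0, 1 + Nn ^ 2 * D * K],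
    !![0, 0, -(K * dl q); 0, 0, 0; dl q, 0, Nn * D * K], Nn * dl q, ?_, ?_, ?_, ?_, ?_⟩
  · ext1 i j
    fin_cases i <;> fin_cases j <;>
      simp [Matrix.mul_apply, Fin.sum_univ_three, JZ, Matrix.conjTranspose_apply, hst, shK, shN,
        shD, star_mul'] <;> first | linear_combination (Nn ^ 2 * K) * hdl | ring
  · rw [Matrix.det_fin_three]
    simp
    linear_combination (Nn ^ 2 * K) * hdl
  · ext1 i j
    fin_cases i <;> fin_cases j <;> simp [gm, ← hNn] <;> ring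
  · intro h1
    rcases hp.dvd_mul h1 with h3 | h3
    · rw [hNn] at h3
      have h4 : ((p : ℕ) : OK q) ∣ (((n : ℕ) : ℤ) : OK q) := by rw [Int.cast_natCast]; exact h3
      have h5 := dvd_int.1 h4
      have h6 : p ∣ n := by exact_mod_cast h5
      exact hp.prime.one_lt.ne' (Nat.Coprime.eq_one_of_dvd (Nat.coprime_comm.1 hnp) h6)
    · exact not_dvd_dl hp h3
  · intro k
    fin_cases k
    · simp [rw3]
    · simp [rw3]
    · simp only [rw3, Fin.reduceFinMk, Fin.isValue, Pi.sub_apply, Pi.smul_apply, smul_eq_mul,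
        Matrix.cons_val_two, Matrix.head_cons, Matrix.tail_cons, Matrix.of_apply]
      rw [← hX]
      push_cast
      rw [← hP]
      refine ⟨α * (1 + Nn * P * X * D), ?_⟩
      rw [hK]
      linear_combination (-(Nn * P * X)) * hdl - (1 + Nn * P * X * D) * hab'

/-- PROOF. `inl (a, b, x)`: let `l₀ = ⟨a, b⟩`, `u` a natural number with `2 n u ≡ 1` modulo `p ^ 2`, `c₀ = 2 n u`,
`n'` with `n n' ≡ 1` modulo `p ^ 2`, `y = n n' x`, `l' = c₀ l₀`, `w = -2 n² u² nm l₀ + y dl`. Then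
`w + star w = -c₀² nm l₀ = -l' star l'`, `L = !![1, 0, 0; -star l', 1, 0; w, l', 1]` satisfies `Lᴴ J L = J`,
`det L = 1`, `L ≡ 1` modulo `n`; its last row is `(w, l', 1) ≡ rw3 (inl (a, b, x))` modulo `p ^ 2`
(`2 (2 n² u²) = c₀² ≡ 1 ≡ 2 h2`, so `2 n² u² ≡ h2`), `lam = 1`.
`inr x`: let `E` be a natural number with `E ≡ 1` modulo `n² dd`, `E ≡ -n p x dd` modulo `p ^ 2` (Chinese
remainder theorem, `gcd (p, n² dd) = 1`: `not_dvd_dd`). `gcd (E, n² dd) = 1`: integers `A`, `B` with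
`A E + n² dd B = 1`; `L = !![A, 0, n B dl; 0, 1, 0; n dl, 0, E]`: `Lᴴ J L = J`, `det L = 1` (`star dl = -dl`,
`dl² = -dd`), `L ≡ 1` modulo `n` (`A ≡ A E ≡ 1`); last row `(n dl, 0, E) ≡ n dl (1, 0, p x dl)` modulo `p ^ 2`,
`lam = n dl`, not divisible by `p`. -/
theorem exists_L {p n : ℕ} (hp : Inert q p) (hn : 1 ≤ n) (hnp : Nat.Coprime n p) (i : Ix p) :
    ∃ (L M : M3 q) (lam : OK q), Lᴴ * JZ q * L = JZ q ∧ L.det = 1 ∧ L = gm n 1 M ∧
      ¬(p : OK q) ∣ lam ∧ DvV (p ^ 2) (L 2 - lam • rw3 q p i) := by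
  rcases i with ⟨a, b, x⟩ | x
  · exact T6A_inl hp hnp a b x
  · exact T6A_inr hp hnp x

end Pool.Agent.Lib.H80D
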