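import Pool.Agent.Lib.H80D.TD

/-!
# TA: the abstract Hecke algebra: definitions
-/

namespace Pool.Agent.Lib.H80D

open Pool.Agent.Lib.H80C

/-- A group with a height function (distance to the base point in a tree, divided by two) and
representatives `s i` of the cosets of height one modulo the subgroup of height zero. -/
structure HT (G : Type) [Group G] (p : ℕ) where
  /-- height -/
  ht : G → ℕ
  one : ht 1 = 0
  inv : ∀ g, ht g⁻¹ = ht g
  left : ∀ g h, ht g = 0 → ht (g * h) = ht h
  /-- representatives of the neighbours of the base point -/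
  s : Ix p → G
  hs : ∀ i, ht (s i) = 1
  le : ∀ i g, ht (s i * g) ≤ ht g + 1
  ge : ∀ i g, ht g ≤ ht (s i * g) + 1
  zero : ∀ i g, ht g = 0 → ht (s i * g) = 1
  down : ∀ g, 1 ≤ ht g → Nat.card {i // ht (s i * g) + 1 = ht g} = 1
  mid : ∀ g, 1 ≤ ht g → Nat.card {i // ht (s i * g) = ht g} = p - 1
  up : ∀ g, 1 ≤ ht g → Nat.card {i // ht (s i * g) = ht g + 1} = p ^ 4

variable {G : Type} [Group G] {p : ℕ}

/-- `R` is a set of representatives of the left cosets (of the subgroup of height zero) of height `m`. -/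
def Reps (T : HT G p) (m : ℕ) (R : Finset G) : Prop :=
  (∀ r ∈ R, T.ht r = m) ∧ ∀ g, T.ht g = m → ∃! r, r ∈ R ∧ T.ht (g * r⁻¹) = 0

/-- The eigenvalue of the `m`-th Hecke operator in terms of the first. -/
noncomputable def ev (p : ℕ) (θ : ℂ) : ℕ → ℂ
  | 0 => 1
  | 1 => θ
  | 2 => (θ - (p - 1)) * θ - (p ^ 4 + p)
  | (m + 3) => (θ - (p - 1)) * ev p θ (m + 2) - p ^ 4 * ev p θ (m + 1)

/-- The subgroup of height zero. -/
def T0 (T : HT G p) : Subgroup G where
  carrier := {g | T.ht g = 0}
  mul_mem' := by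
    intro a b ha hb
    have : T.ht (a * b) = T.ht b := T.left a b ha
    exact this.trans hb
  one_mem' := T.one
  inv_mem' := by
    intro a ha
    exact (T.inv a).trans ha

lemma mem_T0 {T : HT G p} {g : G} : g ∈ T0 T ↔ T.ht g = 0 := Iff.rfl

/-- Height zero on the right. -/
lemma HT.right (T : HT G p) (g h : G) (hh : T.ht h = 0) : T.ht (g * h) = T.ht g := by
  rw [← T.inv, mul_inv_rev, T.left _ _ ((T.inv h).trans hh), T.inv]

end Pool.Agent.Lib.H80D
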