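import Pool.Agent.Lib.H80D.TA

/-!
# TA1: representatives
-/

namespace Pool.Agent.Lib.H80D

open Pool.Agent.Lib.H80C

variable {G : Type} [Group G] {p : ℕ}

/-- Every element of height one is equivalent to exactly one `s i`.
PROOF. `down` for `g⁻¹` (height one): there is exactly one `i` with `ht (s i * g⁻¹) = 0`; and
`ht (g * (s i)⁻¹) = ht ((s i * g⁻¹)⁻¹)`. -/
theorem rep_one (T : HT G p) {g : G} (hg : T.ht g = 1) : ∃! i, T.ht (g * (T.s i)⁻¹) = 0 := by
  have h1 : T.ht g⁻¹ = 1 := (T.inv g).trans hg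
  have h2 := T.down g⁻¹ h1.ge
  rw [Nat.card_eq_one_iff_unique] at h2
  obtain ⟨hsub, ⟨⟨i, hi⟩⟩⟩ := h2
  have h3 : ∀ k, T.ht (g * (T.s k)⁻¹) = T.ht (T.s k * g⁻¹) := by
    intro k
    rw [← T.inv (g * (T.s k)⁻¹)]
    congr 1
    group
  refine ⟨i, ?_, ?_⟩
  · show T.ht (g * (T.s i)⁻¹) = 0
    rw [h3]
    omega
  · intro k hk
    have hk' : T.ht (T.s k * g⁻¹) + 1 = T.ht g⁻¹ := by
      have : T.ht (g * (T.s k)⁻¹) = 0 := hk
      rw [h3] at this
      omega
    have h4 : (⟨k, hk'⟩ : {i // T.ht (T.s i * g⁻¹) + 1 = T.ht g⁻¹}) = ⟨i, hi⟩ :=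
      hsub.elim _ _
    exact congrArg Subtype.val h4

/-- PROOF. By `down` there is `i` with `ht (s i * g) + 1 = ht g`; put `g' = s i * g`. `g = (s i)⁻¹ * g'`, and
`(s i)⁻¹` has height one, so `(s i)⁻¹ = γ * s k` with `ht γ = 0` (`rep_one`). -/
theorem exists_step (T : HT G p) {g : G} (hg : 1 ≤ T.ht g) :
    ∃ (γ : G) (k : Ix p) (g' : G), T.ht γ = 0 ∧ T.ht g' + 1 = T.ht g ∧ g = γ * (T.s k * g') := by
  have h2 := T.down g hg
  rw [Nat.card_eq_one_iff_unique] at h2
  obtain ⟨-, ⟨⟨i, hi⟩⟩⟩ := h2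
  obtain ⟨k, hk, -⟩ := rep_one T (g := (T.s i)⁻¹) ((T.inv _).trans (T.hs i))
  refine ⟨(T.s i)⁻¹ * (T.s k)⁻¹, k, T.s i * g, hk, hi, ?_⟩
  group

/-- PROOF. Induction on `ht g` with `exists_step`, `left`, `le`. -/
theorem ht_mul_le (T : HT G p) (g h : G) : T.ht (g * h) ≤ T.ht g + T.ht h := by
  suffices H : ∀ n, ∀ g, T.ht g = n → T.ht (g * h) ≤ T.ht g + T.ht h from H _ g rfl
  intro n
  induction n with
  | zero =>
    intro g hg
    rw [T.left g h hg]
    omega
  | succ n ih =>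
    intro g hg
    obtain ⟨γ, k, g', h1, h2, h3⟩ := exists_step T (g := g) (by omega)
    have h4 := ih g' (by omega)
    have h5 : T.ht (g * h) = T.ht (T.s k * (g' * h)) := by
      have : g * h = γ * (T.s k * (g' * h)) := by
        rw [h3]
        group
      rw [this, T.left _ _ h1]
    have h6 := T.le k (g' * h)
    omega

/-- Equivalence modulo height zero. -/
def ta1_setoid (T : HT G p) : Setoid G where
  r a b := T.ht (a * b⁻¹) = 0
  iseqv :=
    { refl := fun a => by
        have h : a * a⁻¹ = 1 := mul_inv_cancel a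
        show T.ht (a * a⁻¹) = 0
        rw [h, T.one]
      symm := fun {a b} h => by
        have h' : T.ht (a * b⁻¹) = 0 := h
        show T.ht (b * a⁻¹) = 0
        rw [← T.inv] at h'
        have e : (a * b⁻¹)⁻¹ = b * a⁻¹ := by group
        rwa [e] at h'
      trans := fun {a b c} h1 h2 => by
        have h1' : T.ht (a * b⁻¹) = 0 := h1
        have h2' : T.ht (b * c⁻¹) = 0 := h2
        show T.ht (a * c⁻¹) = 0
        have e : a * c⁻¹ = (a * b⁻¹) * (b * c⁻¹) := by group
        rw [e, T.left _ _ h1', h2'] }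

lemma ta1_symm (T : HT G p) {a b : G} (h : T.ht (a * b⁻¹) = 0) : T.ht (b * a⁻¹) = 0 :=
  (ta1_setoid T).symm h

lemma ta1_trans (T : HT G p) {a b c : G} (h : T.ht (a * b⁻¹) = 0) (h' : T.ht (b * c⁻¹) = 0) :
    T.ht (a * c⁻¹) = 0 := (ta1_setoid T).trans h h'

lemma ta1_self (T : HT G p) (a : G) : T.ht (a * a⁻¹) = 0 := (ta1_setoid T).refl a

lemma ta1_ht (T : HT G p) {a b : G} (h : T.ht (a * b⁻¹) = 0) : T.ht a = T.ht b := by
  have e : a = (a * b⁻¹) * b := by group
  rw [e, T.left _ _ h]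

lemma ta1_f (T : HT G p) {M : Type} {f : G → M} (hf : ∀ γ h, T.ht γ = 0 → f (γ * h) = f h)
    {a b : G} (h : T.ht (a * b⁻¹) = 0) : f a = f b := by
  have e : a = (a * b⁻¹) * b := by group
  rw [e, hf _ _ h]

lemma ta1_finite (T : HT G p) (m : ℕ) :
    {c : Quotient (ta1_setoid T) | T.ht (Quotient.out c) = m}.Finite := by
  induction m with
  | zero =>
    refine (Set.finite_singleton (Quotient.mk (ta1_setoid T) 1)).subset ?_
    intro c hc
    have hc' : T.ht (Quotient.out c) = 0 := hc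
    rw [Set.mem_singleton_iff, ← Quotient.out_eq c]
    apply Quotient.sound
    show T.ht (Quotient.out c * 1⁻¹) = 0
    rw [inv_one, mul_one, hc']
  | succ m ih =>
    refine ((Set.finite_univ (α := Ix p)).prod ih |>.image
      (fun x => Quotient.mk (ta1_setoid T) (T.s x.1 * Quotient.out x.2))).subset ?_
    intro c hc
    have hc' : T.ht (Quotient.out c) = m + 1 := hc
    obtain ⟨γ, k, g', h1, h2, h3⟩ := exists_step T (g := Quotient.out c) (by omega)
    have h4 : T.ht (g' * (Quotient.out (Quotient.mk (ta1_setoid T) g'))⁻¹) = 0 :=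
      ta1_symm T (Quotient.exact (Quotient.out_eq (Quotient.mk (ta1_setoid T) g')))
    set d := Quotient.mk (ta1_setoid T) g' with hd
    set δ := g' * (Quotient.out d)⁻¹ with hδ
    have h5 : T.ht (T.s k * δ) = 1 := (T.right _ _ h4).trans (T.hs k)
    obtain ⟨l, hl, -⟩ := rep_one T h5
    refine ⟨(l, d), ⟨Set.mem_univ _, ?_⟩, ?_⟩
    · show T.ht (Quotient.out d) = m
      have := ta1_ht T h4
      omega
    · show Quotient.mk (ta1_setoid T) (T.s l * Quotient.out d) = c
      conv_rhs => rw [← Quotient.out_eq c]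
      apply Quotient.sound
      apply ta1_symm T
      have e : Quotient.out c * (T.s l * Quotient.out d)⁻¹ = γ * (T.s k * δ * (T.s l)⁻¹) := by
        rw [h3, hδ]
        group
      rw [e, T.left _ _ h1]
      exact hl

/-- PROOF. Induction on `m`: `R₀ = {1}`. Let `R` be representatives of height `m`, and let `C` be the finite set
of all `s k * r`, `k : Ix p`, `r ∈ R`, of height `m + 1`. Every `g` of height `m + 1` is equivalent to an element
of `C`: `g = γ (s k g')` (`exists_step`), `g' = γ' r` with `r ∈ R`; `s k γ'` has height one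
(`HT.right`), so `s k γ' = γ'' s l`, `g = γ γ'' (s l r)`. Choose one element of `C` in each class of the
equivalence relation `ht (g h⁻¹) = 0` (induction on finite sets, or `Quotient.out` on the finite set of
classes). -/
theorem exists_reps (T : HT G p) (m : ℕ) : ∃ R : Finset G, Reps T m R := by
  classical
  refine ⟨(ta1_finite T m).toFinset.image Quotient.out, ?_, ?_⟩
  · intro r hr
    rw [Finset.mem_image] at hr
    obtain ⟨c, hc, rfl⟩ := hr
    rw [Set.Finite.mem_toFinset] at hc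
    exact hc
  · intro g hg
    have h1 : T.ht (g * (Quotient.out (Quotient.mk (ta1_setoid T) g))⁻¹) = 0 :=
      ta1_symm T (Quotient.exact (Quotient.out_eq (Quotient.mk (ta1_setoid T) g)))
    refine ⟨Quotient.out (Quotient.mk (ta1_setoid T) g), ⟨?_, h1⟩, ?_⟩
    · rw [Finset.mem_image]
      refine ⟨Quotient.mk (ta1_setoid T) g, ?_, rfl⟩
      rw [Set.Finite.mem_toFinset]
      exact (ta1_ht T h1).symm.trans hg
    · rintro r ⟨hr, hr2⟩
      rw [Finset.mem_image] at hr
      obtain ⟨c, -, rfl⟩ := hr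
      congr 1
      rw [← Quotient.out_eq c]
      apply Quotient.sound
      exact ta1_symm T hr2

/-- Sums over representatives do not depend on the choice.
PROOF. The map `R → R'` sending `r` to the unique equivalent element is a bijection (`Finset.sum_bij'` or
`Finset.sum_nbij'`), and `f` agrees. -/
theorem reps_sum (T : HT G p) {M : Type} [AddCommMonoid M] {f : G → M}
    (hf : ∀ γ h, T.ht γ = 0 → f (γ * h) = f h) {m : ℕ} {R R' : Finset G} (hR : Reps T m R)
    (hR' : Reps T m R') : ∑ r ∈ R, f r = ∑ r ∈ R', f r := by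
  classical
  refine Finset.sum_bij (fun r hr => (hR'.2 r (hR.1 r hr)).choose) ?_ ?_ ?_ ?_
  · intro r hr
    exact (hR'.2 r (hR.1 r hr)).choose_spec.1.1
  · intro r hr r' hr' h
    have h1 := (hR'.2 r (hR.1 r hr)).choose_spec.1.2
    have h2 := (hR'.2 r' (hR.1 r' hr')).choose_spec.1.2
    rw [← h] at h2
    exact (hR.2 r (hR.1 r hr)).unique ⟨hr, ta1_self T r⟩ ⟨hr', ta1_trans T h1 (ta1_symm T h2)⟩
  · intro r' hr'
    obtain ⟨r, ⟨hr, hr2⟩, -⟩ := hR.2 r' (hR'.1 r' hr')
    refine ⟨r, hr, ?_⟩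
    exact (hR'.2 r (hR.1 r hr)).unique (hR'.2 r (hR.1 r hr)).choose_spec.1
      ⟨hr', ta1_symm T hr2⟩
  · intro r hr
    exact ta1_f T hf (hR'.2 r (hR.1 r hr)).choose_spec.1.2

/-- PROOF. `i ↦` the unique `r ∈ R` equivalent to `s i`; bijective by `rep_one`. -/
theorem reps_one_sum (T : HT G p) {M : Type} [AddCommMonoid M] {f : G → M}
    (hf : ∀ γ h, T.ht γ = 0 → f (γ * h) = f h) {R : Finset G} (hR : Reps T 1 R) :
    ∑ r ∈ R, f r = ∑ i, f (T.s i) := by
  classical
  refine Finset.sum_bij (fun r hr => (rep_one T (hR.1 r hr)).choose) ?_ ?_ ?_ ?_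
  · intro r hr
    exact Finset.mem_univ _
  · intro r hr r' hr' h
    have h1 := (rep_one T (hR.1 r hr)).choose_spec.1
    have h2 := (rep_one T (hR.1 r' hr')).choose_spec.1
    simp only at h1 h2 h
    rw [← h] at h2
    exact (hR.2 r (hR.1 r hr)).unique ⟨hr, ta1_self T r⟩ ⟨hr', ta1_trans T h1 (ta1_symm T h2)⟩
  · intro i _
    obtain ⟨r, ⟨hr, hr2⟩, -⟩ := hR.2 (T.s i) (T.hs i)
    refine ⟨r, hr, ?_⟩
    exact (rep_one T (hR.1 r hr)).unique (rep_one T (hR.1 r hr)).choose_spec.1 (ta1_symm T hr2)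
  · intro r hr
    exact ta1_f T hf (rep_one T (hR.1 r hr)).choose_spec.1

end Pool.Agent.Lib.H80D
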