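import Pool.Agent.Lib.H80D.TA1

/-!
# TA2: the Hecke operators on eigenfunctions
-/

namespace Pool.Agent.Lib.H80D

open Pool.Agent.Lib.H80C

variable {G : Type} [Group G] {p : ℕ}

theorem TA2_symm (T : HT G p) (a b : G) : T.ht (a * b⁻¹) = T.ht (b * a⁻¹) := by
  rw [← T.inv (a * b⁻¹), mul_inv_rev, inv_inv]

theorem TA2_congr (T : HT G p) {a b : G} (h : T.ht (a * b⁻¹) = 0) (c : G) :
    T.ht (a * c) = T.ht (b * c) := by
  have e : a * c = (a * b⁻¹) * (b * c) := by group
  rw [e, T.left _ _ h]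

theorem TA2_congr' (T : HT G p) {a b : G} (h : T.ht (a * b⁻¹) = 0) : T.ht a = T.ht b := by
  have := TA2_congr T h 1
  rwa [mul_one, mul_one] at this

theorem TA2_inv (T : HT G p) (a b c : G) : T.ht (a * (b * c)⁻¹) = T.ht (b * (a * c⁻¹)⁻¹) := by
  rw [TA2_symm T a (b * c)]
  congr 1
  group

/-- the number of pairs over a given class -/
theorem TA2_card (T : HT G p) {m : ℕ} {R1 : Finset G} (h1 : Reps T m R1) (ξ : G) [DecidableEq G] :
    ((R1 ×ˢ (Finset.univ : Finset (Ix p))).filter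
      fun x => T.ht (T.s x.2 * x.1 * ξ⁻¹) = 0).card = Nat.card {k // T.ht (T.s k * ξ) = m} := by
  classical
  rw [Nat.card_eq_fintype_card, Fintype.card_subtype]
  have hk : ∀ x ∈ (R1 ×ˢ (Finset.univ : Finset (Ix p))).filter
      (fun x => T.ht (T.s x.2 * x.1 * ξ⁻¹) = 0), ∃! k, T.ht (x.1 * ξ⁻¹ * (T.s k)⁻¹) = 0 := by
    intro x hx
    rw [Finset.mem_filter] at hx
    apply rep_one
    rw [TA2_symm]
    have h2 : T.ht (ξ * x.1⁻¹ * (T.s x.2)⁻¹) = 0 := by
      rw [← hx.2, TA2_symm]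
      congr 1
      group
    rw [TA2_congr' T h2, T.hs]
  choose κ hκ hκu using hk
  refine Finset.card_bij (fun x hx => κ x hx) ?_ ?_ ?_
  · intro x hx
    have h2 := hκ x hx
    have hx' := hx
    rw [Finset.mem_filter, Finset.mem_product] at hx'
    rw [Finset.mem_filter]
    refine ⟨Finset.mem_univ _, ?_⟩
    have h3 : T.ht (T.s (κ x hx) * ξ * x.1⁻¹) = 0 := by
      rw [← h2, TA2_symm]
      congr 1
      group
    rw [TA2_congr' T h3]
    exact h1.1 _ hx'.1.1
  · intro x hx y hy hxy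
    have h2 := hκ x hx
    have h3 := hκ y hy
    have hx' := hx
    have hy' := hy
    rw [Finset.mem_filter, Finset.mem_product] at hx' hy'
    have h4 : T.ht (T.s (κ x hx) * ξ * x.1⁻¹) = 0 := by
      rw [← h2, TA2_symm]
      congr 1
      group
    have h5 : T.ht (T.s (κ x hx) * ξ * y.1⁻¹) = 0 := by
      rw [← h3, TA2_symm, hxy]
      congr 1
      group
    have h6 : x.1 = y.1 := by
      refine (h1.2 (T.s (κ x hx) * ξ) ?_).unique ⟨hx'.1.1, h4⟩ ⟨hy'.1.1, h5⟩
      rw [TA2_congr' T h4]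
      exact h1.1 _ hx'.1.1
    have hu : ∀ i, T.ht (T.s i * x.1 * ξ⁻¹) = 0 → T.ht (ξ * x.1⁻¹ * (T.s i)⁻¹) = 0 := by
      intro i hi
      rw [← hi, TA2_symm]
      congr 1
      group
    have h7 : x.2 = y.2 := by
      have h8 := hu x.2 hx'.2
      have h9 : T.ht (T.s y.2 * x.1 * ξ⁻¹) = 0 := by
        rw [h6]
        exact hy'.2
      refine (rep_one T (g := ξ * x.1⁻¹) ?_).unique h8 (hu y.2 h9)
      rw [TA2_congr' T h8, T.hs]
    exact Prod.ext h6 h7
  · intro k hk
    rw [Finset.mem_filter] at hk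
    obtain ⟨r, ⟨hr, hr2⟩, -⟩ := h1.2 (T.s k * ξ) hk.2
    have h2 : T.ht (r * ξ⁻¹ * (T.s k)⁻¹) = 0 := by
      rw [← TA2_symm, ← hr2]
      congr 1
      group
    have h3 : T.ht (ξ * r⁻¹) = 1 := by
      rw [TA2_symm, TA2_congr' T h2, T.hs]
    obtain ⟨i, hi, -⟩ := rep_one T h3
    have hx : (r, i) ∈ (R1 ×ˢ (Finset.univ : Finset (Ix p))).filter
      (fun x => T.ht (T.s x.2 * x.1 * ξ⁻¹) = 0) := by
      rw [Finset.mem_filter, Finset.mem_product]
      refine ⟨⟨hr, Finset.mem_univ _⟩, ?_⟩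
      rw [← hi, TA2_symm]
      congr 1
      group
    refine ⟨(r, i), hx, ?_⟩
    exact (hκu (r, i) hx k h2).symm

theorem TA2_part (T : HT G p) {f : G → ℂ} (hf : ∀ γ h, T.ht γ = 0 → f (γ * h) = f h) {m j : ℕ}
    {R1 R : Finset G} (h1 : Reps T m R1) (hR : Reps T j R) :
    ∑ x ∈ (R1 ×ˢ (Finset.univ : Finset (Ix p))).filter (fun x => T.ht (T.s x.2 * x.1) = j),
      f (T.s x.2 * x.1) = ∑ ξ ∈ R, (Nat.card {k // T.ht (T.s k * ξ) = m} : ℂ) * f ξ := by
  classical
  calc _ = ∑ x ∈ (R1 ×ˢ (Finset.univ : Finset (Ix p))).filter (fun x => T.ht (T.s x.2 * x.1) = j),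
      ∑ ξ ∈ R, if T.ht (T.s x.2 * x.1 * ξ⁻¹) = 0 then f ξ else 0 := by
        refine Finset.sum_congr rfl fun x hx => ?_
        rw [Finset.mem_filter] at hx
        obtain ⟨ξ, ⟨hξ, h0⟩, hu⟩ := hR.2 _ hx.2
        rw [Finset.sum_eq_single ξ, if_pos h0]
        · have e : T.s x.2 * x.1 = (T.s x.2 * x.1 * ξ⁻¹) * ξ := by group
          rw [e, hf _ _ h0]
        · intro ξ' hξ' hne
          rw [if_neg]
          intro h2
          exact hne (hu ξ' ⟨hξ', h2⟩)
        · intro h2
          exact absurd hξ h2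
    _ = ∑ ξ ∈ R, ∑ x ∈ (R1 ×ˢ (Finset.univ : Finset (Ix p))).filter
      (fun x => T.ht (T.s x.2 * x.1) = j), if T.ht (T.s x.2 * x.1 * ξ⁻¹) = 0 then f ξ else 0 :=
        Finset.sum_comm
    _ = _ := by
        refine Finset.sum_congr rfl fun ξ hξ => ?_
        rw [← Finset.sum_filter, Finset.sum_const, nsmul_eq_mul, Finset.filter_filter,
          ← TA2_card T h1 ξ]
        congr 3
        ext x
        rw [Finset.mem_filter, Finset.mem_filter]
        constructor
        · rintro ⟨h2, -, h3⟩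
          exact ⟨h2, h3⟩
        · rintro ⟨h2, h3⟩
          refine ⟨h2, ?_, h3⟩
          rw [TA2_congr' T h3]
          exact hR.1 ξ hξ

/-- The multiplicities in the product of two Hecke operators.

PROOF. Both sides are sums over equivalence classes: for `r ∈ R` and `i`, `s i * r` has height `m - 1`, `m` or
`m + 1` and is equivalent to exactly one element `ξ` of `R₋`, `R`, `R₊` (representatives of heights `m - 1`, `m`,
`m + 1`), and `f (s i * r) = f ξ`. For given `ξ` the number of pairs `(i, r)` with `s i * r` equivalent to `ξ` is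
the number of `r ∈ R` with `ht (r ξ⁻¹) = 1` (for such `r` also `ht (ξ r⁻¹) = 1` and `ξ r⁻¹` is equivalent to
exactly one `s i`, `rep_one`), and this is the number of `k` with `ht (s k * ξ) = m` (each such `s k ξ` is
equivalent to exactly one `r ∈ R`, and `r ξ⁻¹` of height one is equivalent to exactly one `s k`). By `down`,
`mid`, `up` this number is `1` for `ht ξ = m + 1`, `p - 1` for `ht ξ = m ≥ 1`, and for `ht ξ = m - 1` it is `p ^ 4` if
`m ≥ 2` and `p ^ 4 + p` if `m = 1` (`zero`, `card_Ix`). -/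
theorem hecke_mul (T : HT G p) {f : G → ℂ} (hf : ∀ γ h, T.ht γ = 0 → f (γ * h) = f h) {m : ℕ}
    (hm : 1 ≤ m) {R0 R1 R2 : Finset G} (h0 : Reps T (m - 1) R0) (h1 : Reps T m R1)
    (h2 : Reps T (m + 1) R2) :
    ∑ r ∈ R1, ∑ i, f (T.s i * r) = ∑ r ∈ R2, f r + ((p - 1 : ℕ) : ℂ) * ∑ r ∈ R1, f r +
      (if m = 1 then ((p ^ 4 + p : ℕ) : ℂ) else ((p ^ 4 : ℕ) : ℂ)) * ∑ r ∈ R0, f r := by
  classical
  have e0 : ∑ r ∈ R1, ∑ i, f (T.s i * r) =
      ∑ x ∈ R1 ×ˢ (Finset.univ : Finset (Ix p)), f (T.s x.2 * x.1) := by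
    rw [Finset.sum_product]
  have e1 : ∀ x ∈ R1 ×ˢ (Finset.univ : Finset (Ix p)), f (T.s x.2 * x.1) =
      (if T.ht (T.s x.2 * x.1) = m + 1 then f (T.s x.2 * x.1) else 0) +
      (if T.ht (T.s x.2 * x.1) = m then f (T.s x.2 * x.1) else 0) +
      (if T.ht (T.s x.2 * x.1) = m - 1 then f (T.s x.2 * x.1) else 0) := by
    intro x hx
    rw [Finset.mem_product] at hx
    have h3 := h1.1 _ hx.1
    have h4 := T.le x.2 x.1
    have h5 := T.ge x.2 x.1
    rw [h3] at h4 h5
    have h6 : T.ht (T.s x.2 * x.1) = m + 1 ∨ T.ht (T.s x.2 * x.1) = m ∨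
      T.ht (T.s x.2 * x.1) = m - 1 := by omega
    rcases h6 with h6 | h6 | h6
    · rw [if_pos h6, if_neg (by omega), if_neg (by omega), add_zero, add_zero]
    · rw [if_neg (by omega), if_pos h6, if_neg (by omega), add_zero, zero_add]
    · rw [if_neg (by omega), if_neg (by omega), if_pos h6, add_zero, zero_add]
  rw [e0, Finset.sum_congr rfl e1, Finset.sum_add_distrib, Finset.sum_add_distrib,
    ← Finset.sum_filter, ← Finset.sum_filter, ← Finset.sum_filter, TA2_part T hf h1 h2,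
    TA2_part T hf h1 h1, TA2_part T hf h1 h0]
  congr 1
  · congr 1
    · refine Finset.sum_congr rfl fun ξ hξ => ?_
      have h3 := h2.1 ξ hξ
      have h4 : Nat.card {k // T.ht (T.s k * ξ) = m} = 1 := by
        rw [← T.down ξ (by omega)]
        refine Nat.card_congr (Equiv.subtypeEquivRight fun k => ?_)
        omega
      rw [h4, Nat.cast_one, one_mul]
    · rw [Finset.mul_sum]
      refine Finset.sum_congr rfl fun ξ hξ => ?_
      have h3 := h1.1 ξ hξ
      have h4 : Nat.card {k // T.ht (T.s k * ξ) = m} = p - 1 := by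
        rw [← T.mid ξ (by omega)]
        refine Nat.card_congr (Equiv.subtypeEquivRight fun k => ?_)
        omega
      rw [h4]
  · rw [Finset.mul_sum]
    refine Finset.sum_congr rfl fun ξ hξ => ?_
    have h3 := h0.1 ξ hξ
    by_cases hm1 : m = 1
    · rw [if_pos hm1]
      have h4 : Nat.card {k // T.ht (T.s k * ξ) = m} = p ^ 4 + p := by
        rw [← card_Ix p, ← Nat.card_eq_fintype_card]
        refine Nat.card_congr (Equiv.subtypeUnivEquiv fun k => ?_)
        rw [hm1]
        exact T.zero k ξ (by omega)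
      rw [h4]
    · rw [if_neg hm1]
      have h4 : Nat.card {k // T.ht (T.s k * ξ) = m} = p ^ 4 := by
        rw [← T.up ξ (by omega)]
        refine Nat.card_congr (Equiv.subtypeEquivRight fun k => ?_)
        omega
      rw [h4]

/-- PROOF. Fix `g` and put `F r = f (r * g)`. Induction on `m` (two previous values), `exists_reps`,
`hecke_mul` for `F`: `∑_i F (s i * r) = θ F r` by `hθ` (`s i * r * g = s i * (r * g)`). `m = 0`: `reps_sum` with
`{1}`; `m = 1`: `reps_one_sum`. -/
theorem hecke_pow (T : HT G p) (hp : 1 ≤ p) {f : G → ℂ}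
    (hf : ∀ γ h, T.ht γ = 0 → f (γ * h) = f h) {θ : ℂ}
    (hθ : ∀ g, ∑ i, f (T.s i * g) = θ * f g) {m : ℕ} {R : Finset G} (hR : Reps T m R) (g : G) :
    ∑ r ∈ R, f (r * g) = ev p θ m * f g := by
  have hF : ∀ γ h, T.ht γ = 0 → (fun r => f (r * g)) (γ * h) = (fun r => f (r * g)) h := by
    intro γ h hγ
    simp only
    rw [mul_assoc, hf _ _ hγ]
  have hp1 : ((p - 1 : ℕ) : ℂ) = (p : ℂ) - 1 := by
    rw [Nat.cast_sub hp, Nat.cast_one]
  induction m using Nat.strong_induction_on generalizing R with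
  | _ m ih =>
    match m, ih, hR with
    | 0, _, hR =>
      have h1 : Reps T 0 {1} := by
        refine ⟨fun r hr => ?_, fun h hh => ⟨1, ⟨Finset.mem_singleton_self _, ?_⟩, ?_⟩⟩
        · rw [Finset.mem_singleton.1 hr]
          exact T.one
        · rw [inv_one, mul_one]
          exact hh
        · rintro r ⟨hr, -⟩
          exact Finset.mem_singleton.1 hr
      have h2 := reps_sum T (f := fun r => f (r * g)) hF hR h1
      rw [Finset.sum_singleton, one_mul] at h2
      rw [h2, ev, one_mul]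
    | 1, _, hR =>
      have h2 := reps_one_sum T (f := fun r => f (r * g)) hF hR
      rw [h2, hθ, ev]
    | (n + 2), ih, hR =>
      obtain ⟨R0, hR0⟩ := exists_reps T n
      obtain ⟨R1, hR1⟩ := exists_reps T (n + 1)
      have h3 := hecke_mul T (f := fun r => f (r * g)) hF (m := n + 1) (by omega) hR0 hR1 hR
      have h4 : ∑ r ∈ R1, ∑ i, (fun r => f (r * g)) (T.s i * r) = θ * ∑ r ∈ R1, f (r * g) := by
        rw [Finset.mul_sum]
        refine Finset.sum_congr rfl fun r _ => ?_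
        simp only
        rw [← hθ]
        refine Finset.sum_congr rfl fun i _ => ?_
        rw [mul_assoc]
      rw [h4, hp1] at h3
      have h5 := ih n (by omega) hR0
      have h6 := ih (n + 1) (by omega) hR1
      rw [h5, h6] at h3
      match n, h3 with
      | 0, h3 =>
        rw [if_pos rfl] at h3
        have h7 : ev p θ 0 = 1 := rfl
        have h8 : ev p θ (0 + 1) = θ := rfl
        have h9 : ev p θ (0 + 2) = (θ - (p - 1)) * θ - (p ^ 4 + p) := rfl
        rw [h7, h8] at h3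
        rw [h9]
        push_cast at h3
        linear_combination -h3
      | (k + 1), h3 =>
        rw [if_neg (by omega)] at h3
        have h9 : ev p θ (k + 1 + 2) = (θ - (p - 1)) * ev p θ (k + 2) - p ^ 4 * ev p θ (k + 1) := rfl
        have h8 : ev p θ (k + 1 + 1) = ev p θ (k + 2) := rfl
        rw [h8] at h3
        rw [h9]
        push_cast at h3
        linear_combination -h3

end Pool.Agent.Lib.H80D
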