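import Pool.Agent.Lib.H80C.Defs

/-!
# TD: definitions of the part on the tree (a prime `p`, inert in the order; `p = 2` allowed)

`GE p j A` : `Aᴴ J A = p ^ (2 j) J`, `det A = p ^ (3 j)`. Rows `r : Fin 3 → OK q`; `r ᵥ* A` is the product
of a row and a matrix. Divisibility by `p` or `p ^ 2` always means divisibility in `OK q`.
-/

namespace Pool.Agent.Lib.H80D

open Matrix
open Pool.Agent.Lib.H80C

variable {q : QF}

/-- `p` is a prime, inert in the order. -/
structure Inert (q : QF) (p : ℕ) : Prop where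
  prime : p.Prime
  inert : ∀ z : OK q, (p : ℤ) ∣ nm z → (p : OK q) ∣ z

/-- Integral matrices `A = p ^ j g`, `g` in `SU(2,1)`. -/
def GE (p j : ℕ) (A : M3 q) : Prop :=
  Aᴴ * JZ q * A = ((p : OK q) ^ (2 * j)) • JZ q ∧ A.det = (p : OK q) ^ (3 * j)

/-- All entries of a vector are divisible by `m`. -/
def DvV (m : ℕ) (r : Fin 3 → OK q) : Prop := ∀ k, (m : OK q) ∣ r k

/-- All entries of a matrix are divisible by `m`. -/
def DvM (m : ℕ) (A : M3 q) : Prop := ∀ i k, (m : OK q) ∣ A i k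

/-- The Hermitian form on rows. -/
def fr (v r : Fin 3 → OK q) : OK q := v 0 * star (r 2) + v 1 * star (r 1) + v 2 * star (r 0)

/-- The index set of the neighbours: `p ^ 4 + p` elements. -/
abbrev Ix (p : ℕ) : Type := (Fin p × Fin p × Fin (p ^ 2)) ⊕ Fin p

/-- The inverse of `2` modulo `p ^ 2` (`p` odd). -/
def h2 (p : ℕ) : ℕ := (p ^ 2 + 1) / 2

/-- An element of trace one modulo `p ^ 2`: the inverse of `2` modulo `p ^ 2` if `p` is odd, and
`(1 - t) / 2 + ω`, of trace one, if `p = 2` (inert, so `t` is odd). -/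
def et (q : QF) (p : ℕ) : OK q := if p = 2 then ⟨(1 - q.t) / 2, 1⟩ else ((h2 p : ℕ) : OK q)

/-- The rows representing the neighbours: `(-η |l|² + x δ, l, 1)` (`η` of trace one modulo `p ^ 2`), `l` modulo `p`, `x` modulo `p ^ 2`,
and `(1, 0, p x δ)`, `x` modulo `p`. -/
def rw3 (q : QF) (p : ℕ) : Ix p → Fin 3 → OK q
  | Sum.inl (a, b, x) => ![-(et q p * ((nm (⟨(a : ℕ), (b : ℕ)⟩ : OK q) : ℤ) : OK q)) +
      ((x : ℕ) : OK q) * dl q, ⟨(a : ℕ), (b : ℕ)⟩, 1]
  | Sum.inr x => ![1, 0, (p : OK q) * ((x : ℕ) : OK q) * dl q]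

/-- `r` is a primitive row of the lattice spanned by the rows of `S`: it lies in the lattice modulo
`p ^ 2`, and all rows of `S` are, modulo `p ^ 2`, of the form `α r + p v` with `v ⊥ r` modulo `p`. -/
def HasRow (p : ℕ) (S : M3 q) (r : Fin 3 → OK q) : Prop :=
  (∃ c : Fin 3 → OK q, DvV (p ^ 2) (c ᵥ* S - r)) ∧
    ∀ i, ∃ (α : OK q) (v : Fin 3 → OK q), DvV (p ^ 2) (S i - α • r - (p : OK q) • v) ∧
      (p : OK q) ∣ fr v r

/-! ### Basic facts -/

lemma Inert.pos {p : ℕ} (h : Inert q p) : 0 < p := h.prime.pos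

lemma Inert.dvd_mul {p : ℕ} (h : Inert q p) {z w : OK q} (hzw : (p : OK q) ∣ z * w) :
    (p : OK q) ∣ z ∨ (p : OK q) ∣ w := by
  obtain ⟨y, hy⟩ := hzw
  have h1 : ((nm z * nm w : ℤ) : OK q) = ((p * (p * nm y) : ℤ) : OK q) := by
    push_cast
    rw [nm_eq, nm_eq, nm_eq]
    have h2 := congrArg star hy
    simp only [star_mul', star_natCast] at h2
    calc z * star z * (w * star w) = (z * w) * (star z * star w) := by ring
      _ = (p * y) * (p * star y) := by rw [hy, h2]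
      _ = _ := by ring
  have h2 : nm z * nm w = p * (p * nm y) := by exact_mod_cast h1
  have h3 : (p : ℤ) ∣ nm z * nm w := ⟨_, h2⟩
  rcases Int.Prime.dvd_mul' h.prime h3 with h4 | h4
  · exact Or.inl (h.inert z h4)
  · exact Or.inr (h.inert w h4)

lemma dvd_int {m : ℕ} {t : ℤ} : (m : OK q) ∣ (t : OK q) ↔ (m : ℤ) ∣ t := by
  constructor
  · rintro ⟨y, hy⟩
    refine ⟨y.re, ?_⟩
    have := congrArg QuadraticAlgebra.re hy
    simpa using this
  · rintro ⟨y, rfl⟩
    exact ⟨(y : OK q), by push_cast; ring⟩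

lemma Inert.t_odd {p : ℕ} (hp : Inert q p) (h2 : p = 2) : ∃ k : ℤ, q.t = 2 * k + 1 := by
  rcases Int.even_or_odd q.t with h | h
  · exfalso
    obtain ⟨k, hk⟩ := h
    have h1 : (p : ℤ) ∣ nm (⟨q.n, 1⟩ : OK q) := by
      rw [h2]
      unfold nm
      have h3 : (2 : ℤ) ∣ q.n ^ 2 + q.n := by
        rw [show q.n ^ 2 + q.n = q.n * (q.n + 1) by ring]
        exact (Int.even_mul_succ_self q.n).two_dvd
      obtain ⟨c, hc⟩ := h3
      exact ⟨c + k * q.n, by push_cast; rw [hk]; linear_combination hc⟩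
    obtain ⟨y, hy⟩ := hp.inert _ h1
    have h4 := congrArg QuadraticAlgebra.im hy
    have h5 : (1 : ℤ) = p * y.im := by simpa using h4
    rw [h2] at h5
    push_cast at h5
    omega
  · exact h

lemma two_h2 {p : ℕ} (hp : Inert q p) (h : p ≠ 2) : 2 * h2 p = p ^ 2 + 1 := by
  unfold h2
  have h1 : p % 2 = 1 := by
    rcases hp.prime.eq_two_or_odd with h' | h'
    · exact absurd h' h
    · exact h'
  have h3 : (p ^ 2 + 1) % 2 = 0 := by
    rw [Nat.add_mod, Nat.pow_mod, h1]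
  omega

lemma et_two {p : ℕ} (hp : Inert q p) (h : p = 2) : et q p + star (et q p) = 1 := by
  obtain ⟨k, hk⟩ := hp.t_odd h
  have h5 : (1 - q.t) / 2 = -k := by
    rw [hk]
    omega
  rw [et, if_pos h]
  apply QuadraticAlgebra.ext
  · simp only [QuadraticAlgebra.re_add, QuadraticAlgebra.re_star, QuadraticAlgebra.re_one]
    rw [h5]
    linear_combination hk
  · simp only [QuadraticAlgebra.im_add, QuadraticAlgebra.im_star, QuadraticAlgebra.im_one]
    ring

lemma et_tr {p : ℕ} (hp : Inert q p) : ∃ c : ℤ, et q p + star (et q p) = 1 + (p : OK q) ^ 2 * (c : OK q) := by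
  by_cases h : p = 2
  · refine ⟨0, ?_⟩
    rw [et_two hp h]
    simp
  · refine ⟨1, ?_⟩
    rw [et, if_neg h, star_natCast]
    have h5 := congrArg (fun n : ℕ => (n : OK q)) (two_h2 hp h)
    push_cast at h5
    push_cast
    linear_combination h5

lemma card_Ix (p : ℕ) : Fintype.card (Ix p) = p ^ 4 + p := by
  simp only [Fintype.card_sum, Fintype.card_prod, Fintype.card_fin]
  ring

end Pool.Agent.Lib.H80D
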