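import Pool.Agent.Lib.H80D.TG

/-!
# TG1: heights and integral matrices
-/

namespace Pool.Agent.Lib.H80D

open Matrix hiding J
open Pool.Agent.Lib.H80C
open Pool.Agent.Lib.H56.Picard hiding O Gam mem_Gam star_mem_O T_mem sg_mem
open Pool.Agent.Lib.H56.Gen hiding dd dd_pos

theorem toC_el' (q : QD) (a b : ℤ) : toC (qd q) ⟨a, b⟩ = el q a b := by
  rw [toC_apply]
  apply Complex.ext
  · rw [el_re]
    simp [omC, qd]
    ring
  · rw [el_im]
    simp [omC, qd, sd, H80C.dd, Pool.Agent.Lib.H56.Gen.dd]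
    ring

/-- PROOF. `x = el q a b` (`toC_el'`); `toC` is injective. -/
theorem mem_OO_iff (q : QD) {x : ℂ} : x ∈ OO q ↔ ∃ z : OK (qd q), x = toC (qd q) z := by
  constructor
  · rintro ⟨a, b, rfl⟩
    exact ⟨⟨a, b⟩, (toC_el' q a b).symm⟩
  · rintro ⟨⟨a, b⟩, rfl⟩
    exact ⟨a, b, toC_el' q a b⟩

lemma tg1_J (q : QF) : (JZ q).map (toC q) = J := by
  ext i k
  fin_cases i <;> fin_cases k <;> simp [JZ, J]

lemma tg1_map_injective {q : QF} {A B : M3 q} (h : A.map (toC q) = B.map (toC q)) : A = B :=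
  Matrix.map_injective toC_injective h

lemma tg1_smul {q : QF} (c : OK q) (A : M3 q) : (c • A).map (toC q) = toC q c • A.map (toC q) := by
  ext i k
  simp

lemma tg1_GE {q : QF} {p j : ℕ} {A : M3 q} : GE p j A ↔
    (A.map (toC q))ᴴ * J * A.map (toC q) = ((p : ℂ) ^ (2 * j)) • J ∧
      (A.map (toC q)).det = (p : ℂ) ^ (3 * j) := by
  have h1 : (A.map (toC q))ᴴ = Aᴴ.map (toC q) := by
    ext i k
    simp [Matrix.conjTranspose_apply, toC_star]
  have h2 : (A.map (toC q))ᴴ * J * A.map (toC q) = (Aᴴ * JZ q * A).map (toC q) := by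
    rw [h1, ← tg1_J q, ← Matrix.map_mul, ← Matrix.map_mul]
  have h3 : ((p : ℂ) ^ (2 * j)) • J = (((p : OK q) ^ (2 * j)) • JZ q).map (toC q) := by
    rw [tg1_smul, tg1_J, map_pow, map_natCast]
  have h4 : (A.map (toC q)).det = toC q A.det := by
    rw [RingHom.map_det]
    rfl
  have h5 : (p : ℂ) ^ (3 * j) = toC q ((p : OK q) ^ (3 * j)) := by
    rw [map_pow, map_natCast]
  rw [h2, h3, h4, h5]
  constructor
  · rintro ⟨h6, h7⟩
    exact ⟨by rw [h6], by rw [h7]⟩
  · rintro ⟨h6, h7⟩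
    exact ⟨tg1_map_injective h6, toC_injective h7⟩

lemma tg1_gm {q : QF} {n P : ℕ} {M : M3 q} (i k : Fin 3) :
    toC q (gm n P M i k) = (P : ℂ) * (1 : Matrix (Fin 3) (Fin 3) ℂ) i k + n * toC q (M i k) := by
  unfold gm
  rw [Matrix.add_apply, Matrix.smul_apply, Matrix.smul_apply, map_add, smul_eq_mul, smul_eq_mul,
    map_mul, map_mul, map_natCast, map_natCast, Matrix.one_apply, Matrix.one_apply]
  split_ifs <;> simp

lemma tg1_GE_of {q : QD} {p j : ℕ} {g : SU21} {A : M3 (qd q)}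
    (h : ∀ i k, (p : ℂ) ^ j * mat g i k = toC (qd q) (A i k)) : GE p j A := by
  have h1 : A.map (toC (qd q)) = ((p : ℂ) ^ j) • mat g := by
    ext i k
    rw [Matrix.map_apply, ← h i k, Matrix.smul_apply, smul_eq_mul]
  rw [tg1_GE, h1, Matrix.conjTranspose_smul, Matrix.det_smul, Fintype.card_fin]
  refine ⟨?_, ?_⟩
  · rw [Matrix.smul_mul, Matrix.smul_mul, Matrix.mul_smul, smul_smul, mat_unitary]
    congr 1
    rw [star_pow, star_natCast]
    ring
  · have h2 : (mat g).det = 1 := g.2.2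
    rw [h2]
    ring

lemma tg1_det {q : QD} {p : ℕ} (hp : p.Prime) {g : SU21}
    (h : ∀ i k, ∃ x ∈ OO q, mat g i k = p * x) : False := by
  choose x hx hxe using h
  have h1 : ∀ i k, ∃ z : OK (qd q), x i k = toC (qd q) z := fun i k => (mem_OO_iff q).1 (hx i k)
  choose z hz using h1
  have h2 : mat g = (p : ℂ) • (Matrix.of z).map (toC (qd q)) := by
    ext i k
    rw [hxe i k, hz i k]
    simp
  have h3 : (mat g).det = 1 := g.2.2
  rw [h2, Matrix.det_smul, Fintype.card_fin] at h3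
  have h4 : ((Matrix.of z).map (toC (qd q))).det = toC (qd q) (Matrix.of z).det := by
    rw [RingHom.map_det]
    rfl
  rw [h4] at h3
  have h5 : toC (qd q) ((p : OK (qd q)) ^ 3 * (Matrix.of z).det) = toC (qd q) 1 := by
    rw [map_mul, map_pow, map_natCast, map_one]
    exact h3
  have h6 := toC_injective h5
  have h7 : (p : OK (qd q)) ∣ ((1 : ℤ) : OK (qd q)) := by
    rw [Int.cast_one, ← h6]
    exact ⟨(p : OK (qd q)) ^ 2 * (Matrix.of z).det, by ring⟩
  rw [dvd_int] at h7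
  have h8 : (p : ℤ) = 1 := Int.eq_one_of_dvd_one (by positivity) h7
  have := hp.one_lt
  omega

/-- PROOF. Write `p ^ j (mat g i k - δ) = n toC (M i k)` and `A = gm n (p ^ j) M`; unitarity and determinant
one of `mat g` give `GE p j A` (`toC` is injective and compatible with `star`, `toC_star`; `map_star`,
`Matrix.map`); non-divisibility by `mem_OO_iff`. Conversely. -/
theorem hgt_iff {q : QD} {p n j : ℕ} (hp : 1 ≤ p) {g : SU21} :
    Hgt q p n j g ↔ ∃ A, MatOf q p n j g A := by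
  constructor
  · rintro ⟨h1, i0, k0, h2⟩
    choose x hx hxe using h1
    have h3 : ∀ i k, ∃ z : OK (qd q), x i k = toC (qd q) z := fun i k => (mem_OO_iff q).1 (hx i k)
    choose M hM using h3
    have h4 : ∀ i k, (p : ℂ) ^ j * mat g i k = toC (qd q) (gm n (p ^ j) (Matrix.of M) i k) := by
      intro i k
      rw [tg1_gm, Matrix.of_apply, ← hM i k, ← hxe i k]
      push_cast
      ring
    refine ⟨gm n (p ^ j) (Matrix.of M), tg1_GE_of h4, ?_, ⟨_, rfl⟩, h4⟩
    intro h5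
    obtain ⟨y, hy⟩ := h5 i0 k0
    refine h2 (toC (qd q) y) ((mem_OO_iff q).2 ⟨y, rfl⟩) ?_
    rw [h4, hy, map_mul, map_natCast]
  · rintro ⟨A, -, h1, ⟨M, rfl⟩, h3⟩
    refine ⟨fun i k => ⟨toC (qd q) (M i k), (mem_OO_iff q).2 ⟨_, rfl⟩, ?_⟩, ?_⟩
    · rw [mul_sub, h3, tg1_gm]
      push_cast
      ring
    · by_contra hcon
      push Not at hcon
      apply h1
      intro i k
      obtain ⟨x, hx, hxe⟩ := hcon i k
      obtain ⟨z, rfl⟩ := (mem_OO_iff q).1 hx
      refine ⟨z, toC_injective ?_⟩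
      rw [← h3, hxe, map_mul, map_natCast]

theorem mat_unique {q : QD} {p n j : ℕ} {g : SU21} {A A' : M3 (qd q)}
    (h : MatOf q p n j g A) (h' : MatOf q p n j g A') : A = A' := by
  ext1 i k
  apply toC_injective
  rw [← h.2.2.2 i k, ← h'.2.2.2 i k]

/-- Every matrix of this kind comes from an element. PROOF. `mkSU ((p ^ j)⁻¹ • A.map toC)`. -/
theorem exists_of_mat {q : QD} {p n j : ℕ} (hp : 1 ≤ p) {A : M3 (qd q)} (h : GE p j A)
    (h1 : ¬DvM p A) (h2 : ∃ M, A = gm n (p ^ j) M) : ∃ g : SU21, MatOf q p n j g A := by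
  have hp0 : (p : ℂ) ^ j ≠ 0 := pow_ne_zero _ (by exact_mod_cast (by omega : p ≠ 0))
  obtain ⟨h3, h4⟩ := tg1_GE.1 h
  have h5 : (((p : ℂ) ^ j)⁻¹ • A.map (toC (qd q)))ᴴ * J * (((p : ℂ) ^ j)⁻¹ • A.map (toC (qd q))) = J := by
    rw [Matrix.conjTranspose_smul, Matrix.smul_mul, Matrix.smul_mul, Matrix.mul_smul, h3, smul_smul,
      smul_smul]
    have : star ((p : ℂ) ^ j)⁻¹ * ((p : ℂ) ^ j)⁻¹ * (p : ℂ) ^ (2 * j) = 1 := by
      rw [star_inv₀, star_pow, star_natCast, two_mul, pow_add]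
      field_simp
    rw [this, one_smul]
  have h6 : (((p : ℂ) ^ j)⁻¹ • A.map (toC (qd q))).det = 1 := by
    rw [Matrix.det_smul, Fintype.card_fin, h4, mul_comm 3 j, pow_mul]
    field_simp
  refine ⟨mkSU _ h5 h6, h, h1, h2, fun i k => ?_⟩
  rw [mat_mkSU, Matrix.smul_apply, smul_eq_mul, ← mul_assoc, mul_inv_cancel₀ hp0, one_mul,
    Matrix.map_apply]

/-- PROOF. Let `j` be minimal such that all `p ^ j (g - 1)` are in `OO q` (`Nat.find`). Then also
`p ^ j (g - 1) ∈ n OO q`: `p ^ l (g - 1) ∈ n OO q` for some `l ≥ j`, and `gcd (n, p) = 1`. If all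
`p ^ j g ∈ p OO q` then `j = 0` is impossible (determinant one) and for `j ≥ 1` `p ^ (j-1) g` is integral,
against the minimality. Uniqueness: if `j < j'` then `p ^ j' g = p (p ^ (j'-1) g)` with
`p ^ (j'-1) g` integral. -/
theorem exists_hgt {q : QD} {p n : ℕ} (hp : p.Prime) (hn : 1 ≤ n) (hnp : Nat.Coprime n p)
    {g : SU21} (hg : g ∈ HG q p n) : ∃! j, Hgt q p n j g := by
  have hδ : ∀ i k : Fin 3, (1 : Matrix (Fin 3) (Fin 3) ℂ) i k ∈ OO q := by
    intro i k
    rw [Matrix.one_apply]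
    split_ifs
    · exact (OO q).one_mem
    · exact (OO q).zero_mem
  have hp0 : (p : ℂ) ≠ 0 := by exact_mod_cast hp.ne_zero
  have hpm : ∀ m : ℕ, (p : ℂ) ^ m ∈ OO q := fun m => pow_mem (natCast_mem _ p) m
  classical
  obtain ⟨l, hl⟩ := hg
  have hl1 : ∀ i k, (p : ℂ) ^ l * mat g i k ∈ OO q := by
    intro i k
    obtain ⟨x, hx, hxe⟩ := hl i k
    have e : (p : ℂ) ^ l * mat g i k = n * x + (p : ℂ) ^ l * (1 : Matrix (Fin 3) (Fin 3) ℂ) i k := by
      rw [← hxe]
      ring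
    rw [e]
    exact (OO q).add_mem ((OO q).mul_mem (natCast_mem _ n) hx) ((OO q).mul_mem (hpm l) (hδ i k))
  have hex : ∃ j, ∀ i k, (p : ℂ) ^ j * mat g i k ∈ OO q := ⟨l, hl1⟩
  have hj0 := Nat.find_spec hex
  have hjl : Nat.find hex ≤ l := Nat.find_min' hex hl1
  set j0 := Nat.find hex with hj0def
  have hH : Hgt q p n j0 g := by
    refine ⟨fun i k => ?_, ?_⟩
    · obtain ⟨x, hx, hxe⟩ := hl i k
      obtain ⟨x', rfl⟩ := (mem_OO_iff q).1 hx
      have h1 : (p : ℂ) ^ j0 * (mat g i k - (1 : Matrix (Fin 3) (Fin 3) ℂ) i k) ∈ OO q := by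
        rw [mul_sub]
        exact (OO q).sub_mem (hj0 i k) ((OO q).mul_mem (hpm j0) (hδ i k))
      obtain ⟨y, hy⟩ := (mem_OO_iff q).1 h1
      have h2 : ((n : ℕ) : OK (qd q)) * x' = ((p ^ (l - j0) : ℕ) : OK (qd q)) * y := by
        apply toC_injective
        rw [map_mul, map_mul, map_natCast, map_natCast, ← hy, ← hxe]
        push_cast
        rw [← mul_assoc, ← pow_add]
        congr 2
        omega
      have h3 : IsCoprime ((n : ℕ) : OK (qd q)) ((p ^ (l - j0) : ℕ) : OK (qd q)) :=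
        Nat.Coprime.cast (hnp.pow_right _)
      have h4 : ((n : ℕ) : OK (qd q)) ∣ y := h3.dvd_of_dvd_mul_left ⟨x', h2.symm⟩
      obtain ⟨w, rfl⟩ := h4
      refine ⟨toC (qd q) w, (mem_OO_iff q).2 ⟨w, rfl⟩, ?_⟩
      rw [hy, map_mul, map_natCast]
    · by_contra hcon
      push Not at hcon
      rcases Nat.eq_zero_or_pos j0 with h0 | h0
      · refine tg1_det (q := q) hp (g := g) fun i k => ?_
        obtain ⟨x, hx, hxe⟩ := hcon i k
        rw [h0, pow_zero, one_mul] at hxe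
        exact ⟨x, hx, hxe⟩
      · have h1 : ∀ i k, (p : ℂ) ^ (j0 - 1) * mat g i k ∈ OO q := by
          intro i k
          obtain ⟨x, hx, hxe⟩ := hcon i k
          have e : (p : ℂ) ^ j0 = p * p ^ (j0 - 1) := by
            rw [← pow_succ']
            congr 1
            omega
          rw [e, mul_assoc] at hxe
          rw [mul_left_cancel₀ hp0 hxe]
          exact hx
        have h2 := Nat.find_min' hex h1
        omega
  have hU : ∀ j j', j < j' → Hgt q p n j g → ¬Hgt q p n j' g := by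
    rintro j j' hlt ⟨h1, -⟩ ⟨-, i, k, h2⟩
    obtain ⟨x, hx, hxe⟩ := h1 i k
    have h3 : (p : ℂ) ^ j * mat g i k ∈ OO q := by
      have e : (p : ℂ) ^ j * mat g i k = n * x + (p : ℂ) ^ j * (1 : Matrix (Fin 3) (Fin 3) ℂ) i k := by
        rw [← hxe]
        ring
      rw [e]
      exact (OO q).add_mem ((OO q).mul_mem (natCast_mem _ n) hx) ((OO q).mul_mem (hpm j) (hδ i k))
    refine h2 ((p : ℂ) ^ (j' - 1 - j) * ((p : ℂ) ^ j * mat g i k)) ((OO q).mul_mem (hpm _) h3) ?_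
    have e : (p : ℂ) ^ j' = p * (p ^ (j' - 1 - j) * p ^ j) := by
      rw [← pow_add, ← pow_succ']
      congr 1
      omega
    rw [e]
    ring
  refine ⟨j0, hH, fun j hj => ?_⟩
  rcases lt_trichotomy j j0 with h | h | h
  · exact absurd hH (hU j j0 h hj)
  · exact h
  · exact absurd hj (hU j0 j h hH)

theorem mem_HG_of_hgt {q : QD} {p n j : ℕ} {g : SU21} (h : Hgt q p n j g) :
    g ∈ HG q p n := by
  exact ⟨j, h.1⟩

/-- Height zero: the principal congruence subgroup. PROOF. An element of determinant one has an entry not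
divisible by `p`. -/
theorem hgt_zero {q : QD} {p n : ℕ} (hp : p.Prime) {g : SU21} :
    Hgt q p n 0 g ↔ ∃ h : g ∈ Gam q, (⟨g, h⟩ : Gam q) ∈ GamN q (n : ℂ) := by
  constructor
  · rintro ⟨h1, -⟩
    have h2 : ∀ i k, ∃ x ∈ OO q, mat g i k - (1 : Matrix (Fin 3) (Fin 3) ℂ) i k = n * x := by
      intro i k
      obtain ⟨x, hx, hxe⟩ := h1 i k
      rw [pow_zero, one_mul] at hxe
      exact ⟨x, hx, hxe⟩
    refine ⟨?_, h2⟩
    intro i k
    obtain ⟨x, hx, hxe⟩ := h2 i k
    have e : mat g i k = n * x + (1 : Matrix (Fin 3) (Fin 3) ℂ) i k := by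
      rw [← hxe]
      ring
    rw [e]
    refine (OO q).add_mem ((OO q).mul_mem (natCast_mem _ n) hx) ?_
    rw [Matrix.one_apply]
    split_ifs
    · exact (OO q).one_mem
    · exact (OO q).zero_mem
  · rintro ⟨h, h1⟩
    refine ⟨fun i k => ?_, ?_⟩
    · obtain ⟨x, hx, hxe⟩ := h1 i k
      refine ⟨x, hx, ?_⟩
      rw [pow_zero, one_mul]
      exact hxe
    · by_contra hcon
      push Not at hcon
      refine tg1_det (q := q) hp (g := g) fun i k => ?_
      obtain ⟨x, hx, hxe⟩ := hcon i k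
      rw [pow_zero, one_mul] at hxe
      exact ⟨x, hx, hxe⟩

end Pool.Agent.Lib.H80D
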