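import Pool.Agent.Lib.H80D.TG1

/-!
# TG2: inverses and products
-/

namespace Pool.Agent.Lib.H80D

open Matrix hiding J
open Pool.Agent.Lib.H80C
open Pool.Agent.Lib.H56.Picard hiding O Gam mem_Gam star_mem_O T_mem sg_mem
open Pool.Agent.Lib.H56.Gen hiding dd dd_pos

lemma TG2_inv (a : SU21) (i k : Fin 3) :
    mat a⁻¹ i k = star (mat a (Fin.rev k) (Fin.rev i)) := by
  rw [mat_inv]
  fin_cases i <;> fin_cases k <;>
    simp [Matrix.mul_apply, Fin.sum_univ_three, J, Matrix.vecMul, dotProduct,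
      Matrix.conjTranspose_apply, Fin.rev]

lemma TG2_one_rev (i k : Fin 3) : (1 : Matrix (Fin 3) (Fin 3) ℂ) i k =
    star ((1 : Matrix (Fin 3) (Fin 3) ℂ) (Fin.rev k) (Fin.rev i)) := by
  fin_cases i <;> fin_cases k <;> simp [Fin.rev]

/-- PROOF. `mat g⁻¹ = J (mat g)ᴴ J`: entries are conjugates of entries of `mat g` (see `inv_mem'` of `HG`). -/
theorem hgt_inv {q : QD} {p n j : ℕ} {g : SU21} (h : Hgt q p n j g) : Hgt q p n j g⁻¹ := by
  obtain ⟨h1, i, k, h2⟩ := h
  constructor
  · intro i k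
    obtain ⟨x, hx, hxa⟩ := h1 (Fin.rev k) (Fin.rev i)
    refine ⟨star x, star_mem x hx, ?_⟩
    rw [TG2_inv, TG2_one_rev, ← star_sub]
    have e3 := congrArg star hxa
    rw [star_mul', star_mul', star_pow, star_natCast, star_natCast] at e3
    exact e3
  · refine ⟨Fin.rev k, Fin.rev i, ?_⟩
    intro x hx hxa
    rw [TG2_inv, Fin.rev_rev, Fin.rev_rev] at hxa
    apply h2 (star x) (star_mem x hx)
    have e3 := congrArg star hxa
    rw [star_mul', star_mul', star_pow, star_natCast, star_star] at e3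
    exact e3

lemma TG2_mem {q : QD} {p n : ℕ} {γ : SU21} (hγ : Hgt q p n 0 γ) (i k : Fin 3) :
    mat γ i k ∈ OO q := by
  obtain ⟨x, hx, hxa⟩ := hγ.1 i k
  rw [pow_zero, one_mul] at hxa
  have h1 : mat γ i k = (1 : Matrix (Fin 3) (Fin 3) ℂ) i k + n * x := by
    rw [← hxa]; ring
  rw [h1]
  apply (OO q).add_mem
  · rw [Matrix.one_apply]
    split_ifs
    · exact (OO q).one_mem
    · exact (OO q).zero_mem
  · exact (OO q).mul_mem (natCast_mem _ n) hx

/-- PROOF. `p ^ j (γ g - 1) = γ (p ^ j (g - 1)) + p ^ j (γ - 1)`; and `g = γ⁻¹ (γ g)`. -/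
theorem hgt_left {q : QD} {p n j : ℕ} {γ g : SU21} (hγ : Hgt q p n 0 γ) (h : Hgt q p n j g) :
    Hgt q p n j (γ * g) := by
  constructor
  · intro i k
    obtain ⟨y, hy, hya⟩ := hγ.1 i k
    choose x hx hxa using h.1
    refine ⟨(∑ m, mat γ i m * x m k) + (p : ℂ) ^ j * y, ?_, ?_⟩
    · apply (OO q).add_mem
      · exact (OO q).sum_mem fun m _ => (OO q).mul_mem (TG2_mem hγ i m) (hx m k)
      · exact (OO q).mul_mem (pow_mem (natCast_mem _ p) _) hy
    · have e1 : mat (γ * g) i k - (1 : Matrix (Fin 3) (Fin 3) ℂ) i k =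
          (∑ m, mat γ i m * (mat g m k - (1 : Matrix (Fin 3) (Fin 3) ℂ) m k)) +
          (mat γ i k - (1 : Matrix (Fin 3) (Fin 3) ℂ) i k) := by
        have e2 : (mat (γ * g) : Matrix (Fin 3) (Fin 3) ℂ) - 1 =
            mat γ * (mat g - 1) + (mat γ - 1) := by
          rw [mat_mul]
          noncomm_ring
        have e3 := congrFun (congrFun e2 i) k
        simpa [Matrix.mul_apply, Matrix.add_apply, Matrix.sub_apply] using e3
      rw [pow_zero, one_mul] at hya
      rw [e1, mul_add, Finset.mul_sum, hya]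
      have e4 : ∀ m, (p : ℂ) ^ j * (mat γ i m *
          (mat g m k - (1 : Matrix (Fin 3) (Fin 3) ℂ) m k)) = n * (mat γ i m * x m k) := by
        intro m
        calc _ = mat γ i m * ((p : ℂ) ^ j * (mat g m k - (1 : Matrix (Fin 3) (Fin 3) ℂ) m k)) := by
              ring
          _ = _ := by rw [hxa]; ring
      simp only [e4]
      rw [← Finset.mul_sum]
      ring
  · by_contra hcon
    push Not at hcon
    obtain ⟨i, k, h2⟩ := h.2
    choose x hx hxa using hcon
    apply h2 (∑ m, mat γ⁻¹ i m * x m k)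
    · exact (OO q).sum_mem fun m _ => (OO q).mul_mem (TG2_mem (hgt_inv hγ) i m) (hx m k)
    · have e1 : mat g i k = ∑ m, mat γ⁻¹ i m * mat (γ * g) m k := by
        have e2 : g = γ⁻¹ * (γ * g) := by group
        conv_lhs => rw [e2]
        rw [mat_mul γ⁻¹ (γ * g), Matrix.mul_apply]
      rw [e1, Finset.mul_sum, Finset.mul_sum]
      apply Finset.sum_congr rfl
      intro m _
      calc (p : ℂ) ^ j * (mat γ⁻¹ i m * mat (γ * g) m k)
          = mat γ⁻¹ i m * ((p : ℂ) ^ j * mat (γ * g) m k) := by ring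
        _ = _ := by rw [hxa]; ring

/-- height from an integral matrix -/
lemma TG2_of {q : QD} {p n l : ℕ} {h : SU21} {B : M3 (qd q)}
    (hB : ∀ i k, (p : ℂ) ^ l * mat h i k = toC (qd q) (B i k))
    (hM : ∃ M, B = gm n (p ^ l) M) (hnd : ¬DvM p B) : Hgt q p n l h := by
  obtain ⟨M, hM⟩ := hM
  constructor
  · intro i k
    refine ⟨toC (qd q) (M i k), (mem_OO_iff q).2 ⟨_, rfl⟩, ?_⟩
    rw [mul_sub, hB]
    have h1 : B i k = ((p ^ l : ℕ) : OK (qd q)) * (1 : M3 (qd q)) i k + (n : OK (qd q)) * M i k := by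
      rw [hM]
      rfl
    have h2 : (1 : Matrix (Fin 3) (Fin 3) ℂ) i k = toC (qd q) ((1 : M3 (qd q)) i k) := by
      rw [Matrix.one_apply, Matrix.one_apply]
      split_ifs
      · exact (map_one _).symm
      · exact (map_zero _).symm
    rw [h1, h2, map_add, map_mul, map_mul, map_natCast, map_natCast]
    push_cast
    ring
  · unfold DvM at hnd
    push Not at hnd
    obtain ⟨i, k, h1⟩ := hnd
    refine ⟨i, k, ?_⟩
    intro x hx hxa
    obtain ⟨z, rfl⟩ := (mem_OO_iff q).1 hx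
    rw [hB] at hxa
    apply h1
    refine ⟨z, toC_injective ?_⟩
    rw [map_mul, map_natCast]
    exact hxa

/-- division -/
lemma TG2_div {q : QF} {m n P : ℕ} (hm : Nat.Coprime n m) (hm0 : m ≠ 0) {C : M3 q} (hC : DvM m C)
    (hCP : ∃ N, C = gm n (m * P) N) : ∃ B : M3 q, C = (m : OK q) • B ∧ ∃ N', B = gm n P N' := by
  choose B hB using hC
  obtain ⟨N, hN⟩ := hCP
  have hm1 : (m : OK q) ≠ 0 := by exact_mod_cast hm0
  have h1 : ∀ i k, (m : OK q) * B i k = (m : OK q) * P * (1 : M3 q) i k + (n : OK q) * N i k := by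
    intro i k
    rw [← hB, hN]
    change ((m * P : ℕ) : OK q) * (1 : M3 q) i k + (n : OK q) * N i k = _
    push_cast
    ring
  obtain ⟨a, b, hab⟩ : ∃ a b : ℤ, a * n + b * m = 1 := by
    have h2 := Int.isCoprime_iff_gcd_eq_one.2 (show Int.gcd (n : ℤ) (m : ℤ) = 1 from hm)
    exact h2
  have hab' : (a : OK q) * n + b * m = 1 := by exact_mod_cast hab
  refine ⟨Matrix.of B, ?_, Matrix.of fun i k => (a : OK q) * (B i k - P * (1 : M3 q) i k) +
    b * N i k, ?_⟩
  · ext1 i k
    rw [hB]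
    rfl
  · ext1 i k
    apply mul_left_cancel₀ hm1
    change (m : OK q) * B i k = (m : OK q) * ((P : OK q) * (1 : M3 q) i k +
      (n : OK q) * ((a : OK q) * (B i k - P * (1 : M3 q) i k) + b * N i k))
    have h3 := h1 i k
    linear_combination (1 - (a : OK q) * n) * h3 - (n : OK q) * N i k * hab'

/-- Products with an element of height one, in terms of integral matrices.

PROOF. `S * A` is the matrix of `p ^ (j + 1) (s g)`, it is congruent to `p ^ (j + 1)` modulo `n`. If it is not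
divisible by `p`: height `j + 1`. If `S * A = p B`, `B` not divisible by `p`: `B` is the matrix of
`p ^ j (s g)`, and it is congruent to `p ^ j` modulo `n` since `gcd (n, p) = 1`. If `S * A = p² B`: `B` is the
matrix of `p ^ (j - 1) (s g)` (`j ≥ 1`), and it is not divisible by `p`: with `S† = J Sᴴ J`, `S† S = p²`, so
`S† B = A`, which is not divisible by `p`. -/
theorem hgt_mul {q : QD} {p n j : ℕ} (hp : p.Prime) (hnp : Nat.Coprime n p) {s g : SU21}
    {S A : M3 (qd q)} (hs : MatOf q p n 1 s S) (hg : MatOf q p n j g A) :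
    (¬DvM p (S * A) → Hgt q p n (j + 1) (s * g)) ∧
    (DvM p (S * A) → ¬DvM (p ^ 2) (S * A) → Hgt q p n j (s * g)) ∧
    (1 ≤ j → DvM (p ^ 2) (S * A) → Hgt q p n (j - 1) (s * g)) := by
  obtain ⟨hs1, hs2, ⟨M1, hs3⟩, hs4⟩ := hs
  obtain ⟨hg1, hg2, ⟨M2, hg3⟩, hg4⟩ := hg
  have hp0 : (p : ℂ) ≠ 0 := by exact_mod_cast hp.ne_zero
  have hent : ∀ i k, (p : ℂ) ^ (j + 1) * mat (s * g) i k = toC (qd q) ((S * A) i k) := by
    intro i k
    rw [mat_mul, Matrix.mul_apply, Matrix.mul_apply, map_sum, Finset.mul_sum]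
    apply Finset.sum_congr rfl
    intro m _
    rw [map_mul, ← hs4, ← hg4]
    ring
  have hgm : ∃ N, S * A = gm n (p ^ (j + 1)) N := by
    refine ⟨(p : OK (qd q)) • M2 + ((p ^ j : ℕ) : OK (qd q)) • M1 + (n : OK (qd q)) • (M1 * M2), ?_⟩
    rw [hs3, hg3]
    unfold gm
    rw [add_mul, mul_add, mul_add]
    simp only [Matrix.smul_mul, Matrix.mul_smul, Matrix.one_mul, Matrix.mul_one, smul_add, smul_smul]
    push_cast
    rw [pow_one, ← pow_succ, mul_comm ((p : OK (qd q)) ^ j) (n : OK (qd q))]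
    abel
  refine ⟨fun h1 => TG2_of hent hgm h1, fun h1 h2 => ?_, fun hj h1 => ?_⟩
  · obtain ⟨B, hB, hN⟩ := TG2_div (P := p ^ j) hnp hp.ne_zero h1 (by rw [← pow_succ']; exact hgm)
    refine TG2_of (B := B) ?_ hN ?_
    · intro i k
      have h3 := hent i k
      rw [hB, Matrix.smul_apply, smul_eq_mul, map_mul, map_natCast, pow_succ', mul_assoc] at h3
      exact mul_left_cancel₀ hp0 h3
    · intro h3
      apply h2
      intro i k
      obtain ⟨z, hz⟩ := h3 i k
      refine ⟨z, ?_⟩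
      rw [hB, Matrix.smul_apply, smul_eq_mul, hz]
      push_cast
      ring
  · have hpw : p ^ (j + 1) = p ^ 2 * p ^ (j - 1) := by
      rw [← pow_add]
      congr 1
      omega
    obtain ⟨B, hB, hN⟩ := TG2_div (P := p ^ (j - 1)) (Nat.Coprime.pow_right 2 hnp)
      (pow_ne_zero 2 hp.ne_zero) h1 (by rw [← hpw]; exact hgm)
    refine TG2_of (B := B) ?_ hN ?_
    · intro i k
      have h3 := hent i k
      have hpw' : (p : ℂ) ^ (j + 1) = (p : ℂ) ^ 2 * (p : ℂ) ^ (j - 1) := by exact_mod_cast hpw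
      rw [hB, Matrix.smul_apply, smul_eq_mul, map_mul, map_natCast, hpw', mul_assoc] at h3
      push_cast at h3
      exact mul_left_cancel₀ (pow_ne_zero 2 hp0) h3
    · intro h3
      apply hg2
      have hJJ : JZ (qd q) * JZ (qd q) = 1 := by
        ext1 i k
        fin_cases i <;> fin_cases k <;>
          simp [JZ, Matrix.mul_apply, Fin.sum_univ_three]
      have h4 : JZ (qd q) * Sᴴ * JZ (qd q) * S = ((p : OK (qd q)) ^ 2) • (1 : M3 (qd q)) := by
        have h5 := hs1.1
        rw [mul_one] at h5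
        calc JZ (qd q) * Sᴴ * JZ (qd q) * S = JZ (qd q) * (Sᴴ * JZ (qd q) * S) := by
              simp only [Matrix.mul_assoc]
          _ = _ := by rw [h5, Matrix.mul_smul, hJJ]
      have hp2 : (p : OK (qd q)) ^ 2 ≠ 0 := by
        have : p ^ 2 ≠ 0 := pow_ne_zero 2 hp.ne_zero
        exact_mod_cast this
      have h6 : JZ (qd q) * Sᴴ * JZ (qd q) * B = A := by
        have h7 : ((p : OK (qd q)) ^ 2) • (JZ (qd q) * Sᴴ * JZ (qd q) * B) =
            ((p : OK (qd q)) ^ 2) • A := by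
          have h8 : ((p : OK (qd q)) ^ 2) • B = S * A := by
            rw [hB]
            push_cast
            rfl
          rw [← Matrix.mul_smul, h8, ← Matrix.mul_assoc, h4, Matrix.smul_mul, Matrix.one_mul]
        ext1 i k
        have h9 := congrFun (congrFun h7 i) k
        rw [Matrix.smul_apply, Matrix.smul_apply, smul_eq_mul, smul_eq_mul] at h9
        exact mul_left_cancel₀ hp2 h9
      intro i k
      rw [← h6, Matrix.mul_apply]
      exact Finset.dvd_sum fun m _ => (h3 m k).mul_left _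

end Pool.Agent.Lib.H80D
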